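import Pool.Agent.Work.SUnit.NumberFieldData

/-!
# Values of polynomials at units: definitions

Blueprint: `/team-store/blueprint_SUB.md` (blocks G and N).
-/

set_option autoImplicit false

noncomputable section

namespace Pool.Agent.Work.UP

open NumberField IsDedekindDomain MvPolynomial

/-- The value of the Laurent monomial with exponent vector `k`. -/
def mon {K : Type} [Field K] {d : ℕ} (u : Fin d → K) (k : Fin d → ℤ) : K :=
  ∏ i, u i ^ k i

/-- `u` is a tuple of `T`-units. -/
def IsUv {K : Type} [Field K] [NumberField K] (T : Finset (HeightOneSpectrum (𝓞 K))) {d : ℕ}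
    (u : Fin d → K) : Prop :=
  ∀ i, u i ≠ 0 ∧ ∀ p : HeightOneSpectrum (𝓞 K), p ∉ T → FinitePlace.mk p (u i) = 1

/-- `u` satisfies none of the nontrivial relations `u ^ k = c`, `(k, c) ∈ E`. -/
def Avoid {K : Type} [Field K] {d : ℕ} (E : Set ((Fin d → ℤ) × K)) (u : Fin d → K) : Prop :=
  ∀ e ∈ E, e.1 ≠ 0 → mon u e.1 ≠ e.2

/-- The height of a tuple of units. -/
def HU {K : Type} [Field K] [NumberField K] {d : ℕ} (u : Fin d → K) : ℝ :=
  ∏ i, Height.mulHeight₁ (u i)

/-- The product over the finite places outside `T`. -/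
def outP {K : Type} [Field K] [NumberField K] (T : Finset (HeightOneSpectrum (𝓞 K)))
    (f : HeightOneSpectrum (𝓞 K) → ℝ) : ℝ :=
  ∏ᶠ p : {p : HeightOneSpectrum (𝓞 K) // p ∉ T}, f p.1

/-- The differences of the exponents of the members of `P` span the space of all exponents. -/
def Spans {K : Type} [Field K] {d : ℕ} (P : Set (MvPolynomial (Fin d) K)) : Prop :=
  Submodule.span ℚ {x : Fin d → ℚ | ∃ p ∈ P, ∃ s ∈ p.support, ∃ s' ∈ p.support,
    x = fun i => (s i : ℚ) - (s' i : ℚ)} = ⊤

/-- The functions `u i` are entire without zeros. -/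
def IsUC {d : ℕ} (u : Fin d → ℂ → ℂ) : Prop :=
  ∀ i, Differentiable ℂ (u i) ∧ ∀ z, u i z ≠ 0

/-- The functions `u i` are multiplicatively independent modulo constants. -/
def IndC {d : ℕ} (u : Fin d → ℂ → ℂ) : Prop :=
  ∀ k : Fin d → ℤ, k ≠ 0 → ∀ c : ℂ, ∃ z, mon (fun i => u i z) k ≠ c

end Pool.Agent.Work.UP
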