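import Pool.Agent.Work.UP.GDefs

/-!
# UBas (block G, size M): units and the product formula

PROOFS. `inP_mul_outP`: the product formula `NumberField.prod_abs_eq_one`, `Fintype.prod_sum_type`,
`FinitePlace.equivHeightOneSpectrum` and splitting of the finprod over all primes into the primes in
`T` and outside (see `SUnit/NumberFieldData.lean`, proof of `prod_ge`; `finprod_mem_...` or
`finprod_eq_prod_of_mulSupport_subset`). `isU_inP`: `outP` of a unit is `1` (`finprod_one`).
`mons_eq`: `u i ^ ((s i : ℕ) : ℤ) = u i ^ s i`. `eval_eq_mons`: `MvPolynomial.eval_eq'`.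
`sum_abs_log`: with `L w = log |a|_w` and `max (log a) 0 + max (-log a) 0 = |log a|`:
`logHeight₁ a = ∑ m w max (L w) 0` and `logHeight₁ a⁻¹ = ∑ m w max (-L w) 0` (the places outside `T`
do not contribute: `max 1 1 = 1`; `NumberField.mulHeight₁_eq`), and `Height.logHeight₁_inv`.
-/

set_option autoImplicit false

noncomputable section

namespace Pool.Agent.Work.UP

open NumberField IsDedekindDomain MvPolynomial

variable {K : Type} [Field K] [NumberField K] {T : Finset (HeightOneSpectrum (𝓞 K))}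

theorem IsUv.isU {d : ℕ} {u : Fin d → K} (hu : IsUv T u) (i : Fin d) : IsU T (u i) := hu i

theorem isU_one : IsU T (1 : K) :=
  ⟨one_ne_zero, fun _ _ => map_one _⟩

theorem IsU.mul {a b : K} (ha : IsU T a) (hb : IsU T b) : IsU T (a * b) :=
  ⟨mul_ne_zero ha.1 hb.1, fun p hp => by rw [map_mul, ha.2 p hp, hb.2 p hp, one_mul]⟩

theorem IsU.inv {a : K} (ha : IsU T a) : IsU T a⁻¹ :=
  ⟨inv_ne_zero ha.1, fun p hp => by rw [map_inv₀, ha.2 p hp, inv_one]⟩

private theorem IsU.zpow {a : K} (ha : IsU T a) (n : ℤ) : IsU T (a ^ n) :=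
  ⟨zpow_ne_zero n ha.1, fun p hp => by rw [map_zpow₀, ha.2 p hp, one_zpow]⟩

private theorem isU_prod {ι : Type} (s : Finset ι) {f : ι → K} (h : ∀ i ∈ s, IsU T (f i)) :
    IsU T (∏ i ∈ s, f i) :=
  Finset.prod_induction f (IsU T) (fun _ _ => IsU.mul) isU_one h

theorem isU_mon {d : ℕ} {u : Fin d → K} (hu : IsUv T u) (k : Fin d → ℤ) : IsU T (mon u k) :=
  isU_prod _ fun i _ => (hu.isU i).zpow (k i)

theorem isU_mons {d : ℕ} {u : Fin d → K} (hu : IsUv T u) (s : Fin d →₀ ℕ) : IsU T (mons u s) :=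
  isU_mon hu _

omit [NumberField K] in
private theorem mons_eq' {d : ℕ} (u : Fin d → K) (s : Fin d →₀ ℕ) : mons u s = ∏ i, u i ^ s i := by
  unfold mons mon
  exact Finset.prod_congr rfl fun i _ => zpow_natCast _ _

theorem mons_eq {d : ℕ} (u : Fin d → K) (s : Fin d →₀ ℕ) : mons u s = ∏ i, u i ^ s i :=
  mons_eq' u s

theorem eval_eq_mons {d : ℕ} (u : Fin d → K) (A : MvPolynomial (Fin d) K) :
    eval u A = ∑ s ∈ A.support, A.coeff s * mons u s := by
  rw [MvPolynomial.eval_eq']
  exact Finset.sum_congr rfl fun s _ => by rw [mons_eq]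

theorem mons_div {d : ℕ} {u : Fin d → K} (hu : ∀ i, u i ≠ 0) (s s' : Fin d →₀ ℕ) :
    mons u s / mons u s' = mon u (fun i => (s i : ℤ) - (s' i : ℤ)) := by
  unfold mons mon
  rw [← Finset.prod_div_distrib]
  exact Finset.prod_congr rfl fun i _ => (zpow_sub₀ (hu i) _ _).symm

theorem inP_mul_outP (T : Finset (HeightOneSpectrum (𝓞 K))) {a : K} (ha : a ≠ 0) :
    inP T a * outP T (fun p => FinitePlace.mk p a) = 1 := by
  have h1 := prod_abs_eq_one (K := K) ha
  have hfs : (fun p : HeightOneSpectrum (𝓞 K) => FinitePlace.mk p a).mulSupport.Finite := by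
    have h2 := FinitePlace.hasFiniteMulSupport (K := K) ha
    have h3 : (fun p : HeightOneSpectrum (𝓞 K) => FinitePlace.mk p a).mulSupport =
        (FinitePlace.equivHeightOneSpectrum (K := K)).symm ⁻¹'
          (fun w : FinitePlace K => w a).mulSupport := by
      ext p
      rfl
    rw [h3]
    exact Set.Finite.preimage ((FinitePlace.equivHeightOneSpectrum (K := K)).symm.injective.injOn)
      h2
  have h4 : ∏ᶠ w : FinitePlace K, w a = ∏ᶠ p : HeightOneSpectrum (𝓞 K), FinitePlace.mk p a := by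
    rw [← finprod_comp_equiv (FinitePlace.equivHeightOneSpectrum (K := K)).symm]
    rfl
  have h5 : ∏ᶠ p : HeightOneSpectrum (𝓞 K), FinitePlace.mk p a =
      (∏ p : {p : HeightOneSpectrum (𝓞 K) // p ∈ T}, FinitePlace.mk p.1 a) *
        outP T (fun p => FinitePlace.mk p a) := by
    have h1 : outP T (fun p => FinitePlace.mk p a) =
        ∏ᶠ p ∈ ((T : Set (HeightOneSpectrum (𝓞 K)))ᶜ), FinitePlace.mk p a := by
      unfold outP
      exact finprod_subtype_eq_finprod_cond (f := fun p => FinitePlace.mk p a) (fun p => p ∉ T)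
    have h2 : (∏ p : {p : HeightOneSpectrum (𝓞 K) // p ∈ T}, FinitePlace.mk p.1 a) =
        ∏ᶠ p ∈ (T : Set (HeightOneSpectrum (𝓞 K))), FinitePlace.mk p a := by
      rw [finprod_mem_coe_finset, ← Finset.prod_coe_sort T]
    rw [h1, h2, ← finprod_mem_univ, Set.compl_eq_univ_sdiff]
    exact (finprod_mem_mul_sdiff' (Set.subset_univ _) (hfs.subset fun p hp => hp.2)).symm
  rw [h4, h5, ← mul_assoc] at h1
  rw [← h1]
  congr 1
  unfold inP
  rw [Fintype.prod_sum_type]
  congr 1
  refine Finset.prod_congr rfl fun p _ => ?_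
  show (FinitePlace.mk p.1).1 a ^ 1 = _
  rw [pow_one]
  rfl

theorem isU_inP {a : K} (ha : IsU T a) : inP T a = 1 := by
  have h := inP_mul_outP T ha.1
  have : outP T (fun p => FinitePlace.mk p a) = 1 := by
    unfold outP
    exact finprod_eq_one_of_forall_eq_one fun p => ha.2 p.1 p.2
  rwa [this, mul_one] at h

/-- the height of a unit -/
private theorem mulHeight_unit {a : K} (ha : IsU T a) :
    Height.mulHeight₁ a = ∏ w, max (SUnit.placeAbs K T w a) 1 ^ SUnit.placeMult K T w := by
  rw [NumberField.mulHeight₁_eq, Fintype.prod_sum_type]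
  have h4 : ∏ᶠ w : FinitePlace K, max (w a) 1 =
      ∏ᶠ p : HeightOneSpectrum (𝓞 K), max (FinitePlace.mk p a) 1 := by
    rw [← finprod_comp_equiv (FinitePlace.equivHeightOneSpectrum (K := K)).symm]
    rfl
  have h5 : ∏ᶠ p : HeightOneSpectrum (𝓞 K), max (FinitePlace.mk p a) 1 =
      ∏ p : {p : HeightOneSpectrum (𝓞 K) // p ∈ T}, max (FinitePlace.mk p.1 a) 1 := by
    rw [finprod_eq_prod_of_mulSupport_subset (s := T) _ (by
      intro p hp
      by_contra hpS
      exact hp (by show max (FinitePlace.mk p a) 1 = 1; rw [ha.2 p (by simpa using hpS), max_self]))]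
    rw [← Finset.prod_coe_sort T]
  rw [h4, h5]
  congr 1
  refine Finset.prod_congr rfl fun p _ => ?_
  show _ = max ((FinitePlace.mk p.1).1 a) 1 ^ 1
  rw [pow_one]
  rfl

private theorem logHeight_unit {a : K} (ha : IsU T a) :
    Height.logHeight₁ a =
      ∑ w, (SUnit.placeMult K T w : ℝ) * max (Real.log (SUnit.placeAbs K T w a)) 0 := by
  rw [Height.logHeight₁_eq_log_mulHeight₁, mulHeight_unit ha, Real.log_prod]
  · refine Finset.sum_congr rfl fun w _ => ?_
    rw [Real.log_pow]
    congr 1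
    have hpos : 0 < SUnit.placeAbs K T w a := (SUnit.placeAbs K T w).pos ha.1
    rcases le_total (SUnit.placeAbs K T w a) 1 with h | h
    · rw [max_eq_right h, Real.log_one, max_eq_right (Real.log_nonpos hpos.le h)]
    · rw [max_eq_left h, max_eq_left (Real.log_nonneg h)]
  · intro w _
    have : (0 : ℝ) < max (SUnit.placeAbs K T w a) 1 := lt_max_of_lt_right one_pos
    exact pow_ne_zero _ this.ne'

theorem sum_abs_log {a : K} (ha : IsU T a) :
    ∑ w, (SUnit.placeMult K T w : ℝ) * |Real.log (SUnit.placeAbs K T w a)| =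
      2 * Height.logHeight₁ a := by
  have h1 := logHeight_unit ha
  have h2 := logHeight_unit ha.inv
  rw [Height.logHeight₁_inv] at h2
  have h3 : ∀ w, Real.log (SUnit.placeAbs K T w a⁻¹) = - Real.log (SUnit.placeAbs K T w a) := by
    intro w
    rw [map_inv₀, Real.log_inv]
  simp only [h3] at h2
  rw [two_mul]
  nth_rewrite 1 [h1]
  rw [h2, ← Finset.sum_add_distrib]
  refine Finset.sum_congr rfl fun w _ => ?_
  rw [← mul_add]
  congr 1
  rcases le_total (Real.log (SUnit.placeAbs K T w a)) 0 with h | h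
  · rw [max_eq_right h, max_eq_left (by linarith), abs_of_nonpos h, zero_add]
  · rw [max_eq_left h, max_eq_right (by linarith), abs_of_nonneg h, add_zero]

theorem one_le_HU {d : ℕ} (u : Fin d → K) : 1 ≤ HU u := by
  unfold HU
  exact Finset.prod_induction _ (fun x : ℝ => 1 ≤ x) (fun _ _ => one_le_mul_of_one_le_of_one_le)
    le_rfl fun i _ => Height.one_le_mulHeight₁ (u i)

theorem log_HU {d : ℕ} (u : Fin d → K) : Real.log (HU u) = ∑ i, Height.logHeight₁ (u i) := by
  unfold HU
  rw [Real.log_prod fun i _ => Height.mulHeight₁_ne_zero _]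
  rfl

end Pool.Agent.Work.UP
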