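import Pool.Agent.Work.UP.LDefs

/-!
# LUfd (M): Laurent polynomials form a unique factorization domain

`toL` is the inclusion of the polynomials. `ev_toL`: both sides are ring homomorphisms which agree
on constants and variables (`MvPolynomial.ringHom_ext`). `exists_toL`: multiply `f` by a monomial
with large exponents to make all exponents nonnegative (`f.coeff.support` is finite).
`lp_ufd`: `Lp k d` is the localization of `MvPolynomial (Fin d) k` (via `toL.toAlgebra`) at the
submonoid of the monomials `monomial s 1` (surjectivity: `exists_toL`; injectivity: `toL_injective`;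
the images of the monomials are units), so
`UniqueFactorizationMonoid.of_isLocalization` (Mathlib.GroupTheory.MonoidLocalization.
UniqueFactorization) applies.
`isUnit_lp`: `single s a` with `a ≠ 0` has inverse `single (-s) a⁻¹`; conversely if `f * g = 1`,
order `Fin d → ℤ` lexicographically (or use `exists_toL` and that a product of polynomials which is
a monomial has monomial factors, or Mathlib on units of `AddMonoidAlgebra` over groups with unique
sums, `UniqueSums`/`TwoUniqueSums`).
`exists_reduced`: take out the highest powers of the variables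
(`WfDvdMonoid`/degrees of a nonzero polynomial are finite).
`isRelPrime_of_toL`: a common divisor `c` of `p` and `q` gives a common divisor `toL c` of `toL p` and
`toL q`, so `toL c` is a unit, so `c` is a monomial times a nonzero constant; since no variable divides
`q`, it is a constant.
-/

set_option autoImplicit false

noncomputable section

namespace Pool.Agent.Work.UP

open MvPolynomial

/-- The exponent vectors of polynomials as exponent vectors of Laurent polynomials. -/
def nz {d : ℕ} : (Fin d →₀ ℕ) →+ (Fin d → ℤ) where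
  toFun s := fun i => (s i : ℤ)
  map_zero' := by funext i; simp
  map_add' s t := by funext i; simp

/-- Polynomials as Laurent polynomials. -/
def toL {k : Type} [Field k] {d : ℕ} : MvPolynomial (Fin d) k →+* Lp k d :=
  eval₂Hom lC (fun i => AddMonoidAlgebra.single (Pi.single i 1) 1)

private theorem nz_apply {d : ℕ} (s : Fin d →₀ ℕ) (i : Fin d) : nz s i = (s i : ℤ) := rfl

private theorem nz_injective {d : ℕ} : Function.Injective (nz : (Fin d →₀ ℕ) → (Fin d → ℤ)) := by
  intro s t h
  ext i
  have := congrFun h i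
  rw [nz_apply, nz_apply] at this
  exact_mod_cast this

private theorem nz_eq_sum {d : ℕ} (s : Fin d →₀ ℕ) :
    nz s = ∑ i, s i • (Pi.single i (1 : ℤ) : Fin d → ℤ) := by
  funext j
  rw [nz_apply]
  simp [Finset.sum_apply, Pi.single_apply]

theorem toL_monomial {k : Type} [Field k] {d : ℕ} (s : Fin d →₀ ℕ) (a : k) :
    toL (monomial s a : MvPolynomial (Fin d) k) = AddMonoidAlgebra.single (nz s) a := by
  unfold toL
  rw [eval₂Hom_monomial, Finsupp.prod_fintype _ _ (by intro i; simp)]
  simp only [AddMonoidAlgebra.single_pow, one_pow]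
  rw [AddMonoidAlgebra.prod_single]
  show AddMonoidAlgebra.single 0 a * _ = _
  rw [AddMonoidAlgebra.single_mul_single]
  rw [nz_eq_sum]
  simp

theorem coeff_toL {k : Type} [Field k] {d : ℕ} (p : MvPolynomial (Fin d) k) (s : Fin d →₀ ℕ) :
    (toL p).coeff (nz s) = p.coeff s := by
  classical
  induction p using MvPolynomial.induction_on' with
  | monomial t a =>
    rw [toL_monomial, MvPolynomial.coeff_monomial, AddMonoidAlgebra.coeff_single,
      Finsupp.single_apply]
    by_cases h : t = s
    · simp [h]
    · rw [if_neg h, if_neg (fun h' => h (nz_injective h'))]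
  | add p q hp hq =>
    rw [map_add, AddMonoidAlgebra.coeff_add, Finsupp.add_apply, hp, hq, MvPolynomial.coeff_add]

theorem support_toL {k : Type} [Field k] {d : ℕ} (p : MvPolynomial (Fin d) k) (s : Fin d → ℤ) :
    s ∈ (toL p).coeff.support ↔ ∃ t ∈ p.support, s = nz t := by
  classical
  constructor
  · intro h
    rw [Finsupp.mem_support_iff] at h
    by_contra hne
    push Not at hne
    apply h
    rw [p.as_sum, map_sum, AddMonoidAlgebra.coeff_sum, Finsupp.finsetSum_apply]
    refine Finset.sum_eq_zero fun t ht => ?_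
    rw [toL_monomial, AddMonoidAlgebra.coeff_single, Finsupp.single_apply,
      if_neg (fun h' => hne t ht h'.symm)]
  · rintro ⟨t, ht, rfl⟩
    rw [Finsupp.mem_support_iff, coeff_toL]
    exact MvPolynomial.mem_support_iff.1 ht

theorem toL_injective {k : Type} [Field k] {d : ℕ} :
    Function.Injective (toL : MvPolynomial (Fin d) k →+* Lp k d) := by
  intro p q h
  ext s
  rw [← coeff_toL, ← coeff_toL, h]

theorem ev_toL {K : Type} [Field K] {d : ℕ} (u : Fin d → Kˣ) (p : MvPolynomial (Fin d) K) :
    ev (RingHom.id K) u (toL p) = eval (cu u) p := by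
  have h : (ev (RingHom.id K) u).comp toL = eval (cu u) := by
    apply MvPolynomial.ringHom_ext
    · intro r
      rw [RingHom.comp_apply, eval_C]
      show ev (RingHom.id K) u (toL (monomial 0 r)) = r
      rw [toL_monomial, map_zero, ev_single, mon_zero]
      simp
    · intro i
      rw [RingHom.comp_apply, eval_X]
      unfold toL
      rw [eval₂Hom_X', ev_single, mon_single_one]
      simp
  exact RingHom.congr_fun h p

private theorem single_mul_toL_monomial {k : Type} [Field k] {d : ℕ} (s : Fin d → ℤ)
    (t : Fin d →₀ ℕ) : (AddMonoidAlgebra.single s 1 : Lp k d) * toL (monomial t 1) =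
      AddMonoidAlgebra.single (s + nz t) 1 := by
  rw [toL_monomial, AddMonoidAlgebra.single_mul_single, mul_one]

private theorem exists_nz {d : ℕ} (r s : Fin d → ℤ) (h : r ≤ s) :
    ∃ t : Fin d →₀ ℕ, s = r + nz t := by
  refine ⟨Finsupp.equivFunOnFinite.symm fun i => (s i - r i).toNat, ?_⟩
  funext i
  have := h i
  rw [Pi.add_apply, nz_apply]
  simp only [Finsupp.coe_equivFunOnFinite_symm]
  rw [Int.toNat_of_nonneg (by linarith)]
  ring

theorem exists_toL {k : Type} [Field k] {d : ℕ} (f : Lp k d) :
    ∃ (p : MvPolynomial (Fin d) k) (s : Fin d → ℤ), f = AddMonoidAlgebra.single s 1 * toL p := by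
  induction f using AddMonoidAlgebra.induction_linear with
  | zero => exact ⟨0, 0, by simp⟩
  | single s a =>
    refine ⟨monomial 0 a, s, ?_⟩
    rw [toL_monomial, map_zero, AddMonoidAlgebra.single_mul_single, add_zero, one_mul]
  | add f g hf hg =>
    obtain ⟨p, s, rfl⟩ := hf
    obtain ⟨q, t, rfl⟩ := hg
    obtain ⟨s', hs'⟩ := exists_nz (s ⊓ t) s inf_le_left
    obtain ⟨t', ht'⟩ := exists_nz (s ⊓ t) t inf_le_right
    refine ⟨monomial s' 1 * p + monomial t' 1 * q, s ⊓ t, ?_⟩
    rw [map_add, map_mul, map_mul, mul_add, ← mul_assoc, ← mul_assoc, single_mul_toL_monomial,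
      single_mul_toL_monomial, ← hs', ← ht']

private theorem isUnit_single {k : Type} [Field k] {d : ℕ} (s : Fin d → ℤ) (a : k) (ha : a ≠ 0) :
    IsUnit (AddMonoidAlgebra.single s a : Lp k d) := by
  refine IsUnit.of_mul_eq_one (AddMonoidAlgebra.single (-s) a⁻¹) ?_
  rw [AddMonoidAlgebra.single_mul_single, add_neg_cancel, mul_inv_cancel₀ ha]
  rfl

theorem lp_ufd (k : Type) [Field k] (d : ℕ) : UniqueFactorizationMonoid (Lp k d) := by
  let _ : Algebra (MvPolynomial (Fin d) k) (Lp k d) := toL.toAlgebra
  have : IsLocalization (MonoidHom.mrange (monomialOneHom k (Fin d))) (Lp k d) := by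
    rw [isLocalization_iff]
    refine ⟨?_, ?_, ?_⟩
    · rintro ⟨_, t, rfl⟩
      show IsUnit (toL (monomial t.toAdd 1))
      rw [toL_monomial]
      exact isUnit_single _ _ one_ne_zero
    · intro z
      obtain ⟨p, s, rfl⟩ := exists_toL z
      obtain ⟨t, ht⟩ := exists_nz (s ⊓ 0) s inf_le_left
      obtain ⟨t', ht'⟩ := exists_nz (s ⊓ 0) 0 inf_le_right
      refine ⟨(monomial t 1 * p, ⟨monomial t' 1, Multiplicative.ofAdd t', rfl⟩), ?_⟩
      show AddMonoidAlgebra.single s 1 * toL p * toL (monomial t' 1) = toL (monomial t 1 * p)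
      rw [map_mul, mul_assoc, mul_comm (toL p), ← mul_assoc, single_mul_toL_monomial, toL_monomial]
      congr 2
      conv_lhs => rw [ht]
      rw [add_comm, ← add_assoc, add_comm (nz t'), ← ht', zero_add]
    · intro x y h
      exact ⟨1, by rw [toL_injective h]⟩
  exact UniqueFactorizationMonoid.of_isLocalization
    (MonoidHom.mrange (monomialOneHom k (Fin d))) (Lp k d)

theorem isUnit_lp {k : Type} [Field k] {d : ℕ} (f : Lp k d) :
    IsUnit f ↔ ∃ (s : Fin d → ℤ) (a : k), a ≠ 0 ∧ f = AddMonoidAlgebra.single s a := by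
  constructor
  · intro h
    obtain ⟨g, hg⟩ := h.exists_right_inv
    obtain ⟨p, s, rfl⟩ := exists_toL f
    obtain ⟨q, t, rfl⟩ := exists_toL g
    obtain ⟨a, ha⟩ := exists_nz (0 ⊓ (-(s + t))) 0 inf_le_left
    obtain ⟨b, hb⟩ := exists_nz (0 ⊓ (-(s + t))) (-(s + t)) inf_le_right
    -- `toL (monomial a 1 * (p * q)) = toL (monomial b 1)`
    have h1 : toL (monomial a 1 * (p * q)) = (toL (monomial b 1) : Lp k d) := by
      have h2 : (toL p * toL q : Lp k d) = AddMonoidAlgebra.single (-(s + t)) 1 := by
        have h3 : (AddMonoidAlgebra.single (s + t) 1 : Lp k d) * (toL p * toL q) = 1 := by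
          have h5 : (AddMonoidAlgebra.single (s + t) 1 : Lp k d) =
              AddMonoidAlgebra.single s 1 * AddMonoidAlgebra.single t 1 := by
            rw [AddMonoidAlgebra.single_mul_single, mul_one]
          rw [h5, mul_mul_mul_comm]
          exact hg
        have h4 : (AddMonoidAlgebra.single (-(s + t)) 1 : Lp k d) *
            AddMonoidAlgebra.single (s + t) 1 = 1 := by
          rw [AddMonoidAlgebra.single_mul_single, neg_add_cancel, mul_one]
          rfl
        calc (toL p * toL q : Lp k d) = ((AddMonoidAlgebra.single (-(s + t)) 1 : Lp k d) *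
            AddMonoidAlgebra.single (s + t) 1) * (toL p * toL q) := by rw [h4, one_mul]
          _ = AddMonoidAlgebra.single (-(s + t)) 1 := by rw [mul_assoc, h3, mul_one]
      rw [map_mul, map_mul, h2, toL_monomial, toL_monomial, AddMonoidAlgebra.single_mul_single,
        mul_one]
      congr 1
      have hb' : nz b = -(s + t) - 0 ⊓ (-(s + t)) := by
        rw [eq_sub_iff_add_eq, add_comm]
        exact hb.symm
      have ha' : nz a = 0 - 0 ⊓ (-(s + t)) := by
        rw [eq_sub_iff_add_eq, add_comm]
        exact ha.symm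
      rw [ha', hb']
      abel
    have h2 := toL_injective h1
    have h3 : p ∣ monomial b 1 := ⟨monomial a 1 * q, by rw [← h2]; ring⟩
    obtain ⟨c, u, -, hu, hp⟩ := dvd_monomial_one_iff_exists.1 h3
    refine ⟨s + nz c, u, hu.ne_zero, ?_⟩
    rw [hp, toL_monomial, AddMonoidAlgebra.single_mul_single, one_mul]
  · rintro ⟨s, a, ha, rfl⟩
    exact isUnit_single s a ha

private theorem exists_reduced_aux {k : Type} [Field k] {d : ℕ} (n : ℕ) :
    ∀ p : MvPolynomial (Fin d) k, p ≠ 0 → p.totalDegree ≤ n →
      ∃ (q : MvPolynomial (Fin d) k) (t : Fin d →₀ ℕ), p = monomial t 1 * q ∧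
        ∀ i, ¬ (X i : MvPolynomial (Fin d) k) ∣ q := by
  induction n with
  | zero =>
    intro p hp hn
    by_cases h : ∃ i, (X i : MvPolynomial (Fin d) k) ∣ p
    · obtain ⟨i, q, rfl⟩ := h
      have hq : q ≠ 0 := right_ne_zero_of_mul hp
      rw [totalDegree_mul_of_isDomain (X_ne_zero i) hq, totalDegree_X] at hn
      omega
    · push Not at h
      exact ⟨p, 0, by simp, h⟩
  | succ n ih =>
    intro p hp hn
    by_cases h : ∃ i, (X i : MvPolynomial (Fin d) k) ∣ p
    · obtain ⟨i, q, rfl⟩ := h
      have hq : q ≠ 0 := right_ne_zero_of_mul hp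
      rw [totalDegree_mul_of_isDomain (X_ne_zero i) hq, totalDegree_X] at hn
      obtain ⟨q', t, h1, h2⟩ := ih q hq (by omega)
      refine ⟨q', Finsupp.single i 1 + t, ?_, h2⟩
      rw [h1, ← mul_assoc]
      congr 1
      rw [X, monomial_mul, one_mul]
    · push Not at h
      exact ⟨p, 0, by simp, h⟩

theorem exists_reduced {k : Type} [Field k] {d : ℕ} (f : Lp k d) (hf : f ≠ 0) :
    ∃ (p : MvPolynomial (Fin d) k) (s : Fin d → ℤ),
      f = AddMonoidAlgebra.single s 1 * toL p ∧ ∀ i, ¬ (X i : MvPolynomial (Fin d) k) ∣ p := by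
  obtain ⟨p, s, rfl⟩ := exists_toL f
  have hp : p ≠ 0 := by
    rintro rfl
    simp at hf
  obtain ⟨q, t, h1, h2⟩ := exists_reduced_aux p.totalDegree p hp le_rfl
  refine ⟨q, s + nz t, ?_, h2⟩
  rw [h1, map_mul, ← mul_assoc, single_mul_toL_monomial]

theorem isRelPrime_of_toL {k : Type} [Field k] {d : ℕ} {p q : MvPolynomial (Fin d) k}
    (hq : ∀ i, ¬ (X i : MvPolynomial (Fin d) k) ∣ q)
    (h : IsRelPrime (toL p : Lp k d) (toL q)) : IsRelPrime p q := by
  intro c hcp hcq
  have h1 : IsUnit (toL c : Lp k d) := h (map_dvd toL hcp) (map_dvd toL hcq)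
  obtain ⟨s, a, ha, hs⟩ := (isUnit_lp _).1 h1
  have h2 : s ∈ (toL c : Lp k d).coeff.support := by
    rw [hs, Finsupp.mem_support_iff, AddMonoidAlgebra.coeff_single, Finsupp.single_eq_same]
    exact ha
  obtain ⟨t, -, rfl⟩ := (support_toL c s).1 h2
  have h3 : c = monomial t a := by
    apply toL_injective
    rw [hs, toL_monomial]
  have h4 : t = 0 := by
    by_contra ht
    obtain ⟨i, hi⟩ := Finsupp.ne_iff.1 ht
    refine hq i (Dvd.dvd.trans ?_ hcq)
    rw [h3, X_dvd_monomial]
    exact Or.inr hi
  rw [h3, h4]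
  exact (isUnit_iff_ne_zero.2 ha).map C

end Pool.Agent.Work.UP
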