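import Pool.Agent.Work.UP.Gcd

/-!
# TorusDen (block G, size M): denominators prime to the numerators are almost units

PROOF. Let `ε' = ε / (card β + 1)`, apply `gcdIneq` to `A b, p` for every `b : β`: constants `c_b`, sets `E_b`;
`E` = union of the `E_b` and of the exceptional set of `unitEq` for `p`. `polyBound` for the `B' b`, the `A b`
and `p` gives functions `C` with values at least `1` and finite support; let `D q` be the product of all of
them (for `p`: to the power `card β`). Let `u` be as in the statement, `q ∉ T`, and `b'` the index belonging to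
`q`. Then `max |A b'(u)|_q |p(u)|_q ≤ C_{b',q} |p(u)|_q`, and `max |A b(u)|_q |p(u)|_q` is bounded by the product
of the `polyBound`s for all other `b`. So `∏_b max |A b(u)|_q |p(u)|_q ≤ D q * |p(u)|_q`. Taking `outP`
(`outP_le_outP`, `outP_mul`, `finite_max`, `finite_ne_one`; induction for the finite product over `b`):
`∏_b c_b HU^(-ε') ≤ outP D * outP (|p(u)|_q)`, and `HU^(-ε' card β) ≥ HU^(-ε)`.
-/

set_option autoImplicit false

noncomputable section

namespace Pool.Agent.Work.UP

open NumberField IsDedekindDomain MvPolynomial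

private theorem outP_prod {K : Type} [Field K] [NumberField K]
    (T : Finset (HeightOneSpectrum (𝓞 K))) {β : Type} (s : Finset β)
    (f : β → HeightOneSpectrum (𝓞 K) → ℝ) (hf : ∀ b, {p | f b p ≠ 1}.Finite) :
    {p | ∏ b ∈ s, f b p ≠ 1}.Finite ∧
      outP T (fun p => ∏ b ∈ s, f b p) = ∏ b ∈ s, outP T (f b) := by
  classical
  induction s using Finset.induction_on with
  | empty =>
    constructor
    · simp
    · simp only [Finset.prod_empty]
      unfold outP
      exact finprod_one
  | insert b s hb ih =>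
    obtain ⟨ih1, ih2⟩ := ih
    constructor
    · refine ((hf b).union ih1).subset ?_
      intro p hp
      by_contra hcon
      rw [Set.mem_union, not_or] at hcon
      have h1 : f b p = 1 := not_not.1 hcon.1
      have h2 : ∏ b ∈ s, f b p = 1 := not_not.1 hcon.2
      exact hp (by rw [Finset.prod_insert hb, h1, h2, one_mul])
    · rw [Finset.prod_insert hb, ← ih2, ← outP_mul T (hf b) ih1]
      congr 1
      funext p
      rw [Finset.prod_insert hb]

theorem torusDen (K : Type) [Field K] [NumberField K] (T : Finset (HeightOneSpectrum (𝓞 K)))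
    {d : ℕ} (β : Type) [Finite β] (p : MvPolynomial (Fin d) K) (hp : p ≠ 0)
    (A B' : β → MvPolynomial (Fin d) K) (hA : ∀ b, IsRelPrime (A b) p) (ε : ℝ) (hε : 0 < ε) :
    ∃ (c : ℝ) (E : Set ((Fin d → ℤ) × K)), 0 < c ∧ E.Finite ∧
      ∀ u : Fin d → K, IsUv T u → Avoid E u →
        (∀ q : HeightOneSpectrum (𝓞 K), q ∉ T → ∃ b, FinitePlace.mk q (eval u (A b)) ≤
          FinitePlace.mk q (eval u p * eval u (B' b))) →
        eval u p ≠ 0 ∧ c * HU u ^ (-ε) ≤ outP T (fun q => FinitePlace.mk q (eval u p)) := by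
  classical
  have := Fintype.ofFinite β
  set n : ℕ := Fintype.card β with hn
  have hn1 : (0 : ℝ) < (n : ℝ) + 1 := by positivity
  have hε' : 0 < ε / ((n : ℝ) + 1) := by positivity
  choose c E hc hE hgcd using fun b => gcdIneq K T (A b) p (hA b) (ε / ((n : ℝ) + 1)) hε'
  obtain ⟨Ep, hEp, hunit⟩ := unitEq K T p hp
  choose CA hCA1 hCAf hCA using fun b => polyBound T (A b)
  choose CB hCB1 hCBf hCB using fun b => polyBound T (B' b)
  obtain ⟨Cp, hCp1, hCpf, hCp⟩ := polyBound T p
  have hDf : ∀ b, {q | CA b q * CB b q * Cp q ≠ 1}.Finite := by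
    intro b
    refine (((hCAf b).union (hCBf b)).union hCpf).subset ?_
    intro q hq
    by_contra hcon
    rw [Set.mem_union, Set.mem_union, not_or, not_or] at hcon
    have h1 : CA b q = 1 := not_not.1 hcon.1.1
    have h2 : CB b q = 1 := not_not.1 hcon.1.2
    have h3 : Cp q = 1 := not_not.1 hcon.2
    exact hq (by rw [h1, h2, h3]; norm_num)
  have hD0 : ∀ b q, 0 < CA b q * CB b q * Cp q := fun b q =>
    mul_pos (mul_pos (lt_of_lt_of_le one_pos (hCA1 b q)) (lt_of_lt_of_le one_pos (hCB1 b q)))
      (lt_of_lt_of_le one_pos (hCp1 q))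
  have hDpos : 0 < outP T (fun q => ∏ b, (CA b q * CB b q * Cp q)) :=
    outP_pos T fun q _ => Finset.prod_pos fun b _ => hD0 b q
  refine ⟨(∏ b, c b) / outP T (fun q => ∏ b, (CA b q * CB b q * Cp q)), (⋃ b, E b) ∪ Ep,
    div_pos (Finset.prod_pos fun b _ => hc b) hDpos, (Set.finite_iUnion hE).union hEp, ?_⟩
  intro u hu hav hq
  have hpu : eval u p ≠ 0 := hunit u hu (fun e he => hav e (Or.inr he))
  refine ⟨hpu, ?_⟩
  have hg : ∀ b, c b * HU u ^ (-(ε / ((n : ℝ) + 1))) ≤ outP T fun q =>
      max (FinitePlace.mk q (eval u (A b))) (FinitePlace.mk q (eval u p)) := fun b =>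
    hgcd b u hu (fun e he => hav e (Or.inl (Set.mem_iUnion.2 ⟨b, he⟩)))
  have hmaxf : ∀ b, {q : HeightOneSpectrum (𝓞 K) |
      max (FinitePlace.mk q (eval u (A b))) (FinitePlace.mk q (eval u p)) ≠ 1}.Finite := by
    intro b
    have h1 := finite_max (b := eval u (A b)) hpu
    refine h1.subset fun q hq => ?_
    change max _ _ ≠ 1
    rw [max_comm]
    exact hq
  have hHU1 : 1 ≤ HU u := one_le_HU u
  have hHU : 0 < HU u := lt_of_lt_of_le one_pos hHU1
  -- pointwise inequality
  have hpt : ∀ q : HeightOneSpectrum (𝓞 K), q ∉ T →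
      ∏ b, max (FinitePlace.mk q (eval u (A b))) (FinitePlace.mk q (eval u p)) ≤
        (∏ b, (CA b q * CB b q * Cp q)) * FinitePlace.mk q (eval u p) := by
    intro q hqT
    obtain ⟨b', hb'⟩ := hq q hqT
    have h0p : 0 ≤ FinitePlace.mk q (eval u p) := apply_nonneg _ _
    have hmain : max (FinitePlace.mk q (eval u (A b'))) (FinitePlace.mk q (eval u p)) ≤
        (CA b' q * CB b' q * Cp q) * FinitePlace.mk q (eval u p) := by
      have h1 : 1 ≤ CA b' q * CB b' q * Cp q :=
        one_le_mul_of_one_le_of_one_le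
          (one_le_mul_of_one_le_of_one_le (hCA1 b' q) (hCB1 b' q)) (hCp1 q)
      refine max_le ?_ ?_
      · refine hb'.trans ?_
        rw [map_mul, mul_comm]
        refine mul_le_mul_of_nonneg_right ((hCB b' u hu q hqT).trans ?_) h0p
        have h2 : 1 * CB b' q ≤ CA b' q * CB b' q :=
          mul_le_mul_of_nonneg_right (hCA1 b' q) (by linarith [hCB1 b' q])
        have h3 : (CA b' q * CB b' q) * 1 ≤ (CA b' q * CB b' q) * Cp q :=
          mul_le_mul_of_nonneg_left (hCp1 q) (by nlinarith [hCA1 b' q, hCB1 b' q])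
        linarith
      · exact le_mul_of_one_le_left h0p h1
    have hother : ∀ b ∈ Finset.univ.erase b',
        max (FinitePlace.mk q (eval u (A b))) (FinitePlace.mk q (eval u p)) ≤
          CA b q * CB b q * Cp q := by
      intro b _
      have hA1 := hCA1 b q
      have hB1 := hCB1 b q
      have hp1 := hCp1 q
      refine max_le ((hCA b u hu q hqT).trans ?_) ((hCp u hu q hqT).trans ?_)
      · rw [mul_assoc]
        exact le_mul_of_one_le_right (by linarith) (one_le_mul_of_one_le_of_one_le hB1 hp1)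
      · exact le_mul_of_one_le_left (by linarith) (one_le_mul_of_one_le_of_one_le hA1 hB1)
    rw [← Finset.mul_prod_erase Finset.univ _ (Finset.mem_univ b'),
      ← Finset.mul_prod_erase Finset.univ (fun b => CA b q * CB b q * Cp q) (Finset.mem_univ b')]
    have h4 : ∏ b ∈ Finset.univ.erase b',
        max (FinitePlace.mk q (eval u (A b))) (FinitePlace.mk q (eval u p)) ≤
        ∏ b ∈ Finset.univ.erase b', (CA b q * CB b q * Cp q) :=
      Finset.prod_le_prod (fun b _ => le_max_of_le_right h0p) hother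
    calc _ ≤ ((CA b' q * CB b' q * Cp q) * FinitePlace.mk q (eval u p)) *
          ∏ b ∈ Finset.univ.erase b', (CA b q * CB b q * Cp q) :=
        mul_le_mul hmain h4 (Finset.prod_nonneg fun b _ => le_max_of_le_right h0p)
          (mul_nonneg (hD0 b' q).le h0p)
      _ = _ := by ring
  have hpf := outP_prod T Finset.univ
    (fun b q => max (FinitePlace.mk q (eval u (A b))) (FinitePlace.mk q (eval u p))) hmaxf
  have hDf' := (outP_prod T Finset.univ (fun b q => CA b q * CB b q * Cp q) hDf).1
  have hpuf := finite_ne_one hpu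
  have hkey : ∏ b, (c b * HU u ^ (-(ε / ((n : ℝ) + 1)))) ≤
      outP T (fun q => ∏ b, (CA b q * CB b q * Cp q)) *
        outP T (fun q => FinitePlace.mk q (eval u p)) := by
    refine (Finset.prod_le_prod (fun b _ => mul_nonneg (hc b).le
      (Real.rpow_nonneg hHU.le _)) fun b _ => hg b).trans ?_
    rw [← hpf.2, ← outP_mul T hDf' hpuf]
    refine outP_le_outP T hpf.1 ?_ (fun q _ => Finset.prod_nonneg fun b _ =>
      le_max_of_le_right (apply_nonneg _ _)) hpt
    refine (hDf'.union hpuf).subset ?_
    intro q hq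
    by_contra hcon
    rw [Set.mem_union, not_or] at hcon
    have h1 : ∏ b, (CA b q * CB b q * Cp q) = 1 := not_not.1 hcon.1
    have h2 : FinitePlace.mk q (eval u p) = 1 := not_not.1 hcon.2
    exact hq (by rw [h1, h2, one_mul])
  rw [Finset.prod_mul_distrib, Finset.prod_const, Finset.card_univ, ← hn,
    ← Real.rpow_natCast, ← Real.rpow_mul hHU.le] at hkey
  have hexp : HU u ^ (-ε) ≤ HU u ^ (-(ε / ((n : ℝ) + 1)) * (n : ℝ)) := by
    refine Real.rpow_le_rpow_of_exponent_le hHU1 ?_
    rw [neg_mul, neg_le_neg_iff, div_mul_eq_mul_div, div_le_iff₀ hn1]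
    nlinarith
  rw [div_mul_eq_mul_div, div_le_iff₀ hDpos, mul_comm (outP T _)]
  refine (mul_le_mul_of_nonneg_left hexp (Finset.prod_nonneg fun b _ => (hc b).le)).trans ?_
  exact hkey

end Pool.Agent.Work.UP
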