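import Pool.Agent.Work.UP.GDefs

/-!
# TorusSpan (block G, size M): if the exponents span, the heights of the monomials bound the height

PROOF. Let `x` be the difference of two exponents `s, s'` of some `p ∈ P`. Then
`mulHeight₁ (mon u x) = mulHeight ![mons u s, mons u s']` (`Height.mulHeight₁_div_eq_mulHeight`) is at most
`mulHeight (fun s : p.support => ..)` (`Height.mulHeight_comp_le`) and this is at most the product over all
`p ∈ P` (all factors are at least `1`). As the `x` span `ℚ^d`, every unit vector `e_i` is a rational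
combination, so there are `N_i ≥ 1` and finitely many such `x_j` (with multiplicity) and integers `n_j` with
`N_i e_i = ∑ n_j x_j`, hence `u_i ^ N_i = ∏_j (mon u x_j) ^ n_j` and (`Height.mulHeight₁_zpow`,
`Height.mulHeight₁_mul_le`, `Height.mulHeight₁_pow`) `mulHeight₁ (u_i) ≤ mulHeight₁ (u_i) ^ N_i ≤
(∏_p ..) ^ (∑ |n_j|)`. Multiply over `i`.
-/

set_option autoImplicit false

noncomputable section

namespace Pool.Agent.Work.UP

open NumberField IsDedekindDomain MvPolynomial

private theorem mon_zero' {K : Type} [Field K] {d : ℕ} (u : Fin d → K) :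
    mon u (fun _ => 0) = 1 := by
  simp [mon]

private theorem mon_add' {K : Type} [Field K] {d : ℕ} (u : Fin d → K) (hu : ∀ i, u i ≠ 0)
    (x y : Fin d → ℤ) : mon u (x + y) = mon u x * mon u y := by
  unfold mon
  rw [← Finset.prod_mul_distrib]
  exact Finset.prod_congr rfl fun i _ => by rw [Pi.add_apply, zpow_add₀ (hu i)]

private theorem mon_smul' {K : Type} [Field K] {d : ℕ} (u : Fin d → K)
    (n : ℤ) (x : Fin d → ℤ) : mon u (fun i => n * x i) = mon u x ^ n := by
  unfold mon
  rw [← Finset.prod_zpow]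
  refine Finset.prod_congr rfl fun i _ => ?_
  show u i ^ (n * x i) = (u i ^ x i) ^ n
  rw [mul_comm, zpow_mul]

private theorem mon_single' {K : Type} [Field K] {d : ℕ} (u : Fin d → K)
    (n : ℤ) (i : Fin d) : mon u (fun j => if j = i then n else 0) = u i ^ n := by
  unfold mon
  rw [Finset.prod_eq_single i]
  · simp
  · intro j _ hj
    simp [hj]
  · intro h
    exact absurd (Finset.mem_univ _) h

/-- good exponents -/
private def GoodE {K : Type} [Field K] [NumberField K] {d : ℕ} (B : (Fin d → K) → ℝ)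
    (x : Fin d → ℤ) : Prop :=
  ∃ n : ℕ, ∀ u : Fin d → K, (∀ i, u i ≠ 0) → Height.mulHeight₁ (mon u x) ≤ B u ^ n

private theorem goodE_zero {K : Type} [Field K] [NumberField K] {d : ℕ} (B : (Fin d → K) → ℝ) :
    GoodE B (fun _ => 0) := by
  refine ⟨0, fun u _ => ?_⟩
  rw [mon_zero']
  simp

private theorem goodE_add {K : Type} [Field K] [NumberField K] {d : ℕ} {B : (Fin d → K) → ℝ}
    (hB : ∀ u, 1 ≤ B u) {x y : Fin d → ℤ}
    (hx : GoodE B x) (hy : GoodE B y) : GoodE B (x + y) := by
  obtain ⟨n, hn⟩ := hx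
  obtain ⟨m, hm⟩ := hy
  refine ⟨n + m, fun u hu => ?_⟩
  rw [mon_add' u hu, pow_add]
  refine (Height.mulHeight₁_mul_le _ _).trans ?_
  exact mul_le_mul (hn u hu) (hm u hu) (Height.mulHeight₁_nonneg _)
    (pow_nonneg (zero_le_one.trans (hB u)) _)

private theorem goodE_smul {K : Type} [Field K] [NumberField K] {d : ℕ} {B : (Fin d → K) → ℝ}
    (a : ℤ) {x : Fin d → ℤ}
    (hx : GoodE B x) : GoodE B (fun i => a * x i) := by
  obtain ⟨n, hn⟩ := hx
  refine ⟨n * a.natAbs, fun u hu => ?_⟩
  rw [mon_smul', Height.mulHeight₁_zpow, pow_mul]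
  exact pow_le_pow_left₀ (Height.mulHeight₁_nonneg _) (hn u hu) _

private theorem goodE_of_smul {K : Type} [Field K] [NumberField K] {d : ℕ} {B : (Fin d → K) → ℝ}
    {N : ℕ} (hN : 0 < N) {x : Fin d → ℤ}
    (hx : GoodE B (fun i => (N : ℤ) * x i)) : GoodE B x := by
  obtain ⟨n, hn⟩ := hx
  refine ⟨n, fun u hu => ?_⟩
  have h := hn u hu
  rw [mon_smul', Height.mulHeight₁_zpow, Int.natAbs_natCast] at h
  exact (le_self_pow₀ (Height.one_le_mulHeight₁ _) hN.ne').trans h

theorem torusSpan {K : Type} [Field K] [NumberField K] {d : ℕ}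
    (P : Set (MvPolynomial (Fin d) K)) (hP : P.Finite) (hspan : Spans P) :
    ∃ n : ℕ, ∀ u : Fin d → K, (∀ i, u i ≠ 0) →
      HU u ≤ (∏ p ∈ hP.toFinset,
        Height.mulHeight (fun s : p.support => mon u (fun i => (s.1 i : ℤ)))) ^ n := by
  classical
  set B : (Fin d → K) → ℝ := fun u => ∏ p ∈ hP.toFinset,
        Height.mulHeight (fun s : p.support => mon u (fun i => (s.1 i : ℤ))) with hBdef
  have hB1 : ∀ u, 1 ≤ B u := fun u =>
    Finset.one_le_prod (f := fun p : MvPolynomial (Fin d) K =>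
      Height.mulHeight (fun s : p.support => mon u (fun i => (s.1 i : ℤ))))
      (fun p _ => Height.one_le_mulHeight _)
  -- differences of exponents are good
  have hdiff : ∀ p ∈ P, ∀ s ∈ p.support, ∀ s' ∈ p.support,
      GoodE B (fun i => (s i : ℤ) - (s' i : ℤ)) := by
    intro p hp s hs s' hs'
    refine ⟨1, fun u hu => ?_⟩
    rw [pow_one]
    have h1 : mon u (fun i => (s i : ℤ) - (s' i : ℤ)) =
        mon u (fun i => (s i : ℤ)) / mon u (fun i => (s' i : ℤ)) := by
      unfold mon
      rw [← Finset.prod_div_distrib]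
      exact Finset.prod_congr rfl fun i _ => by rw [zpow_sub₀ (hu i)]
    rw [h1, Height.mulHeight₁_div_eq_mulHeight]
    have h2 : (![mon u (fun i => (s i : ℤ)), mon u (fun i => (s' i : ℤ))] : Fin 2 → K) =
        (fun t : p.support => mon u (fun i => (t.1 i : ℤ))) ∘
          (![⟨s, hs⟩, ⟨s', hs'⟩] : Fin 2 → p.support) := by
      ext j
      fin_cases j <;> rfl
    rw [h2]
    refine (Height.mulHeight_comp_le _ _).trans ?_
    have hmem : p ∈ hP.toFinset := hP.mem_toFinset.mpr hp
    have h3 := Finset.prod_le_prod_of_subset_of_one_le (f := fun p : MvPolynomial (Fin d) K =>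
      Height.mulHeight (fun s : p.support => mon u (fun i => (s.1 i : ℤ))))
      (Finset.singleton_subset_iff.mpr hmem)
      (fun p _ => (Height.mulHeight_pos _).le) (fun p _ _ => Height.one_le_mulHeight _)
    rw [Finset.prod_singleton] at h3
    exact h3
  have key : ∀ y : Fin d → ℚ, ∃ N : ℕ, 0 < N ∧ ∃ x : Fin d → ℤ, GoodE B x ∧
      ∀ i, (N : ℚ) * y i = x i := by
    intro y
    have hy : y ∈ Submodule.span ℚ {x : Fin d → ℚ | ∃ p ∈ P, ∃ s ∈ p.support, ∃ s' ∈ p.support,
        x = fun i => (s i : ℚ) - (s' i : ℚ)} := by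
      have : Submodule.span ℚ {x : Fin d → ℚ | ∃ p ∈ P, ∃ s ∈ p.support, ∃ s' ∈ p.support,
        x = fun i => (s i : ℚ) - (s' i : ℚ)} = ⊤ := hspan
      rw [this]
      trivial
    induction hy using Submodule.span_induction with
    | mem x hx =>
      obtain ⟨p, hp, s, hs, s', hs', rfl⟩ := hx
      exact ⟨1, one_pos, _, hdiff p hp s hs s' hs', fun i => by push_cast; ring⟩
    | zero => exact ⟨1, one_pos, _, goodE_zero B, fun i => by simp⟩
    | add x y _ _ hx hy =>
      obtain ⟨N, hN, a, ha, ha'⟩ := hx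
      obtain ⟨M, hM, b, hb, hb'⟩ := hy
      refine ⟨N * M, Nat.mul_pos hN hM, _,
        goodE_add hB1 (goodE_smul (M : ℤ) ha) (goodE_smul (N : ℤ) hb), fun i => ?_⟩
      simp only [Pi.add_apply]
      push_cast
      rw [← ha' i, ← hb' i]
      ring
    | smul q x _ hx =>
      obtain ⟨N, hN, a, ha, ha'⟩ := hx
      refine ⟨q.den * N, Nat.mul_pos q.den_pos hN, _, goodE_smul q.num ha, fun i => ?_⟩
      simp only [Pi.smul_apply, smul_eq_mul]
      push_cast
      rw [← ha' i]
      have hq : (q.den : ℚ) * q = q.num := by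
        rw [mul_comm]
        exact Rat.mul_den_eq_num q
      calc (q.den : ℚ) * N * (q * x i) = (q.den * q) * (N * x i) := by ring
        _ = q.num * (N * x i) := by rw [hq]
  have hunit : ∀ i : Fin d, ∃ n : ℕ, ∀ u : Fin d → K, (∀ i, u i ≠ 0) →
      Height.mulHeight₁ (u i) ≤ B u ^ n := by
    intro i
    obtain ⟨N, hN, x, hx, hx'⟩ := key (fun j => if j = i then 1 else 0)
    have hx2 : x = fun j => (N : ℤ) * (if j = i then 1 else 0) := by
      funext j
      have := hx' j
      have h3 : ((x j : ℤ) : ℚ) = (((N : ℤ) * (if j = i then 1 else 0) : ℤ) : ℚ) := by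
        rw [← this]
        push_cast
        rfl
      exact_mod_cast h3
    rw [hx2] at hx
    obtain ⟨n, hn⟩ := goodE_of_smul hN hx
    refine ⟨n, fun u hu => ?_⟩
    have := hn u hu
    rw [mon_single', zpow_one] at this
    exact this
  choose n hn using hunit
  refine ⟨∑ i, n i, fun u hu => ?_⟩
  rw [← Finset.prod_pow_eq_pow_sum]
  exact Finset.prod_le_prod (fun i _ => Height.mulHeight₁_nonneg _) fun i _ => hn i u hu

end Pool.Agent.Work.UP
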