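import Pool.Agent.Work.UP.SumLow
import Pool.Agent.Work.UP.TorusDen
import Pool.Agent.Work.UP.TorusSpan

/-!
# TorusNF: the arithmetic end result (block G, size M)

If the polynomials `p ∈ P` may divide the denominators only together with numerators prime to them,
then their values at unit points are almost units, so that there are only finitely many such unit
points outside finitely many translates of subtori, provided the exponents of the `p ∈ P` span.

PROOF. Let `n` be the exponent of `torusSpan` and `ε = 1 / (4 n card P + 4)`. For every `p ∈ P` take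
`torusDen` (with this `ε`) and `sumLow` (with `1/2`); `E` = union of the exceptional sets. For `u` in the
set: `inP (p(u)) * outP (|p(u)|) = 1` (`inP_mul_outP`), so
`c' mulHeight(..)^(1/2) ≤ inP (p(u)) ≤ c⁻¹ HU^ε`, i.e. `mulHeight(..) ≤ C HU^(2 ε)`. By `torusSpan`
`HU ≤ C' HU^(2 ε n card P) ≤ C' HU^(1/2)`, so `HU ≤ C'^2`. All `mulHeight₁ (u i) ≤ HU u` are bounded, so there
are only finitely many `u` (`NumberField.finite_setOfPred_mulHeight₁_le`, `Set.Finite.pi`).
-/

set_option autoImplicit false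

noncomputable section

namespace Pool.Agent.Work.UP

open NumberField IsDedekindDomain MvPolynomial

theorem torusNF (K : Type) [Field K] [NumberField K] (T : Finset (HeightOneSpectrum (𝓞 K)))
    {d : ℕ} (β : Type) [Finite β] (P : Set (MvPolynomial (Fin d) K)) (hP : P.Finite)
    (hP0 : ∀ p ∈ P, p ≠ 0) (hspan : Spans P)
    (A B' : β → MvPolynomial (Fin d) K → MvPolynomial (Fin d) K)
    (hA : ∀ b, ∀ p ∈ P, IsRelPrime (A b p) p) :
    ∃ E : Set ((Fin d → ℤ) × K), E.Finite ∧
      {u : Fin d → K | IsUv T u ∧ Avoid E u ∧ ∀ p ∈ P, ∀ q : HeightOneSpectrum (𝓞 K), q ∉ T →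
        ∃ b, FinitePlace.mk q (eval u (A b p)) ≤
          FinitePlace.mk q (eval u p * eval u (B' b p))}.Finite := by
  classical
  obtain ⟨n, hn⟩ := torusSpan P hP hspan
  set N : ℕ := hP.toFinset.card with hN
  set ε : ℝ := 1 / (4 * n * N + 4) with hε
  have hden : (0 : ℝ) < 4 * n * N + 4 := by positivity
  have hεpos : 0 < ε := by rw [hε]; positivity
  have hD : ∀ p : P, ∃ (c : ℝ) (E : Set ((Fin d → ℤ) × K)), 0 < c ∧ E.Finite ∧
      ∀ u : Fin d → K, IsUv T u → Avoid E u →
        (∀ q : HeightOneSpectrum (𝓞 K), q ∉ T → ∃ b, FinitePlace.mk q (eval u (A b p.1)) ≤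
          FinitePlace.mk q (eval u p.1 * eval u (B' b p.1))) →
        eval u p.1 ≠ 0 ∧ c * HU u ^ (-ε) ≤ outP T (fun q => FinitePlace.mk q (eval u p.1)) :=
    fun p => torusDen K T β p.1 (hP0 p.1 p.2) (fun b => A b p.1) (fun b => B' b p.1)
      (fun b => hA b p.1 p.2) ε hεpos
  have hS : ∀ p : P, ∃ (c : ℝ) (E : Set ((Fin d → ℤ) × K)), 0 < c ∧ E.Finite ∧
      ∀ u : Fin d → K, IsUv T u → Avoid E u →
        c * Height.mulHeight (fun s : p.1.support => mon u (fun i => (s.1 i : ℤ))) ^
          (1 - (1 / 2 : ℝ)) ≤ inP T (eval u p.1) :=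
    fun p => sumLow K T p.1 (hP0 p.1 p.2) (1 / 2) (by norm_num)
  choose c E hc hE hcE using hD
  choose c' E' hc' hE' hcE' using hS
  have hfin : Finite P := hP
  refine ⟨⋃ p : P, (E p ∪ E' p), Set.finite_iUnion fun p => (hE p).union (hE' p), ?_⟩
  -- the constants
  have : Fintype P := hP.fintype
  set C : ℝ := ∏ p : P, ((c' p * c p)⁻¹) ^ 2 with hC
  have hCpos : 0 < C := Finset.prod_pos fun p _ => by
    have := hc p; have := hc' p; positivity
  set M : ℝ := (C ^ n) ^ 2 with hM
  have hmain : ∀ u : Fin d → K, IsUv T u → Avoid (⋃ p : P, (E p ∪ E' p)) u →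
      (∀ p ∈ P, ∀ q : HeightOneSpectrum (𝓞 K), q ∉ T →
        ∃ b, FinitePlace.mk q (eval u (A b p)) ≤
          FinitePlace.mk q (eval u p * eval u (B' b p))) → HU u ≤ M := by
    intro u hu hav hq
    have hHU1 : 1 ≤ HU u := one_le_HU u
    have hHU0 : 0 < HU u := zero_lt_one.trans_le hHU1
    have hfac : ∀ p : P, Height.mulHeight (fun s : p.1.support => mon u (fun i => (s.1 i : ℤ))) ≤
        ((c' p * c p)⁻¹) ^ 2 * HU u ^ (2 * ε) := by
      intro p
      have hav1 : Avoid (E p) u := fun e he => hav e (Set.mem_iUnion.mpr ⟨p, Or.inl he⟩)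
      have hav2 : Avoid (E' p) u := fun e he => hav e (Set.mem_iUnion.mpr ⟨p, Or.inr he⟩)
      obtain ⟨hne, hout⟩ := hcE p u hu hav1 (hq p.1 p.2)
      have hin := hcE' p u hu hav2
      have hprod := inP_mul_outP T hne
      set X : ℝ := Height.mulHeight (fun s : p.1.support => mon u (fun i => (s.1 i : ℤ))) with hX
      have hX1 : 1 ≤ X := Height.one_le_mulHeight _
      have hX0 : 0 < X := zero_lt_one.trans_le hX1
      have hcp := hc p
      have hcp' := hc' p
      set Y : ℝ := HU u ^ ε with hY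
      have hY0 : 0 < Y := Real.rpow_pos_of_pos hHU0 _
      have h1 : HU u ^ (-ε) = Y⁻¹ := Real.rpow_neg hHU0.le _
      rw [h1] at hout
      have h2 : X ^ (1 - (1 / 2 : ℝ)) = Real.sqrt X := by
        rw [Real.sqrt_eq_rpow]
        norm_num
      rw [h2] at hin
      have hsq : 0 < Real.sqrt X := Real.sqrt_pos.mpr hX0
      have hoP : 0 < c p * Y⁻¹ := by positivity
      have h3 : (c' p * Real.sqrt X) * (c p * Y⁻¹) ≤ 1 := by
        rw [← hprod]
        exact mul_le_mul hin hout hoP.le (le_trans (by positivity) hin)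
      have h4 : Real.sqrt X ≤ (c' p * c p)⁻¹ * Y := by
        rw [inv_mul_eq_div, le_div_iff₀ (by positivity)]
        have : Real.sqrt X * (c' p * c p) = ((c' p * Real.sqrt X) * (c p * Y⁻¹)) * Y := by
          field_simp
        rw [this]
        calc _ ≤ 1 * Y := mul_le_mul_of_nonneg_right h3 hY0.le
          _ = Y := one_mul _
      have h5 : HU u ^ (2 * ε) = Y ^ 2 := by
        rw [hY, ← Real.rpow_natCast, ← Real.rpow_mul hHU0.le]
        congr 1
        push_cast
        ring
      rw [h5, ← mul_pow, ← Real.sq_sqrt hX0.le]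
      exact pow_le_pow_left₀ hsq.le h4 2
    have hprodle : (∏ p ∈ hP.toFinset,
        Height.mulHeight (fun s : p.support => mon u (fun i => (s.1 i : ℤ)))) ≤
        C * (HU u ^ (2 * ε)) ^ N := by
      have e1 : (∏ p ∈ hP.toFinset,
          Height.mulHeight (fun s : p.support => mon u (fun i => (s.1 i : ℤ)))) =
          ∏ p : P, Height.mulHeight (fun s : p.1.support => mon u (fun i => (s.1 i : ℤ))) := by
        refine (Finset.prod_subtype (p := fun x => x ∈ P) hP.toFinset (fun x => hP.mem_toFinset)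
          (fun p => Height.mulHeight (fun s : p.support => mon u (fun i => (s.1 i : ℤ)))))
      have e2 : C * (HU u ^ (2 * ε)) ^ N =
          ∏ p : P, (((c' p * c p)⁻¹) ^ 2 * HU u ^ (2 * ε)) := by
        rw [Finset.prod_mul_distrib, Finset.prod_const, Finset.card_univ, hC, hN]
        congr 2
        rw [← Set.toFinset_card]
        congr 1
        ext x
        simp
      rw [e1, e2]
      exact Finset.prod_le_prod (fun p _ => (Height.mulHeight_pos _).le) fun p _ => hfac p
    have hprod0 : 0 ≤ (∏ p ∈ hP.toFinset,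
        Height.mulHeight (fun s : p.support => mon u (fun i => (s.1 i : ℤ)))) :=
      Finset.prod_nonneg fun p _ => (Height.mulHeight_pos _).le
    have h6 : HU u ≤ C ^ n * HU u ^ (1 / 2 : ℝ) := by
      calc HU u ≤ (∏ p ∈ hP.toFinset,
            Height.mulHeight (fun s : p.support => mon u (fun i => (s.1 i : ℤ)))) ^ n :=
              hn u fun i => (hu i).1
        _ ≤ (C * (HU u ^ (2 * ε)) ^ N) ^ n := pow_le_pow_left₀ hprod0 hprodle n
        _ = C ^ n * HU u ^ (2 * ε * N * n) := by
            rw [mul_pow, ← Real.rpow_natCast (HU u ^ (2 * ε)) N, ← Real.rpow_mul hHU0.le,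
              ← Real.rpow_natCast (HU u ^ (2 * ε * N)) n, ← Real.rpow_mul hHU0.le]
        _ ≤ C ^ n * HU u ^ (1 / 2 : ℝ) := by
            refine mul_le_mul_of_nonneg_left ?_ (by positivity)
            refine Real.rpow_le_rpow_of_exponent_le hHU1 ?_
            have : 2 * ε * N * n = (2 * (n * N)) / (4 * n * N + 4) := by
              rw [hε]; ring
            rw [this, div_le_div_iff₀ hden (by norm_num)]
            have : (0 : ℝ) ≤ n * N := by positivity
            nlinarith
    have h7 : HU u ^ (1 / 2 : ℝ) ≤ C ^ n := by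
      have h8 : HU u = HU u ^ (1 / 2 : ℝ) * HU u ^ (1 / 2 : ℝ) := by
        rw [← Real.rpow_add hHU0]
        norm_num
      have h9 : 0 < HU u ^ (1 / 2 : ℝ) := Real.rpow_pos_of_pos hHU0 _
      have h10 : HU u ^ (1 / 2 : ℝ) * HU u ^ (1 / 2 : ℝ) ≤ C ^ n * HU u ^ (1 / 2 : ℝ) := by
        rw [← h8]; exact h6
      exact le_of_mul_le_mul_right h10 h9
    calc HU u = (HU u ^ (1 / 2 : ℝ)) ^ 2 := by
          rw [← Real.rpow_natCast, ← Real.rpow_mul hHU0.le]
          norm_num
      _ ≤ (C ^ n) ^ 2 := pow_le_pow_left₀ (Real.rpow_nonneg hHU0.le _) h7 2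
  have hset : {u : Fin d → K | IsUv T u ∧ Avoid (⋃ p : P, (E p ∪ E' p)) u ∧
      ∀ p ∈ P, ∀ q : HeightOneSpectrum (𝓞 K), q ∉ T →
        ∃ b, FinitePlace.mk q (eval u (A b p)) ≤
          FinitePlace.mk q (eval u p * eval u (B' b p))} ⊆
      Set.pi Set.univ fun _ => {a : K | Height.mulHeight₁ a ≤ M} := by
    rintro u ⟨hu, hav, hq⟩ i -
    have h := hmain u hu hav hq
    refine le_trans ?_ h
    unfold HU
    have h3 := Finset.prod_le_prod_of_subset_of_one_le (f := fun i => Height.mulHeight₁ (u i))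
      (Finset.singleton_subset_iff.mpr (Finset.mem_univ i))
      (fun p _ => Height.mulHeight₁_nonneg _) (fun p _ _ => Height.one_le_mulHeight₁ _)
    rw [Finset.prod_singleton] at h3
    exact h3
  exact (Set.Finite.pi' (fun _ => NumberField.finite_setOfPred_mulHeight₁_le K M)).subset
    (by simpa [Set.pi] using hset)

end Pool.Agent.Work.UP
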