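import Pool.Agent.Work.UP.LUfd
import Pool.Agent.Work.UP.TorusNF

/-!
# LTorus (M): the arithmetic end results for Laurent polynomials

`unitEqL`: `A = single s 1 * toL p` (`exists_toL`), `ev u A = mon u s * eval (cu u) p` (`ev_toL`,
`ev_single`), apply `unitEq` to `p ≠ 0`.
`torusNFL`: for `p ∈ P` choose `p = single s 1 * toL p̃` with `p̃` not divisible by a variable
(`exists_reduced`); let `P̃` be the set of the `p̃` (finite; choose one `p` for each `p̃`, or better
index by `p`: it is enough to apply `torusNF` with `P̃ = r '' P`, `r` a reduction function, and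
`A b p̃ :=` the polynomial of `A b p` for a chosen `p ∈ P` with `r p = p̃`). For `A b p = single s' 1 *
toL Ã`, `B' b p = single s'' 1 * toL B̃`: `IsRelPrime Ã p̃` by `isRelPrime_of_toL` (multiplying by a
unit does not change `IsRelPrime`). At `q ∉ T` all monomials in `u` have absolute value `1`
(`mk_mon_eq_one`), so the inequalities are the same. The supports of `p` and `p̃` differ by the
translation by `s` (`support_toL`, `nz`), so the differences of exponents are the same
and `Spans P̃` holds. (If `A b p = 0` take `Ã = 0`.) Finally the set of `u : Fin d → Kˣ` maps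
injectively to the set of `cu u`.
-/

set_option autoImplicit false

noncomputable section

namespace Pool.Agent.Work.UP

open NumberField IsDedekindDomain

private theorem ev_single_mul_toL {K : Type} [Field K] {d : ℕ} (u : Fin d → Kˣ) (s : Fin d → ℤ)
    (p : MvPolynomial (Fin d) K) :
    ev (RingHom.id K) u (AddMonoidAlgebra.single s 1 * toL p) =
      mon (cu u) s * MvPolynomial.eval (cu u) p := by
  rw [map_mul, ev_single, ev_toL]
  simp

theorem unitEqL (K : Type) [Field K] [NumberField K] (T : Finset (HeightOneSpectrum (𝓞 K)))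
    {d : ℕ} (A : Lp K d) (hA : A ≠ 0) :
    ∃ E : Set ((Fin d → ℤ) × K), E.Finite ∧
      ∀ u : Fin d → Kˣ, IsUv T (cu u) → Avoid E (cu u) → ev (RingHom.id K) u A ≠ 0 := by
  obtain ⟨p, s, rfl⟩ := exists_toL A
  have hp : p ≠ 0 := by
    rintro rfl
    simp at hA
  obtain ⟨E, hE, h⟩ := unitEq K T p hp
  refine ⟨E, hE, fun u hu ha => ?_⟩
  rw [ev_single_mul_toL]
  exact mul_ne_zero (mon_ne_zero u s) (h (cu u) hu ha)

private theorem mem_support_single_mul {K : Type} [Field K] {d : ℕ} (s : Fin d → ℤ)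
    (p : MvPolynomial (Fin d) K) (x : Fin d → ℤ)
    (hx : x ∈ (AddMonoidAlgebra.single s 1 * toL p : Lp K d).coeff.support) :
    ∃ t ∈ p.support, x = s + nz t := by
  rw [Finsupp.mem_support_iff, AddMonoidAlgebra.coeff_single_mul_apply, one_mul,
    ← Finsupp.mem_support_iff, support_toL] at hx
  obtain ⟨t, ht, h⟩ := hx
  refine ⟨t, ht, ?_⟩
  rw [← h]
  abel

private theorem mk_ev {K : Type} [Field K] [NumberField K]
    {T : Finset (HeightOneSpectrum (𝓞 K))} {d : ℕ} {u : Fin d → Kˣ} (hu : IsUv T (cu u))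
    {f : Lp K d} {s : Fin d → ℤ} {p : MvPolynomial (Fin d) K}
    (hf : f = AddMonoidAlgebra.single s 1 * toL p) (q : HeightOneSpectrum (𝓞 K)) (hq : q ∉ T) :
    FinitePlace.mk q (ev (RingHom.id K) u f) = FinitePlace.mk q (MvPolynomial.eval (cu u) p) := by
  rw [hf, ev_single_mul_toL, map_mul, mk_mon_eq_one hu s q hq, one_mul]

private theorem isRelPrime_single_mul {K : Type} [Field K] {d : ℕ} {a b : Lp K d}
    {s t : Fin d → ℤ} (h : IsRelPrime (AddMonoidAlgebra.single s 1 * a)
      (AddMonoidAlgebra.single t 1 * b)) : IsRelPrime a b := by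
  intro c ha hb
  exact h (ha.mul_left _) (hb.mul_left _)

theorem torusNFL (K : Type) [Field K] [NumberField K] (T : Finset (HeightOneSpectrum (𝓞 K)))
    {d : ℕ} (β : Type) [Finite β] (P : Set (Lp K d)) (hP : P.Finite)
    (hP0 : ∀ p ∈ P, p ≠ 0) (hspan : SpansL P) (A B' : β → Lp K d → Lp K d)
    (hA : ∀ b, ∀ p ∈ P, IsRelPrime (A b p) p) :
    ∃ E : Set ((Fin d → ℤ) × K), E.Finite ∧
      {u : Fin d → Kˣ | IsUv T (cu u) ∧ Avoid E (cu u) ∧
        ∀ p ∈ P, ∀ q : HeightOneSpectrum (𝓞 K), q ∉ T →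
          ∃ b, FinitePlace.mk q (ev (RingHom.id K) u (A b p)) ≤
            FinitePlace.mk q (ev (RingHom.id K) u p * ev (RingHom.id K) u (B' b p))}.Finite := by
  classical
  choose rp sp hrp using (exists_toL : ∀ f : Lp K d, ∃ (p : MvPolynomial (Fin d) K)
    (s : Fin d → ℤ), f = AddMonoidAlgebra.single s 1 * toL p)
  choose! r sh hr using (exists_reduced : ∀ f : Lp K d, f ≠ 0 →
    ∃ (p : MvPolynomial (Fin d) K) (s : Fin d → ℤ), f = AddMonoidAlgebra.single s 1 * toL p ∧
      ∀ i, ¬ (MvPolynomial.X i : MvPolynomial (Fin d) K) ∣ p)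
  set g : MvPolynomial (Fin d) K → Lp K d := Function.invFunOn r P with hg
  have hgP : ∀ q ∈ r '' P, g q ∈ P ∧ r (g q) = q := by
    intro q hq
    exact ⟨Function.invFunOn_mem hq, Function.invFunOn_eq hq⟩
  have h0 : ∀ q ∈ r '' P, q ≠ 0 := by
    rintro _ ⟨p, hp, rfl⟩ h
    have h1 := (hr p (hP0 p hp)).1
    rw [h, map_zero, mul_zero] at h1
    exact hP0 p hp h1
  have hsp : Spans (r '' P) := by
    unfold Spans
    unfold SpansL at hspan
    rw [eq_top_iff, ← hspan]
    apply Submodule.span_mono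
    rintro x ⟨p, hp, s, hs, s', hs', rfl⟩
    rw [(hr p (hP0 p hp)).1] at hs hs'
    obtain ⟨t, ht, rfl⟩ := mem_support_single_mul _ _ _ hs
    obtain ⟨t', ht', rfl⟩ := mem_support_single_mul _ _ _ hs'
    refine ⟨r p, ⟨p, hp, rfl⟩, t, ht, t', ht', ?_⟩
    funext i
    have e1 : ∀ t : Fin d →₀ ℕ, nz t i = (t i : ℤ) := fun t => rfl
    simp only [Pi.add_apply, e1]
    push_cast
    ring
  have hAA : ∀ b, ∀ p ∈ r '' P, IsRelPrime (rp (A b (g p))) p := by
    intro b p hp
    obtain ⟨h1, h2⟩ := hgP p hp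
    have h3 := hA b (g p) h1
    have h4 := hr (g p) (hP0 _ h1)
    rw [h2] at h4
    apply isRelPrime_of_toL h4.2
    have h5 := h3
    rw [hrp (A b (g p))] at h5
    have h6 : IsRelPrime (AddMonoidAlgebra.single (sp (A b (g p))) 1 * toL (rp (A b (g p))))
        (AddMonoidAlgebra.single (sh (g p)) 1 * toL p) := by
      rw [← h4.1]
      exact h5
    exact isRelPrime_single_mul h6
  obtain ⟨E, hE, hfin⟩ := torusNF K T β (r '' P) (hP.image r) h0 hsp
    (fun b p => rp (A b (g p))) (fun b p => rp (B' b (g p))) hAA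
  refine ⟨E, hE, ?_⟩
  have hinj : Function.Injective (cu : (Fin d → Kˣ) → (Fin d → K)) := by
    intro u v h
    funext i
    exact Units.ext (congrFun h i)
  refine (hfin.preimage hinj.injOn).subset ?_
  rintro u ⟨hu, ha, h⟩
  refine ⟨hu, ha, fun p hp q hq => ?_⟩
  obtain ⟨h1, h2⟩ := hgP p hp
  obtain ⟨b, hb⟩ := h (g p) h1 q hq
  refine ⟨b, ?_⟩
  have h4 := hr (g p) (hP0 _ h1)
  rw [h2] at h4
  rw [map_mul, mk_ev hu (hrp (A b (g p))) q hq, mk_ev hu h4.1 q hq,
    mk_ev hu (hrp (B' b (g p))) q hq] at hb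
  rw [map_mul]
  exact hb

end Pool.Agent.Work.UP
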