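import Pool.Agent.Work.UP.Defs

/-!
# Laurent polynomials in `d` variables: definitions and elementary facts (block V)

Blueprint: `/team-store/blueprint_V.md`.
-/

set_option autoImplicit false

noncomputable section

namespace Pool.Agent.Work.UP

open NumberField IsDedekindDomain

/-- Laurent polynomials in `d` variables over `k`. -/
abbrev Lp (k : Type) [Field k] (d : ℕ) : Type := AddMonoidAlgebra k (Fin d → ℤ)

/-- A tuple of units as a tuple of elements. -/
def cu {K : Type} [Field K] {d : ℕ} (u : Fin d → Kˣ) : Fin d → K := fun i => (u i : K)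

theorem mon_add {K : Type} [Field K] {d : ℕ} (u : Fin d → Kˣ) (s t : Fin d → ℤ) :
    mon (cu u) (s + t) = mon (cu u) s * mon (cu u) t := by
  unfold mon cu
  rw [← Finset.prod_mul_distrib]
  exact Finset.prod_congr rfl fun i _ => zpow_add₀ (u i).ne_zero _ _

theorem mon_zero {K : Type} [Field K] {d : ℕ} (u : Fin d → K) : mon u 0 = 1 := by
  simp [mon]

theorem mon_ne_zero {K : Type} [Field K] {d : ℕ} (u : Fin d → Kˣ) (s : Fin d → ℤ) :
    mon (cu u) s ≠ 0 :=
  Finset.prod_ne_zero_iff.2 fun i _ => zpow_ne_zero _ (u i).ne_zero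

/-- The monomials as a monoid homomorphism. -/
def monH {K : Type} [Field K] {d : ℕ} (u : Fin d → Kˣ) : Multiplicative (Fin d → ℤ) →* K where
  toFun s := mon (cu u) s.toAdd
  map_one' := by simp [mon_zero]
  map_mul' s t := by simp [mon_add]

/-- Evaluation of Laurent polynomials. -/
def ev {k K : Type} [Field k] [Field K] (e : k →+* K) {d : ℕ} (u : Fin d → Kˣ) : Lp k d →+* K :=
  AddMonoidAlgebra.liftNCRingHom e (monH u) (fun _ _ => Commute.all _ _)

theorem ev_single {k K : Type} [Field k] [Field K] (e : k →+* K) {d : ℕ} (u : Fin d → Kˣ)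
    (s : Fin d → ℤ) (a : k) : ev e u (AddMonoidAlgebra.single s a) = e a * mon (cu u) s := by
  simp [ev, monH]

/-- Two ring homomorphisms which agree on monomials are equal. -/
theorem lp_hom_ext {k : Type} [Field k] {d : ℕ} {A : Type} [Semiring A] {f g : Lp k d →+* A}
    (h : ∀ s a, f (AddMonoidAlgebra.single s a) = g (AddMonoidAlgebra.single s a)) : f = g := by
  apply RingHom.coe_addMonoidHom_injective
  apply AddMonoidAlgebra.addMonoidHom_ext
  intro s a
  exact h s a

/-- Constants. -/
def lC {k : Type} [Field k] {d : ℕ} : k →+* Lp k d := AddMonoidAlgebra.singleZeroRingHom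

theorem ev_lC {k K : Type} [Field k] [Field K] (e : k →+* K) {d : ℕ} (u : Fin d → Kˣ) (a : k) :
    ev e u (lC a) = e a := by
  show ev e u (AddMonoidAlgebra.single 0 a) = e a
  rw [ev_single, mon_zero, mul_one]

/-- Exponent vectors with last entry zero. -/
def sn {d : ℕ} : (Fin d → ℤ) →+ (Fin (d + 1) → ℤ) where
  toFun s := Fin.snoc s 0
  map_zero' := by
    funext i
    refine Fin.lastCases ?_ (fun i => ?_) i <;> simp
  map_add' s t := by
    funext i
    refine Fin.lastCases ?_ (fun i => ?_) i <;> simp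

/-- Laurent polynomials in `d` variables as Laurent polynomials in `d + 1` variables. -/
def lincl {k : Type} [Field k] {d : ℕ} : Lp k d →+* Lp k (d + 1) :=
  AddMonoidAlgebra.mapDomainRingHom k sn

theorem lincl_single {k : Type} [Field k] {d : ℕ} (s : Fin d → ℤ) (a : k) :
    lincl (AddMonoidAlgebra.single s a : Lp k d) = AddMonoidAlgebra.single (Fin.snoc s 0) a := by
  simp [lincl, sn]

theorem ev_lincl {k K : Type} [Field k] [Field K] (e : k →+* K) {d : ℕ} (u : Fin (d + 1) → Kˣ)
    (f : Lp k d) : ev e u (lincl f) = ev e (fun i => u i.castSucc) f := by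
  have h : (ev e u).comp lincl = ev e (fun i : Fin d => u i.castSucc) := by
    apply lp_hom_ext
    intro s a
    rw [RingHom.comp_apply, lincl_single, ev_single, ev_single]
    congr 1
    unfold mon cu
    rw [Fin.prod_univ_castSucc]
    simp
  exact RingHom.congr_fun h f

/-- The automorphism of the ring of Laurent polynomials given by an automorphism of the group of
exponents. -/
def lmap {k : Type} [Field k] {d : ℕ} (f : (Fin d → ℤ) ≃+ (Fin d → ℤ)) : Lp k d ≃+* Lp k d :=
  (AddMonoidAlgebra.domCongr k k f).toRingEquiv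

theorem lmap_single {k : Type} [Field k] {d : ℕ} (f : (Fin d → ℤ) ≃+ (Fin d → ℤ))
    (s : Fin d → ℤ) (a : k) :
    lmap f (AddMonoidAlgebra.single s a : Lp k d) = AddMonoidAlgebra.single (f s) a := by
  simp [lmap]

/-- The action on tuples of units: `(uact f u) i = u ^ (f e_i)`. -/
def uact {K : Type} [Field K] {d : ℕ} (f : (Fin d → ℤ) ≃+ (Fin d → ℤ)) (u : Fin d → Kˣ) :
    Fin d → Kˣ :=
  fun i => ∏ j, u j ^ f (Pi.single i 1) j

theorem mon_uact {K : Type} [Field K] {d : ℕ} (f : (Fin d → ℤ) ≃+ (Fin d → ℤ)) (u : Fin d → Kˣ)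
    (s : Fin d → ℤ) : mon (cu (uact f u)) s = mon (cu u) (f s) := by
  have hs : s = ∑ i, s i • (Pi.single i (1 : ℤ) : Fin d → ℤ) := by
    funext j
    simp [Finset.sum_apply, Pi.single_apply]
  have h2 : ∀ (S : Finset (Fin d)) (t : Fin d → (Fin d → ℤ)),
      mon (cu u) (∑ i ∈ S, t i) = ∏ i ∈ S, mon (cu u) (t i) := by
    classical
    intro S t
    induction S using Finset.induction_on with
    | empty => simp [mon_zero]
    | insert a S ha ih => rw [Finset.sum_insert ha, Finset.prod_insert ha, mon_add, ih]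
  conv_rhs => rw [hs, map_sum, h2]
  unfold mon
  refine Finset.prod_congr rfl fun i _ => ?_
  rw [map_zsmul]
  unfold cu uact
  rw [Units.coe_prod, ← Finset.prod_zpow]
  refine Finset.prod_congr rfl fun j _ => ?_
  rw [Units.val_zpow_eq_zpow_val, Pi.smul_apply, smul_eq_mul, mul_comm, zpow_mul]

theorem ev_lmap {k K : Type} [Field k] [Field K] (e : k →+* K) {d : ℕ}
    (f : (Fin d → ℤ) ≃+ (Fin d → ℤ)) (u : Fin d → Kˣ) (p : Lp k d) :
    ev e u (lmap f p) = ev e (uact f u) p := by
  have h : (ev e u).comp ((lmap f : Lp k d ≃+* Lp k d) : Lp k d →+* Lp k d) =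
      ev e (uact f u) := by
    apply lp_hom_ext
    intro s a
    rw [RingHom.comp_apply, RingHom.coe_coe, lmap_single, ev_single, ev_single, mon_uact]
  exact RingHom.congr_fun h p

theorem mon_single_one {K : Type} [Field K] {d : ℕ} (u : Fin d → K) (i : Fin d) :
    mon u (Pi.single i 1) = u i := by
  classical
  unfold mon
  rw [Finset.prod_eq_single i]
  · simp
  · intro j _ hj
    simp [hj]
  · simp

theorem uact_symm_uact {K : Type} [Field K] {d : ℕ} (f : (Fin d → ℤ) ≃+ (Fin d → ℤ))
    (u : Fin d → Kˣ) : uact f.symm (uact f u) = u := by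
  funext i
  apply Units.ext
  have h1 := mon_uact f.symm (uact f u) (Pi.single i 1)
  rw [mon_uact f u, AddEquiv.apply_symm_apply, mon_single_one, mon_single_one] at h1
  exact h1

theorem uact_uact_symm {K : Type} [Field K] {d : ℕ} (f : (Fin d → ℤ) ≃+ (Fin d → ℤ))
    (u : Fin d → Kˣ) : uact f (uact f.symm u) = u := by
  have := uact_symm_uact f.symm u
  simpa using this

theorem mk_mon_eq_one {K : Type} [Field K] [NumberField K]
    {T : Finset (HeightOneSpectrum (𝓞 K))} {d : ℕ} {u : Fin d → Kˣ} (hu : IsUv T (cu u))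
    (s : Fin d → ℤ) (p : HeightOneSpectrum (𝓞 K)) (hp : p ∉ T) :
    FinitePlace.mk p (mon (cu u) s) = 1 := by
  unfold mon
  rw [map_prod]
  refine Finset.prod_eq_one fun i _ => ?_
  rw [map_zpow₀, (hu i).2 p hp, one_zpow]

theorem isUv_uact {K : Type} [Field K] [NumberField K]
    {T : Finset (HeightOneSpectrum (𝓞 K))} {d : ℕ} {u : Fin d → Kˣ} (hu : IsUv T (cu u))
    (f : (Fin d → ℤ) ≃+ (Fin d → ℤ)) : IsUv T (cu (uact f u)) := by
  intro i
  refine ⟨(uact f u i).ne_zero, fun p hp => ?_⟩
  rw [← mon_single_one (cu (uact f u)) i, mon_uact]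
  exact mk_mon_eq_one hu _ p hp

/-- The differences of the exponents of the members of `P` span the space of all exponents. -/
def SpansL {k : Type} [Field k] {d : ℕ} (P : Set (Lp k d)) : Prop :=
  Submodule.span ℚ {x : Fin d → ℚ | ∃ p ∈ P, ∃ s ∈ p.coeff.support, ∃ s' ∈ p.coeff.support,
    x = fun i => (s i : ℚ) - (s' i : ℚ)} = ⊤

/-- The fraction field of the ring of Laurent polynomials. -/
abbrev Qp (k : Type) [Field k] (d : ℕ) : Type := FractionRing (Lp k d)

/-- Entire units as units of `ℂ` at `z`. -/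
def uz {d : ℕ} (u : Fin d → ℂ → ℂ) (hu : IsUC u) (z : ℂ) : Fin d → ℂˣ :=
  fun i => Units.mk0 (u i z) ((hu i).2 z)

end Pool.Agent.Work.UP
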