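import Pool.Agent.Work.UP.Defs
import Pool.Agent.Work.SUB.Defs

/-!
# Definitions for block G (values of polynomials at `T`-units)
-/

set_option autoImplicit false

noncomputable section

namespace Pool.Agent.Work.UP

open NumberField IsDedekindDomain MvPolynomial

/-- `a` is a `T`-unit. -/
def IsU {K : Type} [Field K] [NumberField K] (T : Finset (HeightOneSpectrum (𝓞 K))) (a : K) :
    Prop :=
  a ≠ 0 ∧ ∀ p : HeightOneSpectrum (𝓞 K), p ∉ T → FinitePlace.mk p a = 1

/-- The product of the normalised absolute values over the infinite places and the places in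
`T`. -/
def inP {K : Type} [Field K] [NumberField K] (T : Finset (HeightOneSpectrum (𝓞 K))) (a : K) : ℝ :=
  ∏ w, SUnit.placeAbs K T w a ^ SUnit.placeMult K T w

/-- The product over the same places of the maximum norms of a vector. -/
def HT {K : Type} [Field K] [NumberField K] (T : Finset (HeightOneSpectrum (𝓞 K))) {n : ℕ}
    (x : Fin n → K) : ℝ :=
  SUB.HR (SUnit.placeAbs K T) (SUnit.placeMult K T) x

/-- The monomial with exponent vector `s`, evaluated at `u`. -/
def mons {K : Type} [Field K] {d : ℕ} (u : Fin d → K) (s : Fin d →₀ ℕ) : K :=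
  mon u (fun i => (s i : ℤ))

end Pool.Agent.Work.UP
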