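import Pool.Agent.Work.UP.GDefs

/-!
# OutP (block G, size M): products over the primes outside `T`, heights

PROOFS. `finite_ne_one`: `FinitePlace.hasFiniteMulSupport` transported along
`FinitePlace.equivHeightOneSpectrum` (see `SUnit/NumberFieldData.lean`). `finite_iSup`, `finite_max`: for all
but finitely many `p` one has `|x i|_p = 1` for all `i` with `x i ≠ 0` and `|x i|_p = 0` for the other
ones. `outP_le_outP`: restrict both finprods to a finite set containing both supports
(`finprod_eq_prod_of_mulSupport_subset`), `Finset.prod_le_prod`. `outP_mul`: `finprod_mul_distrib`.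
`mulHeight_eq_outP`: `NumberField.mulHeight_eq`, split the finprod over all finite places into the
places in `T` and outside. `mulHeight_units`: all `|x i|_p = 1` for `p ∉ T`. `polyBound`:
`C p = max 1 (max over s of |A.coeff s|_p)`, ultrametric inequality (`FinitePlace.add_le`,
`IsNonarchimedean.finset_...`; or `Finset.induction_on`), `|u ^ s|_p = 1`.
-/

set_option autoImplicit false

noncomputable section

namespace Pool.Agent.Work.UP

open NumberField IsDedekindDomain MvPolynomial

variable {K : Type} [Field K] [NumberField K]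

theorem finite_ne_one {a : K} (ha : a ≠ 0) :
    {p : HeightOneSpectrum (𝓞 K) | FinitePlace.mk p a ≠ 1}.Finite := by
  have h2 := FinitePlace.hasFiniteMulSupport (K := K) ha
  have h3 : {p : HeightOneSpectrum (𝓞 K) | FinitePlace.mk p a ≠ 1} =
      (FinitePlace.equivHeightOneSpectrum (K := K)).symm ⁻¹'
        (fun w : FinitePlace K => w a).mulSupport := by
    ext p
    rfl
  rw [h3]
  exact Set.Finite.preimage ((FinitePlace.equivHeightOneSpectrum (K := K)).symm.injective.injOn) h2

/-- an auxiliary lemma: maximum norms equal one almost everywhere -/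
private theorem aux_iSup {n : ℕ} {x : Fin n → K} {p : HeightOneSpectrum (𝓞 K)}
    {i₀ : Fin n} (hi₀ : x i₀ ≠ 0) (h : ∀ i, x i ≠ 0 → FinitePlace.mk p (x i) = 1) :
    (⨆ i, FinitePlace.mk p (x i)) = 1 := by
  have : Nonempty (Fin n) := ⟨i₀⟩
  apply le_antisymm
  · refine ciSup_le fun i => ?_
    by_cases hi : x i = 0
    · rw [hi, map_zero]; exact zero_le_one
    · exact (h i hi).le
  · rw [← h i₀ hi₀]
    exact Finite.le_ciSup_of_le i₀ le_rfl

theorem finite_iSup {n : ℕ} {x : Fin n → K} (hx : x ≠ 0) :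
    {p : HeightOneSpectrum (𝓞 K) | (⨆ i, FinitePlace.mk p (x i)) ≠ 1}.Finite := by
  obtain ⟨i₀, hi₀⟩ : ∃ i, x i ≠ 0 := Function.ne_iff.mp hx
  have hfin : (⋃ i : {i : Fin n // x i ≠ 0},
      {p : HeightOneSpectrum (𝓞 K) | FinitePlace.mk p (x i.1) ≠ 1}).Finite :=
    Set.finite_iUnion fun i => finite_ne_one i.2
  refine hfin.subset ?_
  intro p hp
  by_contra hc
  apply hp
  refine aux_iSup hi₀ ?_
  intro i hi
  by_contra h1
  exact hc (Set.mem_iUnion.2 ⟨⟨i, hi⟩, h1⟩)

theorem finite_max {a b : K} (ha : a ≠ 0) :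
    {p : HeightOneSpectrum (𝓞 K) | max (FinitePlace.mk p a) (FinitePlace.mk p b) ≠ 1}.Finite := by
  by_cases hb : b = 0
  · refine (finite_ne_one ha).subset ?_
    intro p hp h1
    apply hp
    rw [hb, map_zero, h1]
    exact max_eq_left zero_le_one
  · refine ((finite_ne_one ha).union (finite_ne_one hb)).subset ?_
    intro p hp
    by_contra hc
    simp only [Set.mem_union, Set.mem_ofPred_eq, not_or, not_not] at hc
    apply hp
    rw [hc.1, hc.2, max_self]

omit [NumberField K] in
private theorem sup_sub {T : Finset (HeightOneSpectrum (𝓞 K))}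
    {f : HeightOneSpectrum (𝓞 K) → ℝ} (hf : {p | f p ≠ 1}.Finite) :
    (fun p : {p : HeightOneSpectrum (𝓞 K) // p ∉ T} => f p.1).HasFiniteMulSupport :=
  Set.Finite.preimage Subtype.val_injective.injOn hf

theorem outP_le_outP (T : Finset (HeightOneSpectrum (𝓞 K))) {f g : HeightOneSpectrum (𝓞 K) → ℝ}
    (hf : {p | f p ≠ 1}.Finite) (hg : {p | g p ≠ 1}.Finite) (h0 : ∀ p, p ∉ T → 0 ≤ f p)
    (h : ∀ p, p ∉ T → f p ≤ g p) : outP T f ≤ outP T g := by
  unfold outP
  exact finprod_le_finprod (sup_sub hf) (fun p => h0 p.1 p.2) (sup_sub hg) fun p => h p.1 p.2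

theorem outP_mul (T : Finset (HeightOneSpectrum (𝓞 K))) {f g : HeightOneSpectrum (𝓞 K) → ℝ}
    (hf : {p | f p ≠ 1}.Finite) (hg : {p | g p ≠ 1}.Finite) :
    outP T (fun p => f p * g p) = outP T f * outP T g := by
  unfold outP
  exact finprod_mul_distrib (sup_sub hf) (sup_sub hg)

theorem outP_nonneg (T : Finset (HeightOneSpectrum (𝓞 K))) {f : HeightOneSpectrum (𝓞 K) → ℝ}
    (h0 : ∀ p, p ∉ T → 0 ≤ f p) : 0 ≤ outP T f := by
  unfold outP
  exact finprod_nonneg fun p => h0 p.1 p.2

theorem outP_pos (T : Finset (HeightOneSpectrum (𝓞 K))) {f : HeightOneSpectrum (𝓞 K) → ℝ}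
    (h0 : ∀ p, p ∉ T → 0 < f p) : 0 < outP T f := by
  unfold outP
  exact finprod_induction (p := fun x : ℝ => 0 < x) zero_lt_one (fun _ _ => mul_pos)
    fun p => h0 p.1 p.2

/-- splitting of a product over all primes -/
private theorem split_outP (T : Finset (HeightOneSpectrum (𝓞 K)))
    {f : HeightOneSpectrum (𝓞 K) → ℝ} (hf : {p | f p ≠ 1}.Finite) :
    ∏ᶠ p, f p = (∏ p : {p : HeightOneSpectrum (𝓞 K) // p ∈ T}, f p.1) * outP T f := by
  have h1 : outP T f = ∏ᶠ p ∈ ((T : Set (HeightOneSpectrum (𝓞 K)))ᶜ), f p := by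
    unfold outP
    exact finprod_subtype_eq_finprod_cond (f := f) (fun p => p ∉ T)
  have h2 : (∏ p : {p : HeightOneSpectrum (𝓞 K) // p ∈ T}, f p.1) =
      ∏ᶠ p ∈ (T : Set (HeightOneSpectrum (𝓞 K))), f p := by
    rw [finprod_mem_coe_finset, ← Finset.prod_coe_sort T]
  rw [h1, h2, ← finprod_mem_univ f, Set.compl_eq_univ_sdiff]
  exact (finprod_mem_mul_sdiff' (Set.subset_univ _) (hf.subset fun p hp => hp.2)).symm

theorem mulHeight_eq_outP (T : Finset (HeightOneSpectrum (𝓞 K))) {n : ℕ} {x : Fin n → K}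
    (hx : x ≠ 0) :
    Height.mulHeight x = HT T x * outP T (fun p => ⨆ i, FinitePlace.mk p (x i)) := by
  rw [NumberField.mulHeight_eq hx]
  have h4 : ∏ᶠ w : FinitePlace K, (⨆ i, w (x i)) =
      ∏ᶠ p : HeightOneSpectrum (𝓞 K), ⨆ i, FinitePlace.mk p (x i) := by
    rw [← finprod_comp_equiv (FinitePlace.equivHeightOneSpectrum (K := K)).symm]
    rfl
  rw [h4, split_outP T (finite_iSup hx), ← mul_assoc]
  congr 1
  unfold HT SUB.HR
  rw [Fintype.prod_sum_type]
  congr 1
  refine Finset.prod_congr rfl fun p _ => ?_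
  show _ = SUB.nrm (FinitePlace.mk p.1).1 x ^ 1
  rw [pow_one]
  rfl

theorem mulHeight_units {T : Finset (HeightOneSpectrum (𝓞 K))} {n : ℕ} (hn : 0 < n)
    {x : Fin n → K} (hx : ∀ i, IsU T (x i)) : Height.mulHeight x = HT T x := by
  have i₀ : Fin n := ⟨0, hn⟩
  have hx0 : x ≠ 0 := by
    intro h
    exact (hx i₀).1 (by rw [h]; rfl)
  rw [mulHeight_eq_outP T hx0]
  have : outP T (fun p => ⨆ i, FinitePlace.mk p (x i)) = 1 := by
    unfold outP
    refine finprod_eq_one_of_forall_eq_one fun p => ?_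
    exact aux_iSup (hx i₀).1 fun i _ => (hx i).2 p.1 p.2
  rw [this, mul_one]

private theorem mk_nonneg (p : HeightOneSpectrum (𝓞 K)) (a : K) : 0 ≤ FinitePlace.mk p a :=
  apply_nonneg _ _

theorem polyBound (T : Finset (HeightOneSpectrum (𝓞 K))) {d : ℕ} (A : MvPolynomial (Fin d) K) :
    ∃ C : HeightOneSpectrum (𝓞 K) → ℝ, (∀ p, 1 ≤ C p) ∧ {p | C p ≠ 1}.Finite ∧
      ∀ u : Fin d → K, IsUv T u → ∀ p, p ∉ T → FinitePlace.mk p (eval u A) ≤ C p := by
  induction A using MvPolynomial.induction_on' with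
  | monomial s a =>
    refine ⟨fun p => max 1 (FinitePlace.mk p a), fun p => le_max_left _ _, ?_, ?_⟩
    · by_cases ha : a = 0
      · refine Set.Finite.subset Set.finite_empty ?_
        intro p hp
        exact (hp (by show max 1 (FinitePlace.mk p a) = 1; rw [ha, map_zero]; exact max_eq_left zero_le_one)).elim
      · refine (finite_ne_one ha).subset ?_
        intro p hp h1
        exact hp (by show max 1 (FinitePlace.mk p a) = 1; rw [h1, max_self])
    · intro u hu p hp
      rw [eval_monomial, map_mul]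
      have h1 : FinitePlace.mk p (s.prod fun i e => u i ^ e) = 1 := by
        rw [Finsupp.prod, map_prod]
        refine Finset.prod_eq_one fun i _ => ?_
        rw [map_pow, (hu i).2 p hp, one_pow]
      rw [h1, mul_one]
      exact le_max_right _ _
  | add A B hA hB =>
    obtain ⟨C, hC1, hCf, hC⟩ := hA
    obtain ⟨D, hD1, hDf, hD⟩ := hB
    refine ⟨fun p => max (C p) (D p), fun p => (hC1 p).trans (le_max_left _ _), ?_, ?_⟩
    · refine (hCf.union hDf).subset ?_
      intro p hp
      by_contra hc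
      simp only [Set.mem_union, Set.mem_ofPred_eq, not_or, not_not] at hc
      exact hp (by show max (C p) (D p) = 1; rw [hc.1, hc.2, max_self])
    · intro u hu p hp
      rw [map_add]
      refine (FinitePlace.add_le _ _ _).trans ?_
      exact max_le_max (hC u hu p hp) (hD u hu p hp)

end Pool.Agent.Work.UP
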