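import Pool.Agent.Work.SUB.Subspace
import Pool.Agent.Work.UP.UBas
import Pool.Agent.Work.UP.OutP

/-!
# UCore (block G, size M): the Subspace Theorem for tuples of units

PROOF of `unitCore`. For every place `w` choose `j w : Option (Fin n)` such that `|x_j|_w` is maximal
among `|x_1|_w, ..., |x_n|_w` and `|y|_w` (`none` stands for `y = ∑ a_i x_i`). Matrix at `w`: the identity
if `j w = none`, the identity with the row `j` replaced by `a` if `j w = some j` (determinant `1` or
`a j ≠ 0`). Apply `subspace_nf` with `δ = 1` to each of the finitely many functions `j` and take the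
union of the finite sets `𝒰`. For the `j` belonging to `x`: the product over the rows at `w` of
`|L_{w,i} x|_w` is `(∏ |x_i|_w) |y|_w / max_w`, where `max_w ≥ nrm x` is the maximum above. By `isU_inP` the
product over all `w` is `∏_w max_w ^ (-m w) ≤ (HT T x)⁻¹`. As `Height.mulHeight x = HT T x`
(`mulHeight_units`) the right hand side `HR^n mulHeight^(-n-1)` of the Subspace Theorem is `(HT T x)⁻¹`.

PROOF of `sumCore`. The same with `j w : Fin n` maximal for `|x_j|_w`: the product is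
`inP T (∑ a_i x_i) * (HT T x)⁻¹ ≤ (HT T x) ^ (-ε)`, and `δ = ε`.
-/

set_option autoImplicit false

noncomputable section

namespace Pool.Agent.Work.UP

open NumberField IsDedekindDomain MvPolynomial

variable {K : Type} [Field K] [NumberField K]

/-- The matrix belonging to a choice. -/
private def mat {n : ℕ} (a : Fin n → K) : Option (Fin n) → Matrix (Fin n) (Fin n) K
  | none => 1
  | some k => (1 : Matrix (Fin n) (Fin n) K).updateRow k a

private theorem mat_det {n : ℕ} (a : Fin n → K) (ha : ∀ i, a i ≠ 0) (o : Option (Fin n)) :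
    (mat a o).det ≠ 0 := by
  cases o with
  | none => simp [mat]
  | some k =>
    have h : ((1 : Matrix (Fin n) (Fin n) K).updateRow k a).det = a k := by
      rw [← Matrix.det_transpose, ← Matrix.updateCol_transpose, Matrix.transpose_one,
        ← Matrix.cramer_apply, Matrix.cramer_one]
      rfl
    simp only [mat]
    rw [h]
    exact ha k

/-- The value of the replaced form. -/
private def mx {n : ℕ} (v : AbsoluteValue K ℝ) (a x : Fin n → K) : Option (Fin n) → ℝ
  | none => v (∑ i, a i * x i)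
  | some k => v (x k)

private theorem mat_prod {n : ℕ} (v : AbsoluteValue K ℝ) (a x : Fin n → K) (o : Option (Fin n)) :
    (∏ i, v ((mat a o).mulVec x i)) * mx v a x o = (∏ i, v (x i)) * v (∑ i, a i * x i) := by
  cases o with
  | none => simp [mat, mx]
  | some k =>
    have h : ∀ i, (mat a (some k)).mulVec x i = if i = k then ∑ l, a l * x l else x i := by
      intro i
      simp only [mat, Matrix.mulVec, dotProduct]
      by_cases hi : i = k
      · subst hi
        simp [Matrix.updateRow_self]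
      · rw [if_neg hi]
        simp [Matrix.updateRow_ne hi, Matrix.one_apply]
    simp only [h, mx]
    rw [← Finset.mul_prod_erase Finset.univ _ (Finset.mem_univ k),
      ← Finset.mul_prod_erase Finset.univ (fun i => v (x i)) (Finset.mem_univ k)]
    have h2 : ∏ i ∈ Finset.univ.erase k, v (if i = k then ∑ l, a l * x l else x i) =
        ∏ i ∈ Finset.univ.erase k, v (x i) := by
      refine Finset.prod_congr rfl fun i hi => ?_
      rw [if_neg (Finset.ne_of_mem_erase hi)]
    rw [h2, if_pos rfl]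
    ring

private theorem core (T : Finset (HeightOneSpectrum (𝓞 K))) {n : ℕ} (hn : 2 ≤ n) (a : Fin n → K)
    (ha : ∀ i, a i ≠ 0) (δ : ℝ) (hδ : 0 < δ) :
    ∃ 𝒰 : Set (Submodule K (Fin n → K)), 𝒰.Finite ∧ (∀ U ∈ 𝒰, U ≠ ⊤) ∧
      ∀ x : Fin n → K, (∀ i, IsU T (x i)) →
        ∀ j : (InfinitePlace K ⊕ {p : HeightOneSpectrum (𝓞 K) // p ∈ T}) → Option (Fin n),
          (∀ w, SUB.nrm (SUnit.placeAbs K T w) x ≤ mx (SUnit.placeAbs K T w) a x (j w)) →
          inP T (∑ i, a i * x i) * (HT T x)⁻¹ ≤ HT T x ^ (-δ) → ∃ U ∈ 𝒰, x ∈ U := by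
  classical
  have hex := fun j : (InfinitePlace K ⊕ {p : HeightOneSpectrum (𝓞 K) // p ∈ T}) →
    Option (Fin n) => SUB.subspace_nf K T hn (fun w => mat a (j w)) (fun w => mat_det a ha (j w)) δ hδ
  choose 𝒰 h𝒰1 h𝒰2 h𝒰3 using hex
  refine ⟨⋃ j, 𝒰 j, Set.finite_iUnion h𝒰1, ?_, ?_⟩
  · intro U hU
    obtain ⟨j, hj⟩ := Set.mem_iUnion.1 hU
    exact h𝒰2 j U hj
  · intro x hx j hj hle
    have hn0 : 0 < n := by omega
    have hx0 : x ≠ 0 := by
      intro h
      exact (hx ⟨0, hn0⟩).1 (by rw [h]; rfl)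
    have hnrm : ∀ w, 0 < SUB.nrm (SUnit.placeAbs K T w) x := by
      intro w
      refine lt_of_lt_of_le ((SUnit.placeAbs K T w).pos (hx ⟨0, hn0⟩).1) ?_
      exact le_ciSup (f := fun i => SUnit.placeAbs K T w (x i)) (Set.finite_range _).bddAbove _
    have hHT : 0 < HT T x := Finset.prod_pos fun w _ => pow_pos (hnrm w) _
    have hmx : ∀ w, 0 < mx (SUnit.placeAbs K T w) a x (j w) := fun w =>
      lt_of_lt_of_le (hnrm w) (hj w)
    obtain ⟨U, hU, hxU⟩ := h𝒰3 j x hx0 (by
      rw [mulHeight_units hn0 hx]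
      have h1 : (∏ w, ∏ i, SUnit.placeAbs K T w ((mat a (j w)).mulVec x i) ^
          SUnit.placeMult K T w) * ∏ w, mx (SUnit.placeAbs K T w) a x (j w) ^
          SUnit.placeMult K T w = inP T (∑ i, a i * x i) := by
        rw [← Finset.prod_mul_distrib]
        have h2 : ∀ w, (∏ i, SUnit.placeAbs K T w ((mat a (j w)).mulVec x i) ^
            SUnit.placeMult K T w) * mx (SUnit.placeAbs K T w) a x (j w) ^
            SUnit.placeMult K T w = (∏ i, SUnit.placeAbs K T w (x i) ^ SUnit.placeMult K T w) *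
              SUnit.placeAbs K T w (∑ i, a i * x i) ^ SUnit.placeMult K T w := by
          intro w
          rw [Finset.prod_pow, Finset.prod_pow, ← mul_pow, ← mul_pow, mat_prod]
        rw [Finset.prod_congr rfl fun w _ => h2 w, Finset.prod_mul_distrib, Finset.prod_comm]
        have h3 : ∏ i, ∏ w, SUnit.placeAbs K T w (x i) ^ SUnit.placeMult K T w = 1 :=
          Finset.prod_eq_one fun i _ => isU_inP (hx i)
        rw [h3, one_mul]
        rfl
      have h4 : HT T x ≤ ∏ w, mx (SUnit.placeAbs K T w) a x (j w) ^ SUnit.placeMult K T w :=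
        Finset.prod_le_prod (fun w _ => pow_nonneg (hnrm w).le _)
          fun w _ => pow_le_pow_left₀ (hnrm w).le (hj w) _
      have h5 : 0 ≤ inP T (∑ i, a i * x i) :=
        Finset.prod_nonneg fun w _ => pow_nonneg (AbsoluteValue.nonneg _ _) _
      have h6 : ∏ w, ∏ i, SUnit.placeAbs K T w ((mat a (j w)).mulVec x i) ^
          SUnit.placeMult K T w ≤ inP T (∑ i, a i * x i) * (HT T x)⁻¹ := by
        have h7 : 0 < ∏ w, mx (SUnit.placeAbs K T w) a x (j w) ^ SUnit.placeMult K T w :=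
          lt_of_lt_of_le hHT h4
        rw [← eq_div_iff h7.ne'] at h1
        rw [h1, div_eq_mul_inv]
        exact mul_le_mul_of_nonneg_left (inv_anti₀ hHT h4) h5
      refine (h6.trans hle).trans (le_of_eq ?_)
      show HT T x ^ (-δ) = HT T x ^ (n : ℝ) * HT T x ^ (-(n : ℝ) - δ)
      rw [← Real.rpow_add hHT]
      congr 1
      ring)
    exact ⟨U, Set.mem_iUnion.2 ⟨j, hU⟩, hxU⟩

private theorem nrm_attained {n : ℕ} (hn : 0 < n) (v : AbsoluteValue K ℝ) (x : Fin n → K) :
    ∃ k, SUB.nrm v x = v (x k) := by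
  haveI : Nonempty (Fin n) := ⟨⟨0, hn⟩⟩
  obtain ⟨k, hk⟩ := exists_eq_ciSup_of_finite (f := fun i => v (x i))
  exact ⟨k, hk.symm⟩

theorem unitCore (T : Finset (HeightOneSpectrum (𝓞 K))) {n : ℕ} (hn : 2 ≤ n) (a : Fin n → K)
    (ha : ∀ i, a i ≠ 0) :
    ∃ 𝒰 : Set (Submodule K (Fin n → K)), 𝒰.Finite ∧ (∀ U ∈ 𝒰, U ≠ ⊤) ∧
      ∀ x : Fin n → K, (∀ i, IsU T (x i)) → IsU T (∑ i, a i * x i) → ∃ U ∈ 𝒰, x ∈ U := by
  obtain ⟨𝒰, h1, h2, h3⟩ := core T hn a ha 1 one_pos
  refine ⟨𝒰, h1, h2, fun x hx hy => ?_⟩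
  have hn0 : 0 < n := by omega
  have hj : ∀ w, ∃ o : Option (Fin n),
      SUB.nrm (SUnit.placeAbs K T w) x ≤ mx (SUnit.placeAbs K T w) a x o := by
    intro w
    obtain ⟨k, hk⟩ := nrm_attained hn0 (SUnit.placeAbs K T w) x
    exact ⟨some k, hk.le⟩
  choose j hj using hj
  refine h3 x hx j hj ?_
  rw [isU_inP hy, one_mul, Real.rpow_neg_one]

theorem sumCore (T : Finset (HeightOneSpectrum (𝓞 K))) {n : ℕ} (hn : 2 ≤ n) (a : Fin n → K)
    (ha : ∀ i, a i ≠ 0) (ε : ℝ) (hε : 0 < ε) :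
    ∃ 𝒰 : Set (Submodule K (Fin n → K)), 𝒰.Finite ∧ (∀ U ∈ 𝒰, U ≠ ⊤) ∧
      ∀ x : Fin n → K, (∀ i, IsU T (x i)) →
        inP T (∑ i, a i * x i) ≤ HT T x ^ (1 - ε) → ∃ U ∈ 𝒰, x ∈ U := by
  obtain ⟨𝒰, h1, h2, h3⟩ := core T hn a ha ε hε
  refine ⟨𝒰, h1, h2, fun x hx hy => ?_⟩
  have hn0 : 0 < n := by omega
  have hj : ∀ w, ∃ o : Option (Fin n),
      SUB.nrm (SUnit.placeAbs K T w) x ≤ mx (SUnit.placeAbs K T w) a x o := by
    intro w
    obtain ⟨k, hk⟩ := nrm_attained hn0 (SUnit.placeAbs K T w) x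
    exact ⟨some k, hk.le⟩
  choose j hj using hj
  refine h3 x hx j hj ?_
  have hHT : 0 < HT T x := by
    refine Finset.prod_pos fun w _ => pow_pos ?_ _
    refine lt_of_lt_of_le ((SUnit.placeAbs K T w).pos (hx ⟨0, hn0⟩).1) ?_
    exact le_ciSup (f := fun i => SUnit.placeAbs K T w (x i)) (Set.finite_range _).bddAbove _
  calc inP T (∑ i, a i * x i) * (HT T x)⁻¹ ≤ HT T x ^ (1 - ε) * (HT T x)⁻¹ :=
        mul_le_mul_of_nonneg_right hy (inv_nonneg.2 hHT.le)
    _ = HT T x ^ (-ε) := by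
        rw [← Real.rpow_neg_one, ← Real.rpow_add hHT]
        congr 1
        ring

end Pool.Agent.Work.UP
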