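import Pool.Agent.Work.UP.NDefs

/-!
# NBase (block N, size M): circle averages

PROOF. `avg_mono`: let `f' z = min (f z) (g z)`. `f' = f` outside a discrete set, so the circle
averages of `f'` and `f` agree (`Real.circleAverage_congr_codiscreteWithin`, and
`Filter.codiscreteWithin_mono` to pass from `codiscrete ℂ` to the sphere; see
`ValueDistribution.proximity_congr_codiscrete` for the pattern), `f'` is circle integrable
(minimum of integrable functions: `MeasureTheory.Integrable.inf`, or
`CircleIntegrable` is `IntervalIntegrable`; or congruence with `f`), and `f' ≤ g` everywhere: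
`Real.circleAverage_mono`.
`char_entire`: `ValueDistribution.characteristic = proximity + logCounting`, `proximity_top`, and
`logCounting f ⊤ = 0`, because the divisor of an entire function is nonnegative
(`MeromorphicOn.AnalyticOnNhd.divisor_nonneg`, `logCounting_top`, `negPart_eq_zero`).
`avg_log_unit`: `AnalyticOnNhd.circleAverage_log_norm_of_ne_zero` (in `JensenFormula`); for `r = 0` the
circle average is the value at the centre.
`avg_abs_unit`: `|x| = 2 * x⁺ - x`, `log⁺ t = max 0 (log t)`, `char_entire`, `avg_log_unit`; all functions are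
continuous, hence circle integrable (`Continuous.circleIntegrable` or
`ContinuousOn.circleIntegrable`).
`jensen`: `MeromorphicOn.circleAverage_log_norm` or
`ValueDistribution.characteristic_sub_characteristic_inv` together with
`characteristic_sub_characteristic_inv_of_ne_zero` (`c = log` of the norm of the trailing coefficient at
`0`), `log_counting_zero_sub_logCounting_top` and `logCounting f ⊤ = 0`.
-/

set_option autoImplicit false

noncomputable section

namespace Pool.Agent.Work.UP

open ValueDistribution Filter

/-- Monotonicity of circle averages, disregarding discrete sets. -/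
theorem avg_mono {f g : ℂ → ℝ} {r : ℝ} (hr : r ≠ 0) (hf : CircleIntegrable f 0 r)
    (hg : CircleIntegrable g 0 r) (h : ∀ᶠ z in codiscrete ℂ, f z ≤ g z) :
    Real.circleAverage f 0 r ≤ Real.circleAverage g 0 r := by
  have h1 : CircleIntegrable (fun z => min (f z) (g z)) 0 r := ⟨hf.1.inf hg.1, hf.2.inf hg.2⟩
  have h2 : Real.circleAverage f 0 r = Real.circleAverage (fun z => min (f z) (g z)) 0 r := by
    refine Real.circleAverage_congr_codiscreteWithin ?_ hr
    have h3 : ∀ᶠ z in codiscreteWithin (Metric.sphere (0 : ℂ) |r|), f z ≤ g z :=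
      h.filter_mono (codiscreteWithin_mono (Set.subset_univ _))
    filter_upwards [h3] with z hz
    exact (min_eq_left hz).symm
  rw [h2]
  exact Real.circleAverage_mono h1 hg fun z _ => min_le_right _ _

theorem logCounting_top_entire {f : ℂ → ℂ} (hf : Differentiable ℂ f) (r : ℝ) :
    logCounting f ⊤ r = 0 := by
  have h1 : 0 ≤ MeromorphicOn.divisor f Set.univ :=
    MeromorphicOn.AnalyticOnNhd.divisor_nonneg fun z _ => hf.analyticAt z
  rw [logCounting_top, negPart_eq_zero.2 h1, map_zero]
  rfl

theorem char_entire {f : ℂ → ℂ} (hf : Differentiable ℂ f) (r : ℝ) :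
    characteristic f ⊤ r = Real.circleAverage (fun z => Real.posLog ‖f z‖) 0 r := by
  have h1 : characteristic f ⊤ r = proximity f ⊤ r + logCounting f ⊤ r := rfl
  rw [h1, logCounting_top_entire hf, add_zero, proximity_top]

theorem avg_log_unit {g : ℂ → ℂ} (hg : Differentiable ℂ g) (h0 : ∀ z, g z ≠ 0) (r : ℝ) :
    Real.circleAverage (fun z => Real.log ‖g z‖) 0 r = Real.log ‖g 0‖ := by
  exact AnalyticOnNhd.circleAverage_log_norm_of_ne_zero (fun z _ => hg.analyticAt z)
    (fun z _ => h0 z)

theorem avg_abs_unit {g : ℂ → ℂ} (hg : Differentiable ℂ g) (h0 : ∀ z, g z ≠ 0) (r : ℝ) :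
    Real.circleAverage (fun z => |Real.log ‖g z‖|) 0 r =
      2 * characteristic g ⊤ r - Real.log ‖g 0‖ := by
  have hc1 : Continuous fun z => Real.log ‖g z‖ :=
    hg.continuous.norm.log fun z => norm_ne_zero_iff.2 (h0 z)
  have hc2 : Continuous fun z => Real.posLog ‖g z‖ := by
    unfold Real.posLog
    exact continuous_const.max hc1
  have h1 : (fun z => |Real.log ‖g z‖|) =
      fun z => (2 : ℝ) • Real.posLog ‖g z‖ - Real.log ‖g z‖ := by
    funext z
    rw [smul_eq_mul]
    unfold Real.posLog
    rcases le_total 0 (Real.log ‖g z‖) with h | h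
    · rw [abs_of_nonneg h, max_eq_right h]
      ring
    · rw [abs_of_nonpos h, max_eq_left h]
      ring
  have hi1 : CircleIntegrable (fun z => Real.log ‖g z‖) 0 r := hc1.continuousOn.circleIntegrable'
  have hi2 : CircleIntegrable (fun z => (2 : ℝ) • Real.posLog ‖g z‖) 0 r :=
    (hc2.const_smul (2 : ℝ)).continuousOn.circleIntegrable'
  rw [h1, Real.circleAverage_fun_sub hi2 hi1, Real.circleAverage_fun_smul, char_entire hg,
    avg_log_unit hg h0, smul_eq_mul]

/-- Jensen's formula. -/
theorem jensen {f : ℂ → ℂ} (hf : Differentiable ℂ f) (h0 : ∃ z, f z ≠ 0) :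
    ∃ c : ℝ, ∀ r : ℝ, 0 < r →
      Real.circleAverage (fun z => Real.log ‖f z‖) 0 r = logCounting f 0 r + c := by
  have hm : Meromorphic f := fun z => (hf.analyticAt z).meromorphicAt
  refine ⟨Real.log ‖meromorphicTrailingCoeffAt f 0‖, fun r hr => ?_⟩
  have h1 := congrFun (characteristic_sub_characteristic_inv hm) r
  have h2 := characteristic_sub_characteristic_inv_of_ne_zero hm hr.ne'
  have h3 : (MeromorphicOn.divisor f Set.univ).logCounting r =
      logCounting f 0 r - logCounting f ⊤ r := by
    rw [log_counting_zero_sub_logCounting_top]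
    rfl
  rw [logCounting_top_entire hf, sub_zero] at h3
  rw [Pi.sub_apply, Pi.sub_apply, h2, h3] at h1
  linarith

end Pool.Agent.Work.UP
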