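import Pool.Agent.Work.UP.NBase
import Pool.Agent.Work.MP_e97a4d_nt.Hyp.LogDer

/-!
# NGrow (block N, size M): growth of units

PROOF. There is `z₀` with `deriv g z₀ ≠ 0` (otherwise `g` is constant:
`is_const_of_deriv_eq_zero`). `MP_e97a4d_nt.Hyp.norm_logDeriv_le'` with `f = g`, `r := ‖z₀‖`, `ρ := r` gives
(the finite set of zeros is empty: `nu g ρ a = 0` for all `a`, because the divisor of a function without
zeros and poles vanishes) `‖logDeriv g z₀‖ ≤ 64 ρ / (ρ - ‖z₀‖)^2 * circleAverage |log ‖g‖| 0 ρ` for all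
`ρ > ‖z₀‖`. With `δ = ‖logDeriv g z₀‖ > 0` and `ρ ≥ 2 ‖z₀‖ + 1` we have `ρ - ‖z₀‖ ≥ ρ / 2`, so the average is
at least `δ (ρ/2)^2 / (64 ρ) = δ ρ / 256`.
-/

set_option autoImplicit false

noncomputable section

namespace Pool.Agent.Work.UP

open ValueDistribution Filter

private theorem ng_order {g : ℂ → ℂ} (hg : Differentiable ℂ g) (h0 : ∀ z, g z ≠ 0) (z : ℂ) :
    meromorphicOrderAt g z = 0 := by
  rw [(hg.analyticAt z).meromorphicNFAt.meromorphicOrderAt_eq_zero_iff]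
  exact h0 z

private theorem ng_nu {g : ℂ → ℂ} (hg : Differentiable ℂ g) (h0 : ∀ z, g z ≠ 0) (ρ : ℝ) (a : ℂ) :
    Pool.Agent.Work.MP_e97a4d_nt.Hyp.nu g ρ a = 0 := by
  by_contra hne
  have hmem : a ∈ Metric.ball (0 : ℂ) ρ := by
    by_contra h
    apply hne
    simp [Pool.Agent.Work.MP_e97a4d_nt.Hyp.nu,
      Function.locallyFinsuppWithin.apply_eq_zero_of_notMem _ h]
  apply hne
  unfold Pool.Agent.Work.MP_e97a4d_nt.Hyp.nu
  rw [MeromorphicOn.divisor_apply (fun w _ => (hg.analyticAt w).meromorphicAt) hmem,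
    ng_order hg h0 a]
  rfl

theorem grow_unit {g : ℂ → ℂ} (hg : Differentiable ℂ g) (h0 : ∀ z, g z ≠ 0)
    (hc : ∃ z w, g z ≠ g w) :
    ∃ c : ℝ, 0 < c ∧ ∃ r₀ : ℝ, ∀ r, r₀ ≤ r →
      c * r ≤ Real.circleAverage (fun z => |Real.log ‖g z‖|) 0 r := by
  have hex : ∃ z₀, deriv g z₀ ≠ 0 := by
    by_contra hcon
    push Not at hcon
    obtain ⟨z, w, hzw⟩ := hc
    exact hzw (is_const_of_deriv_eq_zero hg hcon z w)
  obtain ⟨z₀, hz₀⟩ := hex
  have hmer : Meromorphic g := fun z => (hg.analyticAt z).meromorphicAt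
  set δ : ℝ := ‖logDeriv g z₀‖ with hδ
  have hδ0 : 0 < δ := by
    rw [hδ, norm_pos_iff, logDeriv_apply]
    exact div_ne_zero hz₀ (h0 z₀)
  refine ⟨δ / 256, by positivity, 2 * ‖z₀‖ + 1, ?_⟩
  intro r hr
  have hn := norm_nonneg z₀
  have hr0 : 0 < r := by linarith
  have hlt : ‖z₀‖ < r := by linarith
  have key := Pool.Agent.Work.MP_e97a4d_nt.Hyp.norm_logDeriv_le' (r := ‖z₀‖) (ρ := r) hn hlt hmer
    (fun z _ => ng_order hg h0 z) le_rfl (hg.analyticAt z₀) (h0 z₀)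
  have hsum : ∑ a ∈ (Pool.Agent.Work.MP_e97a4d_nt.Hyp.finite_nu hmer r).toFinset,
      (Pool.Agent.Work.MP_e97a4d_nt.Hyp.nu g r a : ℝ) * (1 / ‖z₀ - a‖ + 1 / (r - ‖z₀‖)) = 0 := by
    apply Finset.sum_eq_zero
    intro a _
    rw [ng_nu hg h0, Nat.cast_zero, zero_mul]
  rw [hsum, add_zero] at key
  set A : ℝ := Real.circleAverage (fun w => |Real.log ‖g w‖|) 0 r with hA
  have hA0 : 0 ≤ A := by
    apply Real.circleAverage_nonneg_of_nonneg
    intro x _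
    exact abs_nonneg _
  have h1 : r / 2 ≤ r - ‖z₀‖ := by linarith
  have h2 : 64 * r / (r - ‖z₀‖) ^ 2 ≤ 256 / r := by
    have h3 : (r / 2) ^ 2 ≤ (r - ‖z₀‖) ^ 2 := pow_le_pow_left₀ (by linarith) h1 2
    rw [div_le_div_iff₀ (by nlinarith) hr0]
    nlinarith
  have h4 : δ ≤ 256 / r * A := key.trans (mul_le_mul_of_nonneg_right h2 hA0)
  have h5 : 256 / r * A = 256 * A / r := by ring
  rw [h5, le_div_iff₀ hr0] at h4
  linarith

end Pool.Agent.Work.UP
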