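import Pool.Agent.Work.UP.NPoly
import Pool.Agent.Work.UP.NBase
import Pool.Agent.Work.UP.NGrow

/-!
# NChar (block N, size S-M): the mean size `Tu u` of a tuple of units

PROOF. `Tu_eq`: `tau u` is a finite sum of continuous functions (circle integrable, `tau_cont`), so
`Tu u r = ∑ j, circleAverage |log ‖u j‖| 0 r` (`Real.circleAverage_fun_sum`) and this is
`∑ j, (2 * characteristic (u j) ⊤ r - log ‖u j 0‖)` (`avg_abs_unit`).
`Tu_mono`: `ValueDistribution.characteristic_monotoneOn`. `Tu_nonneg`: `Real.circleAverage_nonneg...` for the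
nonnegative function `tau u`. `Tu_grow`: `u ⟨0, hd⟩` is not constant: `IndC` with `k = Pi.single 0 1`,
`c = u 0 0`; `grow_unit`, and the average of `|log ‖u 0‖|` is at most `Tu u r`
(`Real.circleAverage_mono` or `avg_mono`).
`char_valU_le`: `char_entire` (`valU_diff`), `valU_bound`, `Real.circleAverage_mono`, linearity of the
average.
-/

set_option autoImplicit false

noncomputable section

namespace Pool.Agent.Work.UP

open MvPolynomial ValueDistribution

private theorem nch_int {g : ℂ → ℂ} (hg : Differentiable ℂ g) (h0 : ∀ z, g z ≠ 0) (r : ℝ) :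
    CircleIntegrable (fun z => |Real.log ‖g z‖|) 0 r := by
  refine ContinuousOn.circleIntegrable' (Continuous.continuousOn ?_)
  exact ((hg.continuous.norm).log fun z => norm_ne_zero_iff.2 (h0 z)).abs

theorem Tu_eq {d : ℕ} (u : Fin d → ℂ → ℂ) (hu : IsUC u) (r : ℝ) :
    Tu u r = ∑ j, (2 * characteristic (u j) ⊤ r - Real.log ‖u j 0‖) := by
  unfold Tu tau
  rw [Real.circleAverage_fun_sum fun j _ => nch_int (hu j).1 (hu j).2 r]
  exact Finset.sum_congr rfl fun j _ => avg_abs_unit (hu j).1 (hu j).2 r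

theorem Tu_nonneg {d : ℕ} (u : Fin d → ℂ → ℂ) (r : ℝ) : 0 ≤ Tu u r := by
  exact Real.circleAverage_nonneg_of_nonneg fun z _ => tau_nonneg u z

theorem Tu_mono {d : ℕ} (u : Fin d → ℂ → ℂ) (hu : IsUC u) : MonotoneOn (Tu u) (Set.Ioi 0) := by
  intro a ha b hb hab
  rw [Tu_eq u hu, Tu_eq u hu]
  refine Finset.sum_le_sum fun j _ => ?_
  have h1 : characteristic (u j) ⊤ a ≤ characteristic (u j) ⊤ b :=
    characteristic_monotoneOn (fun z => ((hu j).1.analyticAt z).meromorphicAt) ha hb hab
  linarith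

theorem Tu_grow {d : ℕ} (hd : 0 < d) (u : Fin d → ℂ → ℂ) (hu : IsUC u) (hi : IndC u) :
    ∃ c : ℝ, 0 < c ∧ ∃ r₀ : ℝ, ∀ r, r₀ ≤ r → c * r ≤ Tu u r := by
  classical
  set i0 : Fin d := ⟨0, hd⟩ with hi0
  obtain ⟨z, hz⟩ := hi (Pi.single i0 1) (by
    intro h
    have := congrFun h i0
    rw [Pi.single_eq_same, Pi.zero_apply] at this
    exact one_ne_zero this) (u i0 0)
  have h1 : mon (fun i => u i z) (Pi.single i0 1) = u i0 z := by
    unfold mon
    rw [Finset.prod_eq_single i0]
    · rw [Pi.single_eq_same, zpow_one]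
    · intro j _ hj
      rw [Pi.single_eq_of_ne hj, zpow_zero]
    · intro h
      exact absurd (Finset.mem_univ _) h
  rw [h1] at hz
  obtain ⟨c, hc, r₀, hr⟩ := grow_unit (hu i0).1 (hu i0).2 ⟨z, 0, hz⟩
  refine ⟨c, hc, r₀, fun r hr' => (hr r hr').trans ?_⟩
  refine Real.circleAverage_mono (nch_int (hu i0).1 (hu i0).2 r)
    (ContinuousOn.circleIntegrable' (tau_cont u hu).continuousOn) fun z _ => ?_
  exact Finset.single_le_sum (f := fun j => |Real.log ‖u j z‖|) (fun j _ => abs_nonneg _)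
    (Finset.mem_univ i0)

theorem char_valU_le {d : ℕ} (u : Fin d → ℂ → ℂ) (hu : IsUC u) (A : MvPolynomial (Fin d) ℂ) :
    ∃ C : ℝ, 0 ≤ C ∧ ∀ r, 1 ≤ r → characteristic (valU u A) ⊤ r ≤ C * (1 + Tu u r) := by
  obtain ⟨C, hC, h⟩ := valU_bound u hu A
  refine ⟨C, hC, fun r _ => ?_⟩
  rw [char_entire (valU_diff u hu A)]
  have hti : CircleIntegrable (tau u) 0 r :=
    ContinuousOn.circleIntegrable' (tau_cont u hu).continuousOn
  have hti1 : CircleIntegrable (fun z => 1 + tau u z) 0 r :=
    (circleIntegrable_const 1 0 r).add hti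
  have h1 : Real.circleAverage (fun z => C • (1 + tau u z)) 0 r = C * (1 + Tu u r) := by
    rw [Real.circleAverage_fun_smul, Real.circleAverage_fun_add (circleIntegrable_const 1 0 r) hti,
      Real.circleAverage_const]
    rfl
  rw [← h1]
  refine Real.circleAverage_mono ?_ (hti1.const_smul) fun z _ => ?_
  · exact MeromorphicOn.circleIntegrable_posLog_norm
      fun z _ => ((valU_diff u hu A).analyticAt z).meromorphicAt
  · exact h z

end Pool.Agent.Work.UP
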