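import Pool.Agent.Work.UP.NDefs
import Pool.Agent.Work.MP_e97a4d_nt.Hyp.Window

/-!
# NSmall (block N, size S-M): real analysis with the error term

PROOF. `Er_le`: `posLog (T' R) ≤ posLog (|C| * (1 + T R)) ≤ posLog |C| + posLog (1 + T R)
≤ posLog |C| + (log 2 + posLog 1 + posLog (T R))` (`Real.posLog_le_posLog`, `Real.posLog_mul`,
`Real.posLog_add`, all terms nonnegative; for `T' R < 0` note `T' R ≤ |C| (1 + T R)` and
`posLog` is even: use `posLog (T' R) ≤ ...` via `0 ≤ T' R` in the hypotheses).
`noSmall`: `T` tends to infinity (`c r ≤ T r`), so `MP_e97a4d_nt.Hyp.exists_window` gives arbitrarily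
large `r` with `1 ≤ T r` and `T (r + 1 / T r) ≤ 2 T r`. With `R = r + 1 / T r ≤ r + 1`:
`T r ≤ C (1 + log⁺ (2 T r) + log⁺ (T r) + log⁺ (r + 1)) ≤ C (2 + 2 log (T r) + log (2 r))` (up to
constants), and `log r ≤ log (T r / c)`; so `T r ≤ C' (1 + log (T r))` with a constant `C'`
for arbitrarily large values of `T r`: contradiction (`Real.isLittleO_log_id_atTop` or
`Real.log_le_sub_one_of_pos` applied to a square root).
-/

set_option autoImplicit false

noncomputable section

namespace Pool.Agent.Work.UP

open Filter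

theorem Er_pos (T : ℝ → ℝ) (r R : ℝ) : 1 ≤ Er T r R := by
  unfold Er
  have h1 := @Real.posLog_nonneg (T R)
  have h2 := @Real.posLog_nonneg (1 / (R - r))
  have h3 := @Real.posLog_nonneg R
  linarith

theorem Er_le {T T' : ℝ → ℝ} {C : ℝ} (hC : ∀ r, 1 ≤ r → T' r ≤ C * (1 + T r))
    (hT : ∀ r, 1 ≤ r → 0 ≤ T r) (hT' : ∀ r, 1 ≤ r → 0 ≤ T' r) :
    ∃ C' : ℝ, 0 ≤ C' ∧ ∀ r R : ℝ, 1 ≤ r → r < R → Er T' r R ≤ C' * Er T r R := by
  have hlog2 : 0 ≤ Real.log 2 := (Real.log_pos (by norm_num)).le
  have hc0 := @Real.posLog_nonneg |C|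
  refine ⟨1 + Real.posLog |C| + Real.log 2, by linarith, ?_⟩
  intro r R hr hR
  have hR1 : 1 ≤ R := by linarith
  have h1 : T' R ≤ |C| * (1 + T R) := by
    refine (hC R hR1).trans ?_
    exact mul_le_mul_of_nonneg_right (le_abs_self C) (by linarith [hT R hR1])
  have h2 : Real.posLog (T' R) ≤ Real.posLog |C| + (Real.log 2 + Real.posLog (T R)) := by
    calc Real.posLog (T' R) ≤ Real.posLog (|C| * (1 + T R)) :=
          Real.posLog_le_posLog (hT' R hR1) h1
      _ ≤ Real.posLog |C| + Real.posLog (1 + T R) := Real.posLog_mul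
      _ ≤ _ := by
          have h3 := Real.posLog_add (x := 1) (y := T R)
          rw [Real.posLog_one] at h3
          linarith
  have h4 := Er_pos T r R
  have h5 : Er T' r R ≤ Er T r R + (Real.posLog |C| + Real.log 2) := by
    unfold Er
    linarith
  nlinarith

theorem noSmall (T : ℝ → ℝ) (hm : MonotoneOn T (Set.Ioi 0)) (c r₀ : ℝ) (hc : 0 < c)
    (hg : ∀ r, r₀ ≤ r → c * r ≤ T r) (C : ℝ)
    (h : ∀ r R : ℝ, 1 ≤ r → r < R → T r ≤ C * Er T r R) : False := by
  have hlog2 : 0 ≤ Real.log 2 := (Real.log_pos (by norm_num)).le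
  have htend : Tendsto T atTop atTop := by
    refine tendsto_atTop_mono' atTop ?_ (Tendsto.const_mul_atTop hc tendsto_id)
    filter_upwards [eventually_ge_atTop r₀] with r hr
    exact hg r hr
  set A : ℝ := 1 + Real.log 2 + Real.posLog (2 / c) with hA
  have hA0 : 0 ≤ A := by
    have := @Real.posLog_nonneg (2 / c)
    linarith
  set D : ℝ := |C| + 1 with hD
  have hD0 : 0 < D := by positivity
  have hlittle := Real.isLittleO_log_id_atTop.def (c := 1 / (12 * D)) (by positivity)
  obtain ⟨x₀, hx₀⟩ := eventually_atTop.1 hlittle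
  set M : ℝ := max (max r₀ 1) (max (x₀ / c) ((4 * D * A + 1) / c)) with hM
  obtain ⟨r, hrM, hr1, hTr, hwin⟩ :=
    Pool.Agent.Work.MP_e97a4d_nt.Hyp.exists_window hm htend M
  have hr0 : r₀ ≤ r := ((le_max_left _ _).trans (le_max_left _ _)).trans hrM
  have hrx : x₀ / c ≤ r := ((le_max_left _ _).trans (le_max_right _ _)).trans hrM
  have hrA : (4 * D * A + 1) / c ≤ r := ((le_max_right _ _).trans (le_max_right _ _)).trans hrM
  have hcr := hg r hr0
  have hx : x₀ ≤ T r := by
    rw [div_le_iff₀ hc] at hrx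
    linarith
  have hxA : 4 * D * A + 1 ≤ T r := by
    rw [div_le_iff₀ hc] at hrA
    linarith
  have hTpos : 0 < T r := by linarith
  have h1 : r < r + 1 / T r := by
    have : 0 < 1 / T r := by positivity
    linarith
  have h2 := h r (r + 1 / T r) hr1 h1
  have hlogT : Real.log (T r) ≤ 1 / (12 * D) * T r := by
    have h3 := hx₀ (T r) hx
    simp only [id, Real.norm_eq_abs] at h3
    rw [abs_of_pos hTpos] at h3
    exact (le_abs_self _).trans h3
  have hposT : Real.posLog (T r) = Real.log (T r) := by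
    rw [Real.posLog_eq_log]
    rw [abs_of_pos hTpos]
    exact hTr
  have hEr : Er T r (r + 1 / T r) ≤ A + 3 * Real.log (T r) := by
    unfold Er
    have e1 : r + 1 / T r - r = 1 / T r := by ring
    rw [e1, one_div_one_div, hposT]
    have h4 : Real.posLog (T (r + 1 / T r)) ≤ Real.log 2 + Real.log (T r) := by
      have h5 : T r ≤ T (r + 1 / T r) := by
        apply hm _ _ h1.le
        · simp only [Set.mem_Ioi]; linarith
        · simp only [Set.mem_Ioi]; linarith
      have h6 : Real.posLog (T (r + 1 / T r)) ≤ Real.posLog (2 * T r) :=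
        Real.posLog_le_posLog (by linarith) hwin
      have h7 := Real.posLog_mul (x := 2) (y := T r)
      have h8 : Real.posLog (2 : ℝ) = Real.log 2 := by
        rw [Real.posLog_eq_log]
        norm_num
      rw [hposT, h8] at h7
      linarith
    have h9 : Real.posLog (r + 1 / T r) ≤ Real.posLog (2 / c) + Real.log (T r) := by
      have h10 : r + 1 / T r ≤ 2 / c * T r := by
        have h11 : 1 / T r ≤ 1 := by
          rw [div_le_one hTpos]
          exact hTr
        have h12 : 2 / c * T r = 2 * (T r / c) := by ring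
        have h13 : r ≤ T r / c := by
          rw [le_div_iff₀ hc]
          linarith
        rw [h12]
        linarith
      have h11 : Real.posLog (r + 1 / T r) ≤ Real.posLog (2 / c * T r) :=
        Real.posLog_le_posLog (by linarith) h10
      have h12 := Real.posLog_mul (x := 2 / c) (y := T r)
      rw [hposT] at h12
      linarith
    rw [hA]
    linarith
  have hErpos := Er_pos T r (r + 1 / T r)
  have h13 : T r ≤ D * (A + 3 * Real.log (T r)) := by
    calc T r ≤ C * Er T r (r + 1 / T r) := h2
      _ ≤ D * Er T r (r + 1 / T r) := by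
          apply mul_le_mul_of_nonneg_right _ (by linarith)
          rw [hD]
          linarith [le_abs_self C]
      _ ≤ _ := mul_le_mul_of_nonneg_left hEr hD0.le
  have h14 : D * (3 * Real.log (T r)) ≤ T r / 4 := by
    have h15 : D * (3 * Real.log (T r)) ≤ D * (3 * (1 / (12 * D) * T r)) := by
      apply mul_le_mul_of_nonneg_left _ hD0.le
      linarith
    have h16 : D * (3 * (1 / (12 * D) * T r)) = T r / 4 := by
      field_simp
      norm_num
    linarith
  have h17 : D * (A + 3 * Real.log (T r)) = D * A + D * (3 * Real.log (T r)) := by ring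
  nlinarith

end Pool.Agent.Work.UP
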