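import Pool.Agent.Work.UP.NDefs
import Pool.Agent.Work.MP_e97a4d_nt.Hyp.Mero

/-!
# NWrNe (block N, size M): the Wronskian of linearly independent entire functions

PROOF. Step 1 (algebra, `diffField`): let `F` be a field with a derivation `D` over `k` such that `D a = 0` implies
that `a` is in the image of `k`. If `x : Fin n → F` is linearly independent over `k` then
`det (D^i x_j)_{i,j<n} ≠ 0`. Induction on `n`. Let `n = m + 1` and assume that the determinant
vanishes. Then there is `a ≠ 0` in `F^n` with `∑ j, a_j D^i x_j = 0` for all `i < n`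
(`Matrix.exists_mulVec_eq_zero_iff`). The last `a_m` is not zero: otherwise the first `m` columns and rows
`i < m` would be dependent, against the induction hypothesis for `x_0, ..., x_{m-1}`. Divide: `a_m = 1`.
Apply `D` to the equation for `i < m` and subtract the equation for `i + 1`:
`∑_{j<m} D(a_j) D^i x_j = 0` for all `i < m` (`D 1 = 0`). By the induction hypothesis `D(a_j) = 0`, so `a_j`
is a constant, and the equation for `i = 0` is a linear relation over `k`: contradiction.
Step 2: `F = MP_e97a4d_nt.Hyp.Mero`, `D = MP_e97a4d_nt.Hyp.D`, `k = ℂ`, `x_j = mk (X j)`. If `D (mk f) = 0` with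
`f = rep` then `deriv f = 0` outside a discrete set; so `f` is constant near every point of the
(connected) complement of a discrete set, i.e. `mk f` is a constant (for instance:
`f - f z₀` has a zero derivative near `z₀`, so vanishes near `z₀` and then outside a discrete set,
by the identity theorem for meromorphic functions, `Hyp.order_ne_top`). `D_mk` gives
`D^i (mk f) = mk (iteratedDeriv i f)`, and the determinant is `mk (wr X)` (`Matrix.det_apply`; `mk` is additive
and multiplicative: `mk_add`, `mk_mul`; it may be convenient to use the ring homomorphism from the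
subring `meroAlg`). If `wr X` vanishes everywhere, its class is `0`. Linear independence of the `mk (X j)`:
a relation `∑ c_j X_j = 0` outside a discrete set holds everywhere by continuity.
-/

set_option autoImplicit false

noncomputable section

namespace Pool.Agent.Work.UP

theorem diffField {k F : Type} [Field k] [Field F] [Algebra k F] (D : Derivation k F F)
    (hD : ∀ a, D a = 0 → ∃ c : k, algebraMap k F c = a) (n : ℕ) (x : Fin n → F)
    (hx : LinearIndependent k x) : (Matrix.of fun i j : Fin n => (D^[(i : ℕ)]) (x j)).det ≠ 0 := by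
  induction n with
  | zero =>
    rw [Matrix.det_isEmpty]
    exact one_ne_zero
  | succ m ih =>
    intro hdet
    obtain ⟨v, hv0, hv⟩ := Matrix.exists_mulVec_eq_zero_iff.2 hdet
    have hrow : ∀ i : ℕ, i ≤ m → ∑ j, (D^[i]) (x j) * v j = 0 := by
      intro i hi
      have h1 := congrFun hv ⟨i, by omega⟩
      exact h1
    have ih' := ih (fun j => x j.castSucc) (hx.comp _ (Fin.castSucc_injective m))
    have hlast : v (Fin.last m) ≠ 0 := by
      intro h0
      apply hv0
      have h2 : (Matrix.of fun i j : Fin m => (D^[(i : ℕ)]) (x j.castSucc)).mulVec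
          (fun j => v j.castSucc) = 0 := by
        funext i
        have h3 := hrow i (by omega)
        rw [Fin.sum_univ_castSucc, h0, mul_zero, add_zero] at h3
        exact h3
      have h4 := Matrix.eq_zero_of_mulVec_eq_zero ih' h2
      funext j
      refine Fin.lastCases ?_ (fun j => ?_) j
      · exact h0
      · exact congrFun h4 j
    set a : Fin (m + 1) → F := fun j => v j / v (Fin.last m) with ha
    have ha1 : a (Fin.last m) = 1 := div_self hlast
    have hrow' : ∀ i : ℕ, i ≤ m → ∑ j, a j * (D^[i]) (x j) = 0 := by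
      intro i hi
      have h1 := hrow i hi
      have h2 : ∑ j, a j * (D^[i]) (x j) = (∑ j, (D^[i]) (x j) * v j) / v (Fin.last m) := by
        rw [Finset.sum_div]
        refine Finset.sum_congr rfl fun j _ => ?_
        rw [ha]
        ring
      rw [h2, h1, zero_div]
    have hD1 : ∀ i : ℕ, i < m → ∑ j : Fin m, (D^[i]) (x j.castSucc) * D (a j.castSucc) = 0 := by
      intro i hi
      have h1 := congrArg D (hrow' i hi.le)
      rw [map_zero, map_sum] at h1
      have h2 := hrow' (i + 1) hi
      have h3 : ∑ j, D (a j * (D^[i]) (x j)) =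
          ∑ j, a j * (D^[i + 1]) (x j) + ∑ j, (D^[i]) (x j) * D (a j) := by
        rw [← Finset.sum_add_distrib]
        refine Finset.sum_congr rfl fun j _ => ?_
        rw [Derivation.leibniz, Function.iterate_succ_apply', smul_eq_mul, smul_eq_mul]
      rw [h3, h2, zero_add, Fin.sum_univ_castSucc, ha1, Derivation.map_one_eq_zero, mul_zero,
        add_zero] at h1
      exact h1
    have hDa : ∀ j, D (a j) = 0 := by
      have h2 : (Matrix.of fun i j : Fin m => (D^[(i : ℕ)]) (x j.castSucc)).mulVec
          (fun j => D (a j.castSucc)) = 0 := by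
        funext i
        exact hD1 i i.2
      have h4 := Matrix.eq_zero_of_mulVec_eq_zero ih' h2
      intro j
      refine Fin.lastCases ?_ (fun j => ?_) j
      · rw [ha1, Derivation.map_one_eq_zero]
      · exact congrFun h4 j
    choose c hc using fun j => hD (a j) (hDa j)
    have h0 := hrow' 0 (Nat.zero_le _)
    have h5 : ∑ j, c j • x j = 0 := by
      rw [← h0]
      refine Finset.sum_congr rfl fun j _ => ?_
      rw [Algebra.smul_def, hc]
      rfl
    have h6 := Fintype.linearIndependent_iff.1 hx c h5 (Fin.last m)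
    have h7 := hc (Fin.last m)
    rw [h6, map_zero, ha1] at h7
    exact zero_ne_one h7

open MP_e97a4d_nt.Hyp in
theorem wr_ne {N : ℕ} (X : Fin N → ℂ → ℂ) (hX : ∀ i, Differentiable ℂ (X i))
    (hli : LinearIndependent ℂ X) : ∃ z, wr X z ≠ 0 := by
  classical
  have hXm : ∀ i, Meromorphic (X i) := fun i z => ((hX i).analyticAt z).meromorphicAt
  have hXd : ∀ (k : ℕ) (i : Fin N), Differentiable ℂ (iteratedDeriv k (X i)) := by
    intro k i
    exact ((hX i).contDiff (n := k + 1)).differentiable_iteratedDeriv k (by
      exact_mod_cast Nat.lt_succ_self k)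
  have hXk : ∀ (k : ℕ) (i : Fin N), Meromorphic (iteratedDeriv k (X i)) :=
    fun k i z => ((hXd k i).analyticAt z).meromorphicAt
  have hDk : ∀ (k : ℕ) (i : Fin N),
      (D^[k]) (mk (X i) (hXm i)) = mk (iteratedDeriv k (X i)) (hXk k i) := by
    intro k i
    induction k with
    | zero =>
      rw [Function.iterate_zero_apply, mk_eq_iff, iteratedDeriv_zero]
    | succ k ih =>
      rw [Function.iterate_succ_apply', ih, D_mk, mk_eq_iff, iteratedDeriv_succ]
  have hcodis : ∀ f : ℂ → ℂ, Continuous f → f =ᶠ[Filter.codiscrete ℂ] 0 → f = 0 := by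
    intro f hf h
    funext z
    have h1 := eq_nhdsNE h z
    have h2 : Filter.Tendsto f (nhdsWithin z {z}ᶜ) (nhds (f z)) :=
      (hf.tendsto z).mono_left nhdsWithin_le_nhds
    have h3 : Filter.Tendsto f (nhdsWithin z {z}ᶜ) (nhds 0) :=
      (tendsto_const_nhds (x := (0 : ℂ))).congr' h1.symm
    exact tendsto_nhds_unique h2 h3
  -- constants
  have hconst : ∀ a : Mero, D a = 0 → ∃ c : ℂ, algebraMap ℂ Mero c = a := by
    intro a ha
    obtain ⟨f, hf, rfl⟩ := exists_rep a
    rw [D_mk, mk_eq_zero_iff] at ha
    obtain ⟨z₀, hz₀⟩ := (eventually_codiscrete.1 (analyticAt_codiscrete hf) 0).exists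
    have hd : ∀ᶠ z in nhds z₀, deriv f z = 0 := by
      refine (hz₀.deriv.frequently_zero_iff_eventually_zero).1 ?_
      exact (eq_nhdsNE ha z₀).frequently
    obtain ⟨r, hr, hball⟩ := Metric.eventually_nhds_iff_ball.1 (hd.and hz₀.eventually_analyticAt)
    have hcst : ∀ z ∈ Metric.ball z₀ r, f z = f z₀ := by
      intro z hz
      exact Metric.isOpen_ball.is_const_of_deriv_eq_zero
        (convex_ball z₀ r).isPreconnected
        (fun w hw => ((hball w hw).2.differentiableAt).differentiableWithinAt)
        (fun w hw => (hball w hw).1) hz (Metric.mem_ball_self hr)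
    refine ⟨f z₀, ?_⟩
    rw [← mk_const, eq_comm, mk_eq_iff]
    have hm : Meromorphic (f - fun _ => f z₀) := hf.sub (Meromorphic.const _)
    have h0 : (f - fun _ => f z₀) =ᶠ[Filter.codiscrete ℂ] 0 := by
      by_contra hne
      refine order_ne_top hm hne z₀ (meromorphicOrderAt_eq_top_iff.2 ?_)
      refine Filter.Eventually.filter_mono nhdsWithin_le_nhds ?_
      filter_upwards [Metric.ball_mem_nhds z₀ hr] with w hw
      rw [Pi.sub_apply, hcst w hw, sub_self]
    filter_upwards [h0] with w hw
    exact sub_eq_zero.1 hw
  -- linear independence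
  have hind : LinearIndependent ℂ (fun i => mk (X i) (hXm i)) := by
    rw [Fintype.linearIndependent_iff]
    intro g hg
    refine Fintype.linearIndependent_iff.1 hli g ?_
    have h1 : ∑ i, g i • mk (X i) (hXm i) =
        (Ideal.Quotient.mk zeroIdeal (∑ i, g i • (⟨X i, hXm i⟩ : meroAlg)) : Mero) := by
      rw [map_sum]
      rfl
    rw [h1] at hg
    have h2 := Ideal.Quotient.eq_zero_iff_mem.1 hg
    rw [mem_zeroIdeal] at h2
    have h3 : ((∑ i, g i • (⟨X i, hXm i⟩ : meroAlg) : meroAlg) : ℂ → ℂ) = ∑ i, g i • X i := by
      rw [AddSubmonoidClass.coe_finsetSum]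
      rfl
    rw [h3] at h2
    refine hcodis _ ?_ h2
    have h4 : Continuous (fun z => ∑ i, (g i • X i) z) :=
      continuous_finsetSum _ fun i _ => (hX i).continuous.const_smul (g i)
    have h5 : (∑ i, g i • X i) = fun z => ∑ i, (g i • X i) z := funext fun z => Finset.sum_apply _ _ _
    rw [h5]
    exact h4
  have hdet := diffField D hconst N _ hind
  by_contra hcon
  push Not at hcon
  apply hdet
  let A : Matrix (Fin N) (Fin N) meroAlg :=
    Matrix.of fun i j => ⟨iteratedDeriv (i : ℕ) (X j), hXk i j⟩
  have hA : A.det = 0 := by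
    refine Subtype.ext (funext fun z => ?_)
    let φ : meroAlg →+* ℂ := (Pi.evalRingHom (fun _ : ℂ => ℂ) z).comp meroAlg.val.toRingHom
    have h1 : φ A.det = (φ.mapMatrix A).det := RingHom.map_det φ A
    have h2 : φ.mapMatrix A = Matrix.of fun i j : Fin N => iteratedDeriv (i : ℕ) (X j) z := rfl
    rw [h2] at h1
    exact h1.trans (hcon z)
  let ψ : meroAlg →+* Mero := Ideal.Quotient.mk zeroIdeal
  have h1 : (Matrix.of fun i j : Fin N => (D^[(i : ℕ)]) (mk (X j) (hXm j))) =
      ψ.mapMatrix A := by
    ext i j
    exact hDk i j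
  have h2 := RingHom.map_det ψ A
  rw [hA, map_zero] at h2
  exact (congrArg Matrix.det h1).trans h2.symm

end Pool.Agent.Work.UP
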