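import Pool.Agent.Work.UP.NDefs

/-!
# NWr (block N, size S): the Wronskian and linear changes

PROOF. `wr_diff`: the determinant is a sum of products of the entire functions
`iteratedDeriv i (X j)` (`Matrix.det_apply`). `wr_mul`: `iteratedDeriv i` is linear on entire functions
(`iteratedDeriv_fun_sum`, `iteratedDeriv_const_mul`, or induction with `iteratedDeriv_succ` and
`deriv_sum`), so the matrix of the new family is the product of the matrix of `X` with the transpose of `M`;
`Matrix.det_mul`, `Matrix.det_transpose`.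
-/

set_option autoImplicit false

noncomputable section

namespace Pool.Agent.Work.UP

private theorem nwr_contDiff {f : ℂ → ℂ} (hf : Differentiable ℂ f) (n : WithTop ℕ∞) :
    ContDiff ℂ n f := hf.contDiff

theorem iteratedDeriv_diff {f : ℂ → ℂ} (hf : Differentiable ℂ f) (i : ℕ) :
    Differentiable ℂ (iteratedDeriv i f) := by
  exact (nwr_contDiff hf ⊤).differentiable_iteratedDeriv i (by
    exact WithTop.coe_lt_top _)

theorem wr_diff {N : ℕ} (X : Fin N → ℂ → ℂ) (hX : ∀ i, Differentiable ℂ (X i)) :
    Differentiable ℂ (wr X) := by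
  have h : wr X = fun z => ∑ σ : Equiv.Perm (Fin N), (Equiv.Perm.sign σ : ℤ) •
      ∏ i, iteratedDeriv (σ i : ℕ) (X i) z := by
    funext z
    unfold wr
    rw [Matrix.det_apply]
    rfl
  rw [h]
  refine Differentiable.fun_sum fun σ _ => ?_
  refine Differentiable.const_smul ?_ _
  exact Differentiable.fun_finsetProd fun i _ => iteratedDeriv_diff (hX i) _

theorem wr_mul {N : ℕ} (X : Fin N → ℂ → ℂ) (hX : ∀ i, Differentiable ℂ (X i))
    (M : Matrix (Fin N) (Fin N) ℂ) (z : ℂ) :
    wr (fun i z => ∑ j, M i j * X j z) z = M.det * wr X z := by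
  unfold wr
  rw [← Matrix.det_transpose M, mul_comm, ← Matrix.det_mul]
  congr 1
  ext i k
  rw [Matrix.mul_apply, Matrix.of_apply]
  rw [iteratedDeriv_fun_sum fun j _ => contDiffAt_const.mul (nwr_contDiff (hX j) _).contDiffAt]
  refine Finset.sum_congr rfl fun j _ => ?_
  rw [iteratedDeriv_const_mul_field, Matrix.transpose_apply, Matrix.of_apply, mul_comm]

end Pool.Agent.Work.UP
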