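import Pool.Agent.Work.UP.NDefs
import Pool.Agent.Work.UP.NWr

/-!
# NWrOrd (block N, size M): common zeros and the Wronskian

PROOF. Let `z` be a point and `m = D z`. The divisor of an entire function is nonnegative, so for
`m ≤ 0` there is nothing to prove. Let `m > 0` (a natural number). Every `X i` vanishes to order at least `m`
at `z` (`MeromorphicOn.divisor_apply`, `AnalyticAt.meromorphicOrderAt_eq`, no `X i` vanishes
identically, since otherwise `wr X` would vanish identically; or: the divisor of the zero function is `0 < m`),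
so `X i w = (w - z) ^ m * Y i w` for `w` near `z` with `Y i` analytic at `z`
(`natCast_le_analyticOrderAt`). With `h w = (w - z) ^ m` and the Leibniz rule for `iteratedDeriv` of a
product of analytic functions (near `z`), for `w` near `z`:
`iteratedDeriv i (X j) w = ∑_{l ≤ i} (i choose l) iteratedDeriv (i - l) h w * iteratedDeriv l (Y j) w`,
i.e. the matrix of `wr X` at `w` is a lower triangular matrix with diagonal entries `h w` times the matrix of the
`Y j`. So `wr X w = (w - z) ^ (N m) * V w` near `z` with `V` analytic at `z`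
(`Matrix.det_mul`, `Matrix.det_of_lowerTriangular`), so the order of `wr X` at `z` is at least `N m`. (Instead of
the Leibniz rule one can do row operations by induction: the claim
`∀ i, ∃ coefficients` ... ; any argument is fine.)
-/

set_option autoImplicit false

noncomputable section

namespace Pool.Agent.Work.UP

open Filter Topology

private theorem nwo_leib {N : ℕ} {h : ℂ → ℂ} {Y : ℂ → ℂ} {w : ℂ} (hh : AnalyticAt ℂ h w)
    (hY : AnalyticAt ℂ Y w) (i : Fin N) :
    iteratedDeriv (i : ℕ) (fun x => h x * Y x) w =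
      ∑ l : Fin N, (if l ≤ i then ((i : ℕ).choose l : ℂ) * iteratedDeriv ((i : ℕ) - l) h w else 0) *
        iteratedDeriv (l : ℕ) Y w := by
  have h1 := iteratedDeriv_fun_mul (n := (i : ℕ)) (x := w) (f := Y) (g := h)
    hY.contDiffAt hh.contDiffAt
  have h2 : (fun x => h x * Y x) = fun x => Y x * h x := by
    funext x; ring
  rw [h2, h1]
  have h3 : ∀ l : Fin N, (if l ≤ i then ((i : ℕ).choose l : ℂ) * iteratedDeriv ((i : ℕ) - l) h w else 0) *
        iteratedDeriv (l : ℕ) Y w =
      (fun l : ℕ => if l ≤ (i : ℕ) then ((i : ℕ).choose l : ℂ) * iteratedDeriv l Y w *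
        iteratedDeriv ((i : ℕ) - l) h w else 0) (l : ℕ) := by
    intro l
    by_cases hl : l ≤ i
    · have hl' : (l : ℕ) ≤ (i : ℕ) := hl
      simp only [if_pos hl, if_pos hl']
      ring
    · have hl' : ¬ (l : ℕ) ≤ (i : ℕ) := hl
      simp only [if_neg hl, if_neg hl', zero_mul]
  rw [Finset.sum_congr rfl (fun l _ => h3 l),
    Fin.sum_univ_eq_sum_range (fun l : ℕ => if l ≤ (i : ℕ) then ((i : ℕ).choose l : ℂ) *
      iteratedDeriv l Y w * iteratedDeriv ((i : ℕ) - l) h w else 0) N]
  rw [← Finset.sum_filter]
  apply Finset.sum_congr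
  · ext l
    simp only [Finset.mem_range, Finset.mem_filter]
    have := i.2
    omega
  · intro l _
    rfl

private theorem nwo_iter_analytic {f : ℂ → ℂ} {z : ℂ} (hf : AnalyticAt ℂ f z) (i : ℕ) :
    AnalyticAt ℂ (iteratedDeriv i f) z := by
  induction i with
  | zero => simpa [iteratedDeriv_zero] using hf
  | succ i ih =>
    rw [iteratedDeriv_succ]
    exact ih.deriv

theorem wr_divisor {N : ℕ} (X : Fin N → ℂ → ℂ) (hX : ∀ i, Differentiable ℂ (X i))
    (hne : ∃ z, wr X z ≠ 0) (D : Function.locallyFinsupp ℂ ℤ)
    (hD : ∀ i, D ≤ MeromorphicOn.divisor (X i) Set.univ) :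
    N • D ≤ MeromorphicOn.divisor (wr X) Set.univ := by
  have hW : Differentiable ℂ (wr X) := wr_diff X hX
  have hWa : AnalyticOnNhd ℂ (wr X) Set.univ := fun z _ => hW.analyticAt z
  intro z
  have hcoe : (N • D : Function.locallyFinsupp ℂ ℤ) z = N * D z := by
    rw [Function.locallyFinsuppWithin.coe_nsmul, Pi.smul_apply, nsmul_eq_mul]
  have hnn : 0 ≤ MeromorphicOn.divisor (wr X) Set.univ z :=
    MeromorphicOn.AnalyticOnNhd.divisor_nonneg hWa z
  show (N • D : Function.locallyFinsupp ℂ ℤ) z ≤ _
  rw [hcoe]
  rcases le_or_gt (D z) 0 with hm | hm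
  · exact (mul_nonpos_of_nonneg_of_nonpos (by positivity) hm).trans hnn
  obtain ⟨m, hmz⟩ : ∃ m : ℕ, D z = m := ⟨(D z).toNat, (Int.toNat_of_nonneg hm.le).symm⟩
  -- factorization of the functions
  have hfac : ∀ i, ∃ g : ℂ → ℂ, AnalyticAt ℂ g z ∧ ∀ᶠ w in 𝓝 z, X i w = (w - z) ^ m • g w := by
    intro i
    have ha : AnalyticAt ℂ (X i) z := (hX i).analyticAt z
    rw [← natCast_le_analyticOrderAt ha]
    have h1 : D z ≤ MeromorphicOn.divisor (X i) Set.univ z := hD i z
    rw [MeromorphicOn.AnalyticOnNhd.divisor_apply (fun z _ => (hX i).analyticAt z) (Set.mem_univ z),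
      hmz] at h1
    cases hn : analyticOrderAt (X i) z with
    | top => exact le_top
    | coe n =>
      rw [hn] at h1
      have h2 : ((((n : ℕ∞)).map (fun k : ℕ => (k : ℤ))).untop₀ : ℤ) = n := by
        simp
      rw [h2] at h1
      exact_mod_cast h1
  choose Y hYa hY using hfac
  have hord : ((N * m : ℕ) : ℕ∞) ≤ analyticOrderAt (wr X) z := by
    rw [natCast_le_analyticOrderAt (hW.analyticAt z)]
    refine ⟨wr Y, ?_, ?_⟩
    · have : wr Y = fun w => ∑ σ : Equiv.Perm (Fin N), Equiv.Perm.sign σ •
          ∏ i, iteratedDeriv ((σ i : Fin N) : ℕ) (Y i) w := by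
        funext w
        rw [wr, Matrix.det_apply]
        rfl
      rw [this]
      apply Finset.analyticAt_fun_sum
      intro σ _
      have h1 : AnalyticAt ℂ (fun w => ∏ i, iteratedDeriv ((σ i : Fin N) : ℕ) (Y i) w) z :=
        Finset.analyticAt_fun_prod _ fun i _ => nwo_iter_analytic (hYa i) _
      have h2 : (fun w => Equiv.Perm.sign σ • ∏ i, iteratedDeriv ((σ i : Fin N) : ℕ) (Y i) w) =
          fun w => (((Equiv.Perm.sign σ : ℤˣ) : ℤ) : ℂ) *
            ∏ i, iteratedDeriv ((σ i : Fin N) : ℕ) (Y i) w := by
        funext w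
        rw [Units.smul_def, zsmul_eq_mul]
      rw [h2]
      exact analyticAt_const.mul h1
    · have hev : ∀ᶠ w in 𝓝 z, (∀ j, AnalyticAt ℂ (Y j) w) ∧
          ∀ j, (X j) =ᶠ[𝓝 w] fun x => (x - z) ^ m * Y j x := by
        refine Filter.Eventually.and ?_ ?_
        · exact Filter.eventually_all.2 fun j => (hYa j).eventually_analyticAt
        · exact Filter.eventually_all.2 fun j => by
            have := (hY j).eventually_nhds
            filter_upwards [this] with w hw
            exact hw
      filter_upwards [hev] with w hw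
      obtain ⟨hw1, hw2⟩ := hw
      let h : ℂ → ℂ := fun x => (x - z) ^ m
      have hh : AnalyticAt ℂ h w := by
        have : AnalyticAt ℂ (fun x : ℂ => x - z) w := analyticAt_id.sub analyticAt_const
        exact this.pow m
      let L : Matrix (Fin N) (Fin N) ℂ := Matrix.of fun i l =>
        if l ≤ i then ((i : ℕ).choose l : ℂ) * iteratedDeriv ((i : ℕ) - l) h w else 0
      let B : Matrix (Fin N) (Fin N) ℂ := Matrix.of fun l j => iteratedDeriv (l : ℕ) (Y j) w
      have hprod : (Matrix.of fun i j : Fin N => iteratedDeriv (i : ℕ) (X j) w) = L * B := by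
        ext i j
        rw [Matrix.mul_apply]
        simp only [L, B, Matrix.of_apply]
        rw [(hw2 j).iteratedDeriv_eq (i : ℕ)]
        exact nwo_leib hh (hw1 j) i
      have hL : L.det = h w ^ N := by
        rw [Matrix.det_of_isLowerTriangular (M := L) (by
          intro i j hij
          simp only [L, Matrix.of_apply]
          rw [if_neg]
          intro hle
          have hij' : i < j := hij
          exact absurd hle (not_le.2 hij'))]
        have : ∀ i, L i i = h w := by
          intro i
          simp [L, iteratedDeriv_zero]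
        rw [Finset.prod_congr rfl fun i _ => this i, Finset.prod_const, Finset.card_univ,
          Fintype.card_fin]
      rw [wr, hprod, Matrix.det_mul, hL, smul_eq_mul]
      show ((w - z) ^ m) ^ N * B.det = (w - z) ^ (N * m) * B.det
      rw [← pow_mul, mul_comm m N]
  -- the order of the Wronskian is finite
  have hfin : analyticOrderAt (wr X) z ≠ ⊤ := by
    intro htop
    rw [analyticOrderAt_eq_top] at htop
    obtain ⟨z0, hz0⟩ := hne
    have h1 : Set.EqOn (wr X) 0 Set.univ :=
      hWa.eqOn_zero_of_preconnected_of_eventuallyEq_zero isPreconnected_univ (Set.mem_univ z) htop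
    exact hz0 (h1 (Set.mem_univ z0))
  rw [MeromorphicOn.AnalyticOnNhd.divisor_apply hWa (Set.mem_univ z), hmz]
  cases hn : analyticOrderAt (wr X) z with
  | top => exact absurd hn hfin
  | coe n =>
    rw [hn] at hord
    have h2 : ((((n : ℕ∞)).map (fun k : ℕ => (k : ℤ))).untop₀ : ℤ) = n := by
      simp
    rw [h2]
    have h3 : N * m ≤ n := by exact_mod_cast hord
    exact_mod_cast h3

end Pool.Agent.Work.UP
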