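import Pool.Agent.Work.UP.NHigh
import Pool.Agent.Work.UP.NWrNe
import Pool.Agent.Work.UP.NWrOrd

/-!
# NCartan (block N, size L): the second main theorem of Cartan and Vojta

`X : Fin N → (ℂ → ℂ)` linearly independent entire functions, `𝓜` a finite set of invertible matrices
(each one is a choice of `N` independent linear forms), `D` a common divisor. If `G` dominates for
every `z` (outside a discrete set) the sum of the `log |L(X(z))|` for ONE of the choices,
then the mean of `G` is at least `N` times the counting function of `D`, up to the error term.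

PROOF. `W = wr X` is entire and not identically zero (`wr_diff`, `wr_ne`). Let `r ≥ 1`.
(1) `jensen` for `W`: mean of `log ‖W‖` = `logCounting W 0 r + c`, `logCounting W 0 = logCounting` of the
divisor of `W` (`log_counting_zero_sub_logCounting_top`, `logCounting_top_entire`), and this is at least `N` times
`logCounting D` (`wr_divisor`, `Function.locallyFinsuppWithin.logCounting_le` for `r ≥ 1`, additivity
`map_nsmul`).
(2) For `M ∈ 𝓜` let `Y_i = ∑ j, M i j X_j`; they are not identically zero (`M` invertible, `X` independent). At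
a point `z` where all `Y_i` do not vanish: `M.det * W = wr Y` (`wr_mul`) `= ∏ Y_i(z) * det (Y_j^(i)/Y_j)`, and
`|det (a_ij)| ≤ N! ∏_{ij} max 1 |a_ij|`, so
`log ‖W z‖ ≤ ∑ log ‖Y_i z‖ + C + ∑_{i,j} log⁺ ‖Y_j^(i) z / Y_j z‖`, `C = log N! + |log ‖M.det‖|`.
(3) Let `Φ z = C + ∑_{M ∈ 𝓜} ∑_{i,j} log⁺ ‖Y_{M,j}^(i) z / Y_{M,j} z‖`, `C` the sum of the constants over `𝓜`. It is circle
integrable (`MeromorphicOn.circleIntegrable_posLog_norm`). Outside a discrete set `log ‖W z‖ ≤ G z + Φ z`, so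
by `avg_mono` (`log ‖W‖` is circle integrable: `MeromorphicOn.circleIntegrable_log_norm`)
mean of `log ‖W‖` ≤ mean of `G` + mean of `Φ`, and mean of `Φ` = `C + ∑ proximity (...) ⊤ r`, to be estimated by
`high_ldl`: `≤ C' Er (characteristic Y_{M,j} ⊤) r R`, and `characteristic Y ⊤ r ≤ C (1 + T r)` for `r ≥ 1`
(`characteristic_sum_top_le`, or directly from `char_entire` and
`log⁺ ‖∑ M_ij X_j‖ ≤ log N + ∑ (log⁺ ‖M_ij‖ + log⁺ ‖X_j‖)`), `Er_le`.
All constants are absorbed by `1 ≤ Er`.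
-/

set_option autoImplicit false

noncomputable section

namespace Pool.Agent.Work.UP

open ValueDistribution Filter

private theorem ca_det {N : ℕ} (y : Fin N → ℂ) (a : Fin N → Fin N → ℂ) :
    ‖(Matrix.of fun i j => a i j * y j).det‖ ≤
      (N.factorial : ℝ) * (∏ j, ‖y j‖) * ∏ j, ∏ i, max 1 ‖a i j‖ := by
  rw [Matrix.det_apply]
  refine (norm_sum_le _ _).trans ?_
  have h1 : ∀ σ ∈ (Finset.univ : Finset (Equiv.Perm (Fin N))),
      ‖(Equiv.Perm.sign σ : ℤˣ) • ∏ i, (Matrix.of fun i j => a i j * y j) (σ i) i‖ ≤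
        (∏ j, ‖y j‖) * ∏ j, ∏ i, max 1 ‖a i j‖ := by
    intro σ _
    have h2 : ‖(Equiv.Perm.sign σ : ℤˣ) • ∏ i, (Matrix.of fun i j => a i j * y j) (σ i) i‖ =
        ∏ i, (‖a (σ i) i‖ * ‖y i‖) := by
      rcases Int.units_eq_one_or (Equiv.Perm.sign σ) with h | h
      · rw [h, one_smul, norm_prod]
        refine Finset.prod_congr rfl fun i _ => ?_
        rw [Matrix.of_apply, norm_mul]
      · rw [h, Units.neg_smul, one_smul, norm_neg, norm_prod]
        refine Finset.prod_congr rfl fun i _ => ?_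
        rw [Matrix.of_apply, norm_mul]
    rw [h2, Finset.prod_mul_distrib, mul_comm]
    refine mul_le_mul_of_nonneg_left ?_ (Finset.prod_nonneg fun i _ => norm_nonneg _)
    refine Finset.prod_le_prod (fun i _ => norm_nonneg _) fun i _ => ?_
    have h3 : 1 ≤ ∏ k ∈ Finset.univ.erase (σ i), max 1 ‖a k i‖ :=
      Finset.prod_induction _ (fun x : ℝ => 1 ≤ x)
        (fun a b ha hb => one_le_mul_of_one_le_of_one_le ha hb) le_rfl
        (fun k _ => le_max_left _ _)
    calc ‖a (σ i) i‖ ≤ max 1 ‖a (σ i) i‖ := le_max_right _ _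
      _ ≤ max 1 ‖a (σ i) i‖ * ∏ k ∈ Finset.univ.erase (σ i), max 1 ‖a k i‖ :=
        le_mul_of_one_le_right (zero_le_one.trans (le_max_left _ _)) h3
      _ = ∏ k, max 1 ‖a k i‖ :=
        Finset.mul_prod_erase Finset.univ (fun k => max 1 ‖a k i‖) (Finset.mem_univ _)
  refine (Finset.sum_le_sum h1).trans (le_of_eq ?_)
  rw [Finset.sum_const, Finset.card_univ, Fintype.card_perm, Fintype.card_fin, nsmul_eq_mul,
    mul_assoc]

/-- the new functions -/
private def caY {N : ℕ} (X : Fin N → ℂ → ℂ) (M : Matrix (Fin N) (Fin N) ℂ) (i : Fin N) (z : ℂ) :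
    ℂ := ∑ j, M i j * X j z

private theorem caY_diff {N : ℕ} (X : Fin N → ℂ → ℂ) (hX : ∀ i, Differentiable ℂ (X i))
    (M : Matrix (Fin N) (Fin N) ℂ) (i : Fin N) : Differentiable ℂ (caY X M i) := by
  unfold caY
  exact Differentiable.fun_sum fun j _ => (hX j).const_mul _

private theorem caY_ne {N : ℕ} (X : Fin N → ℂ → ℂ) (hli : LinearIndependent ℂ X)
    (M : Matrix (Fin N) (Fin N) ℂ) (hM : M.det ≠ 0) (i : Fin N) : ∃ z, caY X M i z ≠ 0 := by
  by_contra hcon
  push Not at hcon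
  apply hM
  apply Matrix.det_eq_zero_of_row_eq_zero i
  intro j
  refine Fintype.linearIndependent_iff.1 hli (fun j => M i j) ?_ j
  funext z
  rw [Finset.sum_apply]
  exact hcon z

/-- the quotients -/
private def caQ {N : ℕ} (X : Fin N → ℂ → ℂ)
    (p : Matrix (Fin N) (Fin N) ℂ × (Fin N × Fin N)) (z : ℂ) : ℂ :=
  iteratedDeriv (p.2.2 : ℕ) (caY X p.1 p.2.1) z / caY X p.1 p.2.1 z

private theorem ca_point {N : ℕ} (X : Fin N → ℂ → ℂ) (hX : ∀ i, Differentiable ℂ (X i))
    (M : Matrix (Fin N) (Fin N) ℂ) (hM : M.det ≠ 0) (z : ℂ) (hW : wr X z ≠ 0)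
    (hY : ∀ i, caY X M i z ≠ 0) :
    Real.log ‖wr X z‖ ≤ ∑ i, Real.log ‖∑ j, M i j * X j z‖ +
      ((Real.log N.factorial + |Real.log ‖M.det‖|) +
        ∑ q : Fin N × Fin N, Real.posLog ‖caQ X (M, q) z‖) := by
  have h1 := wr_mul X hX M z
  have h2 : wr (fun i z => ∑ j, M i j * X j z) z =
      (Matrix.of fun i j : Fin N => caQ X (M, (j, i)) z * caY X M j z).det := by
    unfold wr
    congr 1
    ext i j
    rw [Matrix.of_apply, Matrix.of_apply]
    show iteratedDeriv (i : ℕ) (caY X M j) z =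
      iteratedDeriv (i : ℕ) (caY X M j) z / caY X M j z * caY X M j z
    rw [div_mul_cancel₀ _ (hY j)]
  have h3 := ca_det (fun j => caY X M j z) (fun i j => caQ X (M, (j, i)) z)
  rw [← h2, h1, norm_mul] at h3
  have hd : 0 < ‖M.det‖ := norm_pos_iff.2 hM
  have hw : 0 < ‖wr X z‖ := norm_pos_iff.2 hW
  have hf : (0 : ℝ) < N.factorial := by exact_mod_cast N.factorial_pos
  have hp : 0 < ∏ j, ‖caY X M j z‖ := Finset.prod_pos fun j _ => norm_pos_iff.2 (hY j)
  have hm : 0 < ∏ j, ∏ i, max 1 ‖caQ X (M, (j, i)) z‖ :=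
    Finset.prod_pos fun j _ => Finset.prod_pos fun i _ => zero_lt_one.trans_le (le_max_left _ _)
  have h4 := Real.log_le_log (mul_pos hd hw) h3
  rw [Real.log_mul hd.ne' hw.ne', Real.log_mul (mul_pos hf hp).ne' hm.ne',
    Real.log_mul hf.ne' hp.ne', Real.log_prod (fun j _ => (norm_pos_iff.2 (hY j)).ne'),
    Real.log_prod (fun j _ => (Finset.prod_pos fun i _ =>
      zero_lt_one.trans_le (le_max_left _ _)).ne')] at h4
  have h5 : ∑ j, Real.log (∏ i, max 1 ‖caQ X (M, (j, i)) z‖) =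
      ∑ q : Fin N × Fin N, Real.posLog ‖caQ X (M, q) z‖ := by
    rw [Fintype.sum_prod_type]
    refine Finset.sum_congr rfl fun j _ => ?_
    rw [Real.log_prod (fun i _ => (zero_lt_one.trans_le (le_max_left _ _)).ne')]
    refine Finset.sum_congr rfl fun i _ => ?_
    rw [Real.posLog_eq_log_max_one (norm_nonneg _)]
  rw [h5] at h4
  have h6 : ∑ i, Real.log ‖caY X M i z‖ = ∑ i, Real.log ‖∑ j, M i j * X j z‖ := rfl
  have h7 := neg_abs_le (Real.log ‖M.det‖)
  linarith

private theorem ca_mero {f : ℂ → ℂ} (hf : Differentiable ℂ f) : Meromorphic f :=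
  fun z => (hf.analyticAt z).meromorphicAt

private theorem ca_int {f : ℂ → ℂ} (hf : Differentiable ℂ f) (r : ℝ) :
    CircleIntegrable (fun z => Real.posLog ‖f z‖) 0 r :=
  MeromorphicOn.circleIntegrable_posLog_norm fun z _ => ca_mero hf z

private theorem ca_char {N : ℕ} (X : Fin N → ℂ → ℂ) (hX : ∀ i, Differentiable ℂ (X i))
    (T : ℝ → ℝ) (hT0 : ∀ r, 1 ≤ r → 0 ≤ T r)
    (hT : ∀ i, ∃ C : ℝ, ∀ r, 1 ≤ r → characteristic (X i) ⊤ r ≤ C * (1 + T r))
    (M : Matrix (Fin N) (Fin N) ℂ) (i : Fin N) :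
    ∃ C : ℝ, ∀ r, 1 ≤ r → characteristic (caY X M i) ⊤ r ≤ C * (1 + T r) := by
  choose Cx hCx using hT
  set K : ℝ := Real.log N + ∑ j, Real.posLog ‖M i j‖ with hK
  have hK0 : 0 ≤ K := add_nonneg (Real.log_natCast_nonneg N)
    (Finset.sum_nonneg fun j _ => Real.posLog_nonneg)
  refine ⟨K + ∑ j, Cx j, fun r hr => ?_⟩
  rw [char_entire (caY_diff X hX M i)]
  have h1 : Real.circleAverage (fun z => Real.posLog ‖caY X M i z‖) 0 r ≤
      Real.circleAverage (fun z => K + ∑ j, Real.posLog ‖X j z‖) 0 r := by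
    refine Real.circleAverage_mono (ca_int (caY_diff X hX M i) r) ?_ fun z _ => ?_
    · exact (circleIntegrable_const K 0 r).add (CircleIntegrable.fun_sum _ fun j _ =>
        ca_int (hX j) r)
    · have h2 := Real.posLog_norm_sum_le Finset.univ (fun j => M i j * X j z)
      rw [Finset.card_univ, Fintype.card_fin] at h2
      refine h2.trans ?_
      rw [hK, add_assoc, ← Finset.sum_add_distrib]
      refine add_le_add le_rfl (Finset.sum_le_sum fun j _ => ?_)
      rw [norm_mul]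
      exact Real.posLog_mul
  refine h1.trans ?_
  rw [Real.circleAverage_fun_add (circleIntegrable_const K 0 r)
    (CircleIntegrable.fun_sum _ fun j _ => ca_int (hX j) r), Real.circleAverage_const,
    Real.circleAverage_fun_sum fun j _ => ca_int (hX j) r]
  have h3 : ∑ j, Real.circleAverage (fun z => Real.posLog ‖X j z‖) 0 r ≤
      ∑ j, Cx j * (1 + T r) := Finset.sum_le_sum fun j _ => by
    rw [← char_entire (hX j)]
    exact hCx j r hr
  rw [← Finset.sum_mul] at h3
  have h4 : K ≤ K * (1 + T r) := le_mul_of_one_le_right hK0 (by linarith [hT0 r hr])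
  linarith

theorem cartan {N : ℕ} (X : Fin N → ℂ → ℂ) (hX : ∀ i, Differentiable ℂ (X i))
    (hli : LinearIndependent ℂ X) (T : ℝ → ℝ) (hT0 : ∀ r, 1 ≤ r → 0 ≤ T r)
    (hT : ∀ i, ∃ C : ℝ, ∀ r, 1 ≤ r → characteristic (X i) ⊤ r ≤ C * (1 + T r))
    (D : Function.locallyFinsupp ℂ ℤ) (hD : ∀ i, D ≤ MeromorphicOn.divisor (X i) Set.univ)
    (𝓜 : Set (Matrix (Fin N) (Fin N) ℂ)) (hM : 𝓜.Finite) (hdet : ∀ M ∈ 𝓜, M.det ≠ 0) :
    ∃ C : ℝ, 0 ≤ C ∧ ∀ r R : ℝ, 1 ≤ r → r < R → ∀ G : ℂ → ℝ, CircleIntegrable G 0 r →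
      (∀ᶠ z in codiscrete ℂ, ∃ M ∈ 𝓜, ∑ i, Real.log ‖∑ j, M i j * X j z‖ ≤ G z) →
      N * Function.locallyFinsuppWithin.logCounting D r ≤
        Real.circleAverage G 0 r + C * Er T r R := by
  classical
  have hWd := wr_diff X hX
  have hWne := wr_ne X hX hli
  obtain ⟨c, hc⟩ := jensen hWd hWne
  set s : Finset (Matrix (Fin N) (Fin N) ℂ × (Fin N × Fin N)) :=
    hM.toFinset ×ˢ (Finset.univ : Finset (Fin N × Fin N)) with hs
  have hsM : ∀ p ∈ s, p.1 ∈ 𝓜 := by
    intro p hp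
    rw [hs, Finset.mem_product] at hp
    exact hM.mem_toFinset.1 hp.1
  have hq : ∀ p ∈ s, ∃ C : ℝ, 0 ≤ C ∧ ∀ r R : ℝ, 1 ≤ r → r < R →
      proximity (caQ X p) ⊤ r ≤ C * Er T r R := by
    intro p hp
    have hYd := caY_diff X hX p.1 p.2.1
    obtain ⟨C1, hC1, h1⟩ := high_ldl hYd (caY_ne X hli p.1 (hdet _ (hsM p hp)) p.2.1)
      (p.2.2 : ℕ)
    obtain ⟨C2, h2⟩ := ca_char X hX T hT0 hT p.1 p.2.1
    obtain ⟨C3, hC3, h3⟩ := Er_le h2 hT0 (fun r hr => characteristic_nonneg hr)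
    refine ⟨C1 * C3, mul_nonneg hC1 hC3, fun r R hr hR => ?_⟩
    refine (h1 r R hr hR).trans ?_
    rw [mul_assoc]
    exact mul_le_mul_of_nonneg_left (h3 r R hr hR) hC1
  choose! Cp hCp0 hCp using hq
  set Cst : ℝ := ∑ M ∈ hM.toFinset, (Real.log N.factorial + |Real.log ‖M.det‖|) with hCst
  have hterm : ∀ M ∈ hM.toFinset, 0 ≤ Real.log N.factorial + |Real.log ‖M.det‖| := fun M _ =>
    add_nonneg (Real.log_natCast_nonneg _) (abs_nonneg _)
  have hCst0 : 0 ≤ Cst := Finset.sum_nonneg hterm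
  refine ⟨|c| + Cst + ∑ p ∈ s, Cp p, add_nonneg (add_nonneg (abs_nonneg _) hCst0)
    (Finset.sum_nonneg hCp0), fun r R hr hR G hG hGM => ?_⟩
  have hr0 : r ≠ 0 := by linarith
  have hQint : ∀ p ∈ s, CircleIntegrable (fun z => Real.posLog ‖caQ X p z‖) 0 r := by
    intro p _
    refine MeromorphicOn.circleIntegrable_posLog_norm fun z _ => ?_
    exact (ca_mero (iteratedDeriv_diff (caY_diff X hX p.1 p.2.1) _) z).div
      (ca_mero (caY_diff X hX p.1 p.2.1) z)
  have hSint : CircleIntegrable (fun z => ∑ p ∈ s, Real.posLog ‖caQ X p z‖) 0 r :=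
    CircleIntegrable.fun_sum _ hQint
  have hΦint : CircleIntegrable (fun z => Cst + ∑ p ∈ s, Real.posLog ‖caQ X p z‖) 0 r :=
    (circleIntegrable_const Cst 0 r).add hSint
  have hWint : CircleIntegrable (fun z => Real.log ‖wr X z‖) 0 r :=
    MeromorphicOn.circleIntegrable_log_norm fun z _ => ca_mero hWd z
  -- the pointwise estimate
  have hpt : ∀ᶠ z in codiscrete ℂ, Real.log ‖wr X z‖ ≤
      G z + (Cst + ∑ p ∈ s, Real.posLog ‖caQ X p z‖) := by
    have hW : ∀ᶠ z in codiscrete ℂ, wr X z ≠ 0 := by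
      obtain ⟨z0, hz0⟩ := hWne
      exact AnalyticOnNhd.preimage_zero_mem_codiscrete (fun z _ => hWd.analyticAt z) hz0
    have hY : ∀ᶠ z in codiscrete ℂ, ∀ M ∈ hM.toFinset, ∀ i, caY X M i z ≠ 0 := by
      rw [Filter.eventually_all_finset]
      intro M hMM
      rw [Filter.eventually_all]
      intro i
      obtain ⟨z0, hz0⟩ := caY_ne X hli M (hdet M (hM.mem_toFinset.1 hMM)) i
      exact AnalyticOnNhd.preimage_zero_mem_codiscrete
        (fun z _ => (caY_diff X hX M i).analyticAt z) hz0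
    filter_upwards [hW, hY, hGM] with z h1 h2 h3
    obtain ⟨M, hMM, h4⟩ := h3
    have hMf : M ∈ hM.toFinset := hM.mem_toFinset.2 hMM
    have h5 := ca_point X hX M (hdet M hMM) z h1 (h2 M hMf)
    have h6 : Real.log N.factorial + |Real.log ‖M.det‖| ≤ Cst :=
      Finset.single_le_sum hterm hMf
    have h7 : ∑ q : Fin N × Fin N, Real.posLog ‖caQ X (M, q) z‖ ≤
        ∑ p ∈ s, Real.posLog ‖caQ X p z‖ := by
      rw [hs, Finset.sum_product]
      exact Finset.single_le_sum (f := fun M' => ∑ q : Fin N × Fin N,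
        Real.posLog ‖caQ X (M', q) z‖)
        (fun M' _ => Finset.sum_nonneg fun q _ => Real.posLog_nonneg) hMf
    linarith
  have h1 := avg_mono hr0 hWint (hG.add hΦint) hpt
  have h2 : Real.circleAverage (fun z => G z + (Cst + ∑ p ∈ s, Real.posLog ‖caQ X p z‖)) 0 r =
      Real.circleAverage G 0 r + (Cst + ∑ p ∈ s, proximity (caQ X p) ⊤ r) := by
    rw [Real.circleAverage_fun_add hG hΦint,
      Real.circleAverage_fun_add (circleIntegrable_const Cst 0 r) hSint,
      Real.circleAverage_const, Real.circleAverage_fun_sum hQint]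
    simp only [proximity_top]
  have h3 : ∑ p ∈ s, proximity (caQ X p) ⊤ r ≤ ∑ p ∈ s, Cp p * Er T r R :=
    Finset.sum_le_sum fun p hp => hCp p hp r R hr hR
  rw [← Finset.sum_mul] at h3
  have h4 : Function.locallyFinsuppWithin.logCounting
      (MeromorphicOn.divisor (wr X) Set.univ) r = logCounting (wr X) 0 r := by
    rw [log_counting_zero_sub_logCounting_top, Pi.sub_apply, logCounting_top_entire hWd,
      sub_zero]
  have h5 := Function.locallyFinsuppWithin.logCounting_le (wr_divisor X hX hWne D hD) hr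
  rw [h4, map_nsmul] at h5
  have h6 : (N • Function.locallyFinsuppWithin.logCounting D) r =
      N * Function.locallyFinsuppWithin.logCounting D r := by
    rw [Pi.smul_apply, nsmul_eq_mul]
  rw [h6] at h5
  have h7 := hc r (by linarith)
  have h8 := Er_pos T r R
  have h9 : |c| + Cst ≤ (|c| + Cst) * Er T r R :=
    le_mul_of_one_le_right (add_nonneg (abs_nonneg _) hCst0) h8
  have h10 := neg_abs_le c
  have h1' : Real.circleAverage (fun z => Real.log ‖wr X z‖) 0 r ≤
      Real.circleAverage (fun z => G z + (Cst + ∑ p ∈ s, Real.posLog ‖caQ X p z‖)) 0 r := h1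
  rw [h2, h7] at h1'
  have h11 : (|c| + Cst + ∑ p ∈ s, Cp p) * Er T r R =
      (|c| + Cst) * Er T r R + (∑ p ∈ s, Cp p) * Er T r R := by ring
  rw [h11]
  linarith

end Pool.Agent.Work.UP
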