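import Pool.Agent.Work.UP.Defs

/-!
# NDefs: definitions for block N (values of polynomials at units of the ring of entire functions)

PLAN of block N. All estimates have the form `... ≤ C * Er T r R` for all `1 ≤ r < R` with a
constant `C`; no exceptional sets are used. At the very end (`noSmall`) a good pair `r < R` is
chosen.
-/

set_option autoImplicit false

noncomputable section

namespace Pool.Agent.Work.UP

open MvPolynomial

/-- The error term of the lemma on the logarithmic derivative. -/
def Er (T : ℝ → ℝ) (r R : ℝ) : ℝ :=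
  1 + Real.posLog (T R) + Real.posLog (1 / (R - r)) + Real.posLog R

/-- The size of a tuple of units at a point. -/
def tau {d : ℕ} (u : Fin d → ℂ → ℂ) (z : ℂ) : ℝ := ∑ j, |Real.log ‖u j z‖|

/-- The mean size of a tuple of units on the circle of radius `r`. -/
def Tu {d : ℕ} (u : Fin d → ℂ → ℂ) (r : ℝ) : ℝ := Real.circleAverage (tau u) 0 r

/-- The value of the polynomial `A` at the functions `u j`. -/
def valU {d : ℕ} (u : Fin d → ℂ → ℂ) (A : MvPolynomial (Fin d) ℂ) (z : ℂ) : ℂ :=
  eval (fun i => u i z) A

/-- The Wronskian. -/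
def wr {N : ℕ} (X : Fin N → ℂ → ℂ) (z : ℂ) : ℂ :=
  (Matrix.of fun i j : Fin N => iteratedDeriv (i : ℕ) (X j) z).det

end Pool.Agent.Work.UP
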