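import Pool.Agent.Work.UP.NPoly

/-!
# NSpan (block N, size S-M): spanning exponents dominate the size

PROOF. For every `j : Fin d` the vector `Pi.single j 1` is in the span of the differences
(`Submodule.mem_span_set'` or `Submodule.span_induction`): `e_j = ∑_q c_{j,q} x_q`, finitely many
`x_q = s - t` with rational coefficients. Then `log ‖u j z‖ = ∑_q c_{j,q} log ‖mon (u z) x_q‖` (`log_mon`, linear in the
exponent), so `|log ‖u j z‖| ≤ ∑_q |c_{j,q}| |log ‖mon x_q‖|`. `F` = all occurring triples (finite union over `j`), `C` =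
`∑ |c_{j,q}|`. (By induction on the span one can prove: for every `x : Fin d → ℚ` there are `F, C` with
`|∑ i, x i * log ‖u i z‖| ≤ C * ∑_F ..` for all `z`; then take the union over `j`.)
-/

set_option autoImplicit false

noncomputable section

namespace Pool.Agent.Work.UP

open MvPolynomial

/-- the right hand side -/
private def spR {d : ℕ} (u : Fin d → ℂ → ℂ)
    (F : Finset (MvPolynomial (Fin d) ℂ × (Fin d →₀ ℕ) × (Fin d →₀ ℕ))) (z : ℂ) : ℝ :=
  ∑ x ∈ F, |Real.log ‖mon (fun i => u i z) (fun i => (x.2.1 i : ℤ) - (x.2.2 i : ℤ))‖|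

private theorem spR_nonneg {d : ℕ} (u : Fin d → ℂ → ℂ)
    (F : Finset (MvPolynomial (Fin d) ℂ × (Fin d →₀ ℕ) × (Fin d →₀ ℕ))) (z : ℂ) :
    0 ≤ spR u F z := Finset.sum_nonneg fun _ _ => abs_nonneg _

private theorem spR_mono {d : ℕ} (u : Fin d → ℂ → ℂ)
    {F G : Finset (MvPolynomial (Fin d) ℂ × (Fin d →₀ ℕ) × (Fin d →₀ ℕ))} (h : F ⊆ G) (z : ℂ) :
    spR u F z ≤ spR u G z :=
  Finset.sum_le_sum_of_subset_of_nonneg h fun _ _ _ => abs_nonneg _

private theorem span_one {d : ℕ} (u : Fin d → ℂ → ℂ) (hu : IsUC u)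
    (P : Set (MvPolynomial (Fin d) ℂ)) (x : Fin d → ℚ)
    (hx : x ∈ Submodule.span ℚ {x : Fin d → ℚ | ∃ p ∈ P, ∃ s ∈ p.support, ∃ s' ∈ p.support,
      x = fun i => (s i : ℚ) - (s' i : ℚ)}) :
    ∃ (F : Finset (MvPolynomial (Fin d) ℂ × (Fin d →₀ ℕ) × (Fin d →₀ ℕ))) (C : ℝ), 0 ≤ C ∧
      (∀ x ∈ F, x.1 ∈ P ∧ x.2.1 ∈ x.1.support ∧ x.2.2 ∈ x.1.support) ∧
      ∀ z, |∑ i, (x i : ℝ) * Real.log ‖u i z‖| ≤ C * spR u F z := by
  classical
  induction hx using Submodule.span_induction with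
  | mem x hx =>
    obtain ⟨p, hp, s, hs, s', hs', rfl⟩ := hx
    refine ⟨{(p, s, s')}, 1, zero_le_one, ?_, ?_⟩
    · intro y hy
      rw [Finset.mem_singleton] at hy
      subst hy
      exact ⟨hp, hs, hs'⟩
    · intro z
      rw [one_mul, spR, Finset.sum_singleton, log_mon u hu]
      apply le_of_eq
      congr 1
      apply Finset.sum_congr rfl
      intro i _
      push_cast
      rfl
  | zero =>
    refine ⟨∅, 0, le_rfl, by simp, ?_⟩
    intro z
    simp
  | add x y _ _ hx hy =>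
    obtain ⟨F, C, hC, hF, h⟩ := hx
    obtain ⟨G, D, hD, hG, h'⟩ := hy
    refine ⟨F ∪ G, C + D, by positivity, ?_, ?_⟩
    · intro w hw
      rcases Finset.mem_union.1 hw with hw | hw
      · exact hF w hw
      · exact hG w hw
    · intro z
      have e : ∑ i, (((x + y) i : ℚ) : ℝ) * Real.log ‖u i z‖ =
          ∑ i, (x i : ℝ) * Real.log ‖u i z‖ + ∑ i, (y i : ℝ) * Real.log ‖u i z‖ := by
        rw [← Finset.sum_add_distrib]
        apply Finset.sum_congr rfl
        intro i _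
        rw [Pi.add_apply]
        push_cast
        ring
      rw [e]
      have h1 := abs_add_le (∑ i, (x i : ℝ) * Real.log ‖u i z‖)
        (∑ i, (y i : ℝ) * Real.log ‖u i z‖)
      have h2 := mul_le_mul_of_nonneg_left
        (spR_mono u (Finset.subset_union_left (s₁ := F) (s₂ := G)) z) hC
      have h3 := mul_le_mul_of_nonneg_left
        (spR_mono u (Finset.subset_union_right (s₁ := F) (s₂ := G)) z) hD
      have h4 := h z
      have h5 := h' z
      linarith
  | smul a x _ hx =>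
    obtain ⟨F, C, hC, hF, h⟩ := hx
    refine ⟨F, |(a : ℝ)| * C, by positivity, hF, ?_⟩
    intro z
    have e : ∑ i, (((a • x) i : ℚ) : ℝ) * Real.log ‖u i z‖ =
        (a : ℝ) * ∑ i, (x i : ℝ) * Real.log ‖u i z‖ := by
      rw [Finset.mul_sum]
      apply Finset.sum_congr rfl
      intro i _
      rw [Pi.smul_apply, smul_eq_mul]
      push_cast
      ring
    rw [e, abs_mul, mul_assoc]
    exact mul_le_mul_of_nonneg_left (h z) (abs_nonneg _)

theorem spanC {d : ℕ} (u : Fin d → ℂ → ℂ) (hu : IsUC u) (P : Set (MvPolynomial (Fin d) ℂ))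
    (hspan : Spans P) :
    ∃ (F : Finset (MvPolynomial (Fin d) ℂ × (Fin d →₀ ℕ) × (Fin d →₀ ℕ))) (C : ℝ), 0 ≤ C ∧
      (∀ x ∈ F, x.1 ∈ P ∧ x.2.1 ∈ x.1.support ∧ x.2.2 ∈ x.1.support) ∧
      ∀ z, tau u z ≤ C * ∑ x ∈ F,
        |Real.log ‖mon (fun i => u i z) (fun i => (x.2.1 i : ℤ) - (x.2.2 i : ℤ))‖| := by
  classical
  have h1 : ∀ j : Fin d, ∃ (F : Finset (MvPolynomial (Fin d) ℂ × (Fin d →₀ ℕ) × (Fin d →₀ ℕ)))
      (C : ℝ), 0 ≤ C ∧
      (∀ x ∈ F, x.1 ∈ P ∧ x.2.1 ∈ x.1.support ∧ x.2.2 ∈ x.1.support) ∧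
      ∀ z, |∑ i, ((Pi.single j (1 : ℚ) : Fin d → ℚ) i : ℝ) * Real.log ‖u i z‖| ≤
        C * spR u F z := by
    intro j
    apply span_one u hu P
    unfold Spans at hspan
    rw [hspan]
    exact Submodule.mem_top
  choose F C hC hF h using h1
  refine ⟨Finset.univ.biUnion F, ∑ j, C j, Finset.sum_nonneg fun j _ => hC j, ?_, ?_⟩
  · intro x hx
    rw [Finset.mem_biUnion] at hx
    obtain ⟨j, _, hx⟩ := hx
    exact hF j x hx
  · intro z
    change tau u z ≤ (∑ j, C j) * spR u (Finset.univ.biUnion F) z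
    rw [Finset.sum_mul]
    unfold tau
    apply Finset.sum_le_sum
    intro j _
    have h2 := h j z
    have e : ∑ i, ((Pi.single j (1 : ℚ) : Fin d → ℚ) i : ℝ) * Real.log ‖u i z‖ =
        Real.log ‖u j z‖ := by
      rw [Finset.sum_eq_single j]
      · rw [Pi.single_eq_same]
        push_cast
        ring
      · intro i _ hij
        rw [Pi.single_eq_of_ne hij]
        push_cast
        ring
      · intro hj
        exact absurd (Finset.mem_univ j) hj
    rw [e] at h2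
    refine h2.trans (mul_le_mul_of_nonneg_left ?_ (hC j))
    exact spR_mono u (Finset.subset_biUnion_of_mem F (Finset.mem_univ j)) z

end Pool.Agent.Work.UP
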