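import Pool.Agent.Work.UP.Borel

/-!
# NSum (block N, size M): lower bound for sums of units

PROOF. If `s = t` the left side is `0` and the counting function of an entire function is nonnegative
for `r ≥ 1` (`ValueDistribution.logCounting_nonneg`). Let `s ≠ t`. Enumerate `A.support` by `Fin n`
(`Finset.equivFin`): `e : Fin n ≃ A.support`, `a i = coeff (e i) A ≠ 0`, `X i = valU u (monomial (e i) 1)`
(`valU_monomial`: this is the monomial with exponent `e i`), linearly independent by `borel_indep`, and
`valU u A = ∑ i, a i * X i` (`valU_eq`). `cartan` with `D = 0`, `T = Tu u` (`Tu_nonneg`, `char_valU_le`), and the matrices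
`M_j`, `j : Fin n`: identity matrix with row `j` replaced by the row `a` (`Matrix.updateRow`, determinant
`a j ≠ 0`); the form of row `j` takes the value `valU u A z`. For given `z` let `j` be the index with the largest
`‖X j z‖`: `∑_i log ‖(M_j X)_i‖ = ∑_i log ‖X i z‖ - log ‖X j z‖ + log ‖valU u A z‖ ≤ G z` with
`G z = ∑_i log ‖X i z‖ - max (log ‖u^s‖) (log ‖u^t‖) + log ‖valU u A z‖`, and
`max x y = (x + y) / 2 + |x - y| / 2`, `x - y = log ‖mon (s - t)‖`. The average of `G` over the circle is (`avg_log_unit` for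
the monomials, `jensen` for `valU u A`, which is not identically zero by `borel`) equal to
`const - (1/2) * average |log ‖mon (s - t)‖| + logCounting (valU u A) 0 r`. `logCounting 0 = 0` on the left side of
`cartan`.
-/

set_option autoImplicit false

noncomputable section

namespace Pool.Agent.Work.UP

open MvPolynomial ValueDistribution

/-- circle integrable with the mean value property -/
private def PM (f : ℂ → ℝ) : Prop :=
  ∀ r : ℝ, CircleIntegrable f 0 r ∧ Real.circleAverage f 0 r = f 0

private theorem PM_unit {g : ℂ → ℂ} (hg : Differentiable ℂ g) (h0 : ∀ z, g z ≠ 0) :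
    PM fun z => Real.log ‖g z‖ := fun r =>
  ⟨ContinuousOn.circleIntegrable' (Continuous.continuousOn
    ((hg.continuous.norm).log fun z => norm_ne_zero_iff.2 (h0 z))), avg_log_unit hg h0 r⟩

private theorem PM_sum {ι : Type} (s : Finset ι) (f : ι → ℂ → ℝ) (h : ∀ i ∈ s, PM (f i)) :
    PM fun z => ∑ i ∈ s, f i z := fun r =>
  ⟨CircleIntegrable.fun_sum _ fun i hi => (h i hi r).1, by
    rw [Real.circleAverage_fun_sum fun i hi => (h i hi r).1]
    exact Finset.sum_congr rfl fun i hi => (h i hi r).2⟩

private theorem PM_sub {f g : ℂ → ℝ} (hf : PM f) (hg : PM g) : PM fun z => f z - g z := fun r =>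
  ⟨(hf r).1.sub (hg r).1, by
    rw [Real.circleAverage_fun_sub (hf r).1 (hg r).1, (hf r).2, (hg r).2]⟩

private theorem PM_add {f g : ℂ → ℝ} (hf : PM f) (hg : PM g) : PM fun z => f z + g z := fun r =>
  ⟨(hf r).1.add (hg r).1, by
    rw [Real.circleAverage_fun_add (hf r).1 (hg r).1, (hf r).2, (hg r).2]⟩

private theorem PM_smul {f : ℂ → ℝ} (c : ℝ) (hf : PM f) : PM fun z => c • f z := fun r =>
  ⟨(hf r).1.const_smul, by
    rw [Real.circleAverage_fun_smul, (hf r).2]⟩

private theorem ns_det {n : ℕ} (a : Fin n → ℂ) (j : Fin n) :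
    ((1 : Matrix (Fin n) (Fin n) ℂ).updateRow j a).det = a j := by
  have h1 : a = ∑ k, a k • (1 : Matrix (Fin n) (Fin n) ℂ) k := by
    funext l
    rw [Finset.sum_apply, Finset.sum_eq_single l]
    · rw [Pi.smul_apply, Matrix.one_apply_eq, smul_eq_mul, mul_one]
    · intro k _ hk
      rw [Pi.smul_apply, Matrix.one_apply_ne hk, smul_zero]
    · intro h
      exact absurd (Finset.mem_univ _) h
  conv_lhs => rw [h1]
  rw [Matrix.det_updateRow_sum, Matrix.det_one, smul_eq_mul, mul_one]

private theorem ns_row {n : ℕ} (a x : Fin n → ℂ) (j i : Fin n) :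
    ∑ k, (1 : Matrix (Fin n) (Fin n) ℂ).updateRow j a i k * x k =
      if i = j then ∑ k, a k * x k else x i := by
  split_ifs with h
  · rw [h, Matrix.updateRow_self]
  · rw [Matrix.updateRow_ne h, Finset.sum_eq_single i]
    · rw [Matrix.one_apply_eq, one_mul]
    · intro k _ hk
      rw [Matrix.one_apply_ne hk.symm, zero_mul]
    · intro h
      exact absurd (Finset.mem_univ _) h

theorem sumLowC {d : ℕ} (u : Fin d → ℂ → ℂ) (hu : IsUC u) (hi : IndC u)
    (A : MvPolynomial (Fin d) ℂ) (s t : Fin d →₀ ℕ) (hs : s ∈ A.support) (ht : t ∈ A.support) :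
    ∃ C : ℝ, 0 ≤ C ∧ ∀ r R : ℝ, 1 ≤ r → r < R →
      Real.circleAverage
        (fun z => |Real.log ‖mon (fun i => u i z) (fun i => (s i : ℤ) - (t i : ℤ))‖|) 0 r ≤
      2 * logCounting (valU u A) 0 r + C * Er (Tu u) r R := by
  classical
  obtain ⟨n, hn⟩ : ∃ n, n = A.support.card := ⟨_, rfl⟩
  let e : Fin n ≃ A.support := (finCongr hn).trans A.support.equivFin.symm
  set X : Fin n → ℂ → ℂ := fun i z => mon (fun j => u j z) (fun j => ((e i).1 j : ℤ)) with hXdef
  have hXd : ∀ i, Differentiable ℂ (X i) := fun i => mon_diff u hu _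
  have hX0 : ∀ i z, X i z ≠ 0 := fun i z => mon_ne u hu _ z
  have hli : LinearIndependent ℂ X := borel_indep u hu hi n (fun i j => ((e i).1 j : ℤ)) (by
    intro i i' h
    apply e.injective
    apply Subtype.ext
    ext j
    have h1 := congrFun h j
    simp only [] at h1
    exact_mod_cast h1)
  set a : Fin n → ℂ := fun i => coeff (e i).1 A with hadef
  have ha : ∀ i, a i ≠ 0 := fun i => mem_support_iff.1 (e i).2
  have hval : ∀ z, valU u A z = ∑ i, a i * X i z := by
    intro z
    rw [valU_eq, ← Finset.sum_coe_sort]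
    exact (Fintype.sum_equiv e _ _ fun i => rfl).symm
  have hT : ∀ i, ∃ C : ℝ, ∀ r, 1 ≤ r → characteristic (X i) ⊤ r ≤ C * (1 + Tu u r) := by
    intro i
    obtain ⟨C, -, h⟩ := char_valU_le u hu (monomial (e i).1 1)
    refine ⟨C, fun r hr => ?_⟩
    have h1 : X i = valU u (monomial (e i).1 1) := by
      funext z
      rw [valU_monomial]
    rw [h1]
    exact h r hr
  obtain ⟨C, hC, hcartan⟩ := cartan X hXd hli (Tu u) (fun r _ => Tu_nonneg u r) hT 0
    (fun i => MeromorphicOn.AnalyticOnNhd.divisor_nonneg fun z _ => (hXd i).analyticAt z)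
    (Set.range fun j => (1 : Matrix (Fin n) (Fin n) ℂ).updateRow j a) (Set.finite_range _)
    (by
      rintro _ ⟨j, rfl⟩
      simp only []
      rw [ns_det]
      exact ha j)
  have hA0 : A ≠ 0 := by
    rintro rfl
    rw [support_zero] at hs
    exact absurd hs (Finset.notMem_empty s)
  obtain ⟨c, hc⟩ := jensen (valU_diff u hu A) (borel u hu hi A hA0)
  set is : Fin n := e.symm ⟨s, hs⟩ with his
  set it : Fin n := e.symm ⟨t, ht⟩ with hit
  set L : ℂ → ℝ := fun z => (∑ i, Real.log ‖X i z‖) -
    (1 / 2 : ℝ) • (Real.log ‖X is z‖ + Real.log ‖X it z‖) with hL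
  have hLP : PM L := PM_sub (PM_sum _ _ fun i _ => PM_unit (hXd i) (hX0 i))
    (PM_smul _ (PM_add (PM_unit (hXd is) (hX0 is)) (PM_unit (hXd it) (hX0 it))))
  set Q : ℂ → ℝ := fun z =>
    |Real.log ‖mon (fun i => u i z) (fun i => (s i : ℤ) - (t i : ℤ))‖| with hQ
  have hQc : Continuous Q := by
    have h1 := mon_diff u hu (fun i => (s i : ℤ) - (t i : ℤ))
    exact ((h1.continuous.norm).log fun z => norm_ne_zero_iff.2 (mon_ne u hu _ z)).abs
  have hQi : ∀ r, CircleIntegrable Q 0 r := fun r =>
    ContinuousOn.circleIntegrable' hQc.continuousOn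
  have hQst : ∀ z, Q z = |Real.log ‖X is z‖ - Real.log ‖X it z‖| := by
    intro z
    simp only [hQ, hXdef, his, hit, Equiv.apply_symm_apply]
    rw [log_mon u hu, log_mon u hu, log_mon u hu, ← Finset.sum_sub_distrib]
    congr 1
    refine Finset.sum_congr rfl fun i _ => ?_
    push_cast
    ring
  refine ⟨2 * (C + |L 0 + c|), by positivity, fun r R hr hR => ?_⟩
  have hVi : CircleIntegrable (fun z => Real.log ‖valU u A z‖) 0 r :=
    MeromorphicOn.circleIntegrable_log_norm
      fun z _ => ((valU_diff u hu A).analyticAt z).meromorphicAt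
  have hQs : CircleIntegrable (fun z => (1 / 2 : ℝ) • Q z) 0 r := (hQi r).const_smul
  have hG1 : CircleIntegrable (fun z => L z - (1 / 2 : ℝ) • Q z) 0 r := (hLP r).1.sub hQs
  have hGe : Real.circleAverage (fun z => L z - (1 / 2 : ℝ) • Q z) 0 r =
      L 0 - (1 / 2) * Real.circleAverage Q 0 r := by
    rw [Real.circleAverage_fun_sub (hLP r).1 hQs, (hLP r).2, Real.circleAverage_fun_smul,
      smul_eq_mul]
  have h1 := hcartan r R hr hR (fun z => (L z - (1 / 2 : ℝ) • Q z) + Real.log ‖valU u A z‖)
    (hG1.add hVi) (Filter.Eventually.of_forall fun z => by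
      have hne : (Finset.univ : Finset (Fin n)).Nonempty := ⟨is, Finset.mem_univ _⟩
      obtain ⟨j, -, hj⟩ := Finset.exists_max_image Finset.univ (fun i => Real.log ‖X i z‖) hne
      refine ⟨_, ⟨j, rfl⟩, ?_⟩
      simp only [ns_row]
      have h2 : ∑ i, Real.log ‖if i = j then ∑ k, a k * X k z else X i z‖ =
          (∑ i, Real.log ‖X i z‖) - Real.log ‖X j z‖ + Real.log ‖valU u A z‖ := by
        rw [← Finset.add_sum_erase _ _ (Finset.mem_univ j),
          ← Finset.add_sum_erase (Finset.univ) (fun i => Real.log ‖X i z‖) (Finset.mem_univ j),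
          if_pos rfl]
        have h3 : ∑ i ∈ Finset.univ.erase j,
            Real.log ‖if i = j then ∑ k, a k * X k z else X i z‖ =
            ∑ i ∈ Finset.univ.erase j, Real.log ‖X i z‖ := by
          refine Finset.sum_congr rfl fun i hi => ?_
          rw [if_neg (Finset.ne_of_mem_erase hi)]
        rw [h3, hval]
        ring
      rw [h2]
      have h4 : L z - (1 / 2 : ℝ) • Q z = (∑ i, Real.log ‖X i z‖) -
          max (Real.log ‖X is z‖) (Real.log ‖X it z‖) := by
        have h10 : ∀ x y : ℝ, max x y = (1 / 2) * (x + y) + (1 / 2) * |x - y| := by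
          intro x y
          rcases le_total x y with h | h
          · rw [max_eq_right h, abs_of_nonpos (by linarith)]
            ring
          · rw [max_eq_left h, abs_of_nonneg (by linarith)]
            ring
        rw [hQst, h10]
        simp only [hL, smul_eq_mul]
        ring
      rw [h4]
      have h5 : max (Real.log ‖X is z‖) (Real.log ‖X it z‖) ≤ Real.log ‖X j z‖ :=
        max_le (hj is (Finset.mem_univ _)) (hj it (Finset.mem_univ _))
      linarith)
  rw [map_zero, Pi.zero_apply, mul_zero, Real.circleAverage_fun_add hG1 hVi, hGe,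
    hc r (by linarith)] at h1
  have h6 := Er_pos (Tu u) r R
  have h7 : |L 0 + c| ≤ |L 0 + c| * Er (Tu u) r R := le_mul_of_one_le_right (abs_nonneg _) h6
  have h8 := le_abs_self (L 0 + c)
  have h9 : 2 * (C + |L 0 + c|) * Er (Tu u) r R =
      2 * (C * Er (Tu u) r R) + 2 * (|L 0 + c| * Er (Tu u) r R) := by ring
  rw [h9]
  show Real.circleAverage Q 0 r ≤ _
  linarith

end Pool.Agent.Work.UP
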