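import Pool.Agent.Work.UP.NDen
import Pool.Agent.Work.UP.NSum
import Pool.Agent.Work.UP.NSpan

/-!
# TorusC (block N, size S-M): the analytic end result

If the polynomials `p ∈ P` may divide the denominators only together with numerators prime to them,
then the functions `p (u)` are almost units; this is impossible if the exponents of the
`p ∈ P` span.

PROOF. `spanC`: `F, C`. For `(p, s, t) ∈ F`: `sumLowC` and `denC` with `ε = 1 / (4 (C + 1) (F.card + 1))` give
`average |log ‖mon (s - t)‖| ≤ 2 ε Tu u r + C' Er (Tu u) r R`. The average of the inequality of `spanC` over the circle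
(`Real.circleAverage_mono`, `Real.circleAverage_fun_sum`; all functions are continuous, `mon_ne`,
`mon_diff`, `tau_cont`): `Tu u r ≤ C * F.card * 2 ε * Tu u r + C'' Er ≤ Tu u r / 2 + C'' Er`, so
`Tu u r ≤ 2 C'' Er (Tu u) r R` for all `1 ≤ r < R`: contradiction by `noSmall` with `Tu_mono`, `Tu_grow`.
-/

set_option autoImplicit false

noncomputable section

namespace Pool.Agent.Work.UP

open MvPolynomial ValueDistribution

theorem torusC {d : ℕ} (hd : 0 < d) (u : Fin d → ℂ → ℂ) (hu : IsUC u) (hi : IndC u)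
    (β : Type) [Finite β] (P : Set (MvPolynomial (Fin d) ℂ)) (hP : P.Finite)
    (hP0 : ∀ p ∈ P, p ≠ 0) (hspan : Spans P)
    (A B' : β → MvPolynomial (Fin d) ℂ → MvPolynomial (Fin d) ℂ)
    (hA : ∀ b, ∀ p ∈ P, IsRelPrime (A b p) p)
    (h : ∀ p ∈ P, ∀ z : ℂ, ∃ b, ∃ g : ℂ → ℂ, AnalyticAt ℂ g z ∧ ∀ᶠ z' in nhds z,
      eval (fun i => u i z') (A b p) =
        g z' * (eval (fun i => u i z') p * eval (fun i => u i z') (B' b p))) :
    False := by
  obtain ⟨F, C, hC0, hF, htau⟩ := spanC u hu P hspan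
  set ε : ℝ := 1 / (4 * (C + 1) * (F.card + 1)) with hεdef
  have hε : 0 < ε := by positivity
  set L : MvPolynomial (Fin d) ℂ × (Fin d →₀ ℕ) × (Fin d →₀ ℕ) → ℂ → ℝ := fun x z =>
    |Real.log ‖mon (fun i => u i z) (fun i => (x.2.1 i : ℤ) - (x.2.2 i : ℤ))‖| with hL
  have hLc : ∀ x, Continuous (L x) := fun x =>
    ((mon_diff u hu _).continuous.norm.log
      (fun z => norm_ne_zero_iff.mpr (mon_ne u hu _ z))).abs
  have h1 : ∀ x ∈ F, ∃ c : ℝ, 0 ≤ c ∧ ∀ r R : ℝ, 1 ≤ r → r < R →
      Real.circleAverage (L x) 0 r ≤ 2 * ε * Tu u r + c * Er (Tu u) r R := by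
    intro x hx
    obtain ⟨hxP, hxs, hxt⟩ := hF x hx
    obtain ⟨C₁, hC₁, h2⟩ := sumLowC u hu hi x.1 x.2.1 x.2.2 hxs hxt
    obtain ⟨C₂, hC₂, h3⟩ := denC hd u hu hi β x.1 (hP0 _ hxP) (fun b => A b x.1)
      (fun b => B' b x.1) (fun b => hA b x.1 hxP) (h x.1 hxP) ε hε
    refine ⟨2 * C₂ + C₁, by positivity, fun r R hr hR => ?_⟩
    have h4 := h2 r R hr hR
    have h5 := h3 r R hr hR
    have h6 : Real.circleAverage (L x) 0 r ≤
        2 * logCounting (valU u x.1) 0 r + C₁ * Er (Tu u) r R := h4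
    linarith
  choose! c hc0 hc using h1
  set K : ℝ := ∑ x ∈ F, c x with hK
  refine noSmall (Tu u) (Tu_mono u hu) (Tu_grow hd u hu hi).choose
    (Tu_grow hd u hu hi).choose_spec.2.choose (Tu_grow hd u hu hi).choose_spec.1
    (Tu_grow hd u hu hi).choose_spec.2.choose_spec (2 * (C * K)) (fun r R hr hR => ?_)
  have hr0 : (0 : ℝ) ≤ r := by linarith
  have h2 : Tu u r ≤ C * ∑ x ∈ F, Real.circleAverage (L x) 0 r := by
    have h3 : Tu u r ≤ Real.circleAverage (fun z => C * ∑ x ∈ F, L x z) 0 r := by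
      refine Real.circleAverage_mono ((tau_cont u hu).continuousOn.circleIntegrable hr0)
        ((continuous_const.mul (continuous_finsetSum F fun x _ => hLc x)).continuousOn.circleIntegrable
          hr0) (fun z _ => htau z)
    have h4 : Real.circleAverage (fun z => C * ∑ x ∈ F, L x z) 0 r =
        C * Real.circleAverage (fun z => ∑ x ∈ F, L x z) 0 r := by
      have := Real.circleAverage_fun_smul (a := C) (f := fun z => ∑ x ∈ F, L x z) (c := 0) (R := r)
      simp only [smul_eq_mul] at this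
      exact this
    rw [h4, Real.circleAverage_fun_sum
      (fun x _ => (hLc x).continuousOn.circleIntegrable hr0)] at h3
    exact h3
  have h3 : ∑ x ∈ F, Real.circleAverage (L x) 0 r ≤
      F.card * (2 * ε * Tu u r) + K * Er (Tu u) r R := by
    calc ∑ x ∈ F, Real.circleAverage (L x) 0 r
        ≤ ∑ x ∈ F, (2 * ε * Tu u r + c x * Er (Tu u) r R) :=
        Finset.sum_le_sum fun x hx => hc x hx r R hr hR
      _ = F.card * (2 * ε * Tu u r) + K * Er (Tu u) r R := by
        rw [Finset.sum_add_distrib, Finset.sum_const, nsmul_eq_mul, hK, Finset.sum_mul]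
  have h4 : C * (F.card * (2 * ε * Tu u r)) ≤ Tu u r / 2 := by
    have h5 : C * (F.card * (2 * ε)) ≤ 1 / 2 := by
      rw [hεdef]
      have h6 : C * (F.card * (2 * (1 / (4 * (C + 1) * (F.card + 1))))) =
          (C * F.card) / ((C + 1) * (F.card + 1)) * (1 / 2) := by
        field_simp
        ring
      rw [h6]
      have h7 : (C * F.card) / ((C + 1) * (F.card + 1)) ≤ 1 := by
        rw [div_le_one (by positivity)]
        have : (0 : ℝ) ≤ F.card := Nat.cast_nonneg _
        nlinarith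
      linarith
    have h6 := mul_le_mul_of_nonneg_right h5 (Tu_nonneg u r)
    linarith
  have h5 := mul_le_mul_of_nonneg_left h3 hC0
  linarith

end Pool.Agent.Work.UP
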