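import Pool.Agent.Work.UP.LUfd
import Pool.Agent.Work.UP.TorusC

/-!
# LTorusC (M): the analytic end results for Laurent polynomials

`borelL`: as `unitEqL` in `LTorus`, from `borel`. `torusCL`: as `torusNFL`, from `torusC`: the monomials
in `u` are entire functions without zeros (`mon (fun i => u i z) s` is differentiable in `z`), so they
can be moved into the analytic factor `g`. `ev_uz_differentiable`: `Lp` is spanned by the
`single s a` (induction `AddMonoidAlgebra.induction_linear` or the sum over the support),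
`ev (uz u hu z) (single s a) = a * ∏ i, u i z ^ s i` is differentiable (`DifferentiableAt.zpow`).
-/

set_option autoImplicit false

noncomputable section

namespace Pool.Agent.Work.UP

private theorem cu_uz {d : ℕ} (u : Fin d → ℂ → ℂ) (hu : IsUC u) (z : ℂ) :
    cu (uz u hu z) = fun i => u i z := rfl

private theorem ev_mul_toL {d : ℕ} (u : Fin d → ℂ → ℂ) (hu : IsUC u) (z : ℂ) (s : Fin d → ℤ)
    (q : MvPolynomial (Fin d) ℂ) :
    ev (RingHom.id ℂ) (uz u hu z) (AddMonoidAlgebra.single s 1 * toL q) =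
      mon (fun i => u i z) s * MvPolynomial.eval (fun i => u i z) q := by
  rw [map_mul, ev_single, ev_toL, cu_uz]
  simp

theorem ev_uz_differentiable {d : ℕ} (u : Fin d → ℂ → ℂ) (hu : IsUC u) (A : Lp ℂ d) :
    Differentiable ℂ fun z => ev (RingHom.id ℂ) (uz u hu z) A := by
  induction A using AddMonoidAlgebra.induction_linear with
  | zero => simp
  | add f g hf hg =>
    simp only [map_add]
    exact hf.add hg
  | single s a =>
    have h : (fun z => ev (RingHom.id ℂ) (uz u hu z) (AddMonoidAlgebra.single s a : Lp ℂ d)) =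
        fun z => a * mon (fun i => u i z) s := by
      funext z
      rw [ev_single, cu_uz]
      rfl
    rw [h]
    exact (mon_diff u hu s).const_mul a

theorem borelL {d : ℕ} (u : Fin d → ℂ → ℂ) (hu : IsUC u) (hi : IndC u)
    (A : Lp ℂ d) (hA : A ≠ 0) : ∃ z, ev (RingHom.id ℂ) (uz u hu z) A ≠ 0 := by
  obtain ⟨p, s, hp⟩ := exists_toL A
  have hp0 : p ≠ 0 := by
    rintro rfl
    apply hA
    rw [hp, map_zero, mul_zero]
  obtain ⟨z, hz⟩ := borel u hu hi p hp0
  refine ⟨z, ?_⟩
  rw [hp, ev_mul_toL]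
  exact mul_ne_zero (mon_ne u hu s z) hz

theorem torusCL {d : ℕ} (hd : 0 < d) (u : Fin d → ℂ → ℂ) (hu : IsUC u) (hi : IndC u)
    (β : Type) [Finite β] (P : Set (Lp ℂ d)) (hP : P.Finite)
    (hP0 : ∀ p ∈ P, p ≠ 0) (hspan : SpansL P) (A B' : β → Lp ℂ d → Lp ℂ d)
    (hA : ∀ b, ∀ p ∈ P, IsRelPrime (A b p) p)
    (h : ∀ p ∈ P, ∀ z : ℂ, ∃ b, ∃ g : ℂ → ℂ, AnalyticAt ℂ g z ∧ ∀ᶠ z' in nhds z,
      ev (RingHom.id ℂ) (uz u hu z') (A b p) =
        g z' * (ev (RingHom.id ℂ) (uz u hu z') p * ev (RingHom.id ℂ) (uz u hu z') (B' b p))) :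
    False := by
  classical
  have h1 : ∀ p : Lp ℂ d, ∃ q : MvPolynomial (Fin d) ℂ × (Fin d → ℤ), p ∈ P →
      p = AddMonoidAlgebra.single q.2 1 * toL q.1 ∧
        ∀ i, ¬ (MvPolynomial.X i : MvPolynomial (Fin d) ℂ) ∣ q.1 := by
    intro p
    by_cases hp : p ∈ P
    · obtain ⟨q, s, h2, h3⟩ := exists_reduced p (hP0 p hp)
      exact ⟨(q, s), fun _ => ⟨h2, h3⟩⟩
    · exact ⟨(0, 0), fun h => absurd h hp⟩
  choose r hr using h1
  have h2 : ∀ p : Lp ℂ d, ∃ q : MvPolynomial (Fin d) ℂ × (Fin d → ℤ),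
      p = AddMonoidAlgebra.single q.2 1 * toL q.1 := by
    intro p
    obtain ⟨q, s, h3⟩ := exists_toL p
    exact ⟨(q, s), h3⟩
  choose t ht using h2
  set r1 : Lp ℂ d → MvPolynomial (Fin d) ℂ := fun p => (r p).1 with hr1
  have h3 : ∀ q : MvPolynomial (Fin d) ℂ, ∃ p : Lp ℂ d, q ∈ r1 '' P → p ∈ P ∧ r1 p = q := by
    intro q
    by_cases hq : q ∈ r1 '' P
    · obtain ⟨p, hp, hpq⟩ := hq
      exact ⟨p, fun _ => ⟨hp, hpq⟩⟩
    · exact ⟨0, fun h => absurd h hq⟩
  choose c hc using h3
  refine torusC hd u hu hi β (r1 '' P) (hP.image _) ?_ ?_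
    (fun b q => (t (A b (c q))).1) (fun b q => (t (B' b (c q))).1) ?_ ?_
  · rintro _ ⟨p, hp, rfl⟩ h0
    apply hP0 p hp
    rw [(hr p hp).1]
    have : (r p).1 = 0 := h0
    rw [this, map_zero, mul_zero]
  · unfold Spans
    rw [eq_top_iff]
    have h4 : (⊤ : Submodule ℚ (Fin d → ℚ)) = _ := hspan.symm
    rw [h4]
    apply Submodule.span_mono
    rintro x ⟨p, hp, s, hs, s', hs', rfl⟩
    have h5 : ∀ s ∈ p.coeff.support, ∃ t ∈ (r1 p).support, s = (r p).2 + nz t := by
      intro s hs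
      have h6 : s ∈ (AddMonoidAlgebra.single (r p).2 1 * toL (r p).1 : Lp ℂ d).coeff.support := by
        rw [← (hr p hp).1]
        exact hs
      rw [Finsupp.mem_support_iff, AddMonoidAlgebra.coeff_single_mul_apply, one_mul,
        ← Finsupp.mem_support_iff, support_toL] at h6
      obtain ⟨t, ht, hst⟩ := h6
      refine ⟨t, ht, ?_⟩
      rw [← hst]
      abel
    obtain ⟨t₁, ht₁, hs₁⟩ := h5 s hs
    obtain ⟨t₂, ht₂, hs₂⟩ := h5 s' hs'
    refine ⟨r1 p, ⟨p, hp, rfl⟩, t₁, ht₁, t₂, ht₂, ?_⟩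
    funext i
    rw [hs₁, hs₂]
    simp [nz]
  · intro b q hq
    obtain ⟨hp, hpq⟩ := hc q hq
    set p := c q with hpdef
    apply isRelPrime_of_toL
    · rw [← hpq]
      exact (hr p hp).2
    · intro e he1 he2
      apply hA b p hp
      · rw [ht (A b p)]
        exact dvd_mul_of_dvd_right he1 _
      · rw [(hr p hp).1]
        have : (r p).1 = q := hpq
        rw [this]
        exact dvd_mul_of_dvd_right he2 _
  · intro q hq z
    obtain ⟨hp, hpq⟩ := hc q hq
    set p := c q with hpdef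
    obtain ⟨b, g, hg, hev⟩ := h p hp z
    refine ⟨b, fun z' => (mon (fun i => u i z') (t (A b p)).2)⁻¹ * g z' *
      mon (fun i => u i z') (r p).2 * mon (fun i => u i z') (t (B' b p)).2, ?_, ?_⟩
    · have ha : ∀ s : Fin d → ℤ, AnalyticAt ℂ (fun z' => mon (fun i => u i z') s) z := fun s =>
        (mon_diff u hu s).analyticAt z
      exact ((((ha _).inv (mon_ne u hu _ z)).mul hg).mul (ha _)).mul (ha _)
    · filter_upwards [hev] with z' hz'
      have h7 : ev (RingHom.id ℂ) (uz u hu z') (A b p) =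
          mon (fun i => u i z') (t (A b p)).2 *
            MvPolynomial.eval (fun i => u i z') (t (A b p)).1 := by
        conv_lhs => rw [ht (A b p)]
        exact ev_mul_toL u hu z' _ _
      have h8 : ev (RingHom.id ℂ) (uz u hu z') (B' b p) =
          mon (fun i => u i z') (t (B' b p)).2 *
            MvPolynomial.eval (fun i => u i z') (t (B' b p)).1 := by
        conv_lhs => rw [ht (B' b p)]
        exact ev_mul_toL u hu z' _ _
      have h9 : ev (RingHom.id ℂ) (uz u hu z') p =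
          mon (fun i => u i z') (r p).2 * MvPolynomial.eval (fun i => u i z') q := by
        conv_lhs => rw [(hr p hp).1]
        rw [ev_mul_toL]
        have : (r p).1 = q := hpq
        rw [this]
      rw [h7, h8, h9] at hz'
      have hne := mon_ne u hu (t (A b p)).2 z'
      field_simp
      linear_combination hz'

end Pool.Agent.Work.UP
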