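import Pool.Agent.Work.UP.LDefs

/-!
# LUni (M): unimodular completion

Common step: if `ℓ : (Fin (d + 1) → ℤ) →+ ℤ` is surjective, then there is an isomorphism
`f : (Fin (d + 1) → ℤ) ≃+ (Fin (d + 1) → ℤ)` with `f s (Fin.last d) = ℓ s` for all `s`, and one can
prescribe a vector `k'` with `ℓ k' = 1` to be mapped to `Pi.single (Fin.last d) 1`:
`ker ℓ` is a submodule of a free `ℤ`-module of finite rank, so free, of rank `d` (rank-nullity), choose
a basis, i.e. `g : ker ℓ ≃+ (Fin d → ℤ)`; `f s = Fin.snoc (g (s - ℓ s • k')) (ℓ s)`.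
`uni1`: a proper subspace `W` of `ℚ^(d+1)` is contained in the kernel of a nonzero linear functional
(`Submodule.exists_le_ker_of_lt_top` or similar); clear denominators: an integral functional
`ℓ₀ ≠ 0` with values in `g ℤ` exactly, `g > 0`; `ℓ = ℓ₀ / g` is surjective.
`uni2`: `k ≠ 0`, `r` = gcd of the coordinates, `k = r k'`; there is `ℓ` with `ℓ k' = 1` (Bezout:
`Finset.gcd`, or the ideal generated by the coordinates of `k'` is the unit ideal).
`assoc_lincl`: fix `s₀` in the support of `p`; all `s` in the support have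
`f s last = f s₀ last`, so `single (-(f s₀ last) • e_last) 1 * lmap f p` has all exponents with last
coordinate zero, so it is `lincl p'`.
`exists_spec`: `sp (single s a) = single (s ∘ castSucc) (a * c ^ (s last))`
(`AddMonoidAlgebra.liftNCRingHom` with the monoid homomorphism `s ↦ single (s ∘ castSucc) (c ^ s last)`);
compare on monomials (`lp_hom_ext`), `Fin.prod_univ_castSucc`.
-/

set_option autoImplicit false

noncomputable section

namespace Pool.Agent.Work.UP

private theorem uni_core {d : ℕ} (l : (Fin (d + 1) → ℤ) →ₗ[ℤ] ℤ) (k' : Fin (d + 1) → ℤ)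
    (hk : l k' = 1) :
    ∃ f : (Fin (d + 1) → ℤ) ≃+ (Fin (d + 1) → ℤ),
      (∀ s, f s (Fin.last d) = l s) ∧ f k' = Pi.single (Fin.last d) 1 := by
  have hrange : LinearMap.range l = ⊤ := by
    rw [LinearMap.range_eq_top]
    intro z
    refine ⟨z • k', ?_⟩
    rw [map_smul, hk]
    simp
  have hfr : Module.finrank ℤ (LinearMap.ker l) = Module.finrank ℤ (Fin d → ℤ) := by
    have h := Submodule.finrank_quotient_add_finrank (LinearMap.ker l)
    rw [LinearEquiv.finrank_eq l.quotKerEquivRange, hrange, finrank_top, Module.finrank_self,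
      Module.finrank_fin_fun] at h
    rw [Module.finrank_fin_fun]
    omega
  let g : LinearMap.ker l ≃ₗ[ℤ] (Fin d → ℤ) := LinearEquiv.ofFinrankEq _ _ hfr
  have hmem : ∀ s, s - l s • k' ∈ LinearMap.ker l := by
    intro s
    rw [LinearMap.mem_ker, map_sub, map_smul, hk]
    simp
  refine ⟨{ toFun := fun s => Fin.snoc (g ⟨s - l s • k', hmem s⟩) (l s)
            invFun := fun t => (g.symm (Fin.init t) : Fin (d + 1) → ℤ) + t (Fin.last d) • k'
            left_inv := ?_
            right_inv := ?_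
            map_add' := ?_ }, ?_, ?_⟩
  · intro s
    simp
  · intro t
    have h1 : l ((g.symm (Fin.init t) : Fin (d + 1) → ℤ) + t (Fin.last d) • k') =
        t (Fin.last d) := by
      rw [map_add, map_smul, hk, LinearMap.mem_ker.1 (g.symm (Fin.init t)).2]
      simp
    have h2 : (⟨(g.symm (Fin.init t) : Fin (d + 1) → ℤ) + t (Fin.last d) • k' -
        l ((g.symm (Fin.init t) : Fin (d + 1) → ℤ) + t (Fin.last d) • k') • k', hmem _⟩ :
        LinearMap.ker l) = g.symm (Fin.init t) := by
      apply Subtype.ext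
      simp only [h1]
      simp
    show Fin.snoc (g ⟨_, _⟩) _ = t
    rw [h2, h1, LinearEquiv.apply_symm_apply]
    exact Fin.snoc_init_self t
  · intro s t
    have h3 : (⟨s + t - l (s + t) • k', hmem _⟩ : LinearMap.ker l) =
        ⟨s - l s • k', hmem s⟩ + ⟨t - l t • k', hmem t⟩ := by
      apply Subtype.ext
      show s + t - l (s + t) • k' = (s - l s • k') + (t - l t • k')
      rw [map_add, add_smul]
      abel
    rw [h3, map_add, map_add]
    funext i
    refine Fin.lastCases ?_ (fun i => ?_) i <;> simp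
  · intro s
    show Fin.snoc (α := fun _ => ℤ) _ (l s) (Fin.last d) = l s
    simp
  · show Fin.snoc (α := fun _ => ℤ) (g ⟨k' - l k' • k', hmem k'⟩) (l k') =
      Pi.single (Fin.last d) 1
    have h4 : (⟨k' - l k' • k', hmem k'⟩ : LinearMap.ker l) = 0 := by
      apply Subtype.ext
      show k' - l k' • k' = 0
      rw [hk]
      simp
    rw [h4, hk, map_zero]
    funext i
    refine Fin.lastCases ?_ (fun i => ?_) i
    · simp
    · simp

/-- Bezout for vectors of integers. -/
private theorem bez {d : ℕ} (a : Fin (d + 1) → ℤ) (ha : a ≠ 0) :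
    ∃ (g : ℤ) (a' x : Fin (d + 1) → ℤ), g ≠ 0 ∧ a = g • a' ∧ ∑ i, a' i * x i = 1 := by
  obtain ⟨a', h1, h2⟩ := Finset.extract_gcd (s := Finset.univ) a Finset.univ_nonempty
  have hg : Finset.univ.gcd a ≠ 0 := by
    intro h0
    apply ha
    funext i
    rw [h1 i (Finset.mem_univ i), h0]
    simp
  have h3 : (1 : ℤ) ∈ Submodule.span ℤ (Set.range a') := by
    have h4 : ∀ i, (Submodule.IsPrincipal.generator (Submodule.span ℤ (Set.range a'))) ∣ a' i := by
      intro i
      rw [← Submodule.IsPrincipal.mem_iff_generator_dvd]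
      exact Submodule.subset_span ⟨i, rfl⟩
    have h5 : (Submodule.IsPrincipal.generator (Submodule.span ℤ (Set.range a'))) ∣ 1 := by
      rw [← h2]
      exact Finset.dvd_gcd fun i _ => h4 i
    exact (Submodule.IsPrincipal.mem_iff_generator_dvd _).2 h5
  rw [Submodule.mem_span_range_iff_exists_fun] at h3
  obtain ⟨x, hx⟩ := h3
  refine ⟨Finset.univ.gcd a, a', x, hg, ?_, ?_⟩
  · funext i
    rw [h1 i (Finset.mem_univ i)]
    simp
  · rw [← hx]
    exact Finset.sum_congr rfl fun i _ => by rw [smul_eq_mul, mul_comm]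

/-- The functional given by a vector. -/
private def dotL {d : ℕ} (a : Fin (d + 1) → ℤ) : (Fin (d + 1) → ℤ) →ₗ[ℤ] ℤ where
  toFun s := ∑ i, a i * s i
  map_add' s t := by simp [mul_add, Finset.sum_add_distrib]
  map_smul' c s := by
    simp only [Pi.smul_apply, smul_eq_mul, RingHom.id_apply, Finset.mul_sum]
    exact Finset.sum_congr rfl fun i _ => by ring

theorem uni1 {d : ℕ} (W : Submodule ℚ (Fin (d + 1) → ℚ)) (hW : W ≠ ⊤) :
    ∃ f : (Fin (d + 1) → ℤ) ≃+ (Fin (d + 1) → ℤ),
      ∀ s : Fin (d + 1) → ℤ, (fun i => (s i : ℚ)) ∈ W → f s (Fin.last d) = 0 := by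
  obtain ⟨φ, hφ, hle⟩ := Submodule.exists_le_ker_of_lt_top W (lt_top_iff_ne_top.2 hW)
  -- clear denominators
  set N : ℕ := ∏ i, (φ (Pi.single i 1)).den with hN
  have hN0 : (N : ℚ) ≠ 0 := by
    rw [hN]
    exact_mod_cast Finset.prod_ne_zero_iff.2 fun i _ => (φ (Pi.single i 1)).den_ne_zero
  have h1 : ∀ i, ∃ a : ℤ, (a : ℚ) = N * φ (Pi.single i 1) := by
    intro i
    have hd : (φ (Pi.single i 1)).den ∣ N := Finset.dvd_prod_of_mem _ (Finset.mem_univ i)
    obtain ⟨m, hm⟩ := hd
    refine ⟨m * (φ (Pi.single i 1)).num, ?_⟩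
    rw [hm]
    push_cast
    have := Rat.mul_den_eq_num (φ (Pi.single i 1))
    rw [← this]
    ring
  choose a ha using h1
  have hsum : ∀ s : Fin (d + 1) → ℤ, ((∑ i, a i * s i : ℤ) : ℚ) = N * φ (fun i => (s i : ℚ)) := by
    intro s
    have hs : (fun i => (s i : ℚ)) = ∑ i, (s i : ℚ) • (Pi.single i (1 : ℚ) : Fin (d + 1) → ℚ) := by
      funext j
      simp [Finset.sum_apply, Pi.single_apply]
    rw [hs, map_sum, Finset.mul_sum]
    push_cast
    refine Finset.sum_congr rfl fun i _ => ?_
    rw [map_smul, smul_eq_mul, ha]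
    ring
  have ha0 : a ≠ 0 := by
    intro h0
    apply hφ
    apply LinearMap.pi_ext'
    intro i
    apply LinearMap.ext_ring
    simp only [LinearMap.comp_apply, LinearMap.single_apply, LinearMap.zero_apply]
    have h2 := ha i
    rw [h0] at h2
    simp only [Pi.zero_apply, Int.cast_zero] at h2
    rcases mul_eq_zero.1 h2.symm with h | h
    · exact absurd h hN0
    · exact h
  obtain ⟨g, a', x, hg, haa, hx⟩ := bez a ha0
  obtain ⟨f, hf, -⟩ := uni_core (dotL a') x hx
  refine ⟨f, fun s hs => ?_⟩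
  rw [hf]
  show ∑ i, a' i * s i = 0
  have h3 : (∑ i, a i * s i) = 0 := by
    have h4 := hsum s
    rw [LinearMap.mem_ker.1 (hle hs), mul_zero] at h4
    exact_mod_cast h4
  have h5 : (∑ i, a i * s i) = g * ∑ i, a' i * s i := by
    rw [Finset.mul_sum]
    refine Finset.sum_congr rfl fun i _ => ?_
    rw [haa]
    simp only [Pi.smul_apply, smul_eq_mul]
    ring
  rw [h5] at h3
  exact (mul_eq_zero.1 h3).resolve_left hg

theorem uni2 {d : ℕ} (k : Fin (d + 1) → ℤ) (hk : k ≠ 0) :
    ∃ (f : (Fin (d + 1) → ℤ) ≃+ (Fin (d + 1) → ℤ)) (r : ℤ), r ≠ 0 ∧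
      f k = Pi.single (Fin.last d) r := by
  obtain ⟨g, a', x, hg, haa, hx⟩ := bez k hk
  obtain ⟨f, -, hf⟩ := uni_core (dotL x) a' (by
    show ∑ i, x i * a' i = 1
    rw [← hx]
    exact Finset.sum_congr rfl fun i _ => mul_comm _ _)
  refine ⟨f, g, hg, ?_⟩
  rw [haa, map_zsmul, hf]
  funext i
  simp [Pi.single_apply]

theorem assoc_lincl {k : Type} [Field k] {d : ℕ} (f : (Fin (d + 1) → ℤ) ≃+ (Fin (d + 1) → ℤ))
    (p : Lp k (d + 1)) (hp : p ≠ 0)
    (h : ∀ s ∈ p.coeff.support, ∀ s' ∈ p.coeff.support,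
      f s (Fin.last d) = f s' (Fin.last d)) :
    ∃ p' : Lp k d, Associated (lmap f p) (lincl p') := by
  have hne : p.coeff.support.Nonempty := by
    rw [Finset.nonempty_iff_ne_empty]
    intro h0
    apply hp
    rw [Finsupp.support_eq_empty] at h0
    exact (AddMonoidAlgebra.coeff_eq_zero).1 h0
  obtain ⟨s₀, hs₀⟩ := hne
  set c : ℤ := f s₀ (Fin.last d) with hc
  let e : Fin (d + 1) → ℤ := Pi.single (Fin.last d) c
  have hu : (AddMonoidAlgebra.single (-e) 1 : Lp k (d + 1)) * AddMonoidAlgebra.single e 1 = 1 := by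
    rw [AddMonoidAlgebra.single_mul_single]
    simp [AddMonoidAlgebra.one_def]
  let U : (Lp k (d + 1))ˣ := ⟨AddMonoidAlgebra.single (-e) 1, AddMonoidAlgebra.single e 1, hu, by
    rw [mul_comm]; exact hu⟩
  refine ⟨∑ s ∈ p.coeff.support, AddMonoidAlgebra.single (fun i => f s (Fin.castSucc i))
    (p.coeff s), U, ?_⟩
  have hp' : p = ∑ s ∈ p.coeff.support, AddMonoidAlgebra.single s (p.coeff s) := by
    conv_lhs => rw [← AddMonoidAlgebra.sum_coeff_single p]
    rfl
  have h1 : lmap f p = ∑ s ∈ p.coeff.support, AddMonoidAlgebra.single (f s) (p.coeff s) := by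
    conv_lhs => rw [hp']
    rw [map_sum]
    exact Finset.sum_congr rfl fun s _ => lmap_single f s _
  rw [h1, map_sum, Finset.sum_mul]
  refine Finset.sum_congr rfl fun s hs => ?_
  rw [lincl_single]
  show AddMonoidAlgebra.single (f s) (p.coeff s) * AddMonoidAlgebra.single (-e) 1 = _
  rw [AddMonoidAlgebra.single_mul_single, mul_one]
  congr 1
  funext i
  refine Fin.lastCases ?_ (fun i => ?_) i
  · simp [e, h s hs s₀ hs₀, hc]
  · simp [e]

/-- Specialisation of the last variable. -/
theorem exists_spec {k : Type} [Field k] {d : ℕ} (c : kˣ) :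
    ∃ sp : Lp k (d + 1) →+* Lp k d, ∀ (u : Fin (d + 1) → kˣ) (f : Lp k (d + 1)),
      u (Fin.last d) = c →
        ev (RingHom.id k) u f = ev (RingHom.id k) (fun i => u i.castSucc) (sp f) := by
  let m : Multiplicative (Fin (d + 1) → ℤ) →* Lp k d :=
    { toFun := fun s => AddMonoidAlgebra.single (fun i => s.toAdd (Fin.castSucc i))
        (((c ^ s.toAdd (Fin.last d) : kˣ)) : k)
      map_one' := by
        rw [AddMonoidAlgebra.one_def]
        simp
        rfl
      map_mul' := by
        intro s t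
        rw [AddMonoidAlgebra.single_mul_single]
        congr 1
        simp [zpow_add] }
  let sp : Lp k (d + 1) →+* Lp k d :=
    AddMonoidAlgebra.liftNCRingHom lC m (fun _ _ => Commute.all _ _)
  have hsp : ∀ s a, sp (AddMonoidAlgebra.single s a) =
      AddMonoidAlgebra.single (fun i => s (Fin.castSucc i))
        (a * ((c ^ s (Fin.last d) : kˣ) : k)) := by
    intro s a
    have : sp (AddMonoidAlgebra.single s a) = lC a * m (Multiplicative.ofAdd s) := by
      simp [sp]
    rw [this]
    show AddMonoidAlgebra.single 0 a * AddMonoidAlgebra.single _ _ = _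
    rw [AddMonoidAlgebra.single_mul_single, zero_add]
    rfl
  refine ⟨sp, fun u f hu => ?_⟩
  have h : ev (RingHom.id k) u = (ev (RingHom.id k) (fun i => u i.castSucc)).comp sp := by
    apply lp_hom_ext
    intro s a
    rw [RingHom.comp_apply, hsp, ev_single, ev_single]
    unfold mon cu
    rw [Fin.prod_univ_castSucc, hu]
    simp
    ring
  rw [h]
  rfl

end Pool.Agent.Work.UP
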