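import Mathlib

/-!
# BinomDiff (block G, size S-M): second difference of binomial coefficients

PROOF. Write `N j = (j + d).choose d` and `n j = N j - N (j - 1) = (j + d - 1).choose (d - 1)`
(Pascal). For `m ≥ a + b`
`N m - N (m - a) - N (m - b) + N (m - a - b) = ∑_{i < a} (n (m - i) - n (m - b - i))`, and
`n j - n (j - 1) = (j + d - 2).choose (d - 2)` if `d ≥ 2` and `n = 1` is constant if `d = 1`. So the
second difference is `0` if `d = 1` and at most `a b (m + d - 2).choose (d - 2) ≤ a b (m + d)^(d-2)` if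
`d ≥ 2`. On the other hand `N (m - a) + N (m - b) - N (m - a - b) ≥ N (m - a) ≥ (m - a)^d / d^d`
(`Nat.pow_le_choose`). Hence the quotient (multiplied by `m`) is `O(1 / m)`.
(Any other proof will do; e.g. for fixed `d` everything is a polynomial in `m`.)
-/

set_option autoImplicit false

noncomputable section

namespace Pool.Agent.Work.UP

private def Nf (d j : ℕ) : ℝ := ((j + d).choose d : ℝ)

private theorem Nf_step (d j : ℕ) (hj : 1 ≤ j) : Nf (d + 1) j = Nf (d + 1) (j - 1) + Nf d j := by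
  obtain ⟨i, rfl⟩ : ∃ i, j = i + 1 := ⟨j - 1, by omega⟩
  show (((i + 1 + (d + 1)).choose (d + 1) : ℕ) : ℝ) = _ + (((i + 1 + d).choose d : ℕ) : ℝ)
  have h : (i + 1 + (d + 1)).choose (d + 1) =
      (i + 1 + d).choose d + (i + 1 + d).choose (d + 1) := Nat.choose_succ_succ _ _
  rw [h]
  show _ = (((i + 1 - 1 + (d + 1)).choose (d + 1) : ℕ) : ℝ) + _
  rw [show i + 1 - 1 + (d + 1) = i + 1 + d by omega]
  push_cast
  ring

private theorem Nf_diff (d m a : ℕ) (ha : a ≤ m) :
    Nf (d + 1) m - Nf (d + 1) (m - a) = ∑ i ∈ Finset.range a, Nf d (m - i) := by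
  induction a with
  | zero => simp
  | succ a ih =>
    rw [Finset.sum_range_succ, ← ih (by omega)]
    have h := Nf_step d (m - a) (by omega)
    rw [show m - (a + 1) = m - a - 1 by omega]
    linarith

private theorem Nf_mono (d : ℕ) {i j : ℕ} (h : i ≤ j) : Nf d i ≤ Nf d j := by
  show (((i + d).choose d : ℕ) : ℝ) ≤ (((j + d).choose d : ℕ) : ℝ)
  exact_mod_cast Nat.choose_le_choose d (by omega)

private theorem Nf_nonneg (d i : ℕ) : 0 ≤ Nf d i := Nat.cast_nonneg _

private theorem Nf_diff_le (d m a : ℕ) (ha : a ≤ m) :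
    Nf (d + 1) m - Nf (d + 1) (m - a) ≤ a * Nf d m := by
  rw [Nf_diff d m a ha]
  refine (Finset.sum_le_sum fun i _ => Nf_mono d (Nat.sub_le m i)).trans ?_
  rw [Finset.sum_const, Finset.card_range, nsmul_eq_mul]

private theorem second (e m a b : ℕ) (hab : a + b ≤ m) :
    Nf (e + 2) m - Nf (e + 2) (m - a) - Nf (e + 2) (m - b) + Nf (e + 2) (m - a - b) ≤
      a * b * Nf e m := by
  have h1 := Nf_diff (e + 1) m a (by omega)
  have h2 := Nf_diff (e + 1) (m - b) a (by omega)
  rw [show m - b - a = m - a - b by omega] at h2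
  have h3 : Nf (e + 2) m - Nf (e + 2) (m - a) - Nf (e + 2) (m - b) + Nf (e + 2) (m - a - b) =
      ∑ i ∈ Finset.range a, (Nf (e + 1) (m - i) - Nf (e + 1) (m - i - b)) := by
    rw [Finset.sum_sub_distrib, ← h1]
    have h4 : ∑ i ∈ Finset.range a, Nf (e + 1) (m - i - b) =
        ∑ i ∈ Finset.range a, Nf (e + 1) (m - b - i) :=
      Finset.sum_congr rfl fun i _ => by rw [show m - i - b = m - b - i by omega]
    rw [h4, ← h2]
    ring
  rw [h3]
  have h5 : ∀ i ∈ Finset.range a, Nf (e + 1) (m - i) - Nf (e + 1) (m - i - b) ≤ b * Nf e m := by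
    intro i hi
    have hi' := Finset.mem_range.1 hi
    refine (Nf_diff_le e (m - i) b (by omega)).trans ?_
    exact mul_le_mul_of_nonneg_left (Nf_mono e (Nat.sub_le _ _)) (Nat.cast_nonneg _)
  refine (Finset.sum_le_sum h5).trans ?_
  rw [Finset.sum_const, Finset.card_range, nsmul_eq_mul, mul_assoc]

private theorem Nf_lower (d m a : ℕ) (h : 2 * a ≤ m) :
    (m : ℝ) ^ d / (2 ^ d * (d.factorial : ℝ)) ≤ Nf d (m - a) := by
  have hf : (0 : ℝ) < d.factorial := by exact_mod_cast Nat.factorial_pos d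
  have h1 : (((m - a + d + 1 - d : ℕ) : ℝ)) ^ d / (d.factorial : ℝ) ≤
      (((m - a + d).choose d : ℕ) : ℝ) := Nat.pow_le_choose d (m - a + d)
  refine le_trans ?_ h1
  rw [← div_div, ← div_pow]
  refine div_le_div_of_nonneg_right ?_ hf.le
  refine pow_le_pow_left₀ (by positivity) ?_ d
  have h2 : m ≤ 2 * (m - a + d + 1 - d) := by omega
  have h3 : (m : ℝ) ≤ 2 * ((m - a + d + 1 - d : ℕ) : ℝ) := by exact_mod_cast h2
  linarith

private theorem Nf_upper (e m : ℕ) (h : e ≤ m) : Nf e m ≤ (2 * (m : ℝ)) ^ e := by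
  have h1 : (m + e).choose e ≤ (m + e) ^ e := Nat.choose_le_pow _ _
  have h2 : (m + e) ^ e ≤ (2 * m) ^ e := Nat.pow_le_pow_left (by omega) e
  have h3 : (((m + e).choose e : ℕ) : ℝ) ≤ (((2 * m) ^ e : ℕ) : ℝ) := by exact_mod_cast h1.trans h2
  push_cast at h3
  exact h3

theorem binomDiff (d a b : ℕ) (hd : 0 < d) (η : ℝ) (hη : 0 < η) :
    ∃ m : ℕ, a + b ≤ m ∧
      (2 : ℝ) ≤ ((m - a + d).choose d : ℝ) + (m - b + d).choose d - (m - a - b + d).choose d ∧
      (((m + d).choose d : ℝ) -
          (((m - a + d).choose d : ℝ) + (m - b + d).choose d - (m - a - b + d).choose d)) * m ≤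
        η * (((m - a + d).choose d : ℝ) + (m - b + d).choose d - (m - a - b + d).choose d) := by
  have key : ∀ d j : ℕ, (((j + d).choose d : ℕ) : ℝ) = Nf d j := fun _ _ => rfl
  simp only [key]
  -- choice of `m`
  set F : ℕ := 2 ^ d * d.factorial with hF
  have hF1 : 1 ≤ F := Nat.mul_pos (by positivity) (Nat.factorial_pos d)
  obtain ⟨q, hq⟩ := exists_nat_ge ((a : ℝ) * b * (2 ^ d * F) / η)
  let m : ℕ := 2 * a + b + d + 2 * F + q
  have hm : m = 2 * a + b + d + 2 * F + q := rfl
  have hlow := Nf_lower d m a (by omega)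
  have hge : Nf d (m - a) ≤ Nf d (m - a) + Nf d (m - b) - Nf d (m - a - b) := by
    have := Nf_mono d (show m - a - b ≤ m - b by omega)
    linarith
  have hFr : (0 : ℝ) < (F : ℝ) := by exact_mod_cast hF1
  have hFr' : ((2 : ℝ) ^ d * (d.factorial : ℝ)) = (F : ℝ) := by
    rw [hF]
    push_cast
    ring
  rw [hFr'] at hlow
  have hmF : (2 * F : ℝ) ≤ (m : ℝ) := by exact_mod_cast (show 2 * F ≤ m by omega)
  have hm1 : (1 : ℝ) ≤ (m : ℝ) := by exact_mod_cast (show 1 ≤ m by omega)
  refine ⟨m, by omega, ?_, ?_⟩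
  · refine le_trans ?_ (hlow.trans hge)
    rw [le_div_iff₀ hFr]
    refine hmF.trans ?_
    exact le_self_pow₀ hm1 (by omega)
  · obtain _ | _ | e := d
    · omega
    · -- `d = 1`
      have h1 : ∀ j, Nf 1 j = j + 1 := by
        intro j
        show (((j + 1).choose 1 : ℕ) : ℝ) = _
        rw [Nat.choose_one_right]
        push_cast
        ring
      have e1 : ((m - a : ℕ) : ℝ) = m - a := by
        rw [Nat.cast_sub (by omega)]
      have e2 : ((m - b : ℕ) : ℝ) = m - b := by
        rw [Nat.cast_sub (by omega)]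
      have e3 : ((m - a - b : ℕ) : ℝ) = m - a - b := by
        rw [Nat.cast_sub (by omega), Nat.cast_sub (by omega)]
      rw [zero_add, h1, h1, h1, h1, e1, e2, e3]
      have : ((m : ℝ) + 1 - ((m : ℝ) - a + 1 + ((m : ℝ) - b + 1) - ((m : ℝ) - a - b + 1))) = 0 := by
        ring
      rw [this, zero_mul]
      have h2 : ((m : ℝ) - a + 1 + ((m : ℝ) - b + 1) - ((m : ℝ) - a - b + 1)) = m + 1 := by ring
      rw [h2]
      positivity
    · have hs := second e m a b (by omega)
      have hup := Nf_upper e m (by omega)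
      have hqm : (a : ℝ) * b * (2 ^ (e + 1 + 1) * F) / η ≤ m := by
        refine hq.trans ?_
        exact_mod_cast (show q ≤ m by omega)
      rw [div_le_iff₀ hη] at hqm
      have hm0 : (0 : ℝ) < m := by linarith
      calc (Nf (e + 1 + 1) m - (Nf (e + 1 + 1) (m - a) + Nf (e + 1 + 1) (m - b) -
              Nf (e + 1 + 1) (m - a - b))) * m
          ≤ (a * b * (2 * (m : ℝ)) ^ e) * m := by
            refine mul_le_mul_of_nonneg_right ?_ hm0.le
            have : (a : ℝ) * b * Nf e m ≤ a * b * (2 * (m : ℝ)) ^ e :=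
              mul_le_mul_of_nonneg_left hup (by positivity)
            have hs' : Nf (e + 1 + 1) m - Nf (e + 1 + 1) (m - a) - Nf (e + 1 + 1) (m - b) +
              Nf (e + 1 + 1) (m - a - b) ≤ a * b * Nf e m := hs
            linarith
        _ ≤ η * ((m : ℝ) ^ (e + 1 + 1) / F) := by
            rw [← mul_div_assoc, le_div_iff₀ hFr, mul_pow]
            have h3 : (a : ℝ) * b * ((2 : ℝ) ^ e * (m : ℝ) ^ e) * m * F ≤
                (a * b * (2 ^ (e + 1 + 1) * F)) * (m : ℝ) ^ (e + 1) := by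
              have h4 : (a : ℝ) * b * ((2 : ℝ) ^ e * (m : ℝ) ^ e) * m * F =
                  (a * b * (2 ^ e * F)) * (m : ℝ) ^ (e + 1) := by ring
              rw [h4]
              refine mul_le_mul_of_nonneg_right ?_ (by positivity)
              refine mul_le_mul_of_nonneg_left ?_ (by positivity)
              refine mul_le_mul_of_nonneg_right ?_ hFr.le
              exact pow_le_pow_right₀ (by norm_num) (by omega)
            refine h3.trans ?_
            calc (a * b * (2 ^ (e + 1 + 1) * F)) * (m : ℝ) ^ (e + 1)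
                ≤ (m * η) * (m : ℝ) ^ (e + 1) :=
                  mul_le_mul_of_nonneg_right hqm (by positivity)
              _ = η * (m : ℝ) ^ (e + 1 + 1) := by ring
        _ ≤ η * (Nf (e + 1 + 1) (m - a) + Nf (e + 1 + 1) (m - b) -
              Nf (e + 1 + 1) (m - a - b)) :=
            mul_le_mul_of_nonneg_left (hlow.trans hge) hη.le

end Pool.Agent.Work.UP
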