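import Pool.Agent.Work.UP.NChar
import Pool.Agent.Work.UP.NCartan

/-!
# Borel (block N, size M-L): Borel's theorem on units

PROOF. `borel_indep`: induction on `n` for all injective `s` at once. `n = 0`: trivial. `n + 1`: suppose
`∑ i, a i * mon (s i) = 0` (as functions) with some `a i ≠ 0` (`Fintype.linearIndependent_iff`). If some
`a j = 0`, the induction hypothesis for `s ∘ j.succAbove` gives that all the others vanish. So all
`a i ≠ 0`. Divide by `mon (s (last n))`: with `g i = mon (s (castSucc i) - s (last n))`, `i : Fin n`,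
`∑_{i : Fin n} a (castSucc i) * g i + a (last n) = 0`. `n ≥ 1` (otherwise `a (last n) = 0`). The `g i` are
linearly independent by the induction hypothesis (the exponents are distinct). Apply `cartan` to
`X = g`, `D = 0`, `T r = ∑ i, characteristic (g i) ⊤ r` (nonnegative), and the `n + 1` matrices `M_none = 1` and, for
`j : Fin n`, `M_j` = the identity matrix with row `j` replaced by the row `b i = - a (castSucc i) / a (last n)`
(`Matrix.updateRow`; determinant `b j ≠ 0`: `Matrix.det_updateRow...` or expansion; the form of row `j`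
takes the value `∑ b i g i = 1`). For given `z` choose the form with the largest value among
`1, |g 0 z|, ..., |g (n-1) z|` and omit it: with
`G z = ∑ i, log ‖g i z‖ - max 0 (max_i log ‖g i z‖)` (`Finset.sup'`, or `(⨆ ..)`; simpler: for FIXED `i₀ : Fin n`
use `G z = ∑ i, log ‖g i z‖ - log⁺ ‖g i₀ z‖` which is at least as large) one has
`∑_i log ‖M g‖ ≤ G z`. `circleAverage G 0 r = ∑ i, log ‖g i 0‖ - characteristic (g i₀) ⊤ r` (`avg_log_unit`,
`char_entire`), so `cartan` gives `characteristic (g i₀) ⊤ r ≤ C * Er T r R` (`logCounting 0 = 0`,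
`1 ≤ Er`), for every `i₀`; the sum over `i₀`: `T r ≤ C' * Er T r R`, against `noSmall`: `T` is monotone
(`characteristic_monotoneOn`), and grows linearly by `grow_unit` and `avg_abs_unit` for `g 0`, not
constant by `IndC` (the exponent is not `0`).
`borel`: `valU_eq`, enumerate `A.support` by `Fin n` (`Finset.equivFin`); `borel_indep` for the exponents; some coefficient is
not zero. `valU_indep`: a relation `∑ c i * valU u (φ i) z = 0` for all `z` is `valU u (∑ c i • φ i) = 0`
(`valU_sum`), so `∑ c i • φ i = 0` by `borel`.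
-/

set_option autoImplicit false

noncomputable section

namespace Pool.Agent.Work.UP

open MvPolynomial ValueDistribution Filter

private theorem abs_log_cont {g : ℂ → ℂ} (hg : Differentiable ℂ g) (h0 : ∀ z, g z ≠ 0) :
    Continuous (fun z => Real.log ‖g z‖) :=
  hg.continuous.norm.log (fun z => norm_ne_zero_iff.mpr (h0 z))

private theorem posLog_cont {g : ℂ → ℂ} (hg : Differentiable ℂ g) (h0 : ∀ z, g z ≠ 0) :
    Continuous (fun z => Real.posLog ‖g z‖) := by
  have : (fun z => Real.posLog ‖g z‖) = fun z => max 0 (Real.log ‖g z‖) := rfl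
  rw [this]
  exact continuous_const.max (abs_log_cont hg h0)

private theorem core {n : ℕ} (g : Fin n → ℂ → ℂ) (hg : ∀ i, Differentiable ℂ (g i))
    (h0 : ∀ i z, g i z ≠ 0) (hli : LinearIndependent ℂ g) (b : Fin n → ℂ) (hb : ∀ i, b i ≠ 0)
    (hsum : ∀ z, ∑ i, b i * g i z = 1) (i₁ : Fin n) (hc : ∃ z w, g i₁ z ≠ g i₁ w) : False := by
  classical
  set T : ℝ → ℝ := fun r => ∑ i, characteristic (g i) ⊤ r with hTdef
  have hT0 : ∀ r, 1 ≤ r → 0 ≤ T r := fun r hr =>
    Finset.sum_nonneg fun i _ => characteristic_nonneg hr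
  have hT : ∀ i, ∃ C : ℝ, ∀ r, 1 ≤ r → characteristic (g i) ⊤ r ≤ C * (1 + T r) := by
    intro i
    refine ⟨1, fun r hr => ?_⟩
    have h1 : characteristic (g i) ⊤ r ≤ T r :=
      Finset.single_le_sum (f := fun i => characteristic (g i) ⊤ r)
        (fun j _ => characteristic_nonneg hr) (Finset.mem_univ i)
    linarith
  have hdiv : ∀ i, (0 : Function.locallyFinsupp ℂ ℤ) ≤ MeromorphicOn.divisor (g i) Set.univ :=
    fun i => MeromorphicOn.AnalyticOnNhd.divisor_nonneg (fun z _ => (hg i).analyticAt z)
  set 𝓜 : Set (Matrix (Fin n) (Fin n) ℂ) :=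
    insert 1 (Set.range (fun j => (1 : Matrix (Fin n) (Fin n) ℂ).updateRow j b)) with hMdef
  have hMfin : 𝓜.Finite := (Set.finite_range _).insert _
  have hdet : ∀ M ∈ 𝓜, M.det ≠ 0 := by
    rintro M (rfl | ⟨j, rfl⟩)
    · simp
    · have : ((1 : Matrix (Fin n) (Fin n) ℂ).updateRow j b).det = b j := by
        rw [← Matrix.cramer_transpose_apply, Matrix.transpose_one, Matrix.cramer_one]
        rfl
      simp only [this]
      exact hb j
  obtain ⟨C, hC0, hC⟩ := cartan g hg hli T hT0 hT 0 hdiv 𝓜 hMfin hdet
  -- the estimate for every index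
  have key : ∀ i₀ : Fin n, ∀ r R : ℝ, 1 ≤ r → r < R →
      characteristic (g i₀) ⊤ r ≤ (∑ i, |Real.log ‖g i 0‖| + C) * Er T r R := by
    intro i₀ r R hr hR
    have hint : ∀ i, CircleIntegrable (fun z => Real.log ‖g i z‖) 0 r := fun i =>
      (abs_log_cont (hg i) (h0 i)).continuousOn.circleIntegrable (by linarith)
    have hint2 : CircleIntegrable (fun z => Real.posLog ‖g i₀ z‖) 0 r :=
      (posLog_cont (hg i₀) (h0 i₀)).continuousOn.circleIntegrable (by linarith)
    have hint3 : CircleIntegrable (fun z => ∑ i, Real.log ‖g i z‖) 0 r := by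
      have := CircleIntegrable.sum Finset.univ (fun i _ => hint i)
      simpa only [Finset.sum_fn] using this
    have h1 := hC r R hr hR (fun z => ∑ i, Real.log ‖g i z‖ - Real.posLog ‖g i₀ z‖)
      (hint3.sub hint2) (Filter.Eventually.of_forall ?_)
    · rw [Real.circleAverage_fun_sub hint3 hint2, Real.circleAverage_fun_sum (fun i _ => hint i)] at h1
      simp only [avg_log_unit (hg _) (h0 _)] at h1
      rw [← char_entire (hg i₀) r] at h1
      simp only [map_zero, Pi.zero_apply, mul_zero] at h1
      have h2 : ∑ i, Real.log ‖g i 0‖ ≤ ∑ i, |Real.log ‖g i 0‖| :=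
        Finset.sum_le_sum fun i _ => le_abs_self _
      have h3 : (0 : ℝ) ≤ ∑ i, |Real.log ‖g i 0‖| := Finset.sum_nonneg fun i _ => abs_nonneg _
      have h4 := Er_pos T r R
      nlinarith
    · intro z
      -- the omitted form
      by_cases hz : ∃ j, ∀ i, ‖g i z‖ ≤ ‖g j z‖ ∧ 1 ≤ ‖g j z‖
      · obtain ⟨j, hj⟩ := hz
        refine ⟨(1 : Matrix (Fin n) (Fin n) ℂ).updateRow j b, Or.inr ⟨j, rfl⟩, ?_⟩
        have h1 : ∀ i, Real.log ‖∑ k, ((1 : Matrix (Fin n) (Fin n) ℂ).updateRow j b) i k * g k z‖
            = if i = j then 0 else Real.log ‖g i z‖ := by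
          intro i
          split_ifs with hij
          · subst hij
            simp [Matrix.updateRow_self, hsum]
          · rw [Matrix.updateRow_ne hij]
            simp [Matrix.one_apply]
        simp only [h1]
        have h2 : ∑ i, (if i = j then 0 else Real.log ‖g i z‖) =
            ∑ i, Real.log ‖g i z‖ - Real.log ‖g j z‖ := by
          rw [← Finset.add_sum_erase Finset.univ _ (Finset.mem_univ j),
            ← Finset.add_sum_erase Finset.univ (fun i => Real.log ‖g i z‖) (Finset.mem_univ j)]
          simp only [if_true, zero_add, add_sub_cancel_left]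
          refine Finset.sum_congr rfl fun i hi => ?_
          rw [if_neg (Finset.ne_of_mem_erase hi)]
        rw [h2]
        have h3 : Real.posLog ‖g i₀ z‖ ≤ Real.log ‖g j z‖ := by
          have h4 := (hj i₀).1
          have h5 := (hj i₀).2
          rw [← Real.posLog_eq_log (x := ‖g j z‖) (by rw [abs_of_nonneg (norm_nonneg _)]; exact h5)]
          exact Real.posLog_le_posLog (norm_nonneg _) h4
        linarith
      · refine ⟨1, Or.inl rfl, ?_⟩
        have h1 : ∀ i, Real.log ‖∑ k, (1 : Matrix (Fin n) (Fin n) ℂ) i k * g k z‖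
            = Real.log ‖g i z‖ := by
          intro i
          simp [Matrix.one_apply]
        simp only [h1]
        have h2 : ‖g i₀ z‖ ≤ 1 := by
          by_contra hcon
          push Not at hcon
          obtain ⟨j, -, hj⟩ := Finset.exists_max_image Finset.univ (fun i => ‖g i z‖)
            ⟨i₀, Finset.mem_univ _⟩
          exact hz ⟨j, fun i => ⟨hj i (Finset.mem_univ _),
            hcon.le.trans (hj i₀ (Finset.mem_univ _))⟩⟩
        have h3 : Real.posLog ‖g i₀ z‖ = 0 := by
          rw [Real.posLog_eq_zero_iff, abs_of_nonneg (norm_nonneg _)]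
          exact h2
        rw [h3]
        linarith
  -- growth
  obtain ⟨c, hc0, r₀, hgr⟩ := grow_unit (hg i₁) (h0 i₁) hc
  have hmono : MonotoneOn T (Set.Ioi 0) := by
    intro x hx y hy hxy
    exact Finset.sum_le_sum fun i _ => characteristic_monotoneOn (fun z => ((hg i).analyticAt z).meromorphicAt) hx hy hxy
  refine noSmall T hmono (c / 4) (max (max 1 r₀) (2 * |Real.log ‖g i₁ 0‖| / c)) (by positivity) ?_
    (n * (∑ i, |Real.log ‖g i 0‖| + C)) ?_
  · intro r hr
    have hr1 : 1 ≤ r := (le_max_left _ _).trans ((le_max_left _ _).trans hr)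
    have hr2 : r₀ ≤ r := (le_max_right _ _).trans ((le_max_left _ _).trans hr)
    have hr3 : 2 * |Real.log ‖g i₁ 0‖| / c ≤ r := (le_max_right _ _).trans hr
    rw [div_le_iff₀ hc0] at hr3
    have h1 := hgr r hr2
    rw [avg_abs_unit (hg i₁) (h0 i₁)] at h1
    have h2 : characteristic (g i₁) ⊤ r ≤ T r :=
      Finset.single_le_sum (f := fun i => characteristic (g i) ⊤ r)
        (fun j _ => characteristic_nonneg hr1) (Finset.mem_univ i₁)
    have h3 := neg_abs_le (Real.log ‖g i₁ 0‖)
    linarith
  · intro r R hr hR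
    calc T r = ∑ i, characteristic (g i) ⊤ r := rfl
      _ ≤ ∑ _i : Fin n, (∑ i, |Real.log ‖g i 0‖| + C) * Er T r R :=
        Finset.sum_le_sum fun i _ => key i r R hr hR
      _ = n * (∑ i, |Real.log ‖g i 0‖| + C) * Er T r R := by
        rw [Finset.sum_const, Finset.card_univ, Fintype.card_fin, nsmul_eq_mul]
        ring

private theorem mon_sub' {d : ℕ} (u : Fin d → ℂ) (hu : ∀ i, u i ≠ 0) (x y : Fin d → ℤ) :
    mon u (x - y) * mon u y = mon u x := by
  unfold mon
  rw [← Finset.prod_mul_distrib]
  refine Finset.prod_congr rfl fun i _ => ?_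
  rw [Pi.sub_apply, zpow_sub₀ (hu i), div_mul_cancel₀ _ (zpow_ne_zero _ (hu i))]

theorem borel_indep {d : ℕ} (u : Fin d → ℂ → ℂ) (hu : IsUC u) (hi : IndC u) (n : ℕ)
    (s : Fin n → Fin d → ℤ) (hs : Function.Injective s) :
    LinearIndependent ℂ (fun (i : Fin n) (z : ℂ) => mon (fun j => u j z) (s i)) := by
  induction n with
  | zero => exact linearIndependent_empty_type
  | succ n ih =>
    rw [Fintype.linearIndependent_iff]
    intro a ha
    by_contra hne
    push Not at hne
    have hall : ∀ j, a j ≠ 0 := by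
      intro j hj
      have h1 := ih (s ∘ j.succAbove) (hs.comp Fin.succAbove_right_injective)
      rw [Fintype.linearIndependent_iff] at h1
      have h2 := h1 (fun i => a (j.succAbove i)) (by
        rw [Fin.sum_univ_succAbove _ j, hj, zero_smul, zero_add] at ha
        exact ha)
      obtain ⟨i, hi'⟩ := hne
      rcases Fin.eq_self_or_eq_succAbove j i with h | ⟨k, hk⟩
      · exact hi' (h ▸ hj)
      · exact hi' (hk ▸ h2 k)
    set g : Fin n → ℂ → ℂ := fun i z => mon (fun j => u j z) (s i.castSucc - s (Fin.last n))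
      with hgdef
    have hrel : ∀ z, ∑ i : Fin n, a i.castSucc * g i z + a (Fin.last n) = 0 := by
      intro z
      have h1 := congrFun ha z
      simp only [Finset.sum_apply, Pi.smul_apply, smul_eq_mul, Pi.zero_apply] at h1
      rw [Fin.sum_univ_castSucc] at h1
      have hm := mon_ne u hu (s (Fin.last n)) z
      apply mul_right_cancel₀ hm
      rw [zero_mul, ← h1, add_mul, Finset.sum_mul]
      congr 1
      refine Finset.sum_congr rfl fun i _ => ?_
      rw [mul_assoc, hgdef]
      simp only
      rw [mon_sub' _ (fun i => (hu i).2 z)]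
    -- `n` is positive
    rcases Nat.eq_zero_or_pos n with hn | hn
    · subst hn
      have h1 := hrel 0
      rw [Finset.univ_eq_empty, Finset.sum_empty, zero_add] at h1
      exact hall _ h1
    have hinj : Function.Injective (fun i : Fin n => s i.castSucc - s (Fin.last n)) := by
      intro i j hij
      have := hs (sub_left_injective hij)
      exact Fin.castSucc_injective n this
    have hli := ih (fun i : Fin n => s i.castSucc - s (Fin.last n)) hinj
    refine core g (fun i => mon_diff u hu _) (fun i z => mon_ne u hu _ z) hli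
      (fun i => -a i.castSucc / a (Fin.last n))
      (fun i => div_ne_zero (neg_ne_zero.mpr (hall _)) (hall _)) ?_ ⟨0, hn⟩ ?_
    · intro z
      have h1 := hrel z
      have h2 : ∑ i : Fin n, -a i.castSucc / a (Fin.last n) * g i z =
          -(∑ i : Fin n, a i.castSucc * g i z) / a (Fin.last n) := by
        rw [← Finset.sum_neg_distrib, Finset.sum_div]
        refine Finset.sum_congr rfl fun i _ => ?_
        ring
      rw [h2, eq_neg_of_add_eq_zero_left h1, neg_neg]
      exact div_self (hall _)
    · have hk : s (⟨0, hn⟩ : Fin n).castSucc - s (Fin.last n) ≠ 0 := by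
        intro h
        have := hs (sub_eq_zero.mp h)
        have h2 := congrArg Fin.val this
        simp at h2
        omega
      obtain ⟨z, hz⟩ := hi _ hk (g ⟨0, hn⟩ 0)
      exact ⟨z, 0, hz⟩

theorem borel {d : ℕ} (u : Fin d → ℂ → ℂ) (hu : IsUC u) (hi : IndC u)
    (A : MvPolynomial (Fin d) ℂ) (hA : A ≠ 0) : ∃ z, eval (fun i => u i z) A ≠ 0 := by
  by_contra hcon
  push Not at hcon
  set e := A.support.equivFin with he
  set s : Fin A.support.card → Fin d → ℤ := fun i j => (((e.symm i).1 j : ℕ) : ℤ) with hsdef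
  have hs : Function.Injective s := by
    intro i j hij
    have h1 : (e.symm i).1 = (e.symm j).1 := by
      ext k
      have := congrFun hij k
      simp only [hsdef] at this
      exact_mod_cast this
    exact e.symm.injective (Subtype.ext h1)
  have hli := borel_indep u hu hi _ s hs
  rw [Fintype.linearIndependent_iff] at hli
  have h1 := hli (fun i => coeff (e.symm i).1 A) (by
    funext z
    simp only [Finset.sum_apply, Pi.smul_apply, smul_eq_mul, Pi.zero_apply]
    have h2 := hcon z
    have h3 := valU_eq u A z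
    unfold valU at h3
    rw [h2] at h3
    rw [← Finset.sum_coe_sort A.support
      (fun x => coeff x A * mon (fun i => u i z) (fun i => ((x i : ℕ) : ℤ)))] at h3
    rw [← Equiv.sum_comp e.symm (fun x : A.support =>
      coeff x.1 A * mon (fun i => u i z) (fun i => ((x.1 i : ℕ) : ℤ)))] at h3
    exact h3.symm)
  obtain ⟨x, hx⟩ := MvPolynomial.ne_zero_iff.mp hA
  have hx' : x ∈ A.support := MvPolynomial.mem_support_iff.mpr hx
  have h2 := h1 (e ⟨x, hx'⟩)
  rw [Equiv.symm_apply_apply] at h2
  exact hx h2

theorem valU_indep {d : ℕ} (u : Fin d → ℂ → ℂ) (hu : IsUC u) (hi : IndC u) {N : ℕ}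
    (φ : Fin N → MvPolynomial (Fin d) ℂ) (hφ : LinearIndependent ℂ φ) :
    LinearIndependent ℂ (fun i => valU u (φ i)) := by
  rw [Fintype.linearIndependent_iff] at hφ ⊢
  intro c hc
  apply hφ
  by_contra hne
  obtain ⟨z, hz⟩ := borel u hu hi _ hne
  apply hz
  have h1 := valU_sum u Finset.univ c φ z
  unfold valU at h1
  rw [h1]
  have h2 := congrFun hc z
  simp only [Finset.sum_apply, Pi.smul_apply, smul_eq_mul, Pi.zero_apply] at h2
  exact h2

end Pool.Agent.Work.UP
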