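import Pool.Agent.Work.UP.CountMon
import Pool.Agent.Work.UP.BinomDiff

/-!
# Codim (block G, size M): the ideal of two coprime polynomials is almost everything

PROOF. Let `V j = restrictTotalDegree (Fin d) k j`, `a`, `b` the total degrees of `A`, `B`, `m` from
`binomDiff d a b hd η hη`, and `I = A V (m - a) + B V (m - b)` (images of submodules under the linear
maps `LinearMap.mulLeft k A`, `LinearMap.mulLeft k B`, which are injective). `I ≤ V m` by
`totalDegree_mul_le`. `A V (m - a) ⊓ B V (m - b) = A B V (m - a - b)`: if `A p = B q` then `B ∣ p`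
(`IsRelPrime.dvd_of_dvd_mul_left`), `p = B r`, `deg p = b + deg r`
(`MvPolynomial.totalDegree_mul_of_isDomain`; the case `r = 0` is trivial). By
`Submodule.finrank_sup_add_finrank_inf_eq` and `finrank_restrictTotalDegree` the dimension of `I` is
`(m - a + d).choose d + (m - b + d).choose d - (m - a - b + d).choose d`.
-/

set_option autoImplicit false

noncomputable section

namespace Pool.Agent.Work.UP

open MvPolynomial

private theorem mulLeft_inj {k : Type} [Field k] {d : ℕ} (A : MvPolynomial (Fin d) k)
    (hA : A ≠ 0) : Function.Injective (LinearMap.mulLeft k A) := fun _ _ h =>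
  mul_left_cancel₀ hA h

private theorem finrank_map' {k : Type} [Field k] {d : ℕ} (A : MvPolynomial (Fin d) k)
    (hA : A ≠ 0) (j : ℕ) :
    Module.finrank k ((restrictTotalDegree (Fin d) k j).map (LinearMap.mulLeft k A)) =
      (j + d).choose d := by
  rw [← finrank_restrictTotalDegree k d j]
  exact (LinearEquiv.finrank_eq (Submodule.equivMapOfInjective _ (mulLeft_inj A hA) _)).symm

theorem codim {k : Type} [Field k] {d : ℕ} (hd : 0 < d) (A B : MvPolynomial (Fin d) k)
    (hA : A ≠ 0) (hB : B ≠ 0) (hAB : IsRelPrime A B) (η : ℝ) (hη : 0 < η) :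
    ∃ (m : ℕ) (I : Submodule k (MvPolynomial (Fin d) k)),
      I ≤ restrictTotalDegree (Fin d) k m ∧ (∀ p ∈ I, p ∈ Ideal.span {A, B}) ∧
      2 ≤ Module.finrank k I ∧
      ((Module.finrank k (restrictTotalDegree (Fin d) k m) : ℝ) - Module.finrank k I) * m ≤
        η * Module.finrank k I := by
  obtain ⟨m, hm, h2, hineq⟩ := binomDiff d A.totalDegree B.totalDegree hd η hη
  set a := A.totalDegree with ha
  set b := B.totalDegree with hb
  let I1 : Submodule k (MvPolynomial (Fin d) k) :=
    (restrictTotalDegree (Fin d) k (m - a)).map (LinearMap.mulLeft k A)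
  let I2 : Submodule k (MvPolynomial (Fin d) k) :=
    (restrictTotalDegree (Fin d) k (m - b)).map (LinearMap.mulLeft k B)
  have hinf : I1 ⊓ I2 =
      (restrictTotalDegree (Fin d) k (m - a - b)).map (LinearMap.mulLeft k (A * B)) := by
    apply le_antisymm
    · rintro x ⟨⟨p, hp, hpx⟩, ⟨q, hq, hqx⟩⟩
      have hpx' : A * p = x := hpx
      have hqx' : B * q = x := hqx
      have hdvd : B ∣ A * p := ⟨q, by rw [hpx', hqx']⟩
      obtain ⟨r, hr⟩ := (hAB.symm).dvd_of_dvd_mul_left hdvd
      refine ⟨r, ?_, ?_⟩
      · rw [SetLike.mem_coe, mem_restrictTotalDegree]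
        by_cases hr0 : r = 0
        · rw [hr0, totalDegree_zero]
          exact Nat.zero_le _
        · have h3 := (mem_restrictTotalDegree _ _ p).1 hp
          rw [hr, totalDegree_mul_of_isDomain hB hr0] at h3
          omega
      · show A * B * r = x
        rw [← hpx', hr, mul_assoc]
    · rintro x ⟨r, hr, hrx⟩
      have hrx' : A * B * r = x := hrx
      have h3 := (mem_restrictTotalDegree _ _ r).1 hr
      refine ⟨⟨B * r, ?_, ?_⟩, ⟨A * r, ?_, ?_⟩⟩
      · rw [SetLike.mem_coe, mem_restrictTotalDegree]
        refine (totalDegree_mul _ _).trans ?_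
        omega
      · show A * (B * r) = x
        rw [← hrx', mul_assoc]
      · rw [SetLike.mem_coe, mem_restrictTotalDegree]
        refine (totalDegree_mul _ _).trans ?_
        omega
      · show B * (A * r) = x
        rw [← hrx']
        ring
  have hfr := Submodule.finrank_sup_add_finrank_inf_eq I1 I2
  rw [hinf, finrank_map' _ (mul_ne_zero hA hB), finrank_map' _ hA, finrank_map' _ hB] at hfr
  have hfr' : (Module.finrank k (I1 ⊔ I2 : Submodule k (MvPolynomial (Fin d) k)) : ℝ) =
      ((m - a + d).choose d : ℝ) + (m - b + d).choose d - (m - a - b + d).choose d := by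
    rw [eq_sub_iff_add_eq]
    exact_mod_cast hfr
  refine ⟨m, I1 ⊔ I2, sup_le ?_ ?_, ?_, ?_, ?_⟩
  · rintro _ ⟨p, hp, rfl⟩
    have h3 := (mem_restrictTotalDegree _ _ p).1 hp
    rw [mem_restrictTotalDegree]
    refine (totalDegree_mul _ _).trans ?_
    omega
  · rintro _ ⟨p, hp, rfl⟩
    have h3 := (mem_restrictTotalDegree _ _ p).1 hp
    rw [mem_restrictTotalDegree]
    refine (totalDegree_mul _ _).trans ?_
    omega
  · intro p hp
    obtain ⟨x, ⟨x', _, rfl⟩, y, ⟨y', _, rfl⟩, rfl⟩ := Submodule.mem_sup.1 hp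
    refine Ideal.add_mem _ ?_ ?_
    · exact Ideal.mul_mem_right _ _ (Ideal.subset_span (by simp))
    · exact Ideal.mul_mem_right _ _ (Ideal.subset_span (by simp))
  · rw [← hfr'] at h2
    exact_mod_cast h2
  · rw [finrank_restrictTotalDegree, hfr']
    exact hineq

end Pool.Agent.Work.UP
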