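import Mathlib

/-!
# CountMon (block G, size S-M): the number of monomials of degree at most `m`

PROOF. `MvPolynomial.basisRestrictSupport k {n | n.sum (fun _ e => e) ≤ m}` is a basis of
`restrictTotalDegree (Fin d) k m`, so the dimension is the number of `n : Fin d →₀ ℕ` with
`n.sum (fun _ e => e) ≤ m`. Adding a slack variable these correspond to the elements of
`(Finset.univ : Finset (Fin (d + 1))).finsuppAntidiag m` (or: `Option (Fin d)`), whose number is
`(d + 1 + m - 1).choose m = (m + d).choose d` by `Finset.card_finsuppAntidiag_nat_eq_choose`.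
Alternatively: sum over the degree `j ≤ m` of `(d + j - 1).choose j`, hockey stick
(`Nat.sum_range_choose_...`), or induction on `d` (`Fin.consEquiv`, `Finsupp.cons`).
-/

set_option autoImplicit false

noncomputable section

namespace Pool.Agent.Work.UP

open MvPolynomial

private theorem sum_fin {d : ℕ} (n : Fin d →₀ ℕ) : (n.sum fun _ e => e) = ∑ i, n i :=
  Finsupp.sum_fintype _ _ fun _ => rfl

private def slackEquiv (d m : ℕ) : {n : Fin d →₀ ℕ // (n.sum fun _ e => e) ≤ m} ≃
    {f : Fin (d + 1) →₀ ℕ // f ∈ (Finset.univ : Finset (Fin (d + 1))).finsuppAntidiag m} where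
  toFun n := ⟨Finsupp.cons (m - ∑ i, n.1 i) n.1, by
    rw [Finset.mem_finsuppAntidiag]
    refine ⟨?_, Finset.subset_univ _⟩
    have h := n.2
    rw [sum_fin] at h
    rw [Fin.sum_univ_succ, Finsupp.cons_zero]
    simp only [Finsupp.cons_succ]
    omega⟩
  invFun f := ⟨Finsupp.tail f.1, by
    have h := (Finset.mem_finsuppAntidiag.1 f.2).1
    rw [Fin.sum_univ_succ] at h
    rw [sum_fin]
    simp only [Finsupp.tail_apply]
    omega⟩
  left_inv n := Subtype.ext (Finsupp.tail_cons _ _)
  right_inv f := by
    apply Subtype.ext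
    show Finsupp.cons (m - ∑ i, Finsupp.tail f.1 i) (Finsupp.tail f.1) = f.1
    have h := (Finset.mem_finsuppAntidiag.1 f.2).1
    rw [Fin.sum_univ_succ] at h
    have h0 : m - ∑ i, Finsupp.tail f.1 i = f.1 0 := by
      simp only [Finsupp.tail_apply]
      omega
    rw [h0, Finsupp.cons_tail]

theorem finrank_restrictTotalDegree (k : Type) [Field k] (d m : ℕ) :
    Module.finrank k (restrictTotalDegree (Fin d) k m) = (m + d).choose d := by
  have h1 : Module.finrank k (restrictTotalDegree (Fin d) k m) =
      Nat.card {n : Fin d →₀ ℕ // (n.sum fun _ e => e) ≤ m} :=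
    Module.finrank_eq_nat_card_basis
      (basisRestrictSupport k {n : Fin d →₀ ℕ | (n.sum fun _ e => e) ≤ m})
  rw [h1, Nat.card_congr (slackEquiv d m)]
  rw [Nat.card_eq_fintype_card, Fintype.card_coe, Finset.card_finsuppAntidiag_nat_eq_choose,
    Finset.card_univ, Fintype.card_fin]
  rw [show d + 1 + m - 1 = m + d by omega]
  exact Nat.choose_symm_add

end Pool.Agent.Work.UP
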