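import Pool.Agent.Work.UP.UBas
import Pool.Agent.Work.UP.OutP

/-!
# GcdOut (block G, size S-M): elements of the ideal `(A, B)` at the places outside `T`

PROOF. `φ i = a_i A + b_i B` (`Ideal.mem_span_pair`). `C p` = product over `i` of the bounds of
`polyBound` for `a_i` and `b_i` (each at least `1`; finite product of functions with finite support), so
`|a_i(u)|_p ≤ C p`, `|b_i(u)|_p ≤ C p` and by the ultrametric inequality
`⨆ i, |φ_i(u)|_p ≤ C p * max |A(u)|_p |B(u)|_p`. Use `outP_le_outP`, `outP_mul`, with `finite_iSup`,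
`finite_max`; the constant is `outP T C`, or this plus one.
-/

set_option autoImplicit false

noncomputable section

namespace Pool.Agent.Work.UP

open NumberField IsDedekindDomain MvPolynomial

variable {K : Type} [Field K] [NumberField K]

/-- bounds for one element of the ideal -/
private theorem gcdOut_one (T : Finset (HeightOneSpectrum (𝓞 K))) {d : ℕ}
    (A B : MvPolynomial (Fin d) K) (φ : MvPolynomial (Fin d) K) (hφ : φ ∈ Ideal.span {A, B}) :
    ∃ C : HeightOneSpectrum (𝓞 K) → ℝ, (∀ p, 1 ≤ C p) ∧ {p | C p ≠ 1}.Finite ∧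
      ∀ u : Fin d → K, IsUv T u → ∀ p, p ∉ T → FinitePlace.mk p (eval u φ) ≤
        C p * max (FinitePlace.mk p (eval u A)) (FinitePlace.mk p (eval u B)) := by
  obtain ⟨a, b, hab⟩ := Ideal.mem_span_pair.1 hφ
  obtain ⟨C, hC1, hCf, hC⟩ := polyBound T a
  obtain ⟨D, hD1, hDf, hD⟩ := polyBound T b
  refine ⟨fun p => max (C p) (D p), fun p => (hC1 p).trans (le_max_left _ _), ?_, ?_⟩
  · refine (hCf.union hDf).subset ?_
    intro p hp
    by_contra hc
    simp only [Set.mem_union, Set.mem_ofPred_eq, not_or, not_not] at hc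
    exact hp (by show max (C p) (D p) = 1; rw [hc.1, hc.2, max_self])
  · intro u hu p hp
    rw [← hab, map_add, map_mul, map_mul]
    refine (FinitePlace.add_le _ _ _).trans ?_
    have hA0 : 0 ≤ FinitePlace.mk p (eval u A) := apply_nonneg _ _
    have hB0 : 0 ≤ FinitePlace.mk p (eval u B) := apply_nonneg _ _
    refine max_le ?_ ?_
    · rw [map_mul]
      exact mul_le_mul ((hC u hu p hp).trans (le_max_left _ _)) (le_max_left _ _) hA0
        (zero_le_one.trans ((hC1 p).trans (le_max_left _ _)))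
    · rw [map_mul]
      exact mul_le_mul ((hD u hu p hp).trans (le_max_right _ _)) (le_max_right _ _) hB0
        (zero_le_one.trans ((hC1 p).trans (le_max_left _ _)))

theorem gcdOut (T : Finset (HeightOneSpectrum (𝓞 K))) {d : ℕ} (A B : MvPolynomial (Fin d) K)
    {N : ℕ} (φ : Fin N → MvPolynomial (Fin d) K) (hφ : ∀ i, φ i ∈ Ideal.span {A, B}) :
    ∃ C : ℝ, 0 < C ∧ ∀ u : Fin d → K, IsUv T u → eval u A ≠ 0 →
      (fun i => eval u (φ i)) ≠ 0 →
        outP T (fun p => ⨆ i, FinitePlace.mk p (eval u (φ i))) ≤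
          C * outP T (fun p => max (FinitePlace.mk p (eval u A)) (FinitePlace.mk p (eval u B))) := by
  choose D hD1 hDf hD using fun i => gcdOut_one T A B (φ i) (hφ i)
  have hCf : {p | (∏ i, D i p) ≠ 1}.Finite := by
    refine (Set.finite_iUnion hDf).subset ?_
    intro p hp
    by_contra hc
    apply hp
    refine Finset.prod_eq_one fun i _ => ?_
    by_contra h1
    exact hc (Set.mem_iUnion.2 ⟨i, h1⟩)
  have hC1 : ∀ p, 1 ≤ ∏ i, D i p := fun p =>
    Finset.prod_induction _ (fun x : ℝ => 1 ≤ x) (fun _ _ => one_le_mul_of_one_le_of_one_le)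
      le_rfl fun i _ => hD1 i p
  have hDC : ∀ i p, D i p ≤ ∏ j, D j p := by
    intro i p
    rw [← Finset.mul_prod_erase Finset.univ (fun j => D j p) (Finset.mem_univ i)]
    refine le_mul_of_one_le_right (zero_le_one.trans (hD1 i p)) ?_
    exact Finset.prod_induction _ (fun x : ℝ => 1 ≤ x) (fun _ _ => one_le_mul_of_one_le_of_one_le)
      le_rfl fun j _ => hD1 j p
  refine ⟨outP T (fun p => ∏ i, D i p), outP_pos T fun p _ => zero_lt_one.trans_le (hC1 p), ?_⟩
  intro u hu hA hne
  have hfin := finite_iSup hne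
  have hmax := finite_max (a := eval u A) (b := eval u B) hA
  rw [← outP_mul T hCf hmax]
  refine outP_le_outP T hfin ?_ ?_ ?_
  · refine (hCf.union hmax).subset ?_
    intro p hp
    by_contra hc
    simp only [Set.mem_union, Set.mem_ofPred_eq, not_or, not_not] at hc
    apply hp
    show (∏ i, D i p) * max (FinitePlace.mk p (eval u A)) (FinitePlace.mk p (eval u B)) = 1
    rw [hc.1, hc.2, one_mul]
  · intro p _
    exact Real.iSup_nonneg fun i => apply_nonneg _ _
  · intro p hp
    obtain ⟨i₀, hi₀⟩ : ∃ i, eval u (φ i) ≠ 0 := Function.ne_iff.mp hne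
    have : Nonempty (Fin N) := ⟨i₀⟩
    refine ciSup_le fun i => ?_
    refine (hD i u hu p hp).trans ?_
    refine mul_le_mul_of_nonneg_right (hDC i p) ?_
    exact (apply_nonneg (FinitePlace.mk p) (eval u A)).trans (le_max_left _ _)

end Pool.Agent.Work.UP
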