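import Pool.Agent.Work.UP.UBas
import Pool.Agent.Work.UP.OutP

/-!
# HtPoly (block G, size M): upper bounds for values of polynomials

PROOFS. `archBound`: `C = 1 + max over w of ∑_s |coeff s|_w`, `eval_eq_mons`, triangle inequality.
`htPoly`: let `M` be larger than all the exponents. `|mons u s|_w ≤ ∏_i max(|u_i|_w, 1)^M` for all `s` in the
supports, so by `archBound` `nrm ≤ C ∏_i max(|u_i|_w, 1)^M`, and `∏_w ∏_i max(|u_i|_w, 1)^(M m w)
≤ HU u ^ M` (in fact equality for units; `NumberField.mulHeight₁_eq`). Outside `T`: `polyBound` for the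
`φ_i`, `outP_le_outP`. Together: `mulHeight_eq_outP`. (There are also general results in
`Mathlib/NumberTheory/Height/MvPolynomial.lean`.)
-/

set_option autoImplicit false

noncomputable section

namespace Pool.Agent.Work.UP

open NumberField IsDedekindDomain MvPolynomial

/-- the value of the monomial (any field) -/
private theorem eval_mons {K : Type} [Field K] {d : ℕ} (u : Fin d → K)
    (A : MvPolynomial (Fin d) K) :
    eval u A = ∑ s ∈ A.support, A.coeff s * mons u s := by
  rw [MvPolynomial.eval_eq']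
  refine Finset.sum_congr rfl fun s _ => ?_
  congr 1
  unfold mons mon
  exact Finset.prod_congr rfl fun i _ => (zpow_natCast _ _).symm

theorem archBound {K : Type} [Field K] {ι : Type} [Fintype ι] (v : ι → AbsoluteValue K ℝ) {d : ℕ}
    (ψ : MvPolynomial (Fin d) K) :
    ∃ C : ℝ, 1 ≤ C ∧ ∀ (w : ι) (u : Fin d → K) (B : ℝ), 0 ≤ B →
      (∀ s ∈ ψ.support, v w (mons u s) ≤ B) → v w (eval u ψ) ≤ C * B := by
  have h0 : ∀ w, 0 ≤ ∑ s ∈ ψ.support, v w (ψ.coeff s) :=
    fun w => Finset.sum_nonneg fun s _ => (v w).nonneg _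
  refine ⟨1 + ∑ w, ∑ s ∈ ψ.support, v w (ψ.coeff s), ?_, ?_⟩
  · have := Finset.sum_nonneg fun (w : ι) (_ : w ∈ Finset.univ) => h0 w
    linarith
  intro w u B hB hs
  rw [eval_mons]
  calc v w (∑ s ∈ ψ.support, ψ.coeff s * mons u s)
      ≤ ∑ s ∈ ψ.support, v w (ψ.coeff s * mons u s) := (v w).sum_le _ _
    _ ≤ ∑ s ∈ ψ.support, v w (ψ.coeff s) * B := by
        refine Finset.sum_le_sum fun s hss => ?_
        rw [map_mul]
        exact mul_le_mul_of_nonneg_left (hs s hss) ((v w).nonneg _)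
    _ = (∑ s ∈ ψ.support, v w (ψ.coeff s)) * B := (Finset.sum_mul _ _ _).symm
    _ ≤ (1 + ∑ w, ∑ s ∈ ψ.support, v w (ψ.coeff s)) * B := by
        refine mul_le_mul_of_nonneg_right ?_ hB
        have := Finset.single_le_sum (f := fun w => ∑ s ∈ ψ.support, v w (ψ.coeff s))
          (fun w _ => h0 w) (Finset.mem_univ w)
        linarith

variable {K : Type} [Field K] [NumberField K]

/-- the height of a unit -/
private theorem mulHeight_unit {T : Finset (HeightOneSpectrum (𝓞 K))} {a : K} (ha : IsU T a) :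
    Height.mulHeight₁ a = ∏ w, max (SUnit.placeAbs K T w a) 1 ^ SUnit.placeMult K T w := by
  rw [NumberField.mulHeight₁_eq, Fintype.prod_sum_type]
  have h4 : ∏ᶠ w : FinitePlace K, max (w a) 1 =
      ∏ᶠ p : HeightOneSpectrum (𝓞 K), max (FinitePlace.mk p a) 1 := by
    rw [← finprod_comp_equiv (FinitePlace.equivHeightOneSpectrum (K := K)).symm]
    rfl
  have h5 : ∏ᶠ p : HeightOneSpectrum (𝓞 K), max (FinitePlace.mk p a) 1 =
      ∏ p : {p : HeightOneSpectrum (𝓞 K) // p ∈ T}, max (FinitePlace.mk p.1 a) 1 := by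
    rw [finprod_eq_prod_of_mulSupport_subset (s := T) _ (by
      intro p hp
      by_contra hpS
      exact hp (by show max (FinitePlace.mk p a) 1 = 1; rw [ha.2 p (by simpa using hpS), max_self]))]
    rw [← Finset.prod_coe_sort T]
  rw [h4, h5]
  congr 1
  refine Finset.prod_congr rfl fun p _ => ?_
  show _ = max ((FinitePlace.mk p.1).1 a) 1 ^ 1
  rw [pow_one]
  rfl

private theorem mons_le {d : ℕ} (v : AbsoluteValue K ℝ) (u : Fin d → K) (s : Fin d →₀ ℕ) {M : ℕ}
    (hM : ∀ i, s i ≤ M) : v (mons u s) ≤ ∏ i, max (v (u i)) 1 ^ M := by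
  rw [mons_eq, map_prod]
  refine Finset.prod_le_prod (fun i _ => v.nonneg _) fun i _ => ?_
  rw [map_pow]
  calc v (u i) ^ s i ≤ max (v (u i)) 1 ^ s i := pow_le_pow_left₀ (v.nonneg _) (le_max_left _ _) _
    _ ≤ _ := pow_le_pow_right₀ (le_max_right _ _) (hM i)

theorem htPoly (T : Finset (HeightOneSpectrum (𝓞 K))) {d N : ℕ}
    (φ : Fin N → MvPolynomial (Fin d) K) :
    ∃ (C : ℝ) (M : ℕ), 1 ≤ C ∧ ∀ u : Fin d → K, IsUv T u → (fun i => eval u (φ i)) ≠ 0 →
      Height.mulHeight (fun i => eval u (φ i)) ≤ C * HU u ^ M := by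
  choose A hA1 hA using fun i => archBound (SUnit.placeAbs K T) (φ i)
  choose D hD1 hDf hD using fun i => polyBound T (φ i)
  set M : ℕ := ∑ i, (φ i).totalDegree with hMdef
  have hM : ∀ i, ∀ s ∈ (φ i).support, ∀ j, s j ≤ M := by
    intro i s hs j
    calc s j ≤ ∑ j ∈ s.support, s j := by
          by_cases hj : j ∈ s.support
          · exact Finset.single_le_sum (f := fun j => s j) (fun _ _ => Nat.zero_le _) hj
          · rw [Finsupp.notMem_support_iff.1 hj]; exact Nat.zero_le _
      _ ≤ (φ i).totalDegree := MvPolynomial.le_totalDegree hs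
      _ ≤ M := Finset.single_le_sum (f := fun i => (φ i).totalDegree)
          (fun _ _ => Nat.zero_le _) (Finset.mem_univ i)
  set A₀ : ℝ := ∏ i, A i with hA₀
  have hA₀1 : 1 ≤ A₀ := Finset.prod_induction _ (fun x : ℝ => 1 ≤ x)
    (fun _ _ => one_le_mul_of_one_le_of_one_le) le_rfl fun i _ => hA1 i
  have hAA : ∀ i, A i ≤ A₀ := by
    intro i
    rw [hA₀, ← Finset.mul_prod_erase Finset.univ A (Finset.mem_univ i)]
    refine le_mul_of_one_le_right (zero_le_one.trans (hA1 i)) ?_
    exact Finset.prod_induction _ (fun x : ℝ => 1 ≤ x) (fun _ _ => one_le_mul_of_one_le_of_one_le)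
      le_rfl fun j _ => hA1 j
  have hCf : {p | (∏ i, D i p) ≠ 1}.Finite := by
    refine (Set.finite_iUnion hDf).subset ?_
    intro p hp
    by_contra hc
    apply hp
    refine Finset.prod_eq_one fun i _ => ?_
    by_contra h1
    exact hc (Set.mem_iUnion.2 ⟨i, h1⟩)
  have hDC : ∀ i p, D i p ≤ ∏ j, D j p := by
    intro i p
    rw [← Finset.mul_prod_erase Finset.univ (fun j => D j p) (Finset.mem_univ i)]
    refine le_mul_of_one_le_right (zero_le_one.trans (hD1 i p)) ?_
    exact Finset.prod_induction _ (fun x : ℝ => 1 ≤ x) (fun _ _ => one_le_mul_of_one_le_of_one_le)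
      le_rfl fun j _ => hD1 j p
  set O : ℝ := outP T (fun p => ∏ i, D i p) with hO
  have hO0 : 0 ≤ O := outP_nonneg T fun p _ =>
    Finset.prod_nonneg fun i _ => zero_le_one.trans (hD1 i p)
  set W : ℕ := ∑ w, SUnit.placeMult K T w with hW
  refine ⟨max 1 (A₀ ^ W * O), M, le_max_left _ _, ?_⟩
  intro u hu hne
  obtain ⟨i₀, hi₀⟩ : ∃ i, eval u (φ i) ≠ 0 := Function.ne_iff.mp hne
  have hN : Nonempty (Fin N) := ⟨i₀⟩
  rw [mulHeight_eq_outP T hne]
  have hHU : ∏ w, (∏ i, max (SUnit.placeAbs K T w (u i)) 1 ^ M) ^ SUnit.placeMult K T w =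
      HU u ^ M := by
    unfold HU
    rw [← Finset.prod_pow]
    simp only [← Finset.prod_pow]
    rw [Finset.prod_comm]
    refine Finset.prod_congr rfl fun i _ => ?_
    rw [mulHeight_unit (hu.isU i), ← Finset.prod_pow]
    refine Finset.prod_congr rfl fun w _ => ?_
    rw [← pow_mul, ← pow_mul, mul_comm]
  have hHU0 : 0 ≤ HU u ^ M := pow_nonneg (zero_le_one.trans (one_le_HU u)) _
  have h1 : HT T (fun i => eval u (φ i)) ≤ A₀ ^ W * HU u ^ M := by
    unfold HT SUB.HR
    calc ∏ w, SUB.nrm (SUnit.placeAbs K T w) (fun i => eval u (φ i)) ^ SUnit.placeMult K T w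
        ≤ ∏ w, (A₀ * ∏ i, max (SUnit.placeAbs K T w (u i)) 1 ^ M) ^ SUnit.placeMult K T w := by
          refine Finset.prod_le_prod (fun w _ => pow_nonneg
            (Real.iSup_nonneg fun i => (SUnit.placeAbs K T w).nonneg _) _) fun w _ => ?_
          refine pow_le_pow_left₀ (Real.iSup_nonneg fun i => (SUnit.placeAbs K T w).nonneg _) ?_ _
          have hB0 : 0 ≤ ∏ i, max (SUnit.placeAbs K T w (u i)) 1 ^ M :=
            Finset.prod_nonneg fun i _ => by positivity
          refine ciSup_le fun i => ?_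
          refine (hA i w u _ hB0 fun s hs => mons_le _ u s (hM i s hs)).trans ?_
          exact mul_le_mul_of_nonneg_right (hAA i) hB0
      _ = A₀ ^ W * HU u ^ M := by
          simp only [mul_pow]
          rw [Finset.prod_mul_distrib, hHU, Finset.prod_pow_eq_pow_sum]
  have h2 : outP T (fun p => ⨆ i, FinitePlace.mk p (eval u (φ i))) ≤ O := by
    refine outP_le_outP T (finite_iSup hne) hCf ?_ ?_
    · intro p _
      exact Real.iSup_nonneg fun i => apply_nonneg _ _
    · intro p hp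
      refine ciSup_le fun i => ?_
      exact (hD i u hu p hp).trans (hDC i p)
  have h20 : 0 ≤ outP T (fun p => ⨆ i, FinitePlace.mk p (eval u (φ i))) :=
    outP_nonneg T fun p _ => Real.iSup_nonneg fun i => apply_nonneg _ _
  calc HT T (fun i => eval u (φ i)) * outP T (fun p => ⨆ i, FinitePlace.mk p (eval u (φ i)))
      ≤ (A₀ ^ W * HU u ^ M) * O :=
        mul_le_mul h1 h2 h20 (mul_nonneg (pow_nonneg (zero_le_one.trans hA₀1) _) hHU0)
    _ = (A₀ ^ W * O) * HU u ^ M := by ring
    _ ≤ _ := mul_le_mul_of_nonneg_right (le_max_right _ _) hHU0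

end Pool.Agent.Work.UP
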