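import Pool.Agent.Work.UP.UBas

/-!
# LevProd (block G, size M): the product of the dominating monomials

PROOF. Take logarithms; `L w s = log |mons u s|_w = ∑_i s_i log |u_i|_w`. For fixed `s` the sum
`∑_w m_w L w s` is `log (inP T (mons u s)) = 0` (`isU_inP`, `isU_mons`). So
`∑_w m_w ∑_i L w (σ w i) = - ∑_w m_w ∑_{s ∈ S, s not in the image of σ w} L w s`, and there are `S.card - N` such
`s` for every `w`, each with `|L w s| ≤ m ∑_i |log |u_i|_w|` (as `s_i ≤ s.degree ≤ m`). Sum over `w` with
`sum_abs_log`: `≤ (S.card - N) m 2 ∑_i logHeight₁ (u_i) = 2 (S.card - N) m log (HU u)` (`log_HU`).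
-/

set_option autoImplicit false

noncomputable section

namespace Pool.Agent.Work.UP

open NumberField IsDedekindDomain MvPolynomial

variable {K : Type} [Field K] [NumberField K]

private theorem log_inP (T : Finset (HeightOneSpectrum (𝓞 K))) {a : K} (ha : a ≠ 0) :
    Real.log (inP T a) =
      ∑ w, (SUnit.placeMult K T w : ℝ) * Real.log (SUnit.placeAbs K T w a) := by
  unfold inP
  rw [Real.log_prod (fun w _ => (pow_pos ((SUnit.placeAbs K T w).pos ha) _).ne')]
  exact Finset.sum_congr rfl fun w _ => Real.log_pow _ _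

private theorem abs_log_mons {T : Finset (HeightOneSpectrum (𝓞 K))} {d m : ℕ} {u : Fin d → K}
    (hu : IsUv T u) (w : InfinitePlace K ⊕ {p : HeightOneSpectrum (𝓞 K) // p ∈ T})
    (s : Fin d →₀ ℕ) (hs : s.degree ≤ m) :
    |Real.log (SUnit.placeAbs K T w (mons u s))| ≤
      m * ∑ i, |Real.log (SUnit.placeAbs K T w (u i))| := by
  rw [mons_eq, map_prod, Real.log_prod (fun i _ => by
    rw [map_pow]
    exact (pow_pos ((SUnit.placeAbs K T w).pos (hu i).1) _).ne')]
  refine (Finset.abs_sum_le_sum_abs _ _).trans ?_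
  rw [Finset.mul_sum]
  refine Finset.sum_le_sum fun i _ => ?_
  rw [map_pow, Real.log_pow, abs_mul, Nat.abs_cast]
  refine mul_le_mul_of_nonneg_right ?_ (abs_nonneg _)
  exact_mod_cast (Finsupp.le_degree i s).trans hs

theorem levProd (T : Finset (HeightOneSpectrum (𝓞 K))) {d m N : ℕ} (S : Finset (Fin d →₀ ℕ))
    (hS : ∀ s ∈ S, s.degree ≤ m)
    (σ : (InfinitePlace K ⊕ {p : HeightOneSpectrum (𝓞 K) // p ∈ T}) → Fin N → (Fin d →₀ ℕ))
    (hσ : ∀ w, Function.Injective (σ w)) (hσS : ∀ w i, σ w i ∈ S) (u : Fin d → K)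
    (hu : IsUv T u) :
    ∏ w, ∏ i, SUnit.placeAbs K T w (mons u (σ w i)) ^ SUnit.placeMult K T w ≤
      HU u ^ (2 * ((S.card : ℝ) - N) * m) := by
  classical
  have hne : ∀ s, mons u s ≠ 0 := fun s => (isU_mons hu s).1
  have hpos : ∀ w s, 0 < SUnit.placeAbs K T w (mons u s) :=
    fun w s => (SUnit.placeAbs K T w).pos (hne s)
  have hsum0 : ∀ s, ∑ w, (SUnit.placeMult K T w : ℝ) *
      Real.log (SUnit.placeAbs K T w (mons u s)) = 0 := by
    intro s
    rw [← log_inP T (hne s), isU_inP (isU_mons hu s), Real.log_one]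
  have hHU : 0 < HU u := lt_of_lt_of_le one_pos (one_le_HU u)
  have hl : ∏ w, ∏ i, SUnit.placeAbs K T w (mons u (σ w i)) ^ SUnit.placeMult K T w =
      Real.exp (∑ w, (SUnit.placeMult K T w : ℝ) *
        ∑ i, Real.log (SUnit.placeAbs K T w (mons u (σ w i)))) := by
    rw [Real.exp_sum]
    refine Finset.prod_congr rfl fun w _ => ?_
    rw [Real.exp_nat_mul, Real.exp_sum, Finset.prod_pow]
    congr 1
    exact Finset.prod_congr rfl fun i _ => (Real.exp_log (hpos w _)).symm
  have hsplit : ∀ w, ∑ i, Real.log (SUnit.placeAbs K T w (mons u (σ w i))) =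
      ∑ s ∈ S, Real.log (SUnit.placeAbs K T w (mons u s)) -
        ∑ s ∈ S \ Finset.univ.image (σ w), Real.log (SUnit.placeAbs K T w (mons u s)) := by
    intro w
    have hsub : Finset.univ.image (σ w) ⊆ S := by
      intro s hs
      obtain ⟨i, _, rfl⟩ := Finset.mem_image.1 hs
      exact hσS w i
    rw [← Finset.sum_sdiff hsub, Finset.sum_image (fun i _ j _ h => hσ w h)]
    ring
  have hcard : ∀ w, ((S \ Finset.univ.image (σ w)).card : ℝ) = (S.card : ℝ) - N := by
    intro w
    have hsub : Finset.univ.image (σ w) ⊆ S := by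
      intro s hs
      obtain ⟨i, _, rfl⟩ := Finset.mem_image.1 hs
      exact hσS w i
    have h1 := Finset.card_sdiff_add_card_eq_card hsub
    rw [Finset.card_image_of_injective _ (hσ w), Finset.card_univ, Fintype.card_fin] at h1
    rw [← h1]
    push_cast
    ring
  have hrest : ∀ w, -∑ s ∈ S \ Finset.univ.image (σ w),
      Real.log (SUnit.placeAbs K T w (mons u s)) ≤
        ((S.card : ℝ) - N) * (m * ∑ i, |Real.log (SUnit.placeAbs K T w (u i))|) := by
    intro w
    rw [← hcard w, ← Finset.sum_neg_distrib, ← nsmul_eq_mul, ← Finset.sum_const]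
    refine Finset.sum_le_sum fun s hs => ?_
    exact (neg_le_abs _).trans (abs_log_mons hu w s (hS s (Finset.mem_sdiff.1 hs).1))
  rw [hl, Real.rpow_def_of_pos hHU, Real.exp_le_exp]
  calc ∑ w, (SUnit.placeMult K T w : ℝ) *
        ∑ i, Real.log (SUnit.placeAbs K T w (mons u (σ w i)))
      = ∑ w, (SUnit.placeMult K T w : ℝ) *
          ∑ s ∈ S, Real.log (SUnit.placeAbs K T w (mons u s)) +
        ∑ w, (SUnit.placeMult K T w : ℝ) *
          (-∑ s ∈ S \ Finset.univ.image (σ w), Real.log (SUnit.placeAbs K T w (mons u s))) := by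
        rw [← Finset.sum_add_distrib]
        refine Finset.sum_congr rfl fun w _ => ?_
        rw [hsplit w]
        ring
    _ = ∑ w, (SUnit.placeMult K T w : ℝ) *
          (-∑ s ∈ S \ Finset.univ.image (σ w), Real.log (SUnit.placeAbs K T w (mons u s))) := by
        have : ∑ w, (SUnit.placeMult K T w : ℝ) *
          ∑ s ∈ S, Real.log (SUnit.placeAbs K T w (mons u s)) = 0 := by
          simp_rw [Finset.mul_sum]
          rw [Finset.sum_comm]
          exact Finset.sum_eq_zero fun s _ => hsum0 s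
        rw [this, zero_add]
    _ ≤ ∑ w, (SUnit.placeMult K T w : ℝ) *
          (((S.card : ℝ) - N) * (m * ∑ i, |Real.log (SUnit.placeAbs K T w (u i))|)) :=
        Finset.sum_le_sum fun w _ => mul_le_mul_of_nonneg_left (hrest w) (Nat.cast_nonneg _)
    _ = ((S.card : ℝ) - N) * m * ∑ i, ∑ w, (SUnit.placeMult K T w : ℝ) *
          |Real.log (SUnit.placeAbs K T w (u i))| := by
        rw [Finset.sum_comm]
        simp_rw [← Finset.mul_sum]
        rw [Finset.mul_sum]
        refine Finset.sum_congr rfl fun w _ => ?_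
        ring
    _ = Real.log (HU u) * (2 * ((S.card : ℝ) - N) * m) := by
        rw [Finset.sum_congr rfl fun i _ => sum_abs_log (hu.isU i), ← Finset.mul_sum, log_HU]
        ring

end Pool.Agent.Work.UP
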