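import Mathlib

/-!
# Greedy (block G, size M): bases adapted to an ordering of a basis

PROOF. `B = {s | b s ∉ I ⊔ span {b t | t < s}}`. By induction on `s` (well-founded, `S` is finite):
`b s ∈ I ⊔ span {b t | t ∈ B, t ≤ s}`. So for `s ∉ B` one has `b s = φ + ∑_{t ∈ B, t < s} c_t b_t` with
`φ ∈ I` (here the induction hypothesis is applied to all `t < s`), this defines `φ s`. The `φ s`,
`s ∉ B`, are linearly independent: the coordinate of `φ s` at `s' ∉ B` is `1` if `s' = s` and `0`
otherwise. `I ⊓ span {b t | t ∈ B} = 0`: if a nonzero combination of the `b t`, `t ∈ B`, is in `I` and `t`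
is the largest index with nonzero coefficient then `b t ∈ I ⊔ span {b t' | t' < t}`, a contradiction.
`I ⊔ span {b t | t ∈ B} = ⊤`. So `finrank I + card B = card S`.
-/

set_option autoImplicit false

noncomputable section

namespace Pool.Agent.Work.UP

theorem greedy {k V S : Type} [Field k] [AddCommGroup V] [Module k V] [Fintype S] [LinearOrder S]
    (b : Module.Basis S k V) (I : Submodule k V) :
    ∃ (B : Finset S) (φ : S → V),
      (∀ s, s ∉ B → φ s ∈ I) ∧
      (∀ s, s ∉ B → φ s - b s ∈ Submodule.span k (b '' {t | t ∈ B ∧ t < s})) ∧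
      LinearIndependent k (fun s : {s : S // s ∉ B} => φ s) ∧
      B.card + Module.finrank k I = Fintype.card S := by
  classical
  let U : S → Submodule k V := fun s => I ⊔ Submodule.span k (b '' {t | t < s})
  let B : Finset S := Finset.univ.filter fun s => b s ∉ U s
  have hB : ∀ s, s ∈ B ↔ b s ∉ U s := fun s => by simp [B]
  have hmono : ∀ s t : S, t < s → I ⊔ Submodule.span k (b '' {u | u ∈ B ∧ u ≤ t}) ≤
      I ⊔ Submodule.span k (b '' {u | u ∈ B ∧ u < s}) := by
    intro s t hts
    refine sup_le_sup_left (Submodule.span_mono (Set.image_mono ?_)) _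
    rintro u ⟨h1, h2⟩
    exact ⟨h1, lt_of_le_of_lt h2 hts⟩
  have key : ∀ s, (∀ t, t < s → b t ∈ I ⊔ Submodule.span k (b '' {u | u ∈ B ∧ u ≤ t})) →
      s ∉ B → b s ∈ I ⊔ Submodule.span k (b '' {t | t ∈ B ∧ t < s}) := by
    intro s ih hs
    have h1 : b s ∈ U s := by
      by_contra h
      exact hs ((hB s).2 h)
    have h2 : U s ≤ I ⊔ Submodule.span k (b '' {t | t ∈ B ∧ t < s}) := by
      refine sup_le le_sup_left (Submodule.span_le.2 ?_)
      rintro _ ⟨t, ht, rfl⟩
      exact hmono s t ht (ih t ht)
    exact h2 h1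
  have claim1 : ∀ s, b s ∈ I ⊔ Submodule.span k (b '' {u | u ∈ B ∧ u ≤ s}) := by
    intro s
    induction s using WellFoundedLT.induction with
    | ind s ih =>
      by_cases hs : s ∈ B
      · exact Submodule.mem_sup_right (Submodule.subset_span ⟨s, ⟨hs, le_rfl⟩, rfl⟩)
      · have h1 := key s ih hs
        have h2 : I ⊔ Submodule.span k (b '' {t | t ∈ B ∧ t < s}) ≤
            I ⊔ Submodule.span k (b '' {u | u ∈ B ∧ u ≤ s}) := by
          refine sup_le_sup_left (Submodule.span_mono (Set.image_mono ?_)) _
          rintro u ⟨h1, h2⟩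
          exact ⟨h1, h2.le⟩
        exact h2 h1
  have claim2 : ∀ s, s ∉ B → ∃ φ ∈ I,
      φ - b s ∈ Submodule.span k (b '' {t | t ∈ B ∧ t < s}) := by
    intro s hs
    obtain ⟨x, hx, y, hy, hxy⟩ := Submodule.mem_sup.1 (key s (fun t _ => claim1 t) hs)
    refine ⟨x, hx, ?_⟩
    rw [← hxy, sub_add_cancel_left]
    exact Submodule.neg_mem _ hy
  let φ : S → V := fun s => if h : s ∉ B then (claim2 s h).choose else 0
  have hφ : ∀ s (h : s ∉ B), φ s = (claim2 s h).choose := fun s h => dif_pos h
  have hφ1 : ∀ s, s ∉ B → φ s ∈ I := fun s h => by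
    rw [hφ s h]
    exact (claim2 s h).choose_spec.1
  have hφ2 : ∀ s, s ∉ B → φ s - b s ∈ Submodule.span k (b '' {t | t ∈ B ∧ t < s}) :=
    fun s h => by
      rw [hφ s h]
      exact (claim2 s h).choose_spec.2
  have hcoord : ∀ s t, s ∉ B → t ∉ B → b.repr (φ s) t = if s = t then 1 else 0 := by
    intro s t hs ht
    have h1 : b.repr (φ s - b s) t = 0 := by
      have h2 := (b.mem_span_image).1 (hφ2 s hs)
      by_contra h3
      exact ht (h2 (Finset.mem_coe.2 (Finsupp.mem_support_iff.2 h3))).1
    rw [map_sub, Finsupp.sub_apply, sub_eq_zero] at h1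
    rw [h1, b.repr_self, Finsupp.single_apply]
  refine ⟨B, φ, hφ1, hφ2, ?_, ?_⟩
  · let f : V →ₗ[k] ({s : S // s ∉ B} → k) := LinearMap.pi fun s => b.coord s.1
    apply LinearIndependent.of_comp f
    have e : (f ∘ fun s : {s : S // s ∉ B} => φ s) = Pi.basisFun k {s : S // s ∉ B} := by
      funext s
      rw [Pi.basisFun_apply]
      funext t
      show b.repr (φ s.1) t.1 = _
      rw [hcoord s.1 t.1 s.2 t.2, Pi.single_apply]
      simp only [Subtype.ext_iff, eq_comm]
    rw [e]
    exact (Pi.basisFun k _).linearIndependent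
  · have : Module.Finite k V := Module.Finite.of_basis b
    let W : Submodule k V := Submodule.span k (b '' (B : Set S))
    have hW : Module.finrank k W = B.card := by
      have h1 : LinearIndependent k fun s : (B : Set S) => b s :=
        b.linearIndependent.comp _ Subtype.val_injective
      have h2 := finrank_span_eq_card h1
      have h3 : Set.range (fun s : (B : Set S) => b s) = b '' (B : Set S) := by
        rw [Set.image_eq_range]
      rw [h3] at h2
      rw [h2]
      simp
    have htop : I ⊔ W = ⊤ := by
      rw [eq_top_iff, ← b.span_eq, Submodule.span_le]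
      rintro _ ⟨s, rfl⟩
      have h2 : I ⊔ Submodule.span k (b '' {u | u ∈ B ∧ u ≤ s}) ≤ I ⊔ W :=
        sup_le_sup_left (Submodule.span_mono (Set.image_mono fun u hu => hu.1)) _
      exact h2 (claim1 s)
    have hbot : I ⊓ W = ⊥ := by
      rw [eq_bot_iff]
      rintro x ⟨hx1, hx2⟩
      rw [Submodule.mem_bot]
      by_contra hx
      have hsupp := (b.mem_span_image).1 hx2
      have hne : (b.repr x).support.Nonempty := by
        rw [Finsupp.support_nonempty_iff]
        intro h
        exact hx ((map_eq_zero_iff _ b.repr.injective).1 h)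
      set t := (b.repr x).support.max' hne with ht
      have htm : t ∈ (b.repr x).support := Finset.max'_mem _ _
      have htB : t ∈ B := hsupp (Finset.mem_coe.2 htm)
      have hct : b.repr x t ≠ 0 := Finsupp.mem_support_iff.1 htm
      apply (hB t).1 htB
      have h1 : x - b.repr x t • b t ∈ Submodule.span k (b '' {u | u < t}) := by
        rw [b.mem_span_image]
        intro u hu
        have hu' := Finsupp.mem_support_iff.1 (Finset.mem_coe.1 hu)
        rw [map_sub, map_smul, b.repr_self, Finsupp.sub_apply, Finsupp.smul_apply,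
          Finsupp.single_apply] at hu'
        by_cases hut : t = u
        · subst hut
          simp at hu'
        · rw [if_neg hut, smul_zero, sub_zero] at hu'
          exact lt_of_le_of_ne (Finset.le_max' _ _ (Finsupp.mem_support_iff.2 hu'))
            (Ne.symm hut)
      have h2 : b.repr x t • b t ∈ U t := by
        have h3 : b.repr x t • b t = x - (x - b.repr x t • b t) := by abel
        rw [h3]
        exact Submodule.sub_mem _ (Submodule.mem_sup_left hx1) (Submodule.mem_sup_right h1)
      exact (Submodule.smul_mem_iff _ hct).1 h2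
    have h := Submodule.finrank_sup_add_finrank_inf_eq I W
    rw [htop, hbot, finrank_top, finrank_bot, add_zero, hW,
      Module.finrank_eq_card_basis b] at h
    omega

end Pool.Agent.Work.UP
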