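import Pool.Agent.Work.UP.Codim
import Pool.Agent.Work.UP.Greedy

/-!
# Levin (block G, size M): Levin's filtration, used for number fields AND for entire functions

`φ_1, ..., φ_N` is a basis of a subspace of the ideal `(A, B)`, consisting of polynomials of degree
at most `m`, of small codimension. For every size function `ρ` of the monomials there is a change
of basis (one of finitely many) such that the new basis elements `ψ_i = ∑_j G_{ij} φ_j` are dominated
by DIFFERENT monomials `σ i`: every monomial of `ψ_i` has size at most `ρ (σ i)`.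

PROOF. Take `m, I` from `codim` and a basis `φ : Fin N → I` (`Module.finBasis`). `S` = the set of all
exponents of degree at most `m` (a finite set; `restrictTotalDegree` has the basis of the monomials
`s ∈ S`, so `S.card = finrank`). Given `ρ` choose a linear order on the subtype `S` which refines `ρ`,
i.e. an enumeration `e : S ≃ Fin S.card` with `ρ` monotone along `e` (`Tuple.sort`, or
`Finset.exists_...`, or: order lexicographically by `(ρ s, index of s)`), and use `greedy` for the basis of
the monomials of `restrictTotalDegree (Fin d) k m`, the submodule `I` (comap along the inclusion) and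
that linear order. The complement of `B` has `N` elements; `σ` = an enumeration of the complement, `ψ_i =
φ_{σ i}` of `greedy`, `G` = matrix of `ψ` in the basis `φ` (invertible since `ψ` is linearly
independent with `N` elements). For `s` in the support of `ψ_i`: `s = σ i` or `s ∈ B`, `s < σ i`, so
`ρ s ≤ ρ (σ i)`. The pair `(G, σ)` depends only on the enumeration `e` (choose it for each of the finitely
many `e`), so `𝒢` = range over all `e : S ≃ Fin S.card` is finite.
-/

set_option autoImplicit false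

noncomputable section

namespace Pool.Agent.Work.UP

open MvPolynomial

private theorem exists_enum {ι : Type} [Fintype ι] (ρ : ι → ℝ) :
    ∃ e : ι ≃ Fin (Fintype.card ι), ∀ s t, e s ≤ e t → ρ s ≤ ρ t := by
  let e0 : ι ≃ Fin (Fintype.card ι) := Fintype.equivFin ι
  let σ := Tuple.sort (ρ ∘ e0.symm)
  refine ⟨e0.trans σ.symm, fun s t hst => ?_⟩
  have h := Tuple.monotone_sort (ρ ∘ e0.symm) hst
  have e : ∀ s, ((ρ ∘ e0.symm) ∘ σ) ((e0.trans σ.symm) s) = ρ s := by
    intro s
    simp [Function.comp]
  exact (e s).symm.le.trans (h.trans (e t).le)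

theorem levin {k : Type} [Field k] {d : ℕ} (hd : 0 < d) (A B : MvPolynomial (Fin d) k)
    (hA : A ≠ 0) (hB : B ≠ 0) (hAB : IsRelPrime A B) (η : ℝ) (hη : 0 < η) :
    ∃ (m N : ℕ) (S : Finset (Fin d →₀ ℕ)) (φ : Fin N → MvPolynomial (Fin d) k),
      2 ≤ N ∧ (∀ s ∈ S, s.degree ≤ m) ∧ ((S.card : ℝ) - N) * m ≤ η * N ∧
      LinearIndependent k φ ∧ (∀ i, φ i ∈ Ideal.span {A, B}) ∧ (∀ i, (φ i).support ⊆ S) ∧
      ∃ 𝒢 : Set (Matrix (Fin N) (Fin N) k × (Fin N → (Fin d →₀ ℕ))), 𝒢.Finite ∧
        (∀ g ∈ 𝒢, g.1.det ≠ 0 ∧ Function.Injective g.2 ∧ ∀ i, g.2 i ∈ S) ∧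
        ∀ ρ : (Fin d →₀ ℕ) → ℝ, ∃ g ∈ 𝒢, ∀ i, ∀ s ∈ (∑ j, g.1 i j • φ j).support,
          ρ s ≤ ρ (g.2 i) := by
  classical
  obtain ⟨m, I, hI, hId, h2, hineq⟩ := codim hd A B hA hB hAB η hη
  let ι : Set (Fin d →₀ ℕ) := {n : Fin d →₀ ℕ | (n.sum fun _ e => e) ≤ m}
  let Vm : Submodule k (MvPolynomial (Fin d) k) := restrictTotalDegree (Fin d) k m
  let b0 : Module.Basis ι k Vm := basisRestrictSupport k ι
  have hfinι : Finite ι := Module.Finite.finite_basis b0
  let _ : Fintype ι := Fintype.ofFinite ι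
  have hrepr : ∀ (x : Vm) (s : ι), b0.repr x s = coeff s.1 x.1 := fun _ _ => rfl
  have hfinI : Module.Finite k I := Submodule.finiteDimensional_of_le hI
  have hcard : Fintype.card ι = Module.finrank k Vm := (Module.finrank_eq_card_basis b0).symm
  let fb := Module.finBasis k I
  have hsuppV : ∀ p ∈ Vm, ∀ s ∈ p.support, s ∈ ι := by
    intro p hp s hs
    have h3 := (mem_restrictTotalDegree _ _ p).1 hp
    have h4 : (s.sum fun _ e => e) ≤ p.totalDegree := le_totalDegree hs
    exact h4.trans h3
  have claim : ∀ e : ι ≃ Fin (Fintype.card ι),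
      ∃ g : Matrix (Fin (Module.finrank k I)) (Fin (Module.finrank k I)) k ×
        (Fin (Module.finrank k I) → (Fin d →₀ ℕ)),
      g.1.det ≠ 0 ∧ Function.Injective g.2 ∧ (∀ i, g.2 i ∈ ι) ∧
      ∀ ρ : (Fin d →₀ ℕ) → ℝ, (∀ s t : ι, e s ≤ e t → ρ s.1 ≤ ρ t.1) →
        ∀ i, ∀ s ∈ (∑ j, g.1 i j • (fb j : MvPolynomial (Fin d) k)).support,
          ρ s ≤ ρ (g.2 i) := by
    intro e
    let b1 : Module.Basis (Fin (Fintype.card ι)) k Vm := b0.reindex e
    have hrepr1 : ∀ (x : Vm) (t : Fin (Fintype.card ι)),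
        b1.repr x t = coeff (e.symm t).1 x.1 := fun x t => by
      show (b0.reindex e).repr x t = _
      rw [Module.Basis.repr_reindex_apply]
      exact hrepr x _
    obtain ⟨D, φ, hφ1, hφ2, hφ3, hφ4⟩ := greedy b1 (I.comap Vm.subtype)
    have hrank : Module.finrank k (I.comap Vm.subtype) = Module.finrank k I :=
      LinearEquiv.finrank_eq (Submodule.comapSubtypeEquivOfLe hI)
    have hcardD : Fintype.card {s : Fin (Fintype.card ι) // s ∉ D} = Module.finrank k I := by
      rw [Fintype.card_subtype_compl, Fintype.card_coe]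
      omega
    let σ : Fin (Module.finrank k I) ≃ {s : Fin (Fintype.card ι) // s ∉ D} :=
      (Fintype.equivFinOfCardEq hcardD).symm
    let ψ : Fin (Module.finrank k I) → I := fun i => ⟨(φ (σ i).1).1, hφ1 _ (σ i).2⟩
    have hψli : LinearIndependent k ψ := by
      have h3 : LinearIndependent k fun i => φ (σ i).1 :=
        hφ3.comp (fun i => σ i) σ.injective
      have h4 : LinearIndependent k fun i => (φ (σ i).1).1 :=
        h3.map' Vm.subtype (Submodule.ker_subtype _)
      exact LinearIndependent.of_comp I.subtype h4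
    let G : Matrix (Fin (Module.finrank k I)) (Fin (Module.finrank k I)) k :=
      Matrix.of fun i j => fb.repr (ψ i) j
    have hG : G.det ≠ 0 := by
      have h3 : LinearIndependent k G.row := by
        have h4 := hψli.map' fb.equivFun.toLinearMap fb.equivFun.ker
        exact h4
      rw [Matrix.linearIndependent_rows_iff_isUnit, Matrix.isUnit_iff_isUnit_det,
        isUnit_iff_ne_zero] at h3
      exact h3
    have hsum : ∀ i, (∑ j, G i j • (fb j : MvPolynomial (Fin d) k)) = (φ (σ i).1).1 := by
      intro i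
      have h3 := congrArg (Submodule.subtype I) (fb.sum_repr (ψ i))
      rw [map_sum] at h3
      exact h3
    refine ⟨(G, fun i => (e.symm (σ i).1).1), hG, ?_, fun i => (e.symm (σ i).1).2, ?_⟩
    · intro i j hij
      exact σ.injective (Subtype.ext (e.symm.injective (Subtype.ext hij)))
    · intro ρ hρ i s hs
      change s ∈ (∑ j, G i j • (fb j : MvPolynomial (Fin d) k)).support at hs
      rw [hsum] at hs
      have hsι : s ∈ ι := hsuppV _ (φ (σ i).1).2 s hs
      have hs' : b1.repr (φ (σ i).1) (e ⟨s, hsι⟩) ≠ 0 := by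
        rw [hrepr1, e.symm_apply_apply]
        exact mem_support_iff.1 hs
      by_cases hse : (σ i).1 = e ⟨s, hsι⟩
      · show ρ s ≤ ρ (e.symm (σ i).1).1
        rw [hse, e.symm_apply_apply]
      · have h3 := (b1.mem_span_image).1 (hφ2 _ (σ i).2)
        have h4 : b1.repr (φ (σ i).1 - b1 (σ i).1) (e ⟨s, hsι⟩) ≠ 0 := by
          rw [map_sub, Finsupp.sub_apply, b1.repr_self, Finsupp.single_apply, if_neg hse,
            sub_zero]
          exact hs'
        have h5 := (h3 (Finset.mem_coe.2 (Finsupp.mem_support_iff.2 h4))).2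
        refine hρ ⟨s, hsι⟩ (e.symm (σ i).1) ?_
        rw [e.apply_symm_apply]
        exact h5.le
  choose g hg1 hg2 hg3 hg4 using claim
  refine ⟨m, Module.finrank k I, ι.toFinset, fun i => (fb i : MvPolynomial (Fin d) k), h2, ?_,
    ?_, ?_, ?_, ?_, Set.range g, Set.finite_range g, ?_, ?_⟩
  · intro s hs
    have h3 : s ∈ ι := Set.mem_toFinset.1 hs
    exact h3
  · rw [Set.toFinset_card, hcard]
    exact hineq
  · exact fb.linearIndependent.map' I.subtype (Submodule.ker_subtype _)
  · exact fun i => hId _ (fb i).2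
  · intro i s hs
    exact Set.mem_toFinset.2 (hsuppV _ (hI (fb i).2) s hs)
  · rintro _ ⟨e, rfl⟩
    exact ⟨hg1 e, hg2 e, fun i => Set.mem_toFinset.2 (hg3 e i)⟩
  · intro ρ
    obtain ⟨e, he⟩ := exists_enum (fun s : ι => ρ s.1)
    exact ⟨g e, ⟨e, rfl⟩, hg4 e ρ he⟩

end Pool.Agent.Work.UP
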