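import Pool.Agent.Work.UP.UnitEq
import Pool.Agent.Work.UP.Levin
import Pool.Agent.Work.UP.GcdOut
import Pool.Agent.Work.UP.HtPoly
import Pool.Agent.Work.UP.LevProd

/-!
# Gcd: values of coprime polynomials at units are almost coprime (block G, size M-L)

PROOF. Trivial cases: if `A = 0` or `B = 0` then the other one is a unit, i.e. a nonzero constant, and
if `d = 0` both are constants; the product on the right is then a positive constant, take this for `c`
(`HU u ^ (-ε) ≤ 1` since `1 ≤ HU u`) and `E = ∅`.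
Let `d > 0`, `A, B ≠ 0`. `levin` with `η = ε / 4` gives `m, N, S, φ, 𝒢`; `htPoly` gives `C₁, M` for `φ`; put
`δ = ε N / (2 (M + 1))`. For every function `g` from the places to `𝒢` (finitely many) apply
`SUB.subspace_nf` to the matrices `(g w).1`; this gives finitely many proper subspaces `U`, each killed by a
nonzero functional `b` (`Submodule.exists_le_ker_of_lt_top`), and `∑ b_i φ_i ≠ 0` as the `φ_i` are linearly
independent. `E` = union of the exceptional sets of `unitEq` for all these polynomials, for `A` and for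
`φ_0`. Suppose that `u` avoids `E` and `outP T (max ..) < c HU^(-ε)`. Let `X = (eval u (φ i))_i`, `X ≠ 0`.
For every `w` use `𝒢` with `ρ s = |mons u s|_w`, so that by `archBound`
`|(G_w X)_i|_w = |eval u (∑_j G_ij φ_j)|_w ≤ C₂ |mons u (σ_w i)|_w`. By `levProd`
`∏_w ∏_i |(G_w X)_i|_w^(m w) ≤ C₃ HU^(2 (card S - N) m) ≤ C₃ HU^(2 η N)`.
By `mulHeight_eq_outP` and `gcdOut` `mulHeight X ≤ HT X * C₄ c HU^(-ε)`, hence
`HT X^N mulHeight X^(-N-δ) ≥ (C₄ c)^(-N) HU^(ε N) mulHeight X^(-δ) ≥ (C₄ c)^(-N) C₁^(-δ) HU^(ε N - M δ)`.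
As `2 η N + M δ ≤ ε N` and `HU ≥ 1`, the hypothesis of the Subspace Theorem holds if `c` is so small that
`C₃ ≤ (C₄ c)^(-N) C₁^(-δ)`. So `X` is in one of the `U`, contradicting that `u` avoids `E`.
-/

set_option autoImplicit false

noncomputable section

namespace Pool.Agent.Work.UP

open NumberField IsDedekindDomain MvPolynomial

/-- one of the two polynomials is a unit -/
private theorem gcd_unit (K : Type) [Field K] [NumberField K]
    (T : Finset (HeightOneSpectrum (𝓞 K))) {d : ℕ} (A B : MvPolynomial (Fin d) K)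
    (hA : IsUnit A) (ε : ℝ) (hε : 0 < ε) :
    ∃ c : ℝ, 0 < c ∧ ∀ u : Fin d → K,
        c * HU u ^ (-ε) ≤
          outP T fun p => max (FinitePlace.mk p (eval u A)) (FinitePlace.mk p (eval u B)) := by
  obtain ⟨a, ha, rfl⟩ := MvPolynomial.isUnit_iff_eq_C_of_isReduced.1 hA
  have ha0 : a ≠ 0 := ha.ne_zero
  refine ⟨outP T fun p => FinitePlace.mk p a, outP_pos T fun p _ => ?_, fun u => ?_⟩
  · exact FinitePlace.pos_iff.2 ha0
  have h0 : 0 < outP T fun p => FinitePlace.mk p a :=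
    outP_pos T fun p _ => FinitePlace.pos_iff.2 ha0
  have h1 : HU u ^ (-ε) ≤ 1 := Real.rpow_le_one_of_one_le_of_nonpos (one_le_HU u) (by linarith)
  have h2 : (outP T fun p => FinitePlace.mk p a) * HU u ^ (-ε) ≤
      outP T fun p => FinitePlace.mk p a := by
    calc (outP T fun p => FinitePlace.mk p a) * HU u ^ (-ε) ≤
        (outP T fun p => FinitePlace.mk p a) * 1 := mul_le_mul_of_nonneg_left h1 h0.le
      _ = _ := mul_one _
  refine h2.trans ?_
  refine outP_le_outP T (finite_ne_one ha0) ?_ (fun p _ => apply_nonneg _ _) fun p _ => ?_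
  · refine finite_max ?_
    rw [eval_C]
    exact ha0
  · rw [eval_C]
    exact le_max_left _ _

/-- the final inequality between real numbers -/
private theorem gcd_real {N : ℕ} (hN : 2 ≤ N) {M : ℕ} {ε δ H Y h C₁ C₃ D t a : ℝ} (hε : 0 < ε)
    (hδ : δ = ε * N / (2 * ((M : ℝ) + 1))) (hH : 1 ≤ H) (hY : 0 < Y) (hh : 0 < h)
    (hC₁ : 1 ≤ C₁) (hC₃ : 1 ≤ C₃) (hD : D = C₃ * C₁ ^ δ) (ht : t = D⁻¹)
    (h1 : h ≤ Y * (t * H ^ (-ε))) (h2 : h ≤ C₁ * H ^ M) (ha : a ≤ ε * N / 2) :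
    C₃ * H ^ a ≤ Y ^ (N : ℝ) * h ^ (-(N : ℝ) - δ) := by
  have hN0 : (0 : ℝ) < N := by exact_mod_cast (by omega : 0 < N)
  have hM0 : (0 : ℝ) ≤ (M : ℝ) := Nat.cast_nonneg _
  have hδ0 : 0 < δ := by rw [hδ]; positivity
  have hH0 : 0 < H := zero_lt_one.trans_le hH
  have hCδ : 1 ≤ C₁ ^ δ := Real.one_le_rpow hC₁ hδ0.le
  have hD1 : 1 ≤ D := by
    rw [hD]
    exact one_le_mul_of_one_le_of_one_le hC₃ hCδ
  have hD0 : 0 < D := zero_lt_one.trans_le hD1
  have ht0 : 0 < t := by rw [ht]; positivity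
  have ht1 : t ≤ 1 := by rw [ht]; exact inv_le_one_of_one_le₀ hD1
  have e1 : h ^ (N : ℝ) ≤ Y ^ (N : ℝ) * (t * H ^ (-(ε * N))) := by
    have e : (Y * (t * H ^ (-ε))) ^ (N : ℝ) = Y ^ (N : ℝ) * (t ^ (N : ℝ) * H ^ (-(ε * N))) := by
      rw [Real.mul_rpow hY.le (by positivity), Real.mul_rpow ht0.le (by positivity),
        ← Real.rpow_mul hH0.le]
      congr 3
      ring
    refine (Real.rpow_le_rpow hh.le h1 hN0.le).trans ?_
    rw [e]
    have e' : t ^ (N : ℝ) ≤ t := by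
      rw [Real.rpow_natCast]
      exact pow_le_of_le_one ht0.le ht1 (by omega)
    refine mul_le_mul_of_nonneg_left ?_ (by positivity)
    exact mul_le_mul_of_nonneg_right e' (by positivity)
  have e3 : (M : ℝ) * δ ≤ ε * N / 2 := by
    rw [hδ, ← mul_div_assoc, div_le_iff₀ (by positivity)]
    have : 0 < ε * N := by positivity
    nlinarith
  have e2 : h ^ δ ≤ C₁ ^ δ * H ^ (ε * N / 2) := by
    refine (Real.rpow_le_rpow hh.le h2 hδ0.le).trans ?_
    rw [Real.mul_rpow (by linarith) (by positivity), ← Real.rpow_natCast H M,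
      ← Real.rpow_mul hH0.le]
    refine mul_le_mul_of_nonneg_left ?_ (by positivity)
    exact Real.rpow_le_rpow_of_exponent_le hH e3
  have e4 : H ^ a ≤ H ^ (ε * N / 2) := Real.rpow_le_rpow_of_exponent_le hH ha
  have e5 : h ^ (-(N : ℝ) - δ) = (h ^ (N : ℝ) * h ^ δ)⁻¹ := by
    rw [← Real.rpow_add hh, ← Real.rpow_neg hh.le]
    congr 1
    ring
  rw [e5, ← div_eq_mul_inv, le_div_iff₀ (by positivity)]
  calc C₃ * H ^ a * (h ^ (N : ℝ) * h ^ δ)
      ≤ C₃ * H ^ (ε * N / 2) * ((Y ^ (N : ℝ) * (t * H ^ (-(ε * N)))) *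
          (C₁ ^ δ * H ^ (ε * N / 2))) := by
        have g1 : C₃ * H ^ a ≤ C₃ * H ^ (ε * N / 2) :=
          mul_le_mul_of_nonneg_left e4 (by linarith)
        refine mul_le_mul g1 (mul_le_mul e1 e2 (by positivity) (by positivity)) (by positivity)
          (by positivity)
    _ = Y ^ (N : ℝ) * ((C₃ * C₁ ^ δ) * t) *
          (H ^ (ε * N / 2) * H ^ (-(ε * N)) * H ^ (ε * N / 2)) := by ring
    _ = Y ^ (N : ℝ) := by
        rw [← hD, ht, mul_inv_cancel₀ hD0.ne', ← Real.rpow_add hH0, ← Real.rpow_add hH0]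
        have : ε * N / 2 + -(ε * N) + ε * N / 2 = 0 := by ring
        rw [this, Real.rpow_zero]
        ring

theorem gcdIneq (K : Type) [Field K] [NumberField K] (T : Finset (HeightOneSpectrum (𝓞 K)))
    {d : ℕ} (A B : MvPolynomial (Fin d) K) (hAB : IsRelPrime A B) (ε : ℝ) (hε : 0 < ε) :
    ∃ (c : ℝ) (E : Set ((Fin d → ℤ) × K)), 0 < c ∧ E.Finite ∧
      ∀ u : Fin d → K, IsUv T u → Avoid E u →
        c * HU u ^ (-ε) ≤
          outP T fun p => max (FinitePlace.mk p (eval u A)) (FinitePlace.mk p (eval u B)) := by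
  classical
  -- trivial cases
  by_cases hAu : IsUnit A
  · obtain ⟨c, hc, h⟩ := gcd_unit K T A B hAu ε hε
    exact ⟨c, ∅, hc, Set.finite_empty, fun u _ _ => h u⟩
  by_cases hBu : IsUnit B
  · obtain ⟨c, hc, h⟩ := gcd_unit K T B A hBu ε hε
    refine ⟨c, ∅, hc, Set.finite_empty, fun u _ _ => ?_⟩
    simp only [max_comm (FinitePlace.mk _ (eval u A))]
    exact h u
  have hA : A ≠ 0 := by
    rintro rfl
    exact hBu (isRelPrime_zero_left.1 hAB)
  have hB : B ≠ 0 := by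
    rintro rfl
    exact hAu (isRelPrime_zero_right.1 hAB)
  have hd : 0 < d := by
    by_contra hd0
    obtain rfl : d = 0 := by omega
    refine hAu ?_
    have h1 := MvPolynomial.eq_C_of_isEmpty A
    rw [h1]
    refine (isUnit_iff_ne_zero.2 ?_).map C
    intro h2
    rw [h2, map_zero] at h1
    exact hA h1
  obtain ⟨m, N, S, φ, hN, hSm, hcount, hφli, hφI, hφS, 𝒢, h𝒢f, h𝒢1, h𝒢2⟩ :=
    levin hd A B hA hB hAB (ε / 4) (by positivity)
  obtain ⟨C₁, M, hC₁, hht⟩ := htPoly T φ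
  obtain ⟨C₄, hC₄, hgcd⟩ := gcdOut T A B φ hφI
  choose Cf hCf1 hCf using fun ψ : MvPolynomial (Fin d) K =>
    archBound (SUnit.placeAbs K T) ψ
  set 𝒢' := h𝒢f.toFinset with h𝒢'
  let ψ : Matrix (Fin N) (Fin N) K × (Fin N → (Fin d →₀ ℕ)) → Fin N → MvPolynomial (Fin d) K :=
    fun g i => ∑ j, g.1 i j • φ j
  set Cm : ℝ := ∏ g ∈ 𝒢', ∏ i, Cf (ψ g i) with hCm
  have hCm1 : 1 ≤ Cm :=
    Finset.prod_induction _ (fun x : ℝ => 1 ≤ x) (fun _ _ => one_le_mul_of_one_le_of_one_le)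
      le_rfl fun g _ => Finset.prod_induction _ (fun x : ℝ => 1 ≤ x)
        (fun _ _ => one_le_mul_of_one_le_of_one_le) le_rfl fun i _ => hCf1 _
  have hCfm : ∀ g ∈ 𝒢, ∀ i, Cf (ψ g i) ≤ Cm := by
    intro g hg i
    have hg' : g ∈ 𝒢' := h𝒢f.mem_toFinset.2 hg
    have h1 : Cf (ψ g i) ≤ ∏ i, Cf (ψ g i) := by
      rw [← Finset.mul_prod_erase _ _ (Finset.mem_univ i)]
      refine le_mul_of_one_le_right (zero_le_one.trans (hCf1 _)) ?_
      exact Finset.prod_induction _ (fun x : ℝ => 1 ≤ x)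
        (fun _ _ => one_le_mul_of_one_le_of_one_le) le_rfl fun i _ => hCf1 _
    have h2 : ∏ i, Cf (ψ g i) ≤ Cm := by
      rw [hCm, ← Finset.mul_prod_erase _ _ hg']
      refine le_mul_of_one_le_right ((zero_le_one.trans (hCf1 _)).trans h1) ?_
      exact Finset.prod_induction _ (fun x : ℝ => 1 ≤ x)
        (fun _ _ => one_le_mul_of_one_le_of_one_le) le_rfl fun g _ =>
          Finset.prod_induction _ (fun x : ℝ => 1 ≤ x)
            (fun _ _ => one_le_mul_of_one_le_of_one_le) le_rfl fun i _ => hCf1 _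
    exact h1.trans h2
  set C₃ : ℝ := ∏ w, ∏ _i : Fin N, Cm ^ SUnit.placeMult K T w with hC₃
  have hC₃1 : 1 ≤ C₃ :=
    Finset.prod_induction _ (fun x : ℝ => 1 ≤ x) (fun _ _ => one_le_mul_of_one_le_of_one_le)
      le_rfl fun w _ => Finset.prod_induction _ (fun x : ℝ => 1 ≤ x)
        (fun _ _ => one_le_mul_of_one_le_of_one_le) le_rfl fun i _ => one_le_pow₀ hCm1
  set δ : ℝ := ε * N / (2 * ((M : ℝ) + 1)) with hδ
  have hN0 : (0 : ℝ) < N := by exact_mod_cast (by omega : 0 < N)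
  have hδ0 : 0 < δ := by rw [hδ]; positivity
  set D : ℝ := C₃ * C₁ ^ δ with hD
  have hD1 : 1 ≤ D := one_le_mul_of_one_le_of_one_le hC₃1 (Real.one_le_rpow hC₁ hδ0.le)
  have hD0 : 0 < D := zero_lt_one.trans_le hD1
  -- the subspaces
  have : Finite 𝒢 := h𝒢f
  have hsub := fun g : (InfinitePlace K ⊕ {p : HeightOneSpectrum (𝓞 K) // p ∈ T}) → 𝒢 =>
    SUB.subspace_nf K T hN (fun w => (g w).1.1) (fun w => (h𝒢1 _ (g w).2).1) δ hδ0
  choose 𝒰 h𝒰f h𝒰t h𝒰 using hsub
  -- exceptional sets of the subspaces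
  have hexU : ∀ U : Submodule K (Fin N → K), ∃ E : Set ((Fin d → ℤ) × K), E.Finite ∧
      (U ≠ ⊤ → ∀ u : Fin d → K, IsUv T u → Avoid E u → (fun i => eval u (φ i)) ∉ U) := by
    intro U
    by_cases hU : U = ⊤
    · exact ⟨∅, Set.finite_empty, fun h => absurd hU h⟩
    obtain ⟨b, hb, hbU⟩ := ue_exists_form hU
    have hP : ∑ i, b i • φ i ≠ 0 := by
      intro h0
      exact hb (funext fun i => Fintype.linearIndependent_iff.1 hφli b h0 i)
    obtain ⟨E, hE, hEu⟩ := unitEq K T _ hP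
    refine ⟨E, hE, fun _ u hu hav hmem => hEu u hu hav ?_⟩
    have h1 := hbU _ hmem
    rw [map_sum]
    simpa [smul_eval] using h1
  choose EU hEUf hEU using hexU
  obtain ⟨EA, hEAf, hEA⟩ := unitEq K T A hA
  have i0 : Fin N := ⟨0, by omega⟩
  obtain ⟨Eφ, hEφf, hEφ⟩ := unitEq K T (φ i0) (hφli.ne_zero i0)
  refine ⟨D⁻¹ / C₄, (⋃ g, ⋃ U ∈ 𝒰 g, EU U) ∪ (EA ∪ Eφ), by positivity, ?_, ?_⟩
  · exact (Set.finite_iUnion fun g => (h𝒰f g).biUnion fun U _ => hEUf U).union
      (hEAf.union hEφf)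
  intro u hu hav
  have havA : Avoid EA u := fun e he => hav e (Or.inr (Or.inl he))
  have havφ : Avoid Eφ u := fun e he => hav e (Or.inr (Or.inr he))
  have havU : ∀ g, ∀ U ∈ 𝒰 g, Avoid (EU U) u := fun g U hU e he =>
    hav e (Or.inl (Set.mem_iUnion.2 ⟨g, Set.mem_iUnion₂.2 ⟨U, hU, he⟩⟩))
  by_contra hcon
  push Not at hcon
  set X : Fin N → K := fun i => eval u (φ i) with hX
  have hX0 : X ≠ 0 := by
    intro h0
    exact hEφ u hu havφ (congrFun h0 i0)
  -- the matrices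
  have hgw : ∀ w, ∃ g : 𝒢, ∀ i, ∀ s ∈ (ψ g.1 i).support,
      SUnit.placeAbs K T w (mons u s) ≤ SUnit.placeAbs K T w (mons u (g.1.2 i)) := by
    intro w
    obtain ⟨g, hg, h⟩ := h𝒢2 fun s => SUnit.placeAbs K T w (mons u s)
    exact ⟨⟨g, hg⟩, h⟩
  choose g hg using hgw
  have hprod : ∏ w, ∏ i, SUnit.placeAbs K T w (((g w).1.1).mulVec X i) ^ SUnit.placeMult K T w ≤
      C₃ * HU u ^ (2 * ((S.card : ℝ) - N) * m) := by
    have h1 : ∀ w i, SUnit.placeAbs K T w (((g w).1.1).mulVec X i) ≤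
        Cm * SUnit.placeAbs K T w (mons u ((g w).1.2 i)) := by
      intro w i
      have e : ((g w).1.1).mulVec X i = eval u (ψ (g w).1 i) := by
        simp only [ψ, Matrix.mulVec, dotProduct, map_sum, smul_eval, hX]
      rw [e]
      refine (hCf (ψ (g w).1 i) w u _ (apply_nonneg _ _) (hg w i)).trans ?_
      exact mul_le_mul_of_nonneg_right (hCfm _ (g w).2 i) (apply_nonneg _ _)
    have h2 := levProd T S hSm (fun w => (g w).1.2) (fun w => (h𝒢1 _ (g w).2).2.1)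
      (fun w i => (h𝒢1 _ (g w).2).2.2 i) u hu
    calc ∏ w, ∏ i, SUnit.placeAbs K T w (((g w).1.1).mulVec X i) ^ SUnit.placeMult K T w
        ≤ ∏ w, ∏ i, (Cm * SUnit.placeAbs K T w (mons u ((g w).1.2 i))) ^
            SUnit.placeMult K T w := by
          refine Finset.prod_le_prod (fun w _ => Finset.prod_nonneg fun i _ =>
            pow_nonneg (apply_nonneg _ _) _) fun w _ => ?_
          refine Finset.prod_le_prod (fun i _ => pow_nonneg (apply_nonneg _ _) _) fun i _ => ?_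
          exact pow_le_pow_left₀ (apply_nonneg _ _) (h1 w i) _
      _ = C₃ * ∏ w, ∏ i, SUnit.placeAbs K T w (mons u ((g w).1.2 i)) ^
            SUnit.placeMult K T w := by
          simp only [mul_pow, Finset.prod_mul_distrib, hC₃]
      _ ≤ _ := mul_le_mul_of_nonneg_left h2 (by linarith)
  -- the heights
  have hH := Height.mulHeight_pos X
  have hHT : Height.mulHeight X = HT T X * outP T (fun p => ⨆ i, FinitePlace.mk p (X i)) :=
    mulHeight_eq_outP T hX0
  have hout0 : 0 ≤ outP T (fun p => ⨆ i, FinitePlace.mk p (X i)) :=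
    outP_nonneg T fun p _ => Real.iSup_nonneg fun i => apply_nonneg _ _
  have hY : 0 < HT T X := by
    rw [hHT] at hH
    exact pos_of_mul_pos_left hH hout0
  have h1 : Height.mulHeight X ≤ HT T X * (D⁻¹ * HU u ^ (-ε)) := by
    rw [hHT]
    refine mul_le_mul_of_nonneg_left ?_ hY.le
    refine (hgcd u hu (hEA u hu havA) hX0).trans ?_
    calc _ ≤ C₄ * (D⁻¹ / C₄ * HU u ^ (-ε)) := mul_le_mul_of_nonneg_left hcon.le hC₄.le
      _ = D⁻¹ * HU u ^ (-ε) := by field_simp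
  have h2 := hht u hu hX0
  have ha : 2 * ((S.card : ℝ) - N) * m ≤ ε * N / 2 := by linarith
  have hmain := gcd_real hN hε hδ (one_le_HU u) hY hH hC₁ hC₃1 hD rfl h1 h2 ha
  obtain ⟨U, hU, hXU⟩ := h𝒰 g X hX0 (hprod.trans hmain)
  exact hEU U (h𝒰t g U hU) u hu (havU g U hU) hXU

end Pool.Agent.Work.UP
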