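import Pool.Agent.Work.UP.NGcd

/-!
# NDen (block N, size M): denominators prime to the numerators are almost units

PROOF. If `p` is a unit then it is a nonzero constant (`MvPolynomial.isUnit_iff_eq_C_of_isReduced`), the divisor of
`valU u p` is `0` and its counting function vanishes; `C = 0` works (`0 ≤ ε * Tu u r`). Otherwise all
`A b ≠ 0` (`IsRelPrime 0 p` makes `p` a unit). Let `D b = divisor (valU u (A b)) ⊓ divisor (valU u p)` (the infimum in
`Function.locallyFinsupp ℂ ℤ`), nonnegative (`div_nonneg'`). For every `z` there is `b` with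
`divisor (valU u p) z ≤ divisor (valU u (A b)) z` (`div_dvd` with `f = valU u (A b)`, `h = valU u p`, the factor
`g * valU u (B' b)` analytic at `z`; `borel` for `A b`), so `D b z = divisor (valU u p) z` and
`divisor (valU u p) ≤ ∑ b, D b`. Counting functions are monotone for `r ≥ 1`
(`Function.locallyFinsuppWithin.logCounting_le`) and additive, and `logCounting (valU u p) 0 r` is the
counting function of the divisor of `valU u p` (the divisor is nonnegative: `logCounting_zero`,
`posPart_eq_self`). `gcdC` for `A b, p` with `ε / (card β + 1)`.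
-/

set_option autoImplicit false

noncomputable section

namespace Pool.Agent.Work.UP

open MvPolynomial ValueDistribution

theorem denC {d : ℕ} (hd : 0 < d) (u : Fin d → ℂ → ℂ) (hu : IsUC u) (hi : IndC u)
    (β : Type) [Finite β] (p : MvPolynomial (Fin d) ℂ) (hp : p ≠ 0)
    (A B' : β → MvPolynomial (Fin d) ℂ) (hA : ∀ b, IsRelPrime (A b) p)
    (h : ∀ z : ℂ, ∃ b, ∃ g : ℂ → ℂ, AnalyticAt ℂ g z ∧ ∀ᶠ z' in nhds z,
      valU u (A b) z' = g z' * (valU u p z' * valU u (B' b) z')) (ε : ℝ) (hε : 0 < ε) :
    ∃ C : ℝ, 0 ≤ C ∧ ∀ r R : ℝ, 1 ≤ r → r < R →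
      logCounting (valU u p) 0 r ≤ ε * Tu u r + C * Er (Tu u) r R := by
  classical
  have hTu : ∀ r, 0 ≤ Tu u r := by
    intro r
    unfold Tu
    apply Real.circleAverage_nonneg_of_nonneg
    intro x _
    exact tau_nonneg u x
  by_cases hunit : IsUnit p
  · refine ⟨0, le_rfl, ?_⟩
    intro r R hr hR
    obtain ⟨a, _, ha⟩ := MvPolynomial.isUnit_iff_eq_C_of_isReduced.1 hunit
    have hconst : valU u p = fun _ => a := by
      funext z
      rw [valU, ha, eval_C]
    rw [hconst, logCounting_const, Pi.zero_apply, zero_mul, add_zero]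
    exact mul_nonneg hε.le (hTu r)
  have hA0 : ∀ b, A b ≠ 0 := by
    intro b hb
    apply hunit
    have := hA b
    rw [hb] at this
    exact isRelPrime_zero_left.1 this
  cases nonempty_fintype β
  have hdp : Differentiable ℂ (valU u p) := valU_diff u hu p
  have hdA : ∀ b, Differentiable ℂ (valU u (A b)) := fun b => valU_diff u hu (A b)
  set dp : Function.locallyFinsupp ℂ ℤ := MeromorphicOn.divisor (valU u p) Set.univ with hdpdef
  set D : β → Function.locallyFinsupp ℂ ℤ := fun b =>
    MeromorphicOn.divisor (valU u (A b)) Set.univ ⊓ dp with hD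
  have hD0 : ∀ b, 0 ≤ D b := fun b => le_inf (div_nonneg' (hdA b)) (div_nonneg' hdp)
  have hcard : (0 : ℝ) < (Fintype.card β : ℝ) + 1 := by positivity
  have hgcd : ∀ b, ∃ C : ℝ, 0 ≤ C ∧ ∀ r R : ℝ, 1 ≤ r → r < R →
      Function.locallyFinsuppWithin.logCounting (D b) r ≤
        ε / ((Fintype.card β : ℝ) + 1) * Tu u r + C * Er (Tu u) r R := by
    intro b
    exact gcdC hd u hu hi (A b) p (hA0 b) hp (hA b) (D b) inf_le_left inf_le_right _
      (by positivity)
  choose C hC H using hgcd
  have hle : dp ≤ ∑ b, D b := by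
    intro z
    obtain ⟨b, g, hg, he⟩ := h z
    have h1 : dp z ≤ MeromorphicOn.divisor (valU u (A b)) Set.univ z := by
      refine div_dvd (hdA b) hdp (borel u hu hi (A b) (hA0 b)) z
        (fun z' => g z' * valU u (B' b) z') ?_ ?_
      · exact hg.mul ((valU_diff u hu (B' b)).analyticAt z)
      · filter_upwards [he] with w hw
        rw [hw]
        ring
    have h2 : D b z = dp z := by
      rw [hD]
      simp only [Function.locallyFinsuppWithin.min_apply]
      exact min_eq_right h1
    rw [Function.locallyFinsuppWithin.coe_sum, Finset.sum_apply, ← h2]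
    exact Finset.single_le_sum (f := fun b => D b z) (fun b _ => hD0 b z) (Finset.mem_univ b)
  refine ⟨∑ b, C b, Finset.sum_nonneg fun b _ => hC b, ?_⟩
  intro r R hr hR
  have h1 : logCounting (valU u p) 0 r = Function.locallyFinsuppWithin.logCounting dp r := by
    rw [logCounting_zero, posPart_eq_self.2 (div_nonneg' hdp)]
  have h2 : Function.locallyFinsuppWithin.logCounting dp r ≤
      Function.locallyFinsuppWithin.logCounting (∑ b, D b) r :=
    Function.locallyFinsuppWithin.logCounting_le hle hr
  have h3 : Function.locallyFinsuppWithin.logCounting (∑ b, D b) r =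
      ∑ b, Function.locallyFinsuppWithin.logCounting (D b) r := by
    rw [map_sum, Finset.sum_apply]
  have h4 : ∑ b, Function.locallyFinsuppWithin.logCounting (D b) r ≤
      ∑ b, (ε / ((Fintype.card β : ℝ) + 1) * Tu u r + C b * Er (Tu u) r R) :=
    Finset.sum_le_sum fun b _ => H b r R hr hR
  rw [Finset.sum_add_distrib, Finset.sum_const, Finset.card_univ, nsmul_eq_mul,
    ← Finset.sum_mul] at h4
  have h5 : (Fintype.card β : ℝ) * (ε / ((Fintype.card β : ℝ) + 1) * Tu u r) ≤ ε * Tu u r := by
    have h6 : (Fintype.card β : ℝ) * (ε / ((Fintype.card β : ℝ) + 1)) ≤ ε := by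
      rw [mul_div_assoc', div_le_iff₀ hcard]
      nlinarith
    calc (Fintype.card β : ℝ) * (ε / ((Fintype.card β : ℝ) + 1) * Tu u r)
        = ((Fintype.card β : ℝ) * (ε / ((Fintype.card β : ℝ) + 1))) * Tu u r := by ring
      _ ≤ _ := mul_le_mul_of_nonneg_right h6 (hTu r)
  linarith

end Pool.Agent.Work.UP
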