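import Pool.Agent.Work.UP.NPoly

/-!
# NDiv (block N, size S-M): divisors of entire functions

PROOF. For an entire function `f` that is not identically zero, the order
`meromorphicOrderAt f z` is a natural number at every `z` (identity theorem: it is not `⊤`,
`MP_e97a4d_nt.Hyp.order_ne_top` or `AnalyticOnNhd.eqOn_zero_of_preconnected_of_eventuallyEq_zero`), and
`MeromorphicOn.divisor f univ z` is this number (`MeromorphicOn.divisor_apply`); for the zero function the
divisor is `0`. `div_nonneg`: `MeromorphicOn.AnalyticOnNhd.divisor_nonneg`.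
`div_ideal`: let `φ = a A + b B` (`Ideal.mem_span_pair`) and `z` a point. If `D z ≤ 0`, use `div_nonneg`. If
`D z = m > 0` then `valU u A` and `valU u B` both vanish to order at least `m` at `z` (a
positive divisor at `z` is the order), hence also `valU u φ = valU u a * valU u A + valU u b * valU u B`
(`natCast_le_analyticOrderAt` : `f w = (w - z) ^ m * g w`, or `meromorphicOrderAt_add`,
`meromorphicOrderAt_mul`), whose order is not `⊤`.
`div_dvd`: near `z`: `f = g * h` with `g, h` analytic, so the order of `f` is at least the order of `h`; the order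
of `f` is finite because `f` is not identically zero.
-/

set_option autoImplicit false

noncomputable section

namespace Pool.Agent.Work.UP

open MvPolynomial

private theorem nd_le {f : ℂ → ℂ} (hf : Differentiable ℂ f) {z : ℂ} {m : ℕ} (hm : 0 < m)
    (h : (m : ℤ) ≤ MeromorphicOn.divisor f Set.univ z) : (m : ℕ∞) ≤ analyticOrderAt f z := by
  rw [MeromorphicOn.divisor_apply (fun z _ => (hf.analyticAt z).meromorphicAt)
    (Set.mem_univ z), (hf.analyticAt z).meromorphicOrderAt_eq] at h
  induction hn : analyticOrderAt f z with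
  | top => exact le_top
  | coe n =>
    rw [hn] at h
    have h1 : (m : ℤ) ≤ n := h
    exact_mod_cast h1

private theorem nd_ge {f : ℂ → ℂ} (hf : Differentiable ℂ f) (hf0 : ∃ z, f z ≠ 0) {z : ℂ} {m : ℕ}
    (h : (m : ℕ∞) ≤ analyticOrderAt f z) : (m : ℤ) ≤ MeromorphicOn.divisor f Set.univ z := by
  rw [MeromorphicOn.divisor_apply (fun z _ => (hf.analyticAt z).meromorphicAt)
    (Set.mem_univ z), (hf.analyticAt z).meromorphicOrderAt_eq]
  induction hn : analyticOrderAt f z with
  | top =>
    exfalso
    obtain ⟨z0, hz0⟩ := hf0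
    have h1 := (AnalyticOnNhd.analyticOrderAt_eq_top_iff_eq_zero z
      (fun z => hf.analyticAt z)).1 hn
    rw [h1] at hz0
    exact hz0 rfl
  | coe n =>
    rw [hn] at h
    have h1 : m ≤ n := by exact_mod_cast h
    show (m : ℤ) ≤ (n : ℤ)
    exact_mod_cast h1

theorem div_nonneg' {f : ℂ → ℂ} (hf : Differentiable ℂ f) :
    0 ≤ MeromorphicOn.divisor f Set.univ := by
  exact MeromorphicOn.AnalyticOnNhd.divisor_nonneg fun z _ => hf.analyticAt z

theorem div_dvd {f h : ℂ → ℂ} (hf : Differentiable ℂ f) (hh : Differentiable ℂ h)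
    (hf0 : ∃ z, f z ≠ 0) (z : ℂ) (g : ℂ → ℂ) (hg : AnalyticAt ℂ g z)
    (he : ∀ᶠ w in nhds z, f w = g w * h w) :
    MeromorphicOn.divisor h Set.univ z ≤ MeromorphicOn.divisor f Set.univ z := by
  have h0 : 0 ≤ MeromorphicOn.divisor h Set.univ z := div_nonneg' hh z
  obtain ⟨m, hm⟩ := Int.eq_ofNat_of_zero_le h0
  rcases Nat.eq_zero_or_pos m with rfl | hm0
  · rw [hm]
    exact div_nonneg' hf z
  · have h1 := nd_le hh hm0 hm.ge
    obtain ⟨h', hh', he'⟩ := (natCast_le_analyticOrderAt (hh.analyticAt z)).1 h1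
    have h2 : (m : ℕ∞) ≤ analyticOrderAt f z := by
      refine (natCast_le_analyticOrderAt (hf.analyticAt z)).2 ⟨fun w => g w * h' w,
        hg.mul hh', ?_⟩
      filter_upwards [he, he'] with w hw hw'
      rw [hw, hw', smul_eq_mul, smul_eq_mul]
      ring
    rw [hm]
    exact nd_ge hf hf0 h2

theorem div_ideal {d : ℕ} (u : Fin d → ℂ → ℂ) (hu : IsUC u) (A B φ : MvPolynomial (Fin d) ℂ)
    (hφ : φ ∈ Ideal.span {A, B}) (h0 : ∃ z, valU u φ z ≠ 0) (D : Function.locallyFinsupp ℂ ℤ)
    (hA : D ≤ MeromorphicOn.divisor (valU u A) Set.univ)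
    (hB : D ≤ MeromorphicOn.divisor (valU u B) Set.univ) :
    D ≤ MeromorphicOn.divisor (valU u φ) Set.univ := by
  obtain ⟨a, b, hab⟩ := Ideal.mem_span_pair.1 hφ
  intro z
  by_cases hz : D z ≤ 0
  · exact hz.trans (div_nonneg' (valU_diff u hu φ) z)
  · push Not at hz
    obtain ⟨m, hm⟩ := Int.eq_ofNat_of_zero_le hz.le
    have hm0 : 0 < m := by
      rw [hm] at hz
      exact_mod_cast hz
    have h1 := nd_le (valU_diff u hu A) hm0 (hm.ge.trans (hA z))
    have h2 := nd_le (valU_diff u hu B) hm0 (hm.ge.trans (hB z))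
    obtain ⟨gA, hgA, heA⟩ := (natCast_le_analyticOrderAt
      ((valU_diff u hu A).analyticAt z)).1 h1
    obtain ⟨gB, hgB, heB⟩ := (natCast_le_analyticOrderAt
      ((valU_diff u hu B).analyticAt z)).1 h2
    have h3 : (m : ℕ∞) ≤ analyticOrderAt (valU u φ) z := by
      refine (natCast_le_analyticOrderAt ((valU_diff u hu φ).analyticAt z)).2
        ⟨fun w => valU u a w * gA w + valU u b w * gB w,
          (((valU_diff u hu a).analyticAt z).mul hgA).add
            (((valU_diff u hu b).analyticAt z).mul hgB), ?_⟩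
      filter_upwards [heA, heB] with w hwA hwB
      have h4 : valU u φ w = valU u a w * valU u A w + valU u b w * valU u B w := by
        rw [← hab]
        unfold valU
        rw [map_add, map_mul, map_mul]
      rw [h4, hwA, hwB, smul_eq_mul, smul_eq_mul, smul_eq_mul]
      ring
    rw [hm]
    exact nd_ge (valU_diff u hu φ) h0 h3

end Pool.Agent.Work.UP
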