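import Pool.Agent.Work.UP.Borel
import Pool.Agent.Work.UP.Levin
import Pool.Agent.Work.UP.NDiv

/-!
# NGcd (block N, size M-L): the gcd inequality of Levin for entire functions

PROOF. `levin` (over `k = ℂ`) with `η = ε`: `m, N, S, φ, 𝒢`. `cartan` for `X i = valU u (φ i)` (linearly independent:
`valU_indep`; `char_valU_le`, `T = Tu u`; `D ≤ divisor (X i)`: `div_ideal`, `X i` is not
identically zero by `borel`, `φ i ≠ 0`), `𝓜 = {g.1 | g ∈ 𝒢}`. Put `ψ_{g,i} = ∑ j, g.1 i j • φ j ≠ 0` (a nontrivial combination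
of independent polynomials, as `g.1` is invertible). For `z` outside the discrete set of the zeros of the
finitely many functions `valU u ψ_{g,i}` (not identically zero: `borel`) take
`ρ s = log ‖mon (u z) s‖` and `g ∈ 𝒢` from `levin`. Then (`valU_eq`)
`‖valU u ψ_{g,i} z‖ ≤ ∑_{s ∈ supp ψ} ‖coeff‖ exp (ρ s) ≤ K exp (ρ (σ i))`, `K ≥ 1` a constant for all the finitely
many `(g, i)`, so `∑_i log ‖ψ_{g,i}‖ ≤ N log K + ∑_i ρ (σ i)` and (`σ` injective with values in `S`, the rest of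
`S` has `S.card - N` elements, each with `|ρ s| ≤ m * tau u z` by `abs_log_mon_le`, `s.degree ≤ m`; a
sharper form: `|log ‖mon‖| ≤ ∑ s_i |log ‖u i‖| ≤ s.degree * tau`)
`∑_i ρ (σ i) ≤ ∑_{s ∈ S} ρ s + (S.card - N) * m * tau u z`. So
`G z = N log K + ∑_{s ∈ S} log ‖mon (u z) s‖ + (S.card - N) * m * tau u z` dominates. Its average is
`const + (S.card - N) * m * Tu u r ≤ const + ε N * Tu u r` (`avg_log_unit` for the monomials).
`cartan` gives `N * logCounting D r ≤ const + ε N Tu u r + C Er (Tu u) r R`; divide by `N ≥ 2`.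
-/

set_option autoImplicit false

noncomputable section

namespace Pool.Agent.Work.UP

open MvPolynomial ValueDistribution Filter

private theorem gc_ne {f : ℂ → ℂ} (hf : Differentiable ℂ f) (h : ∃ z, f z ≠ 0) :
    ∀ᶠ z in codiscrete ℂ, f z ≠ 0 := by
  rcases AnalyticOnNhd.eqOn_zero_or_eventually_ne_zero_of_preconnected
    (f := f) (fun z _ => hf.analyticAt z) isPreconnected_univ with h1 | h1
  · obtain ⟨z, hz⟩ := h
    exact absurd (h1 (Set.mem_univ z)) hz
  · exact h1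

private theorem gc_val {d : ℕ} (u : Fin d → ℂ → ℂ) (hu : IsUC u) (ψ : MvPolynomial (Fin d) ℂ)
    (z : ℂ) (M : ℝ) (hz : valU u ψ z ≠ 0)
    (hM : ∀ s ∈ ψ.support, Real.log ‖mon (fun i => u i z) (fun i => (s i : ℤ))‖ ≤ M) :
    Real.log ‖valU u ψ z‖ ≤ |Real.log (∑ s ∈ ψ.support, ‖coeff s ψ‖)| + M := by
  have h1 : ‖valU u ψ z‖ ≤ (∑ s ∈ ψ.support, ‖coeff s ψ‖) * Real.exp M := by
    rw [valU_eq, Finset.sum_mul]
    refine (norm_sum_le _ _).trans (Finset.sum_le_sum fun s hs => ?_)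
    rw [norm_mul]
    refine mul_le_mul_of_nonneg_left ?_ (norm_nonneg _)
    have h2 := hM s hs
    have h3 : 0 < ‖mon (fun i => u i z) (fun i => (s i : ℤ))‖ :=
      norm_pos_iff.mpr (mon_ne u hu _ z)
    rw [← Real.exp_log h3]
    exact Real.exp_le_exp.mpr h2
  have h2 : 0 < ‖valU u ψ z‖ := norm_pos_iff.mpr hz
  have h3 : 0 < (∑ s ∈ ψ.support, ‖coeff s ψ‖) := by
    by_contra hcon
    push Not at hcon
    have := mul_nonpos_of_nonpos_of_nonneg hcon (Real.exp_pos M).le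
    linarith
  have h4 := Real.log_le_log h2 h1
  rw [Real.log_mul h3.ne' (Real.exp_pos M).ne', Real.log_exp] at h4
  linarith [le_abs_self (Real.log (∑ s ∈ ψ.support, ‖coeff s ψ‖))]

private theorem gc_mon {d : ℕ} (u : Fin d → ℂ → ℂ) (hu : IsUC u) (s : Fin d →₀ ℕ) (m : ℕ)
    (hs : s.degree ≤ m) (z : ℂ) :
    -(m * tau u z) ≤ Real.log ‖mon (fun i => u i z) (fun i => (s i : ℤ))‖ := by
  have h1 := abs_log_mon_le u hu (fun i => (s i : ℤ)) z
  have h2 : (∑ i, |(((s i : ℕ) : ℤ) : ℝ)|) ≤ m := by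
    have h3 : (∑ i, |(((s i : ℕ) : ℤ) : ℝ)|) = ((s.degree : ℕ) : ℝ) := by
      rw [Finsupp.degree_eq_sum, Nat.cast_sum]
      refine Finset.sum_congr rfl fun i _ => ?_
      simp
    rw [h3]
    exact_mod_cast hs
  have h3 := tau_nonneg u z
  have h4 := mul_le_mul_of_nonneg_right h2 h3
  have h5 := neg_abs_le (Real.log ‖mon (fun i => u i z) (fun i => (s i : ℤ))‖)
  linarith

private theorem gc_sum {d N : ℕ} (S : Finset (Fin d →₀ ℕ)) (σ : Fin N → (Fin d →₀ ℕ))
    (hσ : Function.Injective σ) (hS : ∀ i, σ i ∈ S) (ρ : (Fin d →₀ ℕ) → ℝ) (b : ℝ)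
    (hρ : ∀ s ∈ S, -b ≤ ρ s) :
    ∑ i, ρ (σ i) ≤ ∑ s ∈ S, ρ s + ((S.card : ℝ) - N) * b := by
  classical
  have h1 : Finset.univ.image σ ⊆ S := by
    intro x hx
    obtain ⟨i, -, rfl⟩ := Finset.mem_image.mp hx
    exact hS i
  have h2 : ∑ s ∈ Finset.univ.image σ, ρ s = ∑ i, ρ (σ i) :=
    Finset.sum_image (fun i _ j _ h => hσ h)
  have h3 := Finset.sum_sdiff (f := ρ) h1
  have h4 : (((S \ Finset.univ.image σ).card : ℕ) : ℝ) = (S.card : ℝ) - N := by
    rw [Finset.card_sdiff_of_subset h1, Nat.cast_sub (Finset.card_le_card h1),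
      Finset.card_image_of_injective _ hσ, Finset.card_univ, Fintype.card_fin]
  have h5 : ∑ _s ∈ S \ Finset.univ.image σ, (-b) ≤ ∑ s ∈ S \ Finset.univ.image σ, ρ s :=
    Finset.sum_le_sum fun s hs => hρ s (Finset.sdiff_subset hs)
  rw [Finset.sum_const, nsmul_eq_mul, h4] at h5
  rw [← h2]
  linarith

theorem gcdC {d : ℕ} (hd : 0 < d) (u : Fin d → ℂ → ℂ) (hu : IsUC u) (hi : IndC u)
    (A B : MvPolynomial (Fin d) ℂ) (hA : A ≠ 0) (hB : B ≠ 0) (hAB : IsRelPrime A B)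
    (D : Function.locallyFinsupp ℂ ℤ)
    (hDA : D ≤ MeromorphicOn.divisor (valU u A) Set.univ)
    (hDB : D ≤ MeromorphicOn.divisor (valU u B) Set.univ) (ε : ℝ) (hε : 0 < ε) :
    ∃ C : ℝ, 0 ≤ C ∧ ∀ r R : ℝ, 1 ≤ r → r < R →
      Function.locallyFinsuppWithin.logCounting D r ≤ ε * Tu u r + C * Er (Tu u) r R := by
  classical
  obtain ⟨m, N, S, φ, hN, hSm, hcard, hφli, hφI, -, 𝒢, h𝒢fin, h𝒢, hlev⟩ :=
    levin hd A B hA hB hAB ε hε
  have hφne : ∀ i, φ i ≠ 0 := fun i => hφli.ne_zero i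
  set X : Fin N → ℂ → ℂ := fun i => valU u (φ i) with hX
  have hXd : ∀ i, Differentiable ℂ (X i) := fun i => valU_diff u hu _
  have hXli : LinearIndependent ℂ X := valU_indep u hu hi φ hφli
  obtain ⟨C, hC0, hC⟩ := cartan X hXd hXli (Tu u) (fun r _ => Tu_nonneg u r)
    (fun i => by
      obtain ⟨C, _, hC⟩ := char_valU_le u hu (φ i)
      exact ⟨C, hC⟩)
    D (fun i => div_ideal u hu A B (φ i) (hφI i) (borel u hu hi _ (hφne i)) D hDA hDB)
    (Prod.fst '' 𝒢) (h𝒢fin.image _)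
    (by
      rintro M ⟨g, hg, rfl⟩
      exact (h𝒢 g hg).1)
  set ψ : Matrix (Fin N) (Fin N) ℂ → Fin N → MvPolynomial (Fin d) ℂ :=
    fun M i => ∑ j, M i j • φ j with hψ
  have hψne : ∀ g ∈ 𝒢, ∀ i, ψ g.1 i ≠ 0 := by
    intro g hg i h0
    rw [Fintype.linearIndependent_iff] at hφli
    have h1 := hφli (g.1 i) h0
    exact (h𝒢 g hg).1 (Matrix.det_eq_zero_of_row_eq_zero i h1)
  have hψv : ∀ M i z, valU u (ψ M i) z = ∑ j, M i j * X j z := fun M i z =>
    valU_sum u Finset.univ (M i) φ z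
  set K : ℝ := ∑ g ∈ h𝒢fin.toFinset, ∑ i, |Real.log (∑ s ∈ (ψ g.1 i).support,
    ‖coeff s (ψ g.1 i)‖)| with hK
  have hK0 : 0 ≤ K := Finset.sum_nonneg fun g _ => Finset.sum_nonneg fun i _ => abs_nonneg _
  set K' : ℝ := ∑ s ∈ S, |Real.log ‖mon (fun i => u i 0) (fun i => (s i : ℤ))‖| with hK'
  have hK'0 : 0 ≤ K' := Finset.sum_nonneg fun s _ => abs_nonneg _
  refine ⟨K + K' + C, by positivity, fun r R hr hR => ?_⟩
  set c : ℝ := ((S.card : ℝ) - N) * m with hc
  have hlogc : ∀ s : Fin d →₀ ℕ, Continuous (fun z =>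
      Real.log ‖mon (fun i => u i z) (fun i => (s i : ℤ))‖) := fun s =>
    (mon_diff u hu _).continuous.norm.log (fun z => norm_ne_zero_iff.mpr (mon_ne u hu _ z))
  have hr0 : 0 ≤ r := by linarith
  have hint1 : ∀ s : Fin d →₀ ℕ, CircleIntegrable (fun z =>
      Real.log ‖mon (fun i => u i z) (fun i => (s i : ℤ))‖) 0 r := fun s =>
    (hlogc s).continuousOn.circleIntegrable hr0
  have hint2 : CircleIntegrable (fun z => ∑ s ∈ S,
      Real.log ‖mon (fun i => u i z) (fun i => (s i : ℤ))‖) 0 r :=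
    (continuous_finsetSum S fun s _ => hlogc s).continuousOn.circleIntegrable hr0
  have hint3 : CircleIntegrable (fun z => c * tau u z) 0 r :=
    (continuous_const.mul (tau_cont u hu)).continuousOn.circleIntegrable hr0
  have hint4 : CircleIntegrable (fun _ : ℂ => K) 0 r := circleIntegrable_const _ _ _
  have hint5 : CircleIntegrable (fun z => K + ∑ s ∈ S,
      Real.log ‖mon (fun i => u i z) (fun i => (s i : ℤ))‖) 0 r := hint4.add hint2
  have h1 := hC r R hr hR (fun z => (K + ∑ s ∈ S,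
      Real.log ‖mon (fun i => u i z) (fun i => (s i : ℤ))‖) + c * tau u z)
    (hint5.add hint3) ?_
  · rw [Real.circleAverage_fun_add hint5 hint3,
      Real.circleAverage_fun_add hint4 hint2, Real.circleAverage_fun_sum (fun s _ => hint1 s),
      Real.circleAverage_const] at h1
    have h2 : Real.circleAverage (fun z => c * tau u z) 0 r = c * Tu u r := by
      have := Real.circleAverage_fun_smul (a := c) (f := tau u) (c := 0) (R := r)
      simp only [smul_eq_mul] at this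
      exact this
    rw [h2] at h1
    simp only [avg_log_unit (mon_diff u hu _) (mon_ne u hu _)] at h1
    have h3 : ∑ s ∈ S, Real.log ‖mon (fun i => u i 0) (fun i => (s i : ℤ))‖ ≤ K' :=
      Finset.sum_le_sum fun s _ => le_abs_self _
    have h4 : c * Tu u r ≤ ε * N * Tu u r :=
      mul_le_mul_of_nonneg_right hcard (Tu_nonneg u r)
    have h5 := Er_pos (Tu u) r R
    have hN' : (1 : ℝ) ≤ N := by
      have : 1 ≤ N := by omega
      exact_mod_cast this
    have h6 : (N : ℝ) * Function.locallyFinsuppWithin.logCounting D r ≤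
        N * (ε * Tu u r + (K + K' + C) * Er (Tu u) r R) := by
      have h7 : (K + K' + C) * Er (Tu u) r R ≤ N * ((K + K' + C) * Er (Tu u) r R) :=
        le_mul_of_one_le_left (by positivity) hN'
      have h8 : K + K' ≤ (K + K') * Er (Tu u) r R := le_mul_of_one_le_right (by positivity) h5
      nlinarith
    exact le_of_mul_le_mul_left h6 (by linarith)
  · have h2 : ∀ᶠ z in codiscrete ℂ, ∀ g ∈ 𝒢, ∀ i, valU u (ψ g.1 i) z ≠ 0 := by
      rw [Filter.eventually_all_finite h𝒢fin]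
      intro g hg
      rw [Filter.eventually_all]
      intro i
      exact gc_ne (valU_diff u hu _) (borel u hu hi _ (hψne g hg i))
    filter_upwards [h2] with z hz
    obtain ⟨g, hg, hgρ⟩ := hlev (fun s => Real.log ‖mon (fun i => u i z) (fun i => (s i : ℤ))‖)
    refine ⟨g.1, ⟨g, hg, rfl⟩, ?_⟩
    have h3 : ∀ i, Real.log ‖∑ j, g.1 i j * X j z‖ ≤
        |Real.log (∑ s ∈ (ψ g.1 i).support, ‖coeff s (ψ g.1 i)‖)| +
          Real.log ‖mon (fun i => u i z) (fun j => (g.2 i j : ℤ))‖ := by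
      intro i
      rw [← hψv]
      exact gc_val u hu _ z _ (hz g hg i) (hgρ i)
    have h4 : ∑ i, |Real.log (∑ s ∈ (ψ g.1 i).support, ‖coeff s (ψ g.1 i)‖)| ≤ K :=
      Finset.single_le_sum (f := fun g : Matrix (Fin N) (Fin N) ℂ × (Fin N → (Fin d →₀ ℕ)) =>
        ∑ i, |Real.log (∑ s ∈ (ψ g.1 i).support, ‖coeff s (ψ g.1 i)‖)|)
        (fun g _ => Finset.sum_nonneg fun i _ => abs_nonneg _) (h𝒢fin.mem_toFinset.mpr hg)
    have h5 := gc_sum S g.2 (h𝒢 g hg).2.1 (h𝒢 g hg).2.2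
      (fun s => Real.log ‖mon (fun i => u i z) (fun i => (s i : ℤ))‖) (m * tau u z)
      (fun s hs => gc_mon u hu s m (hSm s hs) z)
    calc ∑ i, Real.log ‖∑ j, g.1 i j * X j z‖
        ≤ ∑ i, (|Real.log (∑ s ∈ (ψ g.1 i).support, ‖coeff s (ψ g.1 i)‖)| +
          Real.log ‖mon (fun i => u i z) (fun j => (g.2 i j : ℤ))‖) :=
        Finset.sum_le_sum fun i _ => h3 i
      _ = ∑ i, |Real.log (∑ s ∈ (ψ g.1 i).support, ‖coeff s (ψ g.1 i)‖)| +
          ∑ i, Real.log ‖mon (fun i => u i z) (fun j => (g.2 i j : ℤ))‖ :=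
        Finset.sum_add_distrib
      _ ≤ (K + ∑ s ∈ S, Real.log ‖mon (fun i => u i z) (fun i => (s i : ℤ))‖) + c * tau u z := by
        rw [hc]
        linarith

end Pool.Agent.Work.UP
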