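import Pool.Agent.Work.UP.NBase
import Pool.Agent.Work.UP.NSmall
import Pool.Agent.Work.MP_e97a4d_nt.Hyp.Ldl

/-!
# NHigh (block N, size M): the lemma on the logarithmic derivative for higher derivatives

PROOF. Induction on `i`, for all `r < R`. `i = 0`: the quotient is `1` outside the zeros of `f` (and `0`
at the zeros), so its proximity is `0` (`proximity_congr_codiscrete`, `posLog 1 = 0`; `posLog` of both values
vanishes, so it is even zero everywhere). Step: let `h = iteratedDeriv i f` (entire,
`ContDiff.differentiable_iteratedDeriv` or `Differentiable.iteratedDeriv`-like lemmas;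
`iteratedDeriv_succ : iteratedDeriv (i+1) f = deriv (iteratedDeriv i f)`). If `h` vanishes
identically then so does its derivative and the proximity is `0`. Otherwise outside a discrete
set `iteratedDeriv (i+1) f / f = logDeriv h * (h / f)`, so
(`proximity_congr_codiscrete`, `proximity_mul_top_le`)
`m(r, f^(i+1)/f) ≤ m(r, logDeriv h) + m(r, h/f)`. The second term is estimated by the induction
hypothesis. The first: `MP_e97a4d_nt.Hyp.ldl` for `h` with `r < R' = (r + R) / 2`:
`m(r, logDeriv h) ≤ C (1 + log⁺ T(h, R') + log⁺ (1 / (R' - r)) + log⁺ R')`, and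
`T(h, R') = m(R', h) ≤ m(R', h / f) + m(R', f) ≤ C' Er (characteristic f ⊤) R' R + T(f, R')` by the
induction hypothesis for `R' < R`, and `T(f, R') ≤ T(f, R)` (`ValueDistribution.characteristic_monotoneOn`).
`log⁺` of this is at most `C'' Er (characteristic f ⊤) r R`: use `posLog_add`, `posLog_mul`,
`posLog x ≤ |x|`, i.e. `log⁺ (C' Er ..) ≤ log⁺ C' + Er ..`, and
`log⁺ (1/(R - R')) = log⁺ (2 / (R - r)) ≤ log 2 + log⁺ (1/(R - r))`, the same for `R' - r`.
-/

set_option autoImplicit false

noncomputable section

namespace Pool.Agent.Work.UP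

open ValueDistribution Filter

private theorem nh_codiscrete {f : ℂ → ℂ} (hf : Differentiable ℂ f) (h0 : ∃ z, f z ≠ 0) :
    ∀ᶠ z in codiscrete ℂ, f z ≠ 0 := by
  obtain ⟨z, hz⟩ := h0
  have h1 : AnalyticOnNhd ℂ f Set.univ := fun x _ => hf.analyticAt x
  exact h1.preimage_zero_mem_codiscrete hz

private theorem nh_top {f : ℂ → ℂ} (hf : Differentiable ℂ f) (h0 : ∃ z, f z ≠ 0) (z : ℂ) :
    meromorphicOrderAt f z ≠ ⊤ := by
  have hmer : Meromorphic f := fun z => (hf.analyticAt z).meromorphicAt
  obtain ⟨w, hw⟩ := h0
  refine (hmer.exists_meromorphicOrderAt_ne_top_iff_forall).1 ⟨w, ?_⟩ z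
  have : meromorphicOrderAt f w = 0 := by
    rw [(hf.analyticAt w).meromorphicNFAt.meromorphicOrderAt_eq_zero_iff]
    exact hw
  rw [this]
  simp

private theorem nh_diff {f : ℂ → ℂ} (hf : Differentiable ℂ f) (i : ℕ) :
    Differentiable ℂ (iteratedDeriv i f) := by
  induction i with
  | zero => simpa using hf
  | succ i ih =>
    rw [iteratedDeriv_succ]
    intro z
    exact (ih.analyticAt z).deriv.differentiableAt

private theorem nh_zero (g : ℂ → ℂ) (r : ℝ) (hg : ∀ z, ‖g z‖ ≤ 1) : proximity g ⊤ r = 0 := by
  rw [proximity_top]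
  have : (fun z => Real.posLog ‖g z‖) = fun _ => 0 := by
    funext z
    rw [Real.posLog_eq_zero_iff]
    rw [abs_of_nonneg (norm_nonneg _)]
    exact hg z
  rw [this]
  exact Real.circleAverage_const _ _ _

/-- change of the right end point -/
private theorem nh_half {r R : ℝ} :
    Real.posLog (1 / (R - (r + R) / 2)) ≤ Real.log 2 + Real.posLog (1 / (R - r)) ∧
    Real.posLog (1 / ((r + R) / 2 - r)) ≤ Real.log 2 + Real.posLog (1 / (R - r)) := by
  have h1 : 1 / (R - (r + R) / 2) = 2 * (1 / (R - r)) := by
    have : R - (r + R) / 2 = (R - r) / 2 := by ring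
    rw [this, one_div_div]
    ring
  have h2 : 1 / ((r + R) / 2 - r) = 2 * (1 / (R - r)) := by
    have : (r + R) / 2 - r = (R - r) / 2 := by ring
    rw [this, one_div_div]
    ring
  have h3 := Real.posLog_mul (x := 2) (y := 1 / (R - r))
  have h4 : Real.posLog (2 : ℝ) = Real.log 2 := by
    rw [Real.posLog_eq_log]
    norm_num
  rw [h4] at h3
  rw [h1, h2]
  exact ⟨h3, h3⟩

theorem high_ldl {f : ℂ → ℂ} (hf : Differentiable ℂ f) (h0 : ∃ z, f z ≠ 0) (i : ℕ) :
    ∃ C : ℝ, 0 ≤ C ∧ ∀ r R : ℝ, 1 ≤ r → r < R →
      proximity (fun z => iteratedDeriv i f z / f z) ⊤ r ≤ C * Er (characteristic f ⊤) r R := by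
  have hmf : Meromorphic f := fun z => (hf.analyticAt z).meromorphicAt
  have hlog2 : 0 ≤ Real.log 2 := (Real.log_pos (by norm_num)).le
  induction i with
  | zero =>
    refine ⟨0, le_rfl, ?_⟩
    intro r R hr hR
    rw [zero_mul, nh_zero]
    intro z
    simp only [iteratedDeriv_zero]
    by_cases hz : f z = 0
    · rw [hz]; simp
    · rw [div_self hz]; simp
  | succ i ih =>
    obtain ⟨C', hC', ih⟩ := ih
    set h : ℂ → ℂ := iteratedDeriv i f with hh
    have hd : Differentiable ℂ h := nh_diff hf i
    have hmh : Meromorphic h := fun z => (hd.analyticAt z).meromorphicAt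
    have hsucc : iteratedDeriv (i + 1) f = deriv h := by rw [iteratedDeriv_succ]
    by_cases hne : ∃ z, h z ≠ 0
    swap
    · push Not at hne
      refine ⟨0, le_rfl, ?_⟩
      intro r R hr hR
      rw [zero_mul, nh_zero]
      intro z
      have hz0 : h = fun _ => 0 := funext hne
      rw [hsucc, hz0]
      simp
    obtain ⟨C₂, hC₂, H⟩ := Pool.Agent.Work.MP_e97a4d_nt.Hyp.ldl hmh (nh_top hd hne)
    have hk0 := @Real.posLog_nonneg (2 * C')
    refine ⟨C₂ * (2 * Real.log 2 + Real.posLog (C' * (1 + Real.log 2)) + 3) + C',
      by have := @Real.posLog_nonneg (C' * (1 + Real.log 2)); positivity, ?_⟩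
    intro r R hr hR
    set R' : ℝ := (r + R) / 2 with hR'
    have hrR' : r < R' := by rw [hR']; linarith
    have hR'R : R' < R := by rw [hR']; linarith
    have hR'1 : 1 ≤ R' := by linarith
    have hmq : Meromorphic (fun z => h z / f z) := hmh.fun_div hmf
    have hml : Meromorphic (logDeriv h) := fun z => (hmh z).logDeriv
    obtain ⟨hh1, hh2⟩ := nh_half (r := r) (R := R)
    rw [← hR'] at hh1 hh2
    set E : ℝ := Er (characteristic f ⊤) r R with hE
    have hE1 : 1 ≤ E := Er_pos _ _ _
    have hT0 : 0 ≤ characteristic f ⊤ R := characteristic_nonneg (by linarith)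
    -- splitting
    have s1 : proximity (fun z => iteratedDeriv (i + 1) f z / f z) ⊤ r ≤
        proximity (logDeriv h) ⊤ r + proximity (fun z => h z / f z) ⊤ r := by
      have hcongr : (fun z => iteratedDeriv (i + 1) f z / f z) =ᶠ[codiscrete ℂ]
          (logDeriv h * fun z => h z / f z) := by
        filter_upwards [nh_codiscrete hd hne] with z hz
        rw [hsucc]
        simp only [Pi.mul_apply, logDeriv_apply]
        rw [div_mul_div_comm, mul_comm (h z) (f z), mul_div_mul_right _ _ hz]
      rw [proximity_congr_codiscrete hcongr (by linarith)]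
      exact proximity_mul_top_le hml hmq r
    -- the characteristic of h
    have s2 : characteristic h ⊤ R' ≤ C' * Er (characteristic f ⊤) R' R +
        characteristic f ⊤ R := by
      have e1 : characteristic h ⊤ R' = proximity h ⊤ R' := by
        rw [ValueDistribution.characteristic, Pi.add_apply, logCounting_top_entire hd, add_zero]
      have e2 : characteristic f ⊤ R' = proximity f ⊤ R' := by
        rw [ValueDistribution.characteristic, Pi.add_apply, logCounting_top_entire hf, add_zero]
      have hcongr : h =ᶠ[codiscrete ℂ] ((fun z => h z / f z) * f) := by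
        filter_upwards [nh_codiscrete hf h0] with z hz
        simp only [Pi.mul_apply]
        rw [div_mul_cancel₀ _ hz]
      have e3 : proximity h ⊤ R' ≤ proximity (fun z => h z / f z) ⊤ R' + proximity f ⊤ R' := by
        rw [proximity_congr_codiscrete hcongr (by linarith)]
        exact proximity_mul_top_le hmq hmf R'
      have e4 := ih R' R hR'1 hR'R
      have e5 : characteristic f ⊤ R' ≤ characteristic f ⊤ R := by
        apply characteristic_monotoneOn hmf _ _ hR'R.le
        · simp only [Set.mem_Ioi]; linarith
        · simp only [Set.mem_Ioi]; linarith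
      linarith
    have s3 : Er (characteristic f ⊤) R' R ≤ (1 + Real.log 2) * E := by
      have : Er (characteristic f ⊤) R' R ≤ E + Real.log 2 := by
        rw [hE]
        unfold Er
        linarith
      nlinarith
    have s4 : Real.posLog (characteristic h ⊤ R') ≤
        Real.log 2 + Real.posLog (C' * (1 + Real.log 2)) + E +
          Real.posLog (characteristic f ⊤ R) := by
      have g0 : characteristic h ⊤ R' ≤ (C' * (1 + Real.log 2)) * E + characteristic f ⊤ R := by
        have := mul_le_mul_of_nonneg_left s3 hC'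
        linarith
      have g1 : Real.posLog (characteristic h ⊤ R') ≤
          Real.posLog ((C' * (1 + Real.log 2)) * E + characteristic f ⊤ R) :=
        Real.posLog_le_posLog (characteristic_nonneg hR'1) g0
      have g2 := Real.posLog_add (x := (C' * (1 + Real.log 2)) * E) (y := characteristic f ⊤ R)
      have g3 := Real.posLog_mul (x := C' * (1 + Real.log 2)) (y := E)
      have g4 : Real.posLog E ≤ E := by
        rw [Real.posLog_eq_log (by rw [abs_of_nonneg (by linarith)]; exact hE1)]
        exact (Real.log_le_sub_one_of_pos (by linarith)).trans (by linarith)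
      linarith
    have s5 : Real.posLog R' ≤ Real.posLog R := Real.posLog_le_posLog (by linarith) hR'R.le
    have s6 := H r R' hr hrR'
    have s7 := ih r R hr hR
    have s8 : 1 + Real.posLog (characteristic h ⊤ R') + Real.posLog (1 / (R' - r)) +
        Real.posLog R' ≤ (2 * Real.log 2 + Real.posLog (C' * (1 + Real.log 2)) + 3) * E := by
      have t1 : 1 + Real.posLog (characteristic f ⊤ R) + Real.posLog (1 / (R - r)) +
          Real.posLog R = E := by
        rw [hE]; rfl
      have t2 := @Real.posLog_nonneg (C' * (1 + Real.log 2))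
      have t3 : 2 * Real.log 2 + Real.posLog (C' * (1 + Real.log 2)) ≤
          (2 * Real.log 2 + Real.posLog (C' * (1 + Real.log 2))) * E :=
        le_mul_of_one_le_right (by positivity) hE1
      nlinarith
    have s9 := mul_le_mul_of_nonneg_left s8 hC₂
    nlinarith

end Pool.Agent.Work.UP
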