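import Pool.Agent.Work.UP.NDefs

/-!
# NPoly (block N, size S-M): monomials and polynomials in units, elementary facts

PROOF. `mon` is a product of integer powers; `norm_prod`, `norm_zpow`, `Real.log_prod`, `Real.log_zpow`:
`log ‖mon u k‖ = ∑ i, k i * log ‖u i‖`, and `|log ‖u i‖| ≤ tau u z`
(`Finset.single_le_sum`). `valU`: `MvPolynomial.eval_eq'` (a finite sum of constants times products of powers).
`valU_bound`: `‖valU u A z‖ ≤ ∑ ‖coeff s A‖ * ‖∏ u i z ^ s i‖` and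
`log⁺ (∑_{s ∈ supp} x_s) ≤ log (number) + ∑ log⁺ x_s` (`Real.posLog_sum`), `log⁺ (x y) ≤ log⁺ x + log⁺ y`
(`Real.posLog_mul`), `log⁺ (‖u^s‖) ≤ |log ‖u^s‖|`.
-/

set_option autoImplicit false

noncomputable section

namespace Pool.Agent.Work.UP

open MvPolynomial

theorem mon_ne {d : ℕ} (u : Fin d → ℂ → ℂ) (hu : IsUC u) (k : Fin d → ℤ) (z : ℂ) :
    mon (fun i => u i z) k ≠ 0 := by
  unfold mon
  exact Finset.prod_ne_zero_iff.2 fun i _ => zpow_ne_zero _ ((hu i).2 z)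

theorem mon_diff {d : ℕ} (u : Fin d → ℂ → ℂ) (hu : IsUC u) (k : Fin d → ℤ) :
    Differentiable ℂ (fun z => mon (fun i => u i z) k) := by
  unfold mon
  exact Differentiable.fun_finsetProd fun i _ => (hu i).1.zpow (Or.inl (hu i).2)

theorem log_mon {d : ℕ} (u : Fin d → ℂ → ℂ) (hu : IsUC u) (k : Fin d → ℤ) (z : ℂ) :
    Real.log ‖mon (fun i => u i z) k‖ = ∑ i, (k i : ℝ) * Real.log ‖u i z‖ := by
  unfold mon
  rw [norm_prod, Real.log_prod fun i _ => norm_ne_zero_iff.2 (zpow_ne_zero _ ((hu i).2 z))]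
  refine Finset.sum_congr rfl fun i _ => ?_
  rw [norm_zpow, Real.log_zpow]

theorem abs_log_mon_le {d : ℕ} (u : Fin d → ℂ → ℂ) (hu : IsUC u) (k : Fin d → ℤ) (z : ℂ) :
    |Real.log ‖mon (fun i => u i z) k‖| ≤ (∑ i, |(k i : ℝ)|) * tau u z := by
  rw [log_mon u hu, Finset.sum_mul]
  refine (Finset.abs_sum_le_sum_abs _ _).trans (Finset.sum_le_sum fun i _ => ?_)
  rw [abs_mul]
  refine mul_le_mul_of_nonneg_left ?_ (abs_nonneg _)
  exact Finset.single_le_sum (f := fun j => |Real.log ‖u j z‖|) (fun j _ => abs_nonneg _)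
    (Finset.mem_univ i)

theorem tau_nonneg {d : ℕ} (u : Fin d → ℂ → ℂ) (z : ℂ) : 0 ≤ tau u z := by
  exact Finset.sum_nonneg fun j _ => abs_nonneg _

theorem tau_cont {d : ℕ} (u : Fin d → ℂ → ℂ) (hu : IsUC u) : Continuous (tau u) := by
  unfold tau
  exact continuous_finsetSum _ fun j _ =>
    (((hu j).1.continuous.norm).log fun z => norm_ne_zero_iff.2 ((hu j).2 z)).abs

theorem valU_eq {d : ℕ} (u : Fin d → ℂ → ℂ) (A : MvPolynomial (Fin d) ℂ) (z : ℂ) :
    valU u A z = ∑ s ∈ A.support, coeff s A * mon (fun i => u i z) (fun i => (s i : ℤ)) := by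
  unfold valU mon
  rw [eval_eq']
  simp only [zpow_natCast]

theorem valU_monomial {d : ℕ} (u : Fin d → ℂ → ℂ) (s : Fin d →₀ ℕ) (z : ℂ) :
    valU u (monomial s 1) z = mon (fun i => u i z) (fun i => (s i : ℤ)) := by
  unfold valU mon
  rw [eval_monomial, one_mul, Finsupp.prod_fintype _ _ fun i => pow_zero _]
  simp only [zpow_natCast]

theorem valU_sum {d : ℕ} (u : Fin d → ℂ → ℂ) {ι : Type} (F : Finset ι) (a : ι → ℂ)
    (A : ι → MvPolynomial (Fin d) ℂ) (z : ℂ) :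
    valU u (∑ i ∈ F, a i • A i) z = ∑ i ∈ F, a i * valU u (A i) z := by
  unfold valU
  rw [map_sum]
  simp only [smul_eval]

theorem valU_diff {d : ℕ} (u : Fin d → ℂ → ℂ) (hu : IsUC u) (A : MvPolynomial (Fin d) ℂ) :
    Differentiable ℂ (valU u A) := by
  have h : valU u A = fun z => ∑ s ∈ A.support,
      coeff s A * mon (fun i => u i z) (fun i => (s i : ℤ)) := by
    funext z
    rw [valU_eq]
  rw [h]
  refine Differentiable.fun_sum fun s _ => ?_
  exact (mon_diff u hu (fun i => (s i : ℤ))).const_mul (coeff s A)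

theorem valU_bound {d : ℕ} (u : Fin d → ℂ → ℂ) (hu : IsUC u) (A : MvPolynomial (Fin d) ℂ) :
    ∃ C : ℝ, 0 ≤ C ∧ ∀ z, Real.posLog ‖valU u A z‖ ≤ C * (1 + tau u z) := by
  obtain ⟨K, hK⟩ : ∃ K, K = ∑ s ∈ A.support, Real.posLog ‖coeff s A‖ := ⟨_, rfl⟩
  obtain ⟨L, hL⟩ : ∃ L, L = ∑ s ∈ A.support, ∑ i, |((s i : ℤ) : ℝ)| := ⟨_, rfl⟩
  obtain ⟨l, hl⟩ : ∃ l, l = Real.log A.support.card := ⟨_, rfl⟩
  have hK0 : 0 ≤ K := hK ▸ Finset.sum_nonneg fun j _ => Real.posLog_nonneg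
  have hL0 : 0 ≤ L :=
    hL ▸ Finset.sum_nonneg fun s _ => Finset.sum_nonneg fun i _ => abs_nonneg _
  have hl0 : 0 ≤ l := hl ▸ Real.log_natCast_nonneg _
  refine ⟨l + K + L, add_nonneg (add_nonneg hl0 hK0) hL0, fun z => ?_⟩
  have h0 := Real.posLog_norm_sum_le A.support
    (fun s => coeff s A * mon (fun i => u i z) (fun i => (s i : ℤ)))
  rw [← valU_eq, ← hl] at h0
  have h1 : ∑ s ∈ A.support, Real.posLog ‖coeff s A * mon (fun i => u i z) (fun i => (s i : ℤ))‖ ≤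
      ∑ s ∈ A.support, (Real.posLog ‖coeff s A‖ + (∑ i, |((s i : ℤ) : ℝ)|) * tau u z) := by
    refine Finset.sum_le_sum fun s _ => ?_
    rw [norm_mul]
    refine Real.posLog_mul.trans (add_le_add le_rfl ?_)
    refine le_trans ?_ (abs_log_mon_le u hu (fun i => (s i : ℤ)) z)
    exact max_le (abs_nonneg _) (le_abs_self _)
  rw [Finset.sum_add_distrib, ← Finset.sum_mul, ← hK, ← hL] at h1
  have h2 := tau_nonneg u z
  have h3 := mul_nonneg hK0 h2
  have h4 := mul_nonneg hl0 h2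
  have h5 : (l + K + L) * (1 + tau u z) = l + K + L + (l * tau u z + K * tau u z) +
    L * tau u z := by ring
  rw [h5]
  linarith

end Pool.Agent.Work.UP
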