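import Pool.Agent.Work.UP.UnitEq

/-!
# SumLow: lower bound for sums of units (block G, size M)

PROOF. If `A` has one term `a X^s` then the height of a tuple with one coordinate is `1`
(`Height.mulHeight_eq_one_of_subsingleton`) and `inP T (a * mons u s) = inP T a` (`isU_inP`), which is
positive. Otherwise enumerate the support: `e : Fin n ≃ A.support`, `n ≥ 2`, `a_i = coeff`,
`x_i = mons u (e i)`. `sumCore` gives finitely many proper subspaces `U`; each is contained in the kernel
of a nonzero functional `b` (`Submodule.exists_le_ker_of_lt_top`), apply `unitEq` to the nonzero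
polynomials `∑ b_i X^(e i)`; `E` = union of the exceptional sets, `c = 1`. For `u` avoiding `E`:
`inP T (eval u A) > HT T x ^ (1 - ε)`, and `HT T x = Height.mulHeight x` (`mulHeight_units`,
`Height.mulHeight_comp_equiv`).
-/

set_option autoImplicit false

noncomputable section

namespace Pool.Agent.Work.UP

open NumberField IsDedekindDomain MvPolynomial

theorem sumLow (K : Type) [Field K] [NumberField K] (T : Finset (HeightOneSpectrum (𝓞 K)))
    {d : ℕ} (A : MvPolynomial (Fin d) K) (hA : A ≠ 0) (ε : ℝ) (hε : 0 < ε) :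
    ∃ (c : ℝ) (E : Set ((Fin d → ℤ) × K)), 0 < c ∧ E.Finite ∧
      ∀ u : Fin d → K, IsUv T u → Avoid E u →
        c * Height.mulHeight (fun s : A.support => mon u (fun i => (s.1 i : ℤ))) ^ (1 - ε) ≤
          ∏ w, SUnit.placeAbs K T w (eval u A) ^ SUnit.placeMult K T w := by
  classical
  obtain ⟨n, hn⟩ : ∃ n, A.support.card = n := ⟨_, rfl⟩
  have hne : A.support.Nonempty := by
    rw [Finset.nonempty_iff_ne_empty, Ne, support_eq_empty]
    exact hA
  have hn1 : 1 ≤ n := by
    rw [← hn]
    exact hne.card_pos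
  obtain hn1' | hn2 : n = 1 ∨ 2 ≤ n := by omega
  · rw [hn1'] at hn
    obtain ⟨s₀, hs₀⟩ := Finset.card_eq_one.1 hn
    have hc0 : A.coeff s₀ ≠ 0 := by
      rw [← mem_support_iff, hs₀]
      exact Finset.mem_singleton_self _
    haveI hss : Subsingleton A.support := by
      rw [hs₀]
      infer_instance
    refine ⟨inP T (A.coeff s₀), ∅, ?_, Set.finite_empty, fun u hu _ => ?_⟩
    · exact Finset.prod_pos fun w _ => pow_pos ((SUnit.placeAbs K T w).pos hc0) _
    · rw [Height.mulHeight_eq_one_of_subsingleton, Real.one_rpow, mul_one, eval_eq_mons, hs₀,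
        Finset.sum_singleton]
      have h1 : inP T (A.coeff s₀ * mons u s₀) = inP T (A.coeff s₀) * inP T (mons u s₀) := by
        simp only [inP, map_mul, mul_pow, Finset.prod_mul_distrib]
      have h2 : inP T (A.coeff s₀) = inP T (A.coeff s₀ * mons u s₀) := by
        rw [h1, isU_inP (isU_mons hu s₀), mul_one]
      exact h2.le
  · let e' : Fin n ≃ (A.support : Finset (Fin d →₀ ℕ)) := (Finset.equivFinOfCardEq hn).symm
    let e : Fin n → (Fin d →₀ ℕ) := fun i => (e' i).1
    have heinj : Function.Injective e := fun i j h => e'.injective (Subtype.ext h)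
    obtain ⟨𝒰, h1, h2, h3⟩ := sumCore T hn2 (fun i => A.coeff (e i))
      (fun i => mem_support_iff.1 (e' i).2) ε hε
    have hEx : ∀ U : Submodule K (Fin n → K), ∃ E : Set ((Fin d → ℤ) × K), E.Finite ∧
        (U ∈ 𝒰 → ∀ u : Fin d → K, IsUv T u → Avoid E u → (fun i => mons u (e i)) ∉ U) := by
      intro U
      by_cases hU : U ∈ 𝒰
      · obtain ⟨b, hb, hbU⟩ := ue_exists_form (h2 U hU)
        obtain ⟨E, hE1, hE2⟩ := unitEq K T (uePoly e b) (uePoly_ne_zero heinj hb)
        refine ⟨E, hE1, fun _ u hu hav hmem => hE2 u hu hav ?_⟩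
        rw [uePoly_eval]
        exact hbU _ hmem
      · exact ⟨∅, Set.finite_empty, fun h => absurd h hU⟩
    choose E hE1 hE2 using hEx
    refine ⟨1, ⋃ U ∈ 𝒰, E U, one_pos, h1.biUnion fun U _ => hE1 U, fun u hu hav => ?_⟩
    have hxu : ∀ i, IsU T (mons u (e i)) := fun i => isU_mons hu _
    have hH : Height.mulHeight (fun s : A.support => mon u (fun i => (s.1 i : ℤ))) =
        HT T (fun i => mons u (e i)) := by
      rw [← mulHeight_units (by omega) hxu,
        ← Height.mulHeight_comp_equiv e' (fun s : A.support => mon u (fun i => (s.1 i : ℤ)))]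
      rfl
    have hev : eval u A = ∑ i, A.coeff (e i) * mons u (e i) := by
      rw [eval_eq_mons, ← Finset.sum_coe_sort A.support (fun s => A.coeff s * mons u s),
        ← e'.sum_comp]
    rw [one_mul, hH]
    by_contra hlt
    push_neg at hlt
    obtain ⟨U, hU, hxU⟩ := h3 (fun i => mons u (e i)) hxu (by
      refine le_of_lt (lt_of_eq_of_lt ?_ hlt)
      rw [hev]
      rfl)
    exact hE2 U hU u hu (fun p hp => hav p (Set.mem_biUnion hU hp)) hxU

end Pool.Agent.Work.UP
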