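import Pool.Agent.Work.UP.Defs
import Pool.Agent.Work.SUB.Subspace
import Pool.Agent.Work.UP.UCore

/-!
# UnitEq: unit equations (block G, size M)

PROOF. Induction on the number of terms of `A` (`A.support.card`).
* One term: `eval u A = a * mons u s ≠ 0`, `E = ∅`.
* Two terms `a X^s + b X^s'`: if `eval u A = 0` then `mon u (s - s') = -b / a` (`mons_div`), and `s - s' ≠ 0`.
* `n + 1 ≥ 3` terms: fix `s₀` in the support, enumerate the others as `s_1, ..., s_n` (`n ≥ 2`), put
  `a_i = - coeff s_i / coeff s₀`. If `eval u A = 0` then `∑ a_i mons u (s_i) = mons u s₀` is a unit, so by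
  `unitCore` the vector `(mons u (s_i))_i` is in one of finitely many proper subspaces `U`. Each `U` is in
  the kernel of a nonzero functional (`Submodule.exists_le_ker_of_lt_top`), i.e. there are `b_i`, not all
  zero, with `∑ b_i mons u (s_i) = 0`. The polynomial `∑ b_i X^(s_i)` is not zero and has at most `n`
  terms; use the induction hypothesis for it. `E` = union of the finitely many sets obtained.
-/

set_option autoImplicit false

noncomputable section

namespace Pool.Agent.Work.UP

open NumberField IsDedekindDomain MvPolynomial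

/-- The polynomial with given coefficients at given exponents. -/
def uePoly {K : Type} [Field K] {d n : ℕ} (e : Fin n → (Fin d →₀ ℕ)) (b : Fin n → K) :
    MvPolynomial (Fin d) K :=
  ∑ i, monomial (e i) (b i)

theorem uePoly_eval {K : Type} [Field K] [NumberField K] {d n : ℕ} (e : Fin n → (Fin d →₀ ℕ))
    (b : Fin n → K) (u : Fin d → K) : eval u (uePoly e b) = ∑ i, b i * mons u (e i) := by
  rw [uePoly, map_sum]
  refine Finset.sum_congr rfl fun i _ => ?_
  rw [eval_monomial, mons_eq, Finsupp.prod_fintype _ _ (fun _ => pow_zero _)]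

theorem uePoly_coeff {K : Type} [Field K] {d n : ℕ} {e : Fin n → (Fin d →₀ ℕ)}
    (he : Function.Injective e) (b : Fin n → K) (i : Fin n) : (uePoly e b).coeff (e i) = b i := by
  classical
  rw [uePoly, coeff_sum, Finset.sum_eq_single i]
  · simp
  · intro j _ hj
    rw [coeff_monomial, if_neg (fun h => hj (he h))]
  · intro h
    exact absurd (Finset.mem_univ i) h

theorem uePoly_ne_zero {K : Type} [Field K] {d n : ℕ} {e : Fin n → (Fin d →₀ ℕ)}
    (he : Function.Injective e) {b : Fin n → K} (hb : b ≠ 0) : uePoly e b ≠ 0 := by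
  obtain ⟨i, hi⟩ := Function.ne_iff.1 hb
  intro h
  apply hi
  rw [← uePoly_coeff he b i, h, coeff_zero]
  rfl

theorem uePoly_card {K : Type} [Field K] {d n : ℕ} (e : Fin n → (Fin d →₀ ℕ)) (b : Fin n → K) :
    (uePoly e b).support.card ≤ n := by
  classical
  have h : (uePoly e b).support ⊆ Finset.univ.image e := by
    intro s hs
    rw [mem_support_iff, uePoly, coeff_sum] at hs
    obtain ⟨i, _, hi⟩ := Finset.exists_ne_zero_of_sum_ne_zero hs
    rw [coeff_monomial] at hi
    by_cases h : e i = s
    · exact Finset.mem_image.2 ⟨i, Finset.mem_univ i, h⟩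
    · rw [if_neg h] at hi
      exact absurd rfl hi
  calc (uePoly e b).support.card ≤ (Finset.univ.image e).card := Finset.card_le_card h
    _ ≤ (Finset.univ : Finset (Fin n)).card := Finset.card_image_le
    _ = n := by simp

/-- A vector in a proper subspace is a zero of a nonzero linear form. -/
theorem ue_exists_form {K : Type} [Field K] {n : ℕ} {U : Submodule K (Fin n → K)} (hU : U ≠ ⊤) :
    ∃ b : Fin n → K, b ≠ 0 ∧ ∀ x ∈ U, ∑ i, b i * x i = 0 := by
  classical
  obtain ⟨f, hf, hle⟩ := Submodule.exists_le_ker_of_lt_top U (lt_top_iff_ne_top.2 hU)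
  have hx : ∀ x : Fin n → K, f x = ∑ i, f (Pi.single i 1) * x i := by
    intro x
    have h : x = ∑ i, x i • (Pi.single i (1 : K) : Fin n → K) := by
      ext k
      simp [Finset.sum_apply, Pi.single_apply]
    conv_lhs => rw [h]
    rw [map_sum]
    refine Finset.sum_congr rfl fun i _ => ?_
    rw [map_smul, smul_eq_mul, mul_comm]
  refine ⟨fun i => f (Pi.single i 1), ?_, fun x hxU => ?_⟩
  · intro h
    apply hf
    ext i
    have := congrFun h i
    simpa using this
  · rw [← hx]
    exact hle hxU

private theorem unitEq_aux (K : Type) [Field K] [NumberField K]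
    (T : Finset (HeightOneSpectrum (𝓞 K))) {d : ℕ} (N : ℕ) :
    ∀ A : MvPolynomial (Fin d) K, A ≠ 0 → A.support.card ≤ N →
    ∃ E : Set ((Fin d → ℤ) × K), E.Finite ∧
      ∀ u : Fin d → K, IsUv T u → Avoid E u → eval u A ≠ 0 := by
  classical
  induction N with
  | zero =>
    intro A hA hc
    exfalso
    apply hA
    rw [← support_eq_empty, ← Finset.card_eq_zero]
    omega
  | succ N ih =>
    intro A hA hc
    obtain ⟨s₀, hs₀⟩ : A.support.Nonempty := by
      rw [Finset.nonempty_iff_ne_empty, Ne, support_eq_empty]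
      exact hA
    obtain ⟨n, hn⟩ : ∃ n, (A.support.erase s₀).card = n := ⟨_, rfl⟩
    have hnN : n ≤ N := by
      rw [← hn, Finset.card_erase_of_mem hs₀]
      omega
    have hc0 : A.coeff s₀ ≠ 0 := mem_support_iff.1 hs₀
    let e' : Fin n ≃ (A.support.erase s₀ : Finset (Fin d →₀ ℕ)) :=
      (Finset.equivFinOfCardEq hn).symm
    let e : Fin n → (Fin d →₀ ℕ) := fun i => (e' i).1
    have heinj : Function.Injective e := fun i j h => e'.injective (Subtype.ext h)
    have hemem : ∀ i, e i ∈ A.support.erase s₀ := fun i => (e' i).2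
    have hsum : ∀ u : Fin d → K, eval u A = A.coeff s₀ * mons u s₀ +
        ∑ i, A.coeff (e i) * mons u (e i) := by
      intro u
      rw [eval_eq_mons, ← Finset.add_sum_erase _ _ hs₀]
      congr 1
      rw [← Finset.sum_coe_sort (A.support.erase s₀)
        (fun s => A.coeff s * mons u s), ← e'.sum_comp]
    have hmne : ∀ u : Fin d → K, IsUv T u → ∀ s : Fin d →₀ ℕ, mons u s ≠ 0 := fun u hu s =>
      (isU_mons hu s).1
    obtain hn0 | hn1 | hn2 : n = 0 ∨ n = 1 ∨ 2 ≤ n := by omega
    · refine ⟨∅, Set.finite_empty, fun u hu _ => ?_⟩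
      subst hn0
      rw [hsum u]
      simp only [Finset.univ_eq_empty, Finset.sum_empty, add_zero]
      exact mul_ne_zero hc0 (hmne u hu _)
    · subst hn1
      refine ⟨{(fun i => ((s₀ i : ℕ) : ℤ) - ((e 0 i : ℕ) : ℤ), -A.coeff (e 0) / A.coeff s₀)},
        Set.finite_singleton _, fun u hu hav h0 => ?_⟩
      rw [hsum u, Fin.sum_univ_one] at h0
      refine hav _ (Set.mem_singleton _) ?_ ?_
      · intro h
        have h1 : e 0 = s₀ := by
          ext i
          have h2 := congrFun h i
          simp only [Pi.zero_apply] at h2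
          omega
        exact Finset.ne_of_mem_erase (hemem 0) h1
      · show mon u (fun i => ((s₀ i : ℕ) : ℤ) - ((e 0 i : ℕ) : ℤ)) = -A.coeff (e 0) / A.coeff s₀
        rw [← mons_div (fun i => (hu i).1), div_eq_div_iff (hmne u hu _) hc0]
        linear_combination h0
    · have ha : ∀ i, -A.coeff (e i) / A.coeff s₀ ≠ 0 := fun i =>
        div_ne_zero (neg_ne_zero.2 (mem_support_iff.1 (Finset.mem_of_mem_erase (hemem i)))) hc0
      obtain ⟨𝒰, h1, h2, h3⟩ := unitCore T hn2 (fun i => -A.coeff (e i) / A.coeff s₀) ha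
      have hEx : ∀ U : Submodule K (Fin n → K), ∃ E : Set ((Fin d → ℤ) × K), E.Finite ∧
          (U ∈ 𝒰 → ∀ u : Fin d → K, IsUv T u → Avoid E u → (fun i => mons u (e i)) ∉ U) := by
        intro U
        by_cases hU : U ∈ 𝒰
        · obtain ⟨b, hb, hbU⟩ := ue_exists_form (h2 U hU)
          obtain ⟨E, hE1, hE2⟩ := ih (uePoly e b) (uePoly_ne_zero heinj hb)
            ((uePoly_card e b).trans hnN)
          refine ⟨E, hE1, fun _ u hu hav hmem => hE2 u hu hav ?_⟩
          rw [uePoly_eval]
          exact hbU _ hmem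
        · exact ⟨∅, Set.finite_empty, fun h => absurd h hU⟩
      choose E hE1 hE2 using hEx
      refine ⟨⋃ U ∈ 𝒰, E U, h1.biUnion fun U _ => hE1 U, fun u hu hav h0 => ?_⟩
      have hy : ∑ i, -A.coeff (e i) / A.coeff s₀ * mons u (e i) = mons u s₀ := by
        rw [hsum u] at h0
        have h4 : ∑ i, -A.coeff (e i) / A.coeff s₀ * mons u (e i) =
            -(∑ i, A.coeff (e i) * mons u (e i)) / A.coeff s₀ := by
          rw [← Finset.sum_neg_distrib, Finset.sum_div]
          refine Finset.sum_congr rfl fun i _ => ?_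
          ring
        rw [h4, div_eq_iff hc0]
        linear_combination -h0
      obtain ⟨U, hU, hxU⟩ := h3 (fun i => mons u (e i)) (fun i => isU_mons hu _) (by
        show IsU T (∑ i, -A.coeff (e i) / A.coeff s₀ * mons u (e i))
        rw [hy]
        exact isU_mons hu _)
      exact hE2 U hU u hu (fun p hp => hav p (Set.mem_biUnion hU hp)) hxU

/-- A nonzero polynomial does not vanish at unit points outside finitely many translates of
subtori. -/
theorem unitEq (K : Type) [Field K] [NumberField K] (T : Finset (HeightOneSpectrum (𝓞 K)))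
    {d : ℕ} (A : MvPolynomial (Fin d) K) (hA : A ≠ 0) :
    ∃ E : Set ((Fin d → ℤ) × K), E.Finite ∧
      ∀ u : Fin d → K, IsUv T u → Avoid E u → eval u A ≠ 0 :=
  unitEq_aux K T _ A hA le_rfl

end Pool.Agent.Work.UP
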