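import Mathlib
import Pool.Agent.Work.UP.Defs

/-!
# Block V (algebraic end game): definitions

`orb c t lam` is the point `c t^lam` of the torus. If finitely many fractions `A / B` are the
coordinates of a rational map from a torus to `V` in the charts `b`, then the map is regular
at a point where, for some `b`, none of the `B b i` vanishes.
-/

set_option autoImplicit false

noncomputable section

namespace Pool.Agent.Work.UP

open MvPolynomial

/-- The point `c t^lam`. -/
def orb {L : Type} [Field L] {d : ℕ} (c : Fin d → L) (t : L) (lam : Fin d → ℤ) : Fin d → L :=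
  fun i => c i * t ^ lam i

/-- The polynomial `p` is homogeneous for the weights `lam`. -/
def Homog {k : Type} [Field k] {d : ℕ} (lam : Fin d → ℤ) (p : MvPolynomial (Fin d) k) : Prop :=
  ∀ s ∈ p.support, ∀ s' ∈ p.support, ∑ i, lam i * (s i : ℤ) = ∑ i, lam i * (s' i : ℤ)

/-- For some `lam ≠ 0` and for all `c` outside a hypersurface, at all points `c t^lam`, some chart is
regular. -/
def Orbits {k : Type} [Field k] {d : ℕ} {β : Type} {I : β → Type}
    (B : ∀ b, I b → MvPolynomial (Fin d) k) (lam : Fin d → ℤ) : Prop :=
  ∃ D : MvPolynomial (Fin d) k, D ≠ 0 ∧ ∀ (L : Type) [Field L] [Algebra k L] (c : Fin d → L) (t : L),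
    (∀ i, c i ≠ 0) → aeval c D ≠ 0 → t ≠ 0 → ∃ b, ∀ i, aeval (orb c t lam) (B b i) ≠ 0

end Pool.Agent.Work.UP
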