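import Mathlib
import Pool.Agent.Work.UP.VDefs

/-!
# VFun: weights from exponents that do not span (size S-M)

PROOF. The span in `Spans P` is a proper subspace of `Fin d → ℚ`, so there is a nonzero linear functional vanishing on it
(`Submodule.exists_le_ker_of_lt_top`, or `Submodule.exists_dual_map_eq_bot_of_lt_top`), which is `x ↦ sum_i q_i x_i`, `q_i ∈ ℚ` its value at
`Pi.single i 1`. Multiply by a common denominator: `lam i = q_i * (prod of the denominators)` is an integer.
-/

set_option autoImplicit false

noncomputable section

namespace Pool.Agent.Work.UP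

open MvPolynomial

theorem exists_lam {k : Type} [Field k] {d : ℕ} (P : Set (MvPolynomial (Fin d) k))
    (h : ¬ Spans P) : ∃ lam : Fin d → ℤ, lam ≠ 0 ∧ ∀ p ∈ P, Homog lam p := by
  sorry

end Pool.Agent.Work.UP
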