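import Mathlib

/-!
# VBez: elimination of one variable (size M, Mathlib only)

PROOF. `MvPolynomial (Fin d) k` is a polynomial ring in the variable `X m` over the polynomial ring `R` in the
other variables (for instance `MvPolynomial.finSuccEquiv` after a renaming which moves `m` to `0`, or
`MvPolynomial.optionEquivLeft` with an equivalence `Fin d ≃ Option {i // i ≠ m}`). Let `P`, `Q : Polynomial R` be the
images of `p`, `q`; they are relatively prime (an algebra equivalence preserves this), `R` is a unique factorisation
domain (so a normalized GCD monoid by choice), `K = FractionRing R`. Claim: `P.map`, `Q.map` are coprime in `K[X]`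
(a field, so `IsCoprime`). Otherwise they have a common factor `g` of positive degree; by
`IsLocalization.integerNormalization` and division by the content there is a primitive `G : Polynomial R` with `G.map`
associated to `g`. Gauss lemma (`Polynomial.IsPrimitive.dvd_of_fraction_map_dvd_fraction_map`, see also
`Polynomial.IsPrimitive.dvd_iff_fraction_map_dvd_fraction_map`; for `P` write `P = content * primPart`): `G` divides `P` and
`Q`, so `G` is a unit, a contradiction to `natDegree G > 0`. Then `e P + f Q = 1` over `K`; multiply by a common denominator
`D ∈ R`, `D ≠ 0`, of the coefficients of `e` and `f`. The constant polynomial `C D` corresponds to a polynomial which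
does not involve `X m`.
-/

set_option autoImplicit false

noncomputable section

namespace Pool.Agent.Work.UP

open MvPolynomial

theorem exists_elim {k : Type} [Field k] {d : ℕ} (m : Fin d) (p q : MvPolynomial (Fin d) k)
    (h : IsRelPrime p q) : ∃ D e f : MvPolynomial (Fin d) k, D ≠ 0 ∧ D = e * p + f * q ∧
      ∀ s ∈ D.support, s m = 0 := by
  sorry

end Pool.Agent.Work.UP
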