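import Mathlib
import Pool.Agent.Work.UP.VDefs
import Pool.Agent.Work.UP.VBez

/-!
# VRoot: relatively prime polynomials have no common zero on a generic orbit (size M-L)

PROOF. Put `x = orb c t lam`, and suppose `p(x) = q(x) = 0`.
(1) For every `m` let `D, e, f` be as in `exists_elim m p q h`. Then `D(x) = 0` and `D` does not involve `X m`. So `t` is
algebraic over the field `k(c_j : j ≠ m)` (intermediate field `IntermediateField.adjoin k (c '' {m}ᶜ)`): the polynomial
`G(s) = sum over s0 in D.support of coeff s0 * prod_j c_j^(s0 j) * s^(N + sum_j lam_j s0_j)`, `N` large, over this field,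
is not zero because `G(1) = D(c) ≠ 0` (`hc`), and `G(t) = t^N D(x) = 0`.
(2) `c_m` is transcendental over `k(c_j : j ≠ m)` (`hc`; see `AlgebraicIndependent` and `Transcendental` lemmas of Mathlib), hence
over the algebraic closure `Ω_m` of this field in `Ω` (`algebraicClosure`, `IntermediateField`); `Ω_m` contains `t` and the
`c_j`, so also the `x_j` (`j ≠ m`). `x_m = c_m t^(lam m)` is transcendental over `Ω_m` (otherwise
`c_m = x_m t^(-lam m)` would be algebraic over `Ω_m`).
(3) So for every `m` no nonzero polynomial in one variable with coefficients in `Ω_m` vanishes at `x_m`. Conclusion: every `g`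
in `MvPolynomial (Fin d) k` with `g(x) = 0` is `0`. Otherwise take `g ≠ 0` with `g(x) = 0` and `g.vars` of least
cardinality. `g.vars` is not empty (a nonzero constant does not vanish). Let `m ∈ g.vars` and write `g = sum_n g_n X_m^n`,
where the `g_n` do not involve `X m` and have `g_n.vars ⊆ g.vars \ {m}`. The polynomial `sum_n g_n(x) s^n` has coefficients in
`Ω_m` and vanishes at `x_m`, so all `g_n(x) = 0`, so all `g_n = 0` by minimality, `g = 0`: contradiction.
(4) Apply (3) to `p` and `q`: `p = q = 0`, but `0`, `0` are not relatively prime (`d = 0` included: then `p`, `q` are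
constants and one of them is a nonzero constant; (3) covers it).
Other arguments are welcome (for instance with `Algebra.trdeg`).
-/

set_option autoImplicit false

noncomputable section

namespace Pool.Agent.Work.UP

open MvPolynomial

theorem no_common_zero {k Ω : Type} [Field k] [Field Ω] [Algebra k Ω] {d : ℕ} (c : Fin d → Ω)
    (hc : AlgebraicIndependent k c) (t : Ω) (ht : t ≠ 0) (lam : Fin d → ℤ)
    (p q : MvPolynomial (Fin d) k) (h : IsRelPrime p q) :
    ¬ (aeval (orb c t lam) p = 0 ∧ aeval (orb c t lam) q = 0) := by
  sorry

end Pool.Agent.Work.UP
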