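import Mathlib
import Pool.Agent.Work.UP.VDefs
import Pool.Agent.Work.UP.VRoot

/-!
# VTwo: relatively prime polynomials, uniform version (size M)

PROOF. For `g : MvPolynomial (Fin d) k` and `N` with `N + sum_j lam_j s_j ≥ 0` for all `s ∈ g.support` put
`g♯ = sum_s (monomial s (coeff s g)) * S^(N + sum_j lam_j s_j)` in `Polynomial R`, `R = MvPolynomial (Fin d) k`. For every field
`L` over `k`, `c : Fin d → L`, `t ≠ 0`: `Polynomial.eval₂ (aeval c) t g♯ = t^N * aeval (orb c t lam) g`. Take the same `N`
for `p` and `q`. Let `K' = FractionRing R`, `Ω = AlgebraicClosure K'`. The images of the variables in `Ω` are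
algebraically independent over `k`. By `no_common_zero`, `p♯` and `q♯` (mapped to `Ω`) have no common root `τ ≠ 0`. At least
one of `p`, `q` is not zero; say `p ≠ 0` (symmetric otherwise), so `p♯ ≠ 0` (its coefficients are disjoint parts of `p`; or
evaluate at `t = 1`, `c` = variables). Write `p♯ = S^n * p1`, `p1` with nonzero constant term (`Polynomial.X_pow_dvd_iff`,
`Polynomial.rootMultiplicity`, `natTrailingDegree`). Then `p1` and `q♯` have no common root in `Ω`, so they are coprime in `K'[S]`
(`Polynomial.isCoprime_iff_aeval_ne_zero_of_isAlgClosed` or similar): `e p1 + f q♯ = 1`, multiply by `S^n` and by a common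
denominator `D ∈ R`, `D ≠ 0`: `D S^n = e' p♯ + f' q♯` in `Polynomial R` (after replacing `f`). If `aeval c D ≠ 0`, `t ≠ 0`,
then not both `p♯(c, t) = 0` and `q♯(c, t) = 0`.
-/

set_option autoImplicit false

noncomputable section

namespace Pool.Agent.Work.UP

open MvPolynomial

theorem exists_D_two {k : Type} [Field k] {d : ℕ} (lam : Fin d → ℤ)
    (p q : MvPolynomial (Fin d) k) (h : IsRelPrime p q) :
    ∃ D : MvPolynomial (Fin d) k, D ≠ 0 ∧ ∀ (L : Type) [Field L] [Algebra k L] (c : Fin d → L)
      (t : L), aeval c D ≠ 0 → t ≠ 0 →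
        ¬ (aeval (orb c t lam) p = 0 ∧ aeval (orb c t lam) q = 0) := by
  sorry

end Pool.Agent.Work.UP
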