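import Mathlib
import Pool.Agent.Work.UP.VDefs
import Pool.Agent.Work.UP.VTwo

/-!
# VOrb: generic orbits are regular (size M)

PROOF. Let `Fac` be the finite set of the irreducible factors (`UniqueFactorizationMonoid.factors`) of the product of all
`B b i`. `D` = product of (1) the `D` of `exists_D_two lam p q` for all pairs `p, q ∈ Fac` which are not associated
(irreducible and not associated implies relatively prime), and (2) all `p ∈ Fac`. Let `aeval c D ≠ 0`, `c i ≠ 0`, `t ≠ 0`,
`x = orb c t lam`, and suppose for every `b` there is `i` with `B b i (x) = 0`. Then for every `b` there is `p b ∈ Fac`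
dividing `B b i` with `p b (x) = 0`. By (1) all `p b` are associated to `p = p b₀` (`b₀` exists), so `p` divides some
`B b i` for every `b`. `p` does not divide `X m`: otherwise `X m (x) = 0`, but `x m = c m * t^(lam m) ≠ 0`. So
`Homog lam p`, hence `aeval x p = t^e * aeval c p` with `e` the common value of `sum_j lam_j s_j` (every monomial is
multiplied by `t^e`; `Fac` members are not `0`), and `aeval c p ≠ 0` by (2). Contradiction.
-/

set_option autoImplicit false

noncomputable section

namespace Pool.Agent.Work.UP

open MvPolynomial

theorem orbits_of_homog {k : Type} [Field k] {d : ℕ} {β : Type} [Finite β] [Nonempty β]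
    {I : β → Type} [∀ b, Finite (I b)] (B : ∀ b, I b → MvPolynomial (Fin d) k)
    (hB : ∀ b i, B b i ≠ 0) (lam : Fin d → ℤ)
    (h : ∀ p : MvPolynomial (Fin d) k, Irreducible p → (∀ m, ¬ p ∣ X m) →
      (∀ b, ∃ i, p ∣ B b i) → Homog lam p) : Orbits B lam := by
  sorry

end Pool.Agent.Work.UP
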