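import Mathlib
import Pool.Agent.Work.UP.VDefs
import Pool.Agent.Work.UP.VFun
import Pool.Agent.Work.UP.VOrb

/-!
# VSet: the polynomials that may divide the denominators (size M)

PROOF. `P` = the set of the `p ∈ UniqueFactorizationMonoid.factors (∏ b, ∏ i, B b i)` (a multiset, so finitely many) which
do not divide a variable and divide, for every `b`, some `B b i`. For `p ∈ P` and `b` choose `i = i(b, p)` with
`B b i = p * B'`, and put `A' b p = A b i`, `B' b p = B'` (arbitrary, say `1` and `1`, for `p ∉ P`). `IsRelPrime (A b i) p`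
because `p ∣ B b i` and `IsRelPrime (A b i) (B b i)`. If `Spans P` is false let `lam` be as in `exists_lam`. Every irreducible `p` as in
`orbits_of_homog` is associated to a member `q` of `P` (it divides the product, so it is associated to a factor; the
two conditions only depend on the class), `p = C c * q`, `c ≠ 0`, so `Homog lam p` (same support). Apply `orbits_of_homog`.
-/

set_option autoImplicit false

noncomputable section

namespace Pool.Agent.Work.UP

open MvPolynomial

theorem exists_P {k : Type} [Field k] {d : ℕ} {β : Type} [Finite β] [Nonempty β]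
    {I : β → Type} [∀ b, Finite (I b)] (A B : ∀ b, I b → MvPolynomial (Fin d) k)
    (hB : ∀ b i, B b i ≠ 0) (hAB : ∀ b i, IsRelPrime (A b i) (B b i)) :
    ∃ (P : Set (MvPolynomial (Fin d) k))
      (A' B' : β → MvPolynomial (Fin d) k → MvPolynomial (Fin d) k), P.Finite ∧ (∀ p ∈ P, p ≠ 0) ∧
      (∀ b, ∀ p ∈ P, IsRelPrime (A' b p) p) ∧
      (∀ b, ∀ p ∈ P, ∃ i, A b i = A' b p ∧ B b i = p * B' b p) ∧
      (¬ Spans P → ∃ lam : Fin d → ℤ, lam ≠ 0 ∧ Orbits B lam) := by
  sorry

end Pool.Agent.Work.UP
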