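import Mathlib
import Pool.Agent.Work.UP.VDefs
import Pool.Agent.Work.UP.VSet
import Pool.Agent.Work.UP.TorusC

/-!
# VAn: the analytic alternative (size S-M)

PROOF. Take `P, A', B'` from `exists_P`. `Spans P` is impossible by `torusC` (for `p ∈ P` and `z` take the `b` of the hypothesis and the
`i` with `A b i = A' b p`, `B b i = p * B' b p`). So `¬ Spans P`.
-/

set_option autoImplicit false

noncomputable section

namespace Pool.Agent.Work.UP

open MvPolynomial

theorem anAlt {d : ℕ} (hd : 0 < d) (u : Fin d → ℂ → ℂ) (hu : IsUC u) (hi : IndC u)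
    {β : Type} [Finite β] [Nonempty β] {I : β → Type} [∀ b, Finite (I b)]
    (A B : ∀ b, I b → MvPolynomial (Fin d) ℂ) (hB : ∀ b i, B b i ≠ 0)
    (hAB : ∀ b i, IsRelPrime (A b i) (B b i))
    (h : ∀ z : ℂ, ∃ b, ∀ i, ∃ g : ℂ → ℂ, AnalyticAt ℂ g z ∧ ∀ᶠ z' in nhds z,
      eval (fun j => u j z') (A b i) = g z' * eval (fun j => u j z') (B b i)) :
    ∃ lam : Fin d → ℤ, lam ≠ 0 ∧ Orbits B lam := by
  sorry

end Pool.Agent.Work.UP
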