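import Mathlib

/-!
# VPrim: completing an integral vector to a basis (size M, Mathlib only)

PROOF. For every `v : Fin (n+1) → ℤ`, `v ≠ 0`, there is a unimodular matrix with last row `v / gcd`. Possible proofs:
(a) Euclid: induction on the sum of the absolute values; if two entries `v_i, v_j` are nonzero, `|v_i| ≥ |v_j|`, the
substitution `v_i ↦ v_i ∓ v_j` (multiplication on the right by a transvection) lowers the sum; when only one entry `r` is
left, move it to the last place by a permutation matrix and make it positive by a sign. So `v = r • (e_last) G` with `G` a
product of elementary matrices, i.e. `v` is `r` times the last row of `G`. (b) `Submodule` of `Fin (n+1) → ℤ`: the quotient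
by the saturation of `ℤ v` is finitely generated and torsion free, hence free, hence there is a complement and a basis
(`Module.Basis`) whose last vector generates the saturation.
-/

set_option autoImplicit false

noncomputable section

namespace Pool.Agent.Work.UP

theorem exists_unimod {n : ℕ} (v : Fin (n + 1) → ℤ) (hv : v ≠ 0) :
    ∃ (r : ℕ) (U W : Matrix (Fin (n + 1)) (Fin (n + 1)) ℤ), r ≠ 0 ∧ U * W = 1 ∧ W * U = 1 ∧
      ∀ i, v i = r * U (Fin.last n) i := by
  sorry

end Pool.Agent.Work.UP
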