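import Mathlib
import Pool.Agent.Work.UP.VDefs

/-!
# VSub: monomial substitutions (size S-M, almost Mathlib only)

PROOF. Let `N j` be so large that `N j + sum_i M i j * s i ≥ 0` for all `j` and all `s` in the support of some member of the
finite family `g`. `φ e = sum over s in (g e).support of monomial (j ↦ (N j + sum_i M i j s_i).toNat)
(coeff s (g e) * prod_i γ_i^(s_i))`. Evaluate: `prod_i (γ_i prod_j w_j^(M i j))^(s i) = (prod γ_i^(s_i)) prod_j w_j^(sum_i M i j s_i)`,
and `w_j ^ N_j * w_j ^ (sum) = w_j ^ (toNat ..)` as `w_j ≠ 0`.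
-/

set_option autoImplicit false

noncomputable section

namespace Pool.Agent.Work.UP

open MvPolynomial

theorem exists_sub {k : Type} [Field k] {d d' : ℕ} (M : Fin d → Fin d' → ℤ) (γ : Fin d → k)
    {ι : Type} [Finite ι] (g : ι → MvPolynomial (Fin d) k) :
    ∃ (N : Fin d' → ℕ) (φ : ι → MvPolynomial (Fin d') k),
      ∀ (L : Type) [Field L] [Algebra k L] (w : Fin d' → L), (∀ j, w j ≠ 0) → ∀ e,
        aeval w (φ e) = (∏ j, w j ^ N j) *
          aeval (fun i => algebraMap k L (γ i) * mon w (M i)) (g e) := by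
  sorry

end Pool.Agent.Work.UP
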