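import Mathlib
import Pool.Agent.Work.UP.VDefs
import Pool.Agent.Work.UP.VPrim
import Pool.Agent.Work.UP.VSub

/-!
# VDich: rational functions constant on the orbits (size M-L)

PROOF. (a) For every `e` there are `Q`, `N` as in the first alternative except `Q ≠ 0`: `Q` is the sum over the
monomials `s`, `s'` of `a e`, `b e` of the monomials `coeff * T^(s + s') * S^(N + sum_j lam_j s_j)` minus the ones with
`S^(N + sum_j lam_j s'_j)` (variables `some i ↦ T_i`, `none ↦ S`). If some `Q ≠ 0`: first alternative. Suppose all `Q = 0`. So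
for all `L`, `c`, `t ≠ 0`, `e`:  (*) `a_e(c t^lam) b_e(c) = a_e(c) b_e(c t^lam)`.
(b) `exists_unimod lam`: `lam i = r * U last i`, `U W = W U = 1`. Monomials `w_j = mon u (fun i => W i (j.castSucc))` for `j : Fin n`
and `x = mon u (fun i => W i (Fin.last n))`. Then `u_i = x^(U last i) * prod_{j : Fin n} w_j^(U j.castSucc i)`.
(c) `exists_sub` with `d' = n + 1` (coordinates `w_0..w_{n-1}, x`), `M i j = U j i`, `γ = 1`, applied to all `a e`, `b e`: polynomials
`α e`, `β e` in `n + 1` variables with `α e (w, x) = (monomial) * a e (u)`, the same monomial for all; `β e ≠ 0` (it does not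
vanish at the point corresponding to `c` if `b e (c) ≠ 0`, `c` in a large field or in `k`, `k` infinite).
(d) If `u ↦ u t^lam` then `w` does not change (`sum_i W i j lam i = r * (U W) last j = 0`) and `x ↦ x t^r`. So (*) gives
`α e (w, x t^r) β e (w, x) = α e (w, x) β e (w, x t^r)` for all `w_j, x, t ≠ 0` in all fields `L` over `k`.
(e) Choose `γ0 ∈ k`, `γ0 ≠ 0`, with `β e (w, γ0) ≠ 0` as a polynomial in `w` for all `e` (`k` is infinite). Take `x = γ0`: the
polynomial `G(w, X) = α e (w, X) β e (w, γ0) - α e (w, γ0) β e (w, X)` vanishes at `X = γ0 t^r`, all `t ≠ 0`, all `w` with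
nonzero coordinates in `k`: infinitely many `X`, so `G(w, ·) = 0` for these `w`, so `G = 0` (`MvPolynomial.funext`).
(f) Put `a' e = α e (w, γ0)`, `b' e = β e (w, γ0)` (substitution of the last variable by the constant `γ0`),
`M j i = W i (j.castSucc)`, and `h ∈ k[T]` nonzero with: `h(u) ≠ 0` and `u_i ≠ 0` imply `b' e (w(u)) ≠ 0` for all `e`: by `exists_sub`
again (substitution of the monomials `w_j(u)` into `b' e`), `h` = product over `e`; it is not zero: there are `w^0` in `k` with nonzero
coordinates and `b' e (w^0) ≠ 0`, and `u_i = γ0^(U last i) prod w^0_j^(U j i)` has `w(u) = w^0`. From `G = 0`: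
`α e (w, x) b' e (w) = a' e (w) β e (w, x)`; divide by the monomial.
-/

set_option autoImplicit false

noncomputable section

namespace Pool.Agent.Work.UP

open MvPolynomial

theorem dich {k : Type} [Field k] [Infinite k] {n : ℕ} (lam : Fin (n + 1) → ℤ) (hlam : lam ≠ 0)
    {ι : Type} [Finite ι] (a b : ι → MvPolynomial (Fin (n + 1)) k) (hb : ∀ e, b e ≠ 0) :
    (∃ (e : ι) (Q : MvPolynomial (Option (Fin (n + 1))) k) (N : ℕ), Q ≠ 0 ∧
      ∀ (L : Type) [Field L] [Algebra k L] (c : Fin (n + 1) → L) (t : L), t ≠ 0 →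
        aeval (fun o : Option (Fin (n + 1)) => o.elim t c) Q =
          t ^ N * (aeval (orb c t lam) (a e) * aeval c (b e) -
            aeval c (a e) * aeval (orb c t lam) (b e))) ∨
    (∃ (M : Fin n → Fin (n + 1) → ℤ) (a' b' : ι → MvPolynomial (Fin n) k)
      (h : MvPolynomial (Fin (n + 1)) k), h ≠ 0 ∧
      ∀ (L : Type) [Field L] [Algebra k L] (u : Fin (n + 1) → L), (∀ i, u i ≠ 0) →
        aeval u h ≠ 0 → ∀ e, aeval (fun j => mon u (M j)) (b' e) ≠ 0 ∧
          aeval u (a e) * aeval (fun j => mon u (M j)) (b' e) =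
            aeval (fun j => mon u (M j)) (a' e) * aeval u (b e)) := by
  sorry

end Pool.Agent.Work.UP
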