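import Mathlib
import Pool.Agent.Work.UP.VDefs
import Pool.Agent.Work.UP.VSet
import Pool.Agent.Work.UP.TorusNF

/-!
# VNf: the arithmetic alternative (size S-M)

PROOF. Take `P, A', B'` from `exists_P`. If `Spans P`, then `torusNF` gives a finite set `E` such that only finitely many `u`
have `IsUv T u`, `Avoid E u` and for all `p ∈ P`, `q ∉ T` some `b` with `|A' b p (u)|_q ≤ |p(u) B' b p (u)|_q`. This holds for the `u`
of the hypothesis (take the `b` given there and the `i` with `A b i = A' b p`, `B b i = p * B' b p`): contradiction to the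
infinitude for this `E`. So `¬ Spans P`.
-/

set_option autoImplicit false

noncomputable section

namespace Pool.Agent.Work.UP

open NumberField IsDedekindDomain MvPolynomial

theorem nfAlt (K : Type) [Field K] [NumberField K] (T : Finset (HeightOneSpectrum (𝓞 K)))
    {d : ℕ} {β : Type} [Finite β] [Nonempty β] {I : β → Type} [∀ b, Finite (I b)]
    (A B : ∀ b, I b → MvPolynomial (Fin d) K) (hB : ∀ b i, B b i ≠ 0)
    (hAB : ∀ b i, IsRelPrime (A b i) (B b i))
    (hinf : ∀ E : Set ((Fin d → ℤ) × K), E.Finite →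
      {u : Fin d → K | IsUv T u ∧ Avoid E u ∧ ∀ q : HeightOneSpectrum (𝓞 K), q ∉ T → ∃ b, ∀ i,
        FinitePlace.mk q (eval u (A b i)) ≤ FinitePlace.mk q (eval u (B b i))}.Infinite) :
    ∃ lam : Fin d → ℤ, lam ≠ 0 ∧ Orbits B lam := by
  sorry

end Pool.Agent.Work.UP
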