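import Mathlib
import Pool.Agent.Work.UP.VDefs
import Pool.Agent.Work.UP.VPrim
import Pool.Agent.Work.UP.VSub

/-!
# VRel: a relation between the units lowers the number of parameters (size M)

PROOF. `exists_unimod κ`: `κ i = r * U last i`, `U W = W U = 1`. Put `κ' i = U (Fin.last n) i`, `M j i = U j.castSucc i`. For `u` with
nonzero coordinates, `w_j = mon u (M j)`, `x = mon u κ'`: `u_i = x^(W i last) * prod_j w_j^(W i j.castSucc)`
(as `sum_j W i j U j i' = δ_{i i'}`). Given `γ ≠ 0`, `x = γ`, take `a' e`, `b' e` from `exists_sub` (family `Sum.elim a b`, constants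
`γ^(W i last)`, exponents `W i j.castSucc`): `b' e (w) = (monomial) * b e (u)`, `a' e (w) = (same monomial) * a e (u)`.
-/

set_option autoImplicit false

noncomputable section

namespace Pool.Agent.Work.UP

open MvPolynomial

theorem exists_rel {k : Type} [Field k] {n : ℕ} (κ : Fin (n + 1) → ℤ) (hκ : κ ≠ 0) :
    ∃ (r : ℕ) (κ' : Fin (n + 1) → ℤ) (M : Fin n → Fin (n + 1) → ℤ), r ≠ 0 ∧
      (∀ i, κ i = r * κ' i) ∧
      ∀ γ : k, γ ≠ 0 → ∀ (ι : Type) [Finite ι] (a b : ι → MvPolynomial (Fin (n + 1)) k),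
        ∃ a' b' : ι → MvPolynomial (Fin n) k,
          ∀ (L : Type) [Field L] [Algebra k L] (u : Fin (n + 1) → L), (∀ i, u i ≠ 0) →
            mon u κ' = algebraMap k L γ → ∀ e,
              (aeval u (b e) ≠ 0 → aeval (fun j => mon u (M j)) (b' e) ≠ 0) ∧
              aeval u (a e) * aeval (fun j => mon u (M j)) (b' e) =
                aeval (fun j => mon u (M j)) (a' e) * aeval u (b e) := by
  sorry

end Pool.Agent.Work.UP
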